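import Pool.Agent.P.MP_37e2d5_al.Main

/-! Base change to the algebraic closure. -/

namespace Pool.Agent.P.MP_37e2d5_al

open UniversalEnvelopingAlgebra Module LieAlgebra TensorProduct

attribute [local instance 100] LieRing.ofAssociativeRing
attribute [-simp] UniversalEnvelopingAlgebra.ι_apply

noncomputable section

variable {F : Type*} [Field F] (K : Type*) [Field K] [Algebra F K] {L H : Type*} [LieRing L]
  [LieAlgebra F L] [LieRing H] [LieAlgebra F H]

lemma finrank_center_bc [Module.Finite F L] :
    finrank K (center K (K ⊗[F] L)) = finrank F (center F L) := by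
  let y := Module.finBasis F L
  let T : L →ₗ[F] (Fin (finrank F L) → L) := LinearMap.pi fun j => ad F L (y j)
  have hT : Function.Exact (center F L).toSubmodule.subtype T := fun x => by
    refine ⟨fun h => ⟨⟨x, fun w => ?_⟩, rfl⟩, ?_⟩
    · rw [← y.sum_repr w, sum_lie]
      exact Finset.sum_eq_zero fun j _ => by rw [smul_lie, show ⁅y j, x⁆ = 0 from congrFun h j,
        smul_zero]
    · rintro ⟨x, rfl⟩
      exact funext fun j => x.2 _
  let b := (center F L).toSubmodule.subtype.baseChange K
  have hb : Function.Injective b :=
    Module.Flat.lTensor_preserves_injective_linearMap _ (Submodule.subtype_injective _)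
  have hr : LinearMap.range b = (center K (K ⊗[F] L)).toSubmodule := by
    refine le_antisymm ?_ fun x hx => (Module.Flat.lTensor_exact K hT x).mp ?_
    · rintro _ ⟨x, rfl⟩ w
      induction x with
      | zero => simp
      | add x x' h h' => rw [map_add, lie_add, h, h', add_zero]
      | tmul a x =>
        induction w with
        | zero => simp
        | add w w' h h' => rw [add_lie, h, h', add_zero]
        | tmul a' w => simp [b, x.2 w]
    · have h1 : ∀ j x, (LinearMap.proj j).lTensor K (T.lTensor K x) = ⁅(1 : K) ⊗ₜ[F] y j, x⁆ := by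
        intro j x
        induction x with
        | zero => simp
        | add x x' h h' => rw [map_add, map_add, lie_add, h, h']
        | tmul a x => simp [T]
      have h2 : ∀ w : K ⊗[F] (Fin (finrank F L) → L), w = ∑ j,
          (LinearMap.single F (fun _ => L) j).lTensor K ((LinearMap.proj j).lTensor K w) := by
        intro w
        induction w with
        | zero => simp
        | add x x' h h' => simp only [map_add, Finset.sum_add_distrib, ← h, ← h']
        | tmul a x => simp [← tmul_sum, Finset.univ_sum_single]
      rw [h2 (T.lTensor K x)]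
      exact Finset.sum_eq_zero fun j _ => by rw [h1, hx, map_zero]
  change finrank K (center K (K ⊗[F] L)).toSubmodule = _
  rw [← hr, LinearMap.finrank_range_of_inj hb, Module.finrank_baseChange]
  rfl

/-- restriction of scalars on the enveloping algebra -/
@[reducible] def algF (M : Type*) [LieRing M] [LieAlgebra F M] : Algebra F (U K (K ⊗[F] M)) :=
  Algebra.compHom _ (algebraMap F K)

attribute [local instance] algF

lemma towF (M : Type*) [LieRing M] [LieAlgebra F M] : IsScalarTower F K (U K (K ⊗[F] M)) :=
  IsScalarTower.of_algebraMap_eq fun _ => rfl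

attribute [local instance] towF

/-- the canonical map to the base change -/
def eU (M : Type*) [LieRing M] [LieAlgebra F M] : U F M →ₐ[F] U K (K ⊗[F] M) := lift F
  { toFun := fun x => ι K ((1 : K) ⊗ₜ[F] x)
    map_add' := fun x y => by rw [tmul_add, map_add]
    map_smul' := fun c x => by
      rw [tmul_smul, ← algebraMap_smul K c, map_smul, algebraMap_smul]; rfl
    map_lie' := fun {x y} => by simp [← LieHom.map_lie] }

lemma eU_ι (x : L) : eU K L (ι F x) = ι K ((1 : K) ⊗ₜ[F] x) := lift_ι_apply _ _ _

/-- base change of a morphism of enveloping algebras -/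
def bc (φ : U F H →ₐ[F] U F L) : U K (K ⊗[F] H) →ₐ[K] U K (K ⊗[F] L) := lift K
  { ((eU K L).toLinearMap ∘ₗ φ.toLinearMap ∘ₗ
      ((ι F : H →ₗ⁅F⁆ U F H) : H →ₗ[F] U F H)).liftBaseChange K with
    map_lie' := fun {x y} => by
      simp only [AddHom.toFun_eq_coe, LinearMap.coe_toAddHom]
      induction x with
      | zero => simp
      | add x x' h h' => simp only [add_lie, map_add, h, h']
      | tmul a x =>
        induction y with
        | zero => simp
        | add y y' h h' => simp only [lie_add, map_add, h, h']
        | tmul b y =>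
          simp [LieRing.of_associative_ring_bracket, smul_smul, smul_sub, mul_comm] }

lemma bc_eU (φ : U F H →ₐ[F] U F L) (u : U F H) : bc K φ (eU K H u) = eU K L (φ u) := by
  have : ((bc K φ).restrictScalars F).comp (eU K H) = (eU K L).comp φ := U_ext fun x => by
    simp only [eU_ι, bc, lift_ι_apply, AlgHom.comp_apply, AlgHom.restrictScalars_apply]
    exact one_smul K _
  exact AlgHom.congr_fun this u

lemma bc_comp (φ : U F H →ₐ[F] U F L) (ψ : U F L →ₐ[F] U F H) (h : ∀ u, ψ (φ u) = u) :
    (bc K ψ).comp (bc K φ) = AlgHom.id K _ := U_ext fun x => by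
  induction x with
  | zero => simp
  | add x x' h h' => simp only [map_add, h, h']
  | tmul a x =>
    rw [show a ⊗ₜ[F] x = a • ((1 : K) ⊗ₜ[F] x) by rw [smul_tmul', smul_eq_mul, mul_one]]
    simp only [map_smul, ← eU_ι, AlgHom.comp_apply, bc_eU, h, AlgHom.id_apply]

theorem finrank_center_eq [CharZero F] [Module.Finite F L] [Module.Finite F H]
    (φ : U F L ≃ₐ[F] U F H) : finrank F (center F L) = finrank F (center F H) := by
  let K := AlgebraicClosure F
  let ψ : U K (K ⊗[F] L) ≃ₐ[K] U K (K ⊗[F] H) := AlgEquiv.ofAlgHom (bc K φ) (bc K φ.symm)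
    (bc_comp K _ _ φ.apply_symm_apply) (bc_comp K _ _ φ.symm_apply_apply)
  rw [← finrank_center_bc K (L := L), ← finrank_center_bc K (L := H)]
  exact le_antisymm (finrank_center_le ψ) (finrank_center_le ψ.symm)

end

end Pool.Agent.P.MP_37e2d5_al
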