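import Pool.Agent.P.MP_37e2d5_al.PBW

/-! Functoriality, augmentation, twists, antipode, filtrations. -/

namespace Pool.Agent.P.MP_37e2d5_al

open UniversalEnvelopingAlgebra Module Polynomial

attribute [local instance 100] LieRing.ofAssociativeRing
attribute [-simp] UniversalEnvelopingAlgebra.ι_apply

noncomputable section

variable {F : Type*} [Field F] {L L' L'' : Type*} [LieRing L] [LieAlgebra F L]
  [LieRing L'] [LieAlgebra F L'] [LieRing L''] [LieAlgebra F L'']

lemma U_ext {A : Type*} [Ring A] [Algebra F A] {g h : U F L →ₐ[F] A}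
    (H : ∀ x, g (ι F x) = h (ι F x)) : g = h := by
  apply hom_ext
  ext x
  exact H x

/-- functoriality -/
def Umap (f : L →ₗ⁅F⁆ L') : U F L →ₐ[F] U F L' := lift F ((ι F).comp f)

@[simp] lemma Umap_ι (f : L →ₗ⁅F⁆ L') (x : L) : Umap f (ι F x) = ι F (f x) := lift_ι_apply _ _ _

lemma Umap_Umap (f : L →ₗ⁅F⁆ L') (g : L' →ₗ⁅F⁆ L'') (u : U F L) :
    Umap g (Umap f u) = Umap (g.comp f) u := by
  have : (Umap g).comp (Umap f) = Umap (g.comp f) := U_ext (by simp)
  exact AlgHom.congr_fun this u

lemma Umap_id (u : U F L) : Umap (LieHom.id : L →ₗ⁅F⁆ L) u = u := by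
  have : Umap (LieHom.id : L →ₗ⁅F⁆ L) = AlgHom.id F _ := U_ext (by simp)
  exact AlgHom.congr_fun this u

/-- augmentation -/
def eps (F L : Type*) [Field F] [LieRing L] [LieAlgebra F L] : U F L →ₐ[F] F := lift F 0

@[simp] lemma eps_ι (x : L) : eps F L (ι F x) = 0 := lift_ι_apply _ _ _

@[simp] lemma eps_Umap (f : L →ₗ⁅F⁆ L') (u : U F L) : eps F L' (Umap f u) = eps F L u := by
  have : (eps F L').comp (Umap f) = eps F L := U_ext (by simp)
  exact AlgHom.congr_fun this u

/-- characters -/
@[ext] structure Ch (F L : Type*) [Field F] [LieRing L] [LieAlgebra F L] where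
  /-- the linear form -/
  val : L →ₗ[F] F
  lie : ∀ x y : L, val ⁅x, y⁆ = 0

namespace Ch

instance : Zero (Ch F L) := ⟨⟨0, by simp⟩⟩
instance : Add (Ch F L) := ⟨fun a b => ⟨a.1 + b.1, fun x y => by simp [a.2, b.2]⟩⟩
instance : Neg (Ch F L) := ⟨fun a => ⟨-a.1, fun x y => by simp [a.2]⟩⟩
instance : Sub (Ch F L) := ⟨fun a b => ⟨a.1 - b.1, fun x y => by simp [a.2, b.2]⟩⟩
instance {S : Type*} [Monoid S] [DistribMulAction S F] [SMulCommClass F S F] :
    SMul S (Ch F L) := ⟨fun c a => ⟨c • a.1, fun x y => by simp [a.2]⟩⟩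

@[simp] lemma zero_val : (0 : Ch F L).1 = 0 := rfl
@[simp] lemma add_val (a b : Ch F L) : (a + b).1 = a.1 + b.1 := rfl
@[simp] lemma neg_val (a : Ch F L) : (-a).1 = -a.1 := rfl
@[simp] lemma sub_val (a b : Ch F L) : (a - b).1 = a.1 - b.1 := rfl
@[simp] lemma smul_val {S : Type*} [Monoid S] [DistribMulAction S F] [SMulCommClass F S F]
    (c : S) (a : Ch F L) : (c • a).1 = c • a.1 := rfl

lemma val_injective : Function.Injective (Ch.val : Ch F L → L →ₗ[F] F) := fun _ _ h => Ch.ext h

instance : AddCommGroup (Ch F L) :=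
  val_injective.addCommGroup _ rfl add_val neg_val sub_val (fun _ _ => rfl) (fun _ _ => rfl)

/-- the underlying form as an additive map -/
def valHom : Ch F L →+ (L →ₗ[F] F) := ⟨⟨Ch.val, rfl⟩, add_val⟩

instance {S : Type*} [Semiring S] [Module S F] [SMulCommClass F S F] : Module S (Ch F L) :=
  val_injective.module S valHom (fun _ _ => rfl)

lemma exists_ne {a : Ch F L} (h : a ≠ 0) : ∃ c, a.1 c ≠ 0 := by
  by_contra hc
  push Not at hc
  exact h (Ch.ext (LinearMap.ext hc))

end Ch

/-- pull back of characters -/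
def Ch.comap (f : L →ₗ⁅F⁆ L') (χ : Ch F L') : Ch F L :=
  ⟨χ.1 ∘ₗ (f : L →ₗ[F] L'), fun x y => by simpa using χ.2 (f x) (f y)⟩

@[simp] lemma Ch.comap_apply (f : L →ₗ⁅F⁆ L') (χ : Ch F L') (x : L) :
    (Ch.comap f χ).1 x = χ.1 (f x) := rfl

/-- twist of a Lie morphism to an associative algebra -/
def tw {A : Type*} [Ring A] [Algebra F A] (κ : L →ₗ⁅F⁆ A) (χ : Ch F L) : L →ₗ⁅F⁆ A :=
  { (κ : L →ₗ[F] A) + (Algebra.linearMap F A) ∘ₗ χ.1 with
    map_lie' := fun {x y} => by
      simp [χ.2 x y, LieRing.of_associative_ring_bracket, mul_add, add_mul,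
        Algebra.commutes, ← map_mul, mul_comm]
      abel }

lemma tw_apply {A : Type*} [Ring A] [Algebra F A] (κ : L →ₗ⁅F⁆ A) (χ : Ch F L) (x : L) :
    tw κ χ x = κ x + algebraMap F A (χ.1 x) := rfl

/-- twist automorphism -/
def tau (χ : Ch F L) : U F L →ₐ[F] U F L := lift F (tw (ι F) χ)

@[simp] lemma tau_ι (χ : Ch F L) (x : L) : tau χ (ι F x) = ι F x + algebraMap F _ (χ.1 x) :=
  lift_ι_apply _ _ _

lemma tau_tau (χ χ' : Ch F L) (u : U F L) : tau χ (tau χ' u) = tau (χ + χ') u := by
  have : (tau χ).comp (tau χ') = tau (χ + χ') := U_ext (by simp [add_assoc])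
  exact AlgHom.congr_fun this u

@[simp] lemma tau_zero (u : U F L) : tau (0 : Ch F L) u = u := by
  have : tau (0 : Ch F L) = AlgHom.id F _ := U_ext (by simp)
  exact AlgHom.congr_fun this u

lemma tau_neg_tau (χ : Ch F L) (u : U F L) : tau (-χ) (tau χ u) = u := by
  rw [tau_tau, neg_add_cancel, tau_zero]

lemma tau_tau_neg (χ : Ch F L) (u : U F L) : tau χ (tau (-χ) u) = u := by
  rw [tau_tau, add_neg_cancel, tau_zero]

lemma tau_Umap (f : L →ₗ⁅F⁆ L') (χ : Ch F L') (u : U F L) :
    tau χ (Umap f u) = Umap f (tau (Ch.comap f χ) u) := by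
  have : (tau χ).comp (Umap f) = (Umap f).comp (tau (Ch.comap f χ)) := U_ext (by simp)
  exact AlgHom.congr_fun this u

/-- central elements -/
def Cen {A : Type*} [Mul A] (z : A) : Prop := ∀ a, a * z = z * a

lemma cen_of_ι {z : U F L} (h : ∀ x, ι F x * z = z * ι F x) : Cen z := by
  intro a
  induction a using U_induction with
  | h1 => simp
  | hadd u v hu hv => rw [add_mul, mul_add, hu, hv]
  | hsmul c u hu => rw [smul_mul_assoc, mul_smul_comm, hu]
  | hmul y u hu => rw [mul_assoc, hu, ← mul_assoc, h, mul_assoc]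

lemma Cen.map_surj {A B : Type*} [Ring A] [Ring B] {G : Type*} [FunLike G A B]
    [MulHomClass G A B] {z : A} (hz : Cen z) (f : G) (hf : Function.Surjective f) : Cen (f z) := by
  intro b
  obtain ⟨a, rfl⟩ := hf b
  rw [← map_mul, hz, map_mul]

lemma Cen.tau {z : U F L} (hz : Cen z) (χ : Ch F L) : Cen (tau χ z) :=
  hz.map_surj _ fun u => ⟨_, tau_tau_neg χ u⟩

/-- antipode, to the opposite algebra -/
def antiOp : U F L →ₐ[F] (U F L)ᵐᵒᵖ := lift F
  { toFun := fun x => MulOpposite.op (-ι F x)
    map_add' := fun x y => by simp [add_comm]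
    map_smul' := fun c x => by simp
    map_lie' := fun {x y} => by
      simp [LieRing.of_associative_ring_bracket, ← MulOpposite.op_mul, ← MulOpposite.op_sub] }

/-- antipode -/
def anti : U F L →ₗ[F] U F L :=
  (MulOpposite.opLinearEquiv F).symm.toLinearMap ∘ₗ (antiOp (F := F) (L := L)).toLinearMap

@[simp] lemma anti_ι (x : L) : anti (ι F x) = -ι F x := by
  simp [anti, antiOp, lift_ι_apply]

@[simp] lemma anti_one : anti (1 : U F L) = 1 := by simp [anti]

lemma anti_mul (a b : U F L) : anti (a * b) = anti b * anti a := by simp [anti]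

lemma anti_pow (a : U F L) (k : ℕ) : anti (a ^ k) = anti a ^ k := by
  induction k with
  | zero => simp
  | succ k ih => rw [pow_succ, anti_mul, ih, pow_succ']

@[simp] lemma anti_anti (a : U F L) : anti (anti a) = a := by
  induction a using U_induction with
  | h1 => simp
  | hadd u v hu hv => rw [map_add, map_add, hu, hv]
  | hsmul c u hu => rw [map_smul, map_smul, hu]
  | hmul y u hu => simp [anti_mul, hu]

lemma anti_Umap (f : L →ₗ⁅F⁆ L') (a : U F L) : anti (Umap f a) = Umap f (anti a) := by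
  induction a using U_induction with
  | h1 => simp
  | hadd u v hu hv => simp only [map_add, hu, hv]
  | hsmul c u hu => simp only [map_smul, hu]
  | hmul y u hu => simp [anti_mul, hu]

section filt

variable {V I : Type*} [AddCommGroup V] [Module F V]

lemma fil_mono (m : I → V) (ω : I → ℕ) {d d' : ℕ} (h : d ≤ d') : fil F m ω d ≤ fil F m ω d' :=
  Submodule.span_mono (Set.image_mono fun _ ha => lt_of_lt_of_le ha h)

lemma mem_fil (m : I → V) (ω : I → ℕ) {d : ℕ} {i : I} (h : ω i < d) : m i ∈ fil F m ω d :=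
  Submodule.subset_span ⟨i, h, rfl⟩

lemma fil_le {m : I → V} {ω : I → ℕ} {d : ℕ} {P : Submodule F V} (h : ∀ i, ω i < d → m i ∈ P) :
    fil F m ω d ≤ P := Submodule.span_le.mpr (by rintro _ ⟨i, hi, rfl⟩; exact h i hi)

lemma fil_map_mem {V' : Type*} [AddCommGroup V'] [Module F V'] {m : I → V} {ω : I → ℕ} {d : ℕ}
    (f : V →ₗ[F] V') {P : Submodule F V'} (h : ∀ i, ω i < d → f (m i) ∈ P) {v : V}
    (hv : v ∈ fil F m ω d) : f v ∈ P :=
  (fil_le (P := P.comap f) h) hv

lemma mem_fil_basis (e : Basis I F V) (ω : I → ℕ) {d : ℕ} {v : V} :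
    v ∈ fil F e ω d ↔ ∀ i, e.repr v i ≠ 0 → ω i < d := by
  rw [fil, Basis.mem_span_image]
  simp [Set.subset_def]

lemma exists_mem_fil (e : Basis I F V) (ω : I → ℕ) (v : V) : ∃ d, v ∈ fil F e ω d :=
  ⟨(e.repr v).support.sup ω + 1, (mem_fil_basis e ω).mpr fun i hi =>
    Nat.lt_succ_of_le (Finset.le_sup (f := ω) (by simpa))⟩

lemma fil_eq_of_tri (e : I → V) (ω : I → ℕ) (E : I → V) (h : ∀ i, E i - e i ∈ fil F e ω (ω i))
    (d : ℕ) : fil F E ω d = fil F e ω d := by
  induction d using Nat.strong_induction_on with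
  | _ d ih =>
    apply le_antisymm
    · refine fil_le fun i hi => ?_
      simpa using add_mem (fil_mono e ω hi.le (h i)) (mem_fil (F := F) e ω hi)
    · refine fil_le fun i hi => ?_
      have h1 := h i
      rw [← ih _ hi] at h1
      simpa using sub_mem (mem_fil (F := F) E ω hi) (fil_mono E ω hi.le h1)

lemma li_of_tri (e : Basis I F V) (ω : I → ℕ) (E : I → V)
    (h : ∀ i, E i - e i ∈ fil F e ω (ω i)) : LinearIndependent F E := by
  classical
  rw [linearIndependent_iff]
  intro l hl
  by_contra hne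
  obtain ⟨i, hi, hmax⟩ := l.support.exists_max_image ω (Finsupp.support_nonempty_iff.mpr hne)
  have h0 := congrArg (fun v => e.repr v i) hl
  simp only [Finsupp.linearCombination_apply, Finsupp.sum, map_sum, map_smul, map_zero,
    Finsupp.finsetSum_apply, Finsupp.smul_apply, Finsupp.zero_apply, smul_eq_mul] at h0
  rw [Finset.sum_eq_single i] at h0
  · have h1 : e.repr (E i - e i) i = 0 := by
      by_contra hc
      exact lt_irrefl _ ((mem_fil_basis e ω).mp (h i) i hc)
    simp only [map_sub, Finsupp.sub_apply, Basis.repr_self, Finsupp.single_eq_same,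
      sub_eq_zero] at h1
    rw [h1, mul_one] at h0
    exact Finsupp.mem_support_iff.mp hi h0
  · intro j hj hji
    have h1 : e.repr (E j - e j) i = 0 := by
      by_contra hc
      exact absurd ((mem_fil_basis e ω).mp (h j) i hc) (not_lt.mpr (hmax j hj))
    simp only [map_sub, Finsupp.sub_apply, Basis.repr_self, Finsupp.single_eq_of_ne hji.symm,
      sub_zero] at h1
    rw [h1, mul_zero]
  · intro hc; exact absurd hi hc

/-- a unitriangular family is a basis -/
def triBasis (e : Basis I F V) (ω : I → ℕ) (E : I → V)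
    (h : ∀ i, E i - e i ∈ fil F e ω (ω i)) : Basis I F V :=
  Basis.mk (li_of_tri e ω E h) (by
    intro v _
    obtain ⟨d, hd⟩ := exists_mem_fil e ω v
    rw [← fil_eq_of_tri e ω E h] at hd
    exact Submodule.span_mono (Set.image_subset_range _ _) hd)

@[simp] lemma triBasis_apply (e : Basis I F V) (ω : I → ℕ) (E : I → V)
    (h : ∀ i, E i - e i ∈ fil F e ω (ω i)) (i : I) : triBasis e ω E h i = E i := by
  simp [triBasis]

end filt

variable {n : ℕ}

lemma ι_mul_fil (x : Basis (Fin n) F L) (l : Fin n) {d : ℕ} {u : U F L}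
    (hu : u ∈ fil F (pbw x) deg d) : ι F (x l) * u ∈ fil F (pbw x) deg (d + 1) := by
  refine fil_map_mem (LinearMap.mulLeft F (ι F (x l))) (fun a ha => ?_) hu
  have h1 := fil_mono _ _ (by omega : deg a + 1 ≤ d + 1) (ι_mul_pbw x l a)
  have h2 : pbw x (a + Pi.single l 1) ∈ fil F (pbw x) deg (d + 1) :=
    mem_fil _ _ (by rw [deg_add, deg_single]; omega)
  simpa using add_mem h1 h2

lemma pbw_mul (x : Basis (Fin n) F L) (a b : Fin n → ℕ) :
    pbw x a * pbw x b - pbw x (a + b) ∈ fil F (pbw x) deg (deg a + deg b) := by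
  induction hd : deg a using Nat.strong_induction_on generalizing a with
  | _ d ih =>
    by_cases h : ∃ μ, a μ ≠ 0
    · have h0 : ∀ i < lo a h, (a - Pi.single (lo a h) 1 : Fin n → ℕ) i = 0 :=
        fun i hi => by simp [lo_min a h hi]
      have h1 := deg_sub_single (lo_ne a h)
      set T := a - Pi.single (lo a h) 1
      have ha : a = T + Pi.single (lo a h) 1 := (sub_single_add (lo_ne a h)).symm
      have e1 : pbw x a = ι F (x (lo a h)) * pbw x T := by
        rw [pbw_apply, pbw_apply, ← mono_add_single (fun i => ι F (x i)) _ _ h0, ← ha]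
      have h2 := ι_mul_fil x (lo a h) (ih _ (by omega) T rfl)
      have h3 := ι_mul_pbw x (lo a h) (T + b)
      rw [deg_add, add_right_comm T b, ← ha] at h3
      have := add_mem h2 h3
      rw [mul_sub, sub_add_sub_cancel, ← mul_assoc, ← e1] at this
      convert this using 2
      omega
    · push Not at h
      obtain rfl : a = 0 := funext h
      simp [pbw_apply]

lemma pbw_single (x : Basis (Fin n) F L) (i : Fin n) : pbw x (Pi.single i 1) = ι F (x i) := by
  have := mono_add_single (fun i => ι F (x i)) 0 i (by simp)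
  simpa [pbw_apply] using this

lemma ι_injective [Module.Finite F L] : Function.Injective (ι F : L → U F L) := by
  let x := Module.finBasis F L
  have h := (pbw x).linearIndependent.comp (fun i => (Pi.single i 1 : Fin _ → ℕ))
    (fun i j hij => by
      by_contra hne
      have := congrFun hij i
      simp [Pi.single_eq_of_ne hne] at this)
  have h2 : LinearIndependent F (((ι F : L →ₗ⁅F⁆ U F L) : L →ₗ[F] U F L) ∘ x) := by
    convert h using 1
    funext i
    simp [pbw_single]
  exact LinearMap.injective_of_linearIndependent x.span_eq h2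

section poly

variable {V A : Type*} [AddCommGroup V] [Module F V] [Ring A] [Algebra F A]

lemma vp (s : Finset ℕ) (v : ℕ → V) (S : Set F) (hS : S.Infinite)
    (h : ∀ t ∈ S, ∑ j ∈ s, t ^ j • v j = 0) : ∀ j ∈ s, v j = 0 := by
  intro j hj
  rw [← forall_dual_apply_eq_zero_iff F]
  intro φ
  have : (∑ j ∈ s, monomial j (φ (v j)) : F[X]) = 0 := by
    apply eq_zero_of_infinite_isRoot
    refine hS.mono fun t ht => ?_
    have := congrArg φ (h t ht)
    simpa [eval_finsetSum, mul_comm] using this
  have := congrArg (fun p => coeff p j) this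
  simpa [coeff_monomial, hj] using this

/-- evaluation at a scalar -/
def evT (t : F) : A[X] →ₐ[F] A :=
  eval₂AlgHom (AlgHom.id F A) (algebraMap F A t) (fun a => (Algebra.commutes t a).symm)

lemma evT_C (t : F) (a : A) : evT t (C a) = a := by simp [evT]

lemma evT_X (t : F) : evT t (X : A[X]) = algebraMap F A t := by simp [evT]

lemma evT_eq (t : F) (p : A[X]) {N : ℕ} (hN : p.natDegree < N) :
    evT t p = ∑ j ∈ Finset.range N, t ^ j • p.coeff j := by
  conv_lhs => rw [p.as_sum_range_C_mul_X_pow' hN]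
  simp only [map_sum, map_mul, map_pow, evT_C, evT_X]
  refine Finset.sum_congr rfl fun j _ => ?_
  rw [← map_pow, ← Algebra.commutes, Algebra.smul_def]

lemma poly_vp (p : A[X]) (f : A →ₗ[F] V) (S : Set F) (hS : S.Infinite) (a b : V)
    (h : ∀ t ∈ S, f (evT t p) = a + t • b) :
    f (p.coeff 0) = a ∧ f (p.coeff 1) = b ∧ ∀ j, 2 ≤ j → f (p.coeff j) = 0 := by
  have key := vp (Finset.range (p.natDegree + 2))
    (fun j => f (p.coeff j) - (if j = 0 then a else 0) - (if j = 1 then b else 0)) S hS (by
      intro t ht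
      have := h t ht
      rw [evT_eq t p (by omega : p.natDegree < p.natDegree + 2)] at this
      simp only [map_sum, map_smul] at this
      simp [smul_sub, Finset.sum_sub_distrib, this])
  refine ⟨by simpa [sub_eq_zero] using key 0 (by simp),
    by simpa [sub_eq_zero] using key 1 (by simp), fun j hj => ?_⟩
  by_cases hj' : j < p.natDegree + 2
  · have := key j (by simpa)
    rwa [if_neg (by omega), if_neg (by omega), sub_zero, sub_zero] at this
  · rw [coeff_eq_zero_of_natDegree_lt (by omega), map_zero]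

end poly

lemma tau_periodic [CharZero F] (χ : Ch F L) (u : U F L) (h : tau χ u = u) (t : F) :
    tau (t • χ) u = u := by
  let θ : L →ₗ⁅F⁆ (U F L)[X] :=
    { toFun := fun x => C (ι F x) + χ.1 x • X
      map_add' := fun x y => by simp [add_smul]; abel
      map_smul' := fun c x => by simp [smul_smul, smul_C]
      map_lie' := fun {x y} => by
        simp [χ.2 x y, LieRing.of_associative_ring_bracket, mul_add, add_mul, X_mul_C, smul_smul,
          mul_comm]
        abel }
  have hθ : ∀ t : F, evT t (lift F θ u) = tau (t • χ) u := by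
    intro t
    have : (evT t).comp (lift F θ) = tau (t • χ) := U_ext (by
      intro x
      simp only [AlgHom.comp_apply, lift_ι_apply, tau_ι]
      change evT t (C (ι F x) + χ.1 x • X) = _
      rw [map_add, map_smul, evT_C, evT_X, Algebra.smul_def, ← map_mul, mul_comm]
      rfl)
    exact AlgHom.congr_fun this u
  have hn : ∀ k : ℕ, tau ((k : F) • χ) u = u := by
    intro k
    induction k with
    | zero => simp
    | succ k ih => rw [Nat.cast_succ, add_smul, one_smul, ← tau_tau, h, ih]
  obtain ⟨h0, h1, h2⟩ := poly_vp (lift F θ u) LinearMap.id (Set.range (Nat.cast : ℕ → F))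
    (Set.infinite_range_of_injective Nat.cast_injective) u 0 (by
      rintro _ ⟨k, rfl⟩
      simp [hθ, hn])
  rw [← hθ, evT_eq t _ (Nat.lt_succ_self _), Finset.sum_range_succ']
  simp only [LinearMap.id_apply] at h0 h1 h2
  rw [Finset.sum_eq_zero, h0]
  · simp
  · intro j _
    rcases j with _ | j
    · simp [h1]
    · simp [h2 (j + 1 + 1) (by omega)]

end

end Pool.Agent.P.MP_37e2d5_al
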