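import Pool.Agent.P.MP_37e2d5_al.Form

/-! Rank one, the case where all root spaces centralise the minimal ideal. -/

namespace Pool.Agent.P.MP_37e2d5_al

open UniversalEnvelopingAlgebra Module LieAlgebra Polynomial

attribute [local instance 100] LieRing.ofAssociativeRing
attribute [-simp] UniversalEnvelopingAlgebra.ι_apply

noncomputable section

variable {F : Type*} [Field F] {C' L B : Type*} [LieRing C'] [LieAlgebra F C']
  [LieRing L] [LieAlgebra F L] [LieRing B] [LieAlgebra F B]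

lemma nrm_bot (x : L) : Nrm x (⊥ : Submodule F L) := fun _ h => by simp_all

lemma sub_top : Sub (⊤ : Submodule F L) := fun _ _ _ _ => trivial

lemma tau_lI {χ : Ch F L} {a : Submodule F L} (h : ∀ x ∈ a, χ.1 x = 0) {u : U F L}
    (hu : u ∈ lI a) : tau χ u ∈ lI a :=
  lI_ind (P := fun u => tau χ u ∈ lI a) (by simp)
    (fun u v hu hv => by rw [map_add]; exact add_mem hu hv)
    (fun x hx u => by simpa [h x hx] using mem_lI _ hx) hu

lemma mem_Ua_comap {f : B →ₗ⁅F⁆ L} {a : Submodule F L} (h : a ≤ rg f) {u : U F L} (hu : u ∈ Ua a) :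
    ∃ u' ∈ Ua (a.comap (f : B →ₗ[F] L)), Umap f u' = u := by
  refine Ua_induction (P := fun u => ∃ u' ∈ Ua (a.comap (f : B →ₗ[F] L)), Umap f u' = u)
    ⟨1, one_mem _, map_one _⟩ ?_ ?_ ?_ hu
  · rintro _ _ ⟨a, ha, rfl⟩ ⟨b, hb, rfl⟩; exact ⟨a + b, add_mem ha hb, map_add _ _ _⟩
  · rintro c _ ⟨a, ha, rfl⟩; exact ⟨c • a, Subalgebra.smul_mem _ ha _, map_smul _ _ _⟩
  · rintro y hy _ ⟨a, ha, rfl⟩
    obtain ⟨y, rfl⟩ := h hy
    exact ⟨ι F y * a, mul_mem (ι_mem_Ua hy) ha, by simp⟩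

variable [CharZero F] [Module.Finite F L]

lemma ua_ker {q : Submodule F L} (hq : Sub q) {χ : Ch F L} {u : U F L} (hu : u ∈ Ua q)
    (h : tau χ u = u) : u ∈ Ua (q ⊓ LinearMap.ker χ.1) := by
  by_cases hc : q ≤ LinearMap.ker χ.1
  · rwa [inf_eq_left.mpr hc]
  obtain ⟨x0, hx0, hx0'⟩ := SetLike.not_le_iff_exists.mp hc
  set x := (χ.1 x0)⁻¹ • x0
  have hx : χ.1 x = 1 := by simp [x, show χ.1 x0 ≠ 0 from hx0']
  have hq' : Sub (q ⊓ LinearMap.ker χ.1) := fun a ha b hb => ⟨hq a ha.1 b hb.1, χ.2 a b⟩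
  have e : q = (q ⊓ LinearMap.ker χ.1) ⊔ F ∙ x := le_antisymm (fun y hy => mem_sup_span.mpr
    ⟨y - χ.1 y • x, Submodule.mem_inf.mpr ⟨sub_mem hy (q.smul_mem _ (q.smul_mem _ hx0)),
      by simp [hx]⟩, χ.1 y, by simp⟩)
    (sup_le inf_le_left ((Submodule.span_singleton_le_iff_mem _ _).mpr (q.smul_mem _ hx0)))
  obtain ⟨n, b, rfl⟩ := span_left hq' (x := x) (fun h => by simpa [hx] using h.2) (e ▸ hq) (e ▸ hu)
  clear hu
  induction n with
  | zero => simp
  | succ n ih =>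
    rcases n with _ | n
    · simpa using Umap_mem_Ua _ (fun b => b.2) _
    have key := poly_vp (F := F) (∑ k ∈ Finset.range (n + 1 + 1), C (Umap hq'.toLie.incl (b k)) *
      (X + C (ι F x)) ^ k) LinearMap.id Set.univ Set.infinite_univ _ 0 (fun t _ => by
        rw [smul_zero, add_zero]
        refine Eq.trans ?_ (tau_periodic χ _ h t)
        simp only [LinearMap.id_apply, map_sum, map_mul, map_pow, map_add, evT_C, evT_X, tau_ι,
          tau_Umap]
        refine Finset.sum_congr rfl fun k _ => ?_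
        rw [show Ch.comap hq'.toLie.incl (t • χ) = 0 from Ch.ext (LinearMap.ext fun y => by
          simp [show χ.1 y = 0 from y.2.2]), tau_zero, add_comm (ι F x)]
        simp [hx])
    have h1 : Umap hq'.toLie.incl (b (n + 1)) = 0 := by
      have : (∑ k ∈ Finset.range (n + 1 + 1), C (Umap hq'.toLie.incl (b k)) *
          (X + C (ι F x)) ^ k).coeff (n + 1) = 0 := by
        rcases n with _ | n
        · exact key.2.1
        · exact key.2.2 _ (by omega)
      rw [finsetSum_coeff, Finset.sum_range_succ, Finset.sum_eq_zero] at this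
      · simpa [coeff_X_add_C_pow] using this
      · intro k hk
        simp [coeff_X_add_C_pow, Nat.choose_eq_zero_of_lt (Finset.mem_range.mp hk)]
    rw [Finset.sum_range_succ, h1, zero_mul, add_zero] at h ⊢
    exact ih h

lemma lin_red' [IsAlgClosed F] [LieRing.IsNilpotent L] {z : U F L} (hz : Cen z)
    {m q : Submodule F L} (hq : Sub q) (hmq : m ≤ q) (hm : ∀ x ∈ q, Nrm x m) {u : U F L}
    (hu : u ∈ Ua q) (hl : lin z ∈ q) (h : z - u ∈ rI m) : lin u - lin z ∈ m := by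
  have := lin_red (z := z - algebraMap F _ (eps F L z) - ι F (lin z)) (cen_of_ι fun x => by
    simp [mul_sub, sub_mul, hz _, Algebra.commutes, ι_comm x, hz.lie_lin]) (by simp)
    (by simp [lin_algebraMap]) hq hmq hm (u := u - algebraMap F _ (eps F L z) - ι F (lin z))
    (sub_mem (sub_mem hu (Subalgebra.algebraMap_mem _ _)) (ι_mem_Ua hl)) (by simpa)
  simpa [lin_algebraMap] using this

variable [LieRing.IsNilpotent C'] {i : C' →ₗ⁅F⁆ L} [Dec i] {α : Ch F C'} {l : Ch F C' →ₗ[ℚ] ℚ}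
  {V : Submodule F L}

lemma rI_of_lI {z a : U F L} (hz : Cen z) (ha : a ∈ Ua (zP i l)) (h : z - a ∈ lI (nP i l)) :
    z - a ∈ rI (nP i (-l)) := by
  obtain ⟨b, h1, h2, h3⟩ := hc l sub_top (stb_top i) (mem_Ua_top z)
    (hz.mem_W i)
  rw [top_inf_eq] at h1 h2 h3
  rwa [sub_eq_zero.mp (hc_unique (l := l) (Ua_mono (zP_le_pP_neg i l) (sub_mem ha h1))
    (by convert sub_mem h2 h using 1; abel))]

theorem case1 [IsAlgClosed F] [Module.Finite F C'] (h : R1 i α l) (hV : MinI i V)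
    (hK : ∀ β ≠ 0, W i β ≤ cz V) {z : U F L} (hz : Cen z) {u : U F C'} {s : F}
    (hu : z - Umap i (tau (s • α) u) ∈ lI (nP i l)) (x : L) : ⁅x, i (lin u)⁆ = 0 := by
  obtain ⟨β, hβ, h1⟩ := hV.wt
  obtain ⟨v, hv, -, hv0, h2⟩ := exists_wvec (fun _ => hV.id _) h1
  simp only [Submodule.mem_bot, sub_eq_zero] at hv0 h2
  obtain ⟨c0, hc0⟩ := Ch.exists_ne hβ
  have hβW := ne_bot_of_not_le h1
  have hl : (l β : F) ≠ 0 := fun h0 => hc0 (by rw [h.apply hβW, h0, zero_mul])
  have htop : ∀ x, x ∈ cz V ⊔ F ∙ i c0 := fun x => WS_le (fun γ _ y hy => by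
    by_cases h0 : γ = 0
    · obtain ⟨c, rfl⟩ := h.h0 (h0 ▸ hy)
      exact mem_cz_sup h hV (fun h0 => hc0 (by rw [h.apply hβW, h0, mul_zero])) c
    · exact Submodule.mem_sup_left (hK γ h0 hy)) (Dec.top (i := i) x)
  obtain ⟨ψ, hψ⟩ := Projective.exists_dual_eq_one F hv0
  have h3 : ∀ x, ⁅x, v⁆ = ψ ⁅x, v⁆ • v := fun x => by
    obtain ⟨k, hk, t, rfl⟩ := mem_sup_span.mp (htop x)
    simp [hk v hv, h2, hψ, smul_smul]
  let χ : Ch F L := ⟨ψ ∘ₗ (ad F L : L →ₗ[F] End F L).flip v, fun x y => by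
    simp only [LinearMap.comp_apply, LinearMap.flip_apply, LieHom.coe_toLinearMap, ad_apply,
      lie_lie]
    rw [h3 x, h3 y]
    simp [mul_comm]⟩
  have hχ : ∀ x, χ.1 x = ψ ⁅x, v⁆ := fun _ => rfl
  have hχi : Ch.comap i χ = β := Ch.ext (LinearMap.ext fun c => by simp [hχ, h2, hψ])
  have h4 : tau χ z = z := by
    have := Y_bot (Umap_mul_wvec (i := LieHom.id) (stb_bot _) (β := χ) (x := v)
      (fun x => by simp [hχ, ← h3]) z)
    rw [Umap_id, Umap_id, ← hz, ← mul_sub] at this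
    exact (sub_eq_zero.mp (Y_bot (reg_U ⊤ 1 ⊥ bot_le (fun x _ => nrm_bot x) (by simp) v trivial
      hv0 (nrm_bot v) _ (by rw [smul_eq_mul, this]; exact zero_mem _)))).symm
  have hn : ∀ l : Ch F C' →ₗ[ℚ] ℚ, nP i l ≤ cz V := fun l => WS_le fun γ hγ =>
    hK γ (by rintro rfl; simp at hγ)
  have h5 : ∀ t : F, z - Umap i (tau (t • β) u) ∈ lI (nP i l) := fun t => by
    have := tau_lI (χ := (t - s / l β) • χ) (fun x hx => by simp [hχ, hn l hx v hv]) hu
    rw [map_sub, tau_periodic χ z h4, tau_Umap, tau_tau] at this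
    rwa [show Ch.comap i ((t - s / l β) • χ) + s • α = t • β by
      ext c
      simp only [Ch.smul_val, LinearMap.smul_apply, Ch.add_val, LinearMap.add_apply,
        Ch.comap_apply, smul_eq_mul, ← hχi ▸ Ch.comap_apply i χ c, h.apply hβW]
      field_simp
      ring] at this
  have h6 := h5 0
  rw [zero_smul, tau_zero] at h6
  have hker : LinearMap.ker χ.1 ≤ cz V := fun x hx => by
    obtain ⟨k, hk, t, rfl⟩ := mem_sup_span.mp (htop x)
    simpa [show t = 0 by simpa [hχ, hk v hv, h2, hψ, hc0] using hx]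
  have hs : Sub (cz V) := fun x _ => nrm_cz hV.id x
  have := (nil_cz h hV).isNilpotent hs
  obtain ⟨z', rfl⟩ := mem_Ua_rg (f := hs.toLie.incl) (Ua_mono (inf_le_right.trans
    (hker.trans hs.rg_incl.ge)) (ua_ker sub_top (mem_Ua_top z) h4))
  obtain ⟨u', hu', e⟩ := mem_Ua_comap (f := hs.toLie.incl) (inf_le_right.trans
    (hker.trans hs.rg_incl.ge)) (ua_ker (χ := χ) (sub_pP i (-l))
      (Ua_mono (zP_le_pP_neg i l) (Umap_mem_zP l u)) (by
        rw [tau_Umap, hχi]; exact hc_eq (by simpa using h5 1) h6))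
  have h7 : lin (Umap hs.toLie.incl z') ∈ W i 0 := mem_W_zero fun c => hz.lie_lin _
  have h8 := lin_red' (z := z') (fun a => Umap_inj hs.incl_inj (by simp [hz _]))
    (m := (nP i (-l)).comap (hs.toLie.incl : hs.toLie →ₗ[F] L))
    (q := (pP i (-l)).comap (hs.toLie.incl : hs.toLie →ₗ[F] L))
    (fun x hx y hy => sub_pP i _ _ hx _ hy) (Submodule.comap_mono (nP_le_pP i _))
    (fun x hx y hy => nrm_nP hx _ hy) (Ua_mono (Submodule.comap_mono inf_le_left) hu')
    (zP_le_pP_neg i l (W_zero_le_zP i l (by rw [lin_Umap] at h7; exact h7)))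
    (rI_of_Umap hs.incl_inj (fun x hx => ⟨⟨x, hn _ hx⟩, hx, rfl⟩) (by
      rw [map_sub, e]; exact rI_of_lI hz (Umap_mem_zP l u) h6))
  rw [Submodule.mem_comap, map_sub, LieHom.coe_toLinearMap, ← lin_Umap, ← lin_Umap, e,
    lin_Umap] at h8
  rw [sub_eq_zero.mp (eq_zero_of_W (by simp) (sub_mem (i_mem_W i _) h7) h8), hz.lie_lin]

end

end Pool.Agent.P.MP_37e2d5_al
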