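import Pool.Agent.P.MP_37e2d5_al.Jac

/-! Exponentials of ad-nilpotent elements. -/

namespace Pool.Agent.P.MP_37e2d5_al

open UniversalEnvelopingAlgebra Module LieAlgebra Polynomial

attribute [local instance 100] LieRing.ofAssociativeRing
attribute [-simp] UniversalEnvelopingAlgebra.ι_apply

noncomputable section

variable {F : Type*} [Field F] [CharZero F] {C' L : Type*} [LieRing C'] [LieAlgebra F C']
  [LieRing L] [LieAlgebra F L]

/-- solutions of `p' = [y, p]` -/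
def odeS (F : Type*) [Field F] {A : Type*} [Ring A] [Algebra F A] (y : A) : Subalgebra F A[X] where
  carrier := {p | derivative p = C y * p - p * C y}
  mul_mem' := fun {p q} hp hq => by
    simp only [Set.mem_ofPred_eq, derivative_mul] at *
    rw [hp, hq]; noncomm_ring
  add_mem' := fun {p q} hp hq => by
    simp only [Set.mem_ofPred_eq, derivative_add] at *
    rw [hp, hq]; noncomm_ring
  algebraMap_mem' := fun r => by
    simp [Polynomial.algebraMap_apply, ← C_mul, Algebra.commutes, -map_mul]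

lemma odeS_ext {A : Type*} [Ring A] [Algebra F A] {y : A} {p q : A[X]} (hp : p ∈ odeS F y)
    (hq : q ∈ odeS F y) (h : p.coeff 0 = q.coeff 0) : p = q := by
  have h1 : derivative (p - q) = C y * (p - q) - (p - q) * C y := sub_mem hp hq
  rw [← sub_eq_zero]
  ext k
  induction k with
  | zero => simp [h]
  | succ k ih =>
    have := congrArg (coeff · k) h1
    simp only [coeff_derivative, coeff_sub (C y * _), coeff_C_mul, coeff_mul_C, ih, coeff_zero,
      mul_zero, zero_mul, sub_zero] at this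
    rw [← Nat.cast_succ, ← nsmul_eq_mul', ← Nat.cast_smul_eq_nsmul F, smul_eq_zero] at this
    exact this.resolve_left (Nat.cast_ne_zero.mpr k.succ_ne_zero)

/-- `n` is the exponential of `ad y` -/
def ExpP (y : L) (n : L →ₗ⁅F⁆ L) : Prop := ∀ T : Submodule F L, Nrm y T → ∀ x m,
  (ad F L y ^ m) x ∈ T → n x - ∑ k ∈ Finset.range m, (k.factorial : F)⁻¹ • (ad F L y ^ k) x ∈ T

/-- an injective endomorphism preserving ideals and fixing the centre -/
def Inn (n : L →ₗ⁅F⁆ L) : Prop := Function.Injective n ∧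
  (∀ T : Submodule F L, (∀ x, Nrm x T) → ∀ x ∈ T, n x ∈ T) ∧ ∀ z, Cen z → Umap n z = z

omit [CharZero F] in
lemma Inn.comp {n n' : L →ₗ⁅F⁆ L} (h : Inn n) (h' : Inn n') : Inn (n.comp n') :=
  ⟨h.1.comp h'.1, fun T hT x hx => h.2.1 T hT _ (h'.2.1 T hT x hx),
    fun z hz => by rw [← Umap_Umap, h'.2.2 z hz, h.2.2 z hz]⟩

omit [CharZero F] in
lemma ExpP.zero {y : L} {n : L →ₗ⁅F⁆ L} (h : ExpP y n) {T : Submodule F L} (hT : Nrm y T) {x : L}
    (hx : x ∈ T) : n x ∈ T := by simpa using h T hT x 0 hx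

omit [CharZero F] in
lemma ExpP.one {y : L} {n : L →ₗ⁅F⁆ L} (h : ExpP y n) {T : Submodule F L} (hT : Nrm y T) {x : L}
    (hx : ⁅y, x⁆ ∈ T) : n x - x ∈ T := by simpa using h T hT x 1 (by simpa)

omit [CharZero F] in
lemma ExpP.two {y : L} {n : L →ₗ⁅F⁆ L} (h : ExpP y n) {T : Submodule F L} (hT : Nrm y T) {x : L}
    (hx : ⁅y, ⁅y, x⁆⁆ ∈ T) : n x - (x + ⁅y, x⁆) ∈ T := by
  simpa [Finset.sum_range_succ] using h T hT x 2 (by simpa [pow_succ])

omit [CharZero F] in
lemma ExpP.three {y : L} {n : L →ₗ⁅F⁆ L} (h : ExpP y n) {T : Submodule F L} (hT : Nrm y T) {x : L}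
    (hx : ⁅y, ⁅y, ⁅y, x⁆⁆⁆ ∈ T) : n x - (x + ⁅y, x⁆ + (2 : F)⁻¹ • ⁅y, ⁅y, x⁆⁆) ∈ T := by
  simpa [Finset.sum_range_succ, pow_succ] using h T hT x 3 (by simpa [pow_succ])

lemma sl2_abs {V : Type*} [AddCommGroup V] [Module F V] (e f E G : End F V)
    (hE : ∀ x, e (e (e x)) = 0 → E x = x + e x + (2 : F)⁻¹ • e (e x))
    (hG : ∀ x, f (f (f x)) = 0 → G x = x - f x + (2 : F)⁻¹ • f (f x)) {y v w : V}
    (h1 : e y = 0) (h2 : f y = v) (h3 : e v = (2 : F) • y) (h4 : f v = w) (h5 : f w = 0)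
    (h6 : e w = (2 : F) • v) : E (G (E y)) = (2 : F)⁻¹ • w ∧ E (G (E v)) = -v := by
  have a1 : E y = y := by simp [hE, h1]
  have a2 : E v = v + (2 : F) • y := by simp [hE, h1, h3]
  have a3 : E w = w + (2 : F) • v + (2 : F) • y := by simp [hE, h1, h3, h6]
  have a4 : G y = y - v + (2 : F)⁻¹ • w := by simp [hG, h2, h4, h5]
  have a5 : G v = v - w := by simp [hG, h4, h5]
  constructor
  · simp only [a1, a2, a3, a4, map_add, map_sub, map_smul]
    match_scalars <;> norm_num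
  · have : G (E v) = (2 : F) • y - v := by
      simp only [a2, a4, a5, map_add, map_smul]
      match_scalars <;> norm_num
    rw [this, map_sub, map_smul, a1, a2]
    module

lemma sl2_mod {e f : L} {E G : L →ₗ⁅F⁆ L} (hE : ExpP e E) (hG : ExpP (-f) G) {T : Submodule F L}
    (he : Nrm e T) (hf : Nrm f T) {y v w : L} (h1 : ⁅e, y⁆ ∈ T) (h2 : ⁅f, y⁆ - v ∈ T)
    (h3 : ⁅e, v⁆ - (2 : F) • y ∈ T) (h4 : ⁅f, v⁆ - w ∈ T) (h5 : ⁅f, w⁆ ∈ T)
    (h6 : ⁅e, w⁆ - (2 : F) • v ∈ T) :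
    E (G (E y)) - (2 : F)⁻¹ • w ∈ T ∧ E (G (E v)) + v ∈ T := by
  have hf' : Nrm (-f) T := fun x hx => by rw [neg_lie]; exact neg_mem (hf x hx)
  have := sl2_abs (T.mapQ T (ad F L e) he) (T.mapQ T (ad F L f) hf)
    (T.mapQ T (E : L →ₗ[F] L) fun x hx => hE.zero he hx)
    (T.mapQ T (G : L →ₗ[F] L) fun x hx => hG.zero hf' hx) (fun x hx => by
      obtain ⟨x, rfl⟩ := T.mkQ_surjective x
      exact (Submodule.Quotient.eq T).mpr (hE.three he ((Submodule.Quotient.mk_eq_zero T).mp hx)))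
    (fun x hx => by
      obtain ⟨x, rfl⟩ := T.mkQ_surjective x
      have h : ⁅f, ⁅f, ⁅f, x⁆⁆⁆ ∈ T := (Submodule.Quotient.mk_eq_zero T).mp hx
      have := hG.three hf' (x := x) (by
        simpa only [neg_lie, lie_neg, neg_neg, neg_mem_iff] using h)
      simp only [neg_lie, lie_neg, neg_neg, ← sub_eq_add_neg] at this
      exact (Submodule.Quotient.eq T).mpr this)
    (y := T.mkQ y) (v := T.mkQ v) (w := T.mkQ w) ((Submodule.Quotient.mk_eq_zero T).mpr h1)
    ((Submodule.Quotient.eq T).mpr h2) ((Submodule.Quotient.eq T).mpr h3)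
    ((Submodule.Quotient.eq T).mpr h4) ((Submodule.Quotient.mk_eq_zero T).mpr h5)
    ((Submodule.Quotient.eq T).mpr h6)
  exact ⟨(Submodule.Quotient.eq T).mp this.1,
    by simpa using (Submodule.Quotient.eq T (y := -v)).mp this.2⟩

variable [Module.Finite F L]

theorem exists_exp {y : L} (hy : IsNilpotent (ad F L y)) : ∃ n : L →ₗ⁅F⁆ L, ExpP y n ∧ Inn n := by
  obtain ⟨N, hN⟩ := hy
  let θ : L →ₗ[F] (U F L)[X] := ∑ k ∈ Finset.range N, (k.factorial : F)⁻¹ •
    ((monomial k).restrictScalars F ∘ₗ ((ι F : L →ₗ⁅F⁆ U F L) : L →ₗ[F] U F L) ∘ₗ ad F L y ^ k)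
  have hc : ∀ x k, (θ x).coeff k = (k.factorial : F)⁻¹ • ι F ((ad F L y ^ k) x) := by
    intro x k
    simp only [θ, LinearMap.sum_apply, finsetSum_coeff, LinearMap.smul_apply, coeff_smul,
      LinearMap.comp_apply, LinearMap.restrictScalars_apply, coeff_monomial, smul_ite, smul_zero,
      Finset.sum_ite_eq', Finset.mem_range, LieHom.coe_toLinearMap]
    split_ifs with h
    · rfl
    · simp [pow_eq_zero_of_le (not_lt.mp h) hN]
  have hS : ∀ x, θ x ∈ odeS F (ι F y) := fun x => by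
    change _ = _
    ext k
    rw [coeff_derivative, coeff_sub, coeff_C_mul, coeff_mul_C, hc, hc, ← Nat.cast_succ,
      ← nsmul_eq_mul', ← Nat.cast_smul_eq_nsmul F, smul_smul, pow_succ', End.mul_apply, ad_apply,
      mul_smul_comm, smul_mul_assoc, ι_comm y, ← smul_sub, add_sub_cancel_left, Nat.factorial_succ]
    congr 1
    push_cast
    field_simp
  let θ' : L →ₗ⁅F⁆ (U F L)[X] := { θ with
    map_lie' := fun {x x'} => odeS_ext (hS _)
      (sub_mem (mul_mem (hS x) (hS x')) (mul_mem (hS x') (hS x))) (by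
        simp [hc, mul_coeff_zero, LieRing.of_associative_ring_bracket]) }
  let g : End F L := ∑ k ∈ Finset.range N, (k.factorial : F)⁻¹ • ad F L y ^ k
  have hg : ∀ x, evT (1 : F) (θ' x) = ι F (g x) := fun x => by
    change evT (1 : F) (θ x) = _
    simp [θ, g, evT, eval₂AlgHom]
  let n : L →ₗ⁅F⁆ L := { g with
    map_lie' := fun {x x'} => ι_injective (F := F) (by
      simp only [AddHom.toFun_eq_coe, LinearMap.coe_toAddHom, LieHom.map_lie, ← hg,
        LieRing.of_associative_ring_bracket, map_sub, map_mul]) }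
  have hE : ExpP y n := fun T hT x m hm => by
    have : n x = ∑ k ∈ Finset.range (m + N), (k.factorial : F)⁻¹ • (ad F L y ^ k) x := by
      change g x = _
      simp only [g, LinearMap.sum_apply, LinearMap.smul_apply]
      exact Finset.sum_subset (by simp) fun k _ hk => by
        simp [pow_eq_zero_of_le (by simpa using hk) hN]
    rw [this, Finset.sum_range_add, add_sub_cancel_left]
    refine Submodule.sum_mem _ fun k _ => T.smul_mem _ ?_
    rw [add_comm, pow_add]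
    exact End.pow_apply_mem_of_forall_mem (f' := ad F L y) k hT _ hm
  refine ⟨n, hE, (injective_iff_map_eq_zero n).mpr fun x hx => ?_,
    fun T hT x hx => hE.zero (hT y) hx, fun z hz => ?_⟩
  · have : ∀ k, x ∈ LinearMap.range (ad F L y ^ k) := by
      intro k
      induction k with
      | zero => simp
      | succ k ih =>
        obtain ⟨v, hv⟩ := ih
        have := hE.one (T := LinearMap.range (ad F L y ^ (k + 1))) (x := x) (by
          rintro _ ⟨w, rfl⟩
          exact ⟨⁅y, w⁆, by rw [← ad_apply F, ← ad_apply F, ← End.mul_apply, ← End.mul_apply,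
            ← pow_succ, ← pow_succ']⟩) ⟨v, by rw [pow_succ', End.mul_apply, hv, ad_apply]⟩
        simpa [hx] using this
    simpa [hN] using this N
  · have h1 : (evT (1 : F)).comp (lift F θ') = Umap n := U_ext fun x => by
      rw [AlgHom.comp_apply, lift_ι_apply, hg, Umap_ι]; rfl
    have h2 : ∀ u, lift F θ' u ∈ odeS F (ι F y) ∧ (lift F θ' u).coeff 0 = u := by
      intro u
      induction u using U_induction with
      | h1 => simp [one_mem]
      | hadd u v hu hv => simp [add_mem hu.1 hv.1, hu.2, hv.2]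
      | hsmul c u hu => simp [Subalgebra.smul_mem _ hu.1, hu.2]
      | hmul x u hu =>
        rw [map_mul, lift_ι_apply]
        exact ⟨mul_mem (hS x) hu.1, by rw [mul_coeff_zero, hu.2]; congr 1; exact (hc x 0).trans (by simp)⟩
    rw [← h1, AlgHom.comp_apply, odeS_ext (h2 z).1 (q := C z) _ (by simp [(h2 z).2]), evT_C]
    change _ = _
    simp [← C_mul, hz (ι F y), -map_mul]

variable [LieRing.IsNilpotent C'] {i : C' →ₗ⁅F⁆ L} [Dec i]

omit [CharZero F] [Module.Finite F L] in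
lemma exists_ad_preimage {T : Submodule F L} (hT : Stb i T) {h : C'}
    (hh : ∀ β, W i β ≠ ⊥ → β ≠ 0 → β.1 h ≠ 0) {r : L} (hr : r ∈ T) :
    ∃ y ∈ T, r - ⁅i h, y⁆ ∈ W i 0 := by
  refine hT.ind (P := fun r => ∃ y ∈ T, r - ⁅i h, y⁆ ∈ W i 0) ⟨0, zero_mem _, by simp⟩ ?_ ?_ hr
  · rintro x x' ⟨y, hy, h1⟩ ⟨y', hy', h2⟩
    exact ⟨y + y', add_mem hy hy', by convert add_mem h1 h2 using 1; rw [lie_add]; abel⟩
  · intro β x hx hx'
    by_cases hβ : β = 0
    · exact ⟨0, zero_mem _, by simpa [hβ] using hx'⟩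
    by_cases h0 : W i β = ⊥
    · exact ⟨0, zero_mem _, by simp_all⟩
    obtain ⟨k, hk⟩ := mem_W.mp hx' h
    obtain ⟨y, hy, rfl⟩ := mem_of_shift (T := T.map (ad F L (i h))) _ (by
      rintro _ ⟨y, hy, rfl⟩
      exact ⟨⁅i h, y⁆ - β.1 h • y, sub_mem (hT h y hy) (T.smul_mem _ hy), by simp⟩)
      (hh β h0 hβ) k hk ⟨x, hx, by simp⟩
    exact ⟨y, hy, by simp⟩

theorem exists_corr {K : Submodule F L} (hK : ∀ x, Nrm x K) (hn : Nil K) {h : C'}
    (hh : ∀ β, W i β ≠ ⊥ → β ≠ 0 → β.1 h ≠ 0) {k : L} (hk : k ∈ K) : ∃ a : L →ₗ⁅F⁆ L, Inn a ∧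
      (∀ x, a x - x ∈ K) ∧ (∀ v, (∀ k ∈ K, ⁅k, v⁆ = 0) → a v = v) ∧ a (i h + k) - i h ∈ W i 0 := by
  obtain ⟨N, hN⟩ := exists_lcs (fun x _ => hK x) hn
  suffices H : ∀ j, ∃ a : L →ₗ⁅F⁆ L, Inn a ∧ (∀ x, a x - x ∈ K) ∧
      (∀ v, (∀ k ∈ K, ⁅k, v⁆ = 0) → a v = v) ∧ a (i h + k) - i h ∈ W i 0 ⊔ lcs K j by
    simpa [hN] using H N
  have hK' : ∀ k ∈ K, ∀ x, ⁅k, x⁆ ∈ K := fun k hk x => by
    rw [← lie_skew]; exact neg_mem (hK x k hk)
  intro j
  induction j with
  | zero => exact ⟨LieHom.id, ⟨fun _ _ h => h, fun _ _ _ h => h, fun z _ => Umap_id z⟩, by simp,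
      by simp, by simp [lcs]⟩
  | succ j ih =>
    obtain ⟨a, h1, h2, h3, h4⟩ := ih
    have hL : ∀ j x, Nrm x (lcs K j) := fun j x => (hK x).lcs j
    set k' := a (i h + k) - i h with hk'
    have h5 : k' ∈ K := by convert add_mem (h2 (i h + k)) hk using 1; rw [hk']; abel
    have h6 : k' - pr i 0 k' ∈ lcs K j := by
      obtain ⟨w, hw, r, hr, e⟩ := Submodule.mem_sup.mp h4
      rw [← e, map_add, pr_of_mem hw, add_sub_add_left_eq_sub]
      exact sub_mem hr (Stb.pr_mem (fun c => hL j _) hr 0)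
    obtain ⟨y, hy, h7⟩ := exists_ad_preimage (T := K ⊓ lcs K j)
      (fun c x hx => ⟨hK _ x hx.1, hL j _ x hx.2⟩) hh
      ⟨sub_mem h5 (Stb.pr_mem (fun c => hK _) h5 0), h6⟩
    obtain ⟨b, b1, b2⟩ := exists_exp (hn y hy.1)
    have hy2 : ∀ x, ⁅y, x⁆ ∈ lcs K j := fun x => by
      rw [← lie_skew]; exact neg_mem (hL j x y hy.2)
    refine ⟨b.comp a, b2.comp h1, fun x => ?_, fun v hv => ?_, ?_⟩
    · convert add_mem (b1.one (hK y) (hK' y hy.1 (a x))) (h2 x) using 1
      simp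
    · rw [LieHom.comp_apply, h3 v hv, ← sub_eq_zero]
      exact b1.one (T := ⊥) (fun _ h => by simp_all) (hv y hy.1)
    · have h8 := b1.two (hL (j + 1) y) (lie_mem_lcs hy.1 (hy2 (i h + k')))
      convert Submodule.add_mem_sup (add_mem h7 (pr_mem (i := i) 0 k'))
        (sub_mem h8 (lie_mem_lcs h5 hy.2)) using 1
      rw [lie_add, ← lie_skew y (i h), ← lie_skew y k', hk']
      simp only [LieHom.comp_apply, add_sub_cancel]
      abel

end

end Pool.Agent.P.MP_37e2d5_al
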