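import Pool.Agent.P.MP_37e2d5_al.Trace

/-! Comparison of left and right Harish-Chandra projections. -/

namespace Pool.Agent.P.MP_37e2d5_al

open UniversalEnvelopingAlgebra Module LieAlgebra

attribute [local instance 100] LieRing.ofAssociativeRing
attribute [-simp] UniversalEnvelopingAlgebra.ι_apply

noncomputable section

universe u v

variable {F : Type u} [Field F] {C : Type*} {L : Type v} [LieRing C] [LieAlgebra F C]
  [LieRing L] [LieAlgebra F L]

lemma Umap_mul_wvec {i : C →ₗ⁅F⁆ L} {a : Submodule F L} (ha : Stb i a) {x : L} {β : Ch F C}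
    (h : ∀ c, ⁅i c, x⁆ - β.1 c • x ∈ a) (u : U F C) :
    Umap i u * ι F x - ι F x * Umap i (tau β u) ∈ rI a := by
  induction u using U_induction with
  | h1 => simp
  | hadd u v hu hv => convert add_mem hu hv using 1; simp only [map_add]; noncomm_ring
  | hsmul c u hu => convert Submodule.smul_mem _ c hu using 1; simp [smul_sub]
  | hmul c u hu =>
    convert add_mem ((ha c).smul_mem_Y hu) (mem_rI (h c) (Umap i (tau β u))) using 1
    have : ι F ⁅i c, x⁆ = ι F (i c) * ι F x - ι F x * ι F (i c) := by rw [ι_comm (i c) x]; abel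
    simp only [map_mul, Umap_ι, tau_ι, map_add, AlgHom.commutes, smul_eq_mul, map_sub, this,
      map_smul, Algebra.smul_def, Algebra.commutes (β.1 c) (ι F x)]
    noncomm_ring

variable [CharZero F] [Module.Finite F L] [LieRing.IsNilpotent C] {i : C →ₗ⁅F⁆ L}
  {l : Ch F C →ₗ[ℚ] ℚ}

lemma exists_filt_nP (i : C →ₗ⁅F⁆ L) (l : Ch F C →ₗ[ℚ] ℚ) : ∃ (d : ℕ → Submodule F L) (N : ℕ),
    nP i l ≤ d 0 ∧ (∀ k, ∀ x ∈ d k, ∀ y ∈ d k, ⁅x, y⁆ ∈ d (k + 1)) ∧ d N = ⊥ := by
  obtain ⟨m, M, hm, h⟩ := exists_bounds (i := i) l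
  obtain ⟨N, hN⟩ := exists_nat_gt (M / m)
  rw [div_lt_iff₀ hm] at hN
  refine ⟨fun k => WS i {β | (k + 1) * m ≤ l β}, N, WS_le fun β hβ => ?_,
    fun k x hx y hy => lie_mem_WS (fun β hβ γ hγ => ?_) hx hy, eq_bot_iff.mpr (WS_le fun β hβ => ?_)⟩
  · by_cases h0 : W i β = ⊥
    · simp [h0]
    · exact fun _ => mem_WS (by simpa using (h β h0 hβ).1)
  · simp only [Set.mem_ofPred_eq, map_add, Nat.cast_add, Nat.cast_one] at *
    have : (0 : ℚ) ≤ k * m := by positivity
    nlinarith
  · by_contra h0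
    simp only [Set.mem_ofPred_eq, le_bot_iff] at hβ h0
    have h1 : (0 : ℚ) ≤ N * m := by positivity
    have := (h β h0 (by nlinarith)).2
    nlinarith

lemma noPerf_nP {n : Submodule F L} (hn : n ≤ nP i l) : NoPerf n := by
  obtain ⟨d, N, h1, h2, h3⟩ := exists_filt_nP i l
  exact noPerf_of_filt d (hn.trans h1) (fun k x hx y hy _ _ => h2 k x hx y hy) h3

variable [Dec i]

lemma exists_top_wvec {n a : Submodule F L} (hn : n ≤ nP i l) (hs : Sub n) (hst : Stb i n)
    (h : ¬ n ≤ a) : ∃ β : Ch F C, ∃ x ∈ n, x ∉ a ∧ (∀ c, ⁅i c, x⁆ - β.1 c • x ∈ a) ∧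
      ∀ y ∈ n, ⁅y, x⁆ ∈ a := by
  have hf : {β | ¬ n ⊓ W i β ≤ a}.Finite := (finite_W i).subset fun β hβ h0 => hβ (by simp [h0])
  obtain ⟨β, hβ, hmax⟩ := Set.exists_max_image _ l hf (by
    by_contra hc
    rw [Set.not_nonempty_iff_eq_empty, Set.eq_empty_iff_forall_notMem] at hc
    exact h (hst.le fun β x hx hx' => not_not.mp (hc β) ⟨hx, hx'⟩))
  obtain ⟨x, hx, hxW, hxa, hc⟩ := exists_wvec hst hβ
  refine ⟨β, x, hx, hxa, hc, fun y hy => ?_⟩
  refine hst.indS (P := fun y => ⁅y, x⁆ ∈ a) (by simp)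
    (fun y y' h1 h2 => by rw [add_lie]; exact add_mem h1 h2) (fun γ hγ y hy hy' => ?_) hy (hn hy)
  have : n ⊓ W i (γ + β) ≤ a := by
    by_contra hc
    have := hmax _ hc
    simp only [Set.mem_ofPred_eq, map_add] at this hγ
    linarith
  exact this ⟨hs _ hy _ hx, lie_mem_W hy' hxW⟩

theorem flip {n : Submodule F L} (hn : n ≤ nP i l) (hs : Sub n) (hst : Stb i n) {z : U F L}
    (hz : ∀ x ∈ n, z * ι F x = ι F x * z) {u : U F C} (h : z - Umap i u ∈ rI n) :
    z - Umap i (tau (TC i n hst) u) ∈ lI n := by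
  have key : ∀ (k : ℕ) (a : Submodule F L) (ha : Stb i a), a ≤ n → (∀ y ∈ n, Nrm y a) →
      finrank F n = finrank F a + k → ∀ (N : Type (max u v)) [AddCommGroup N] [Module (U F L) N]
      [Module F N] [IsScalarTower F (U F L) N], Reg (ι F) n (finrank F a) N → ∀ m : N,
      (∀ y ∈ n, ι F y • m ∈ Y (ι F) a N) →
      (z - Umap i (tau (TC i n hst - TC i a ha) u)) • m ∈ Y (ι F) a N := by
    intro k
    induction k with
    | zero =>
      intro a ha han _ hk N _ _ _ _ _ m _
      obtain rfl := Submodule.eq_of_le_of_finrank_eq han hk.symm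
      rw [sub_self, tau_zero]
      exact Y_smul h m
    | succ k ih =>
      intro a ha han hna hk N _ _ _ _ hN m hm
      obtain ⟨β, x, hx, hxa, hc, hy⟩ := exists_top_wvec hn hs hst (a := a) (fun hc => by
        have := Submodule.finrank_mono hc; omega)
      have hsa : Sub a := fun y hy y' hy' => hna y (han hy) y' hy'
      have hdim := Submodule.finrank_sup_span_singleton hxa
      let π := Finsupp.linearCombination (U F L) (id : N → N)
      have hπ : Function.Surjective π := fun v => ⟨Finsupp.single v 1, by simp [π]⟩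
      have hP : ∀ k, Reg (ι F) n k (N →₀ U F L) := fun k => (reg_U n k).finsupp N
      have lift : ∀ g : N →₀ U F L, π g ∈ Y (ι F) a N → ∃ w : LinearMap.ker π,
          g - w ∈ Y (ι F) a (N →₀ U F L) := fun g hg => by
        obtain ⟨g', h1, h2⟩ := Y_lift π hπ hg
        exact ⟨⟨g - g', by simp [h2]⟩, by simpa⟩
      obtain ⟨m0, rfl⟩ := hπ m
      obtain ⟨m', hm'⟩ := lift (ι F x • m0) (by simpa using hm x hx)
      have h1 := ih (a ⊔ F ∙ x) (ha.sup_span hc)
        (sup_le han ((Submodule.span_singleton_le_iff_mem _ _).mpr hx)) (by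
          intro y hyn w hw
          obtain ⟨w, hw', t, rfl⟩ := mem_sup_span.mp hw
          rw [lie_add, lie_smul]
          exact Submodule.mem_sup_left (add_mem (hna y hyn w hw') (a.smul_mem _ (hy y hyn))))
        (by omega) (LinearMap.ker π)
        (hdim ▸ reg_ker (noPerf_nP hn) π hπ hN (hP _)) m' (by
          intro y hyn
          obtain ⟨w, hw⟩ := lift (ι F y • m0) (by simpa using hm y hyn)
          have := pure (noPerf_nP hn) π hπ hN han hsa le_rfl (ι F y • m' - ι F x • w) (by
            have := sub_mem (add_mem ((hna x hx).smul_mem_Y hw) (mem_Y (hy y hyn) m0))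
              ((hna y hyn).smul_mem_Y hm')
            convert this using 1
            simp only [smul_sub, smul_smul, ι_comm y x, add_smul, AddSubgroupClass.coe_sub,
              SetLike.val_smul]
            abel)
          rw [← sub_add_cancel (ι F y • m') (ι F x • w)]
          exact add_mem (Y_mono le_sup_left this) (mem_Y (κ := ι F) (mem_sup_span_self a x) w))
      have hT : TC i n hst - TC i a ha = β + (TC i n hst - TC i _ (ha.sup_span hc)) := by
        ext c
        simp [trOn_sup_span (f := ad F L (i c)) (ha c) hxa (hc c)]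
        ring
      rw [hT, ← tau_tau]
      set v := tau (TC i n hst - TC i _ (ha.sup_span hc)) u
      obtain ⟨w, hw⟩ := mem_Y_sup h1
      have h2 : (z - Umap i v) • (ι F x • m0 - m') ∈ Y (ι F) a (N →₀ U F L) := by
        rw [sub_smul]
        exact sub_mem (comm_smul_mem_Y (fun y hy => hz y (han hy)) hm')
          (Ua_smul_Y' (q := rg i) (by rintro _ ⟨c, rfl⟩; exact ha c)
            (Umap_mem_Ua (q := rg i) i (fun c => ⟨c, rfl⟩) v) hm')
      have h3 := hP _ a han hsa (Nat.lt_succ_self _) x hx hxa (hna x hx)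
        ((z - Umap i (tau β v)) • m0 - w) (by
          have := add_mem (add_mem h2 (Y_lmap (LinearMap.ker π).subtype hw))
            (Y_smul (Umap_mul_wvec ha hc v) m0)
          convert this using 1
          simp only [smul_sub, smul_smul, sub_smul, map_sub, map_smul, Submodule.subtype_apply,
            sub_mul, hz x hx]
          abel)
      simpa [w.2.out] using Y_lmap π h3
  have := key (finrank F n) ⊥ (stb_bot i) bot_le (fun _ _ _ hy => by simp_all) (by simp)
    (U F L ⧸ lI n) (fun a _ _ h => by simp at h) (Submodule.Quotient.mk 1) (fun y hy => by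
      rw [← Submodule.Quotient.mk_smul, smul_eq_mul, mul_one,
        (Submodule.Quotient.mk_eq_zero _).mpr (mem_lI' hy)]
      exact zero_mem _)
  have hT : TC i n hst - TC i ⊥ (stb_bot i) = TC i n hst := by ext c; simp [trOn_bot]
  rw [hT] at this
  have := Y_bot this
  rwa [← Submodule.Quotient.mk_smul, smul_eq_mul, mul_one, Submodule.Quotient.mk_eq_zero] at this

end

end Pool.Agent.P.MP_37e2d5_al
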