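import Pool.Agent.P.MP_37e2d5_al.Exp

/-! The trace form on a minimal ideal in rank one. -/

namespace Pool.Agent.P.MP_37e2d5_al

open UniversalEnvelopingAlgebra Module LieAlgebra

attribute [local instance 100] LieRing.ofAssociativeRing
attribute [-simp] UniversalEnvelopingAlgebra.ι_apply

noncomputable section

variable {F : Type*} [Field F] {C L : Type*} [LieRing C] [LieAlgebra F C]
  [LieRing L] [LieAlgebra F L]

/-- centraliser -/
def cz (V : Submodule F L) : Submodule F L where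
  carrier := {x | ∀ v ∈ V, ⁅x, v⁆ = 0}
  add_mem' := fun hx hy v hv => by rw [add_lie, hx v hv, hy v hv, add_zero]
  zero_mem' := fun v _ => zero_lie v
  smul_mem' := fun c x hx v hv => by rw [smul_lie, hx v hv, smul_zero]

lemma nrm_cz {V : Submodule F L} (hV : ∀ x, Nrm x V) (x : L) : Nrm x (cz V) := fun y hy v hv => by
  rw [lie_lie, hy v hv, hy _ (hV x v hv), lie_zero, sub_zero]

lemma Nrm.lie_left {x y : L} {V : Submodule F L} (h : Nrm x V) (hy : y ∈ V) : ⁅y, x⁆ ∈ V := by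
  rw [← lie_skew]; exact neg_mem (h y hy)

/-- trace form -/
def BF (V : Submodule F L) : L →ₗ[F] L →ₗ[F] F :=
  ((LinearMap.mul F (End F L)).compl₁₂ (ad F L : L →ₗ[F] End F L) (ad F L : L →ₗ[F] End F L)).compr₂
    (trOn V)

lemma BF_apply (V : Submodule F L) (x y : L) : BF V x y = trOn V (ad F L x * ad F L y) := rfl

lemma BF_symm {V : Submodule F L} (hV : ∀ x, Nrm x V) (x y : L) : BF V x y = BF V y x :=
  trOn_comm (hV x) (hV y)

lemma BF_inv {V : Submodule F L} (hV : ∀ x, Nrm x V) (x y z : L) :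
    BF V ⁅x, y⁆ z = BF V x ⁅y, z⁆ := by
  have := trOn_comm (W := V) (f := ad F L y) (g := ad F L x * ad F L z) (hV y)
    (fun v hv => hV x _ (hV z v hv))
  simp only [BF_apply, LieHom.map_lie, LieRing.of_associative_ring_bracket, sub_mul, mul_sub,
    map_sub, mul_assoc] at this ⊢
  rw [this]

lemma BF_cz {V : Submodule F L} (x : L) {k : L} (hk : k ∈ cz V) : BF V x k = 0 := by
  rw [BF_apply, trOn_congr (g := 0) (fun v hv => by simp [hk v hv]), map_zero]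

variable [CharZero F]

/-- rank one data -/
structure R1 (i : C →ₗ⁅F⁆ L) (α : Ch F C) (l : Ch F C →ₗ[ℚ] ℚ) : Prop where
  h0 : W i 0 ≤ rg i
  h1 : ∀ β, W i β ≠ ⊥ → β = l β • α

/-- a minimal ideal with a nonzero weight -/
structure MinI (i : C →ₗ⁅F⁆ L) (V : Submodule F L) : Prop where
  id : ∀ x, Nrm x V
  min : ∀ J ≤ V, (∀ x, Nrm x J) → J = ⊥ ∨ J = V
  wt : ∃ β, β ≠ 0 ∧ ¬ V ⊓ W i β ≤ ⊥

variable {i : C →ₗ⁅F⁆ L} {α : Ch F C} {l : Ch F C →ₗ[ℚ] ℚ} {V : Submodule F L}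

lemma R1.apply (h : R1 i α l) {β : Ch F C} (hβ : W i β ≠ ⊥) (c : C) :
    β.1 c = (l β : F) * α.1 c := by
  conv_lhs => rw [h.h1 β hβ]
  simp [Rat.smul_def]

lemma R1.gen (h : R1 i α l) : Gen i l := fun β hβ h0 => by rw [h.h1 β hβ, h0, zero_smul]

lemma R1.inj (h : R1 i α l) {β γ : Ch F C} (hβ : W i β ≠ ⊥) (hγ : W i γ ≠ ⊥) (e : l β = l γ) :
    β = γ := by rw [h.h1 β hβ, e, ← h.h1 γ hγ]

lemma R1.ne (h : R1 i α l) {c : C} (hc : α.1 c ≠ 0) (β : Ch F C) (hβ : W i β ≠ ⊥) (h0 : β ≠ 0) :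
    β.1 c ≠ 0 := by
  rw [h.apply hβ]
  exact mul_ne_zero (Rat.cast_ne_zero.mpr fun h' => h0 (h.gen β hβ h')) hc

lemma R1.zP_eq (h : R1 i α l) : zP i l = W i 0 :=
  le_antisymm (WS_le fun β hβ => by
    by_cases h0 : W i β = ⊥
    · simp [h0]
    · rw [h.gen β h0 hβ]) (W_zero_le_zP i l)

omit [CharZero F] in
lemma ne_bot_of_not_le {a b : Submodule F L} {β : Ch F C} (h : ¬ b ⊓ W i β ≤ a) : W i β ≠ ⊥ :=
  fun h0 => h (by simp [h0])

omit [CharZero F] in
lemma ne_bot_of_notMem {a : Submodule F L} {β : Ch F C} {x : L} (hx : x ∈ W i β) (h : x ∉ a) :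
    W i β ≠ ⊥ := fun h0 => h (by rw [h0] at hx; rw [hx]; exact zero_mem _)

variable [Module.Finite F L] [LieRing.IsNilpotent C] [Dec i]

lemma BF_W (hV : ∀ x, Nrm x V) {β γ : Ch F C} {x y : L} (hx : x ∈ W i β) (hy : y ∈ W i γ)
    (h : β + γ ≠ 0) : BF V x y = 0 := by
  obtain ⟨k, hk⟩ := nil_of_shift (g := ad F L x * ad F L y) h fun δ v hv => by
    rw [show δ + (β + γ) = β + (γ + δ) by abel]
    exact lie_mem_W hx (lie_mem_W hy hv)
  exact trOn_nil (fun v hv => hV x _ (hV y v hv)) fun v _ => ⟨k, by simp [hk]⟩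

lemma BF_ii (h : R1 i α l) (hV : MinI i V) :
    ∃ r : ℚ, 0 < r ∧ ∀ c c', BF V (i c) (i c') = r * α.1 c * α.1 c' := by
  obtain ⟨s, -, h1, h2, -, h3⟩ := trace_flag (finrank F V) (stb_bot i) (fun c => hV.id (i c)) bot_le
    (by simp)
  refine ⟨(s.map fun β => l β ^ 2).sum, ?_, fun c c' => ?_⟩
  · obtain ⟨β, hβ, h4⟩ := hV.wt
    have h5 : β ∈ s := by
      by_contra hc
      exact h4 fun v hv => eq_zero_of_W (T := {β | β ∈ s}) hc hv.2 (by simpa using h2 hv.1)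
    refine lt_of_lt_of_le (sq_pos_of_ne_zero fun h0 => hβ (h.gen β (ne_bot_of_not_le h4) h0))
      (List.single_le_sum (by simp only [List.mem_map]; rintro _ ⟨γ, -, rfl⟩; positivity) _
        (List.mem_map.mpr ⟨β, h5, rfl⟩))
  · rw [BF_apply, h3, trOn_bot, zero_add, Rat.cast_list_sum, List.map_map, ← List.sum_map_mul_right,
      ← List.sum_map_mul_right]
    congr 1
    refine List.map_congr_left fun β hβ => ?_
    simp only [h.apply (ne_bot_of_not_le (h1 β hβ)), Function.comp_apply, Rat.cast_pow]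
    ring

lemma ker_of_cz (h : R1 i α l) (hV : MinI i V) {c : C} (hc : i c ∈ cz V) : α.1 c = 0 := by
  obtain ⟨r, hr, h1⟩ := BF_ii h hV
  have := h1 c c
  rw [BF_cz _ hc] at this
  simpa [hr.ne'] using this

lemma R1.nil (h : R1 i α l) {R : Submodule F L} (hR : Sub R) (hs : Stb i R)
    (h0 : ∀ c, i c ∈ R → α.1 c = 0) : Nil R := nil_of_graded hR hs fun x hx hx' => by
  obtain ⟨c, rfl⟩ := h.h0 hx'
  exact ad_nil_of_ker fun β hβ => by rw [h.apply hβ, h0 c hx, mul_zero]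

lemma nil_cz (h : R1 i α l) (hV : MinI i V) : Nil (cz V) :=
  h.nil (fun x _ => nrm_cz hV.id x) (fun _ => nrm_cz hV.id _) fun _ => ker_of_cz h hV

lemma cz_of_BF (h : R1 i α l) (hV : MinI i V) {x : L} (hx : BF V x = 0) : x ∈ cz V := by
  have hR : ∀ y, Nrm y (LinearMap.ker (BF V)) := fun y x hx => by
    ext z
    rw [← lie_skew, map_neg, LinearMap.neg_apply, BF_inv hV.id, LinearMap.mem_ker.mp hx]
    simp
  obtain ⟨r, hr, h1⟩ := BF_ii h hV
  refine fun v hv => (h.nil (fun x _ => hR x) (fun _ => hR _) fun c hc => ?_).triv hR hV.id hV.min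
    hx hv
  have := h1 c c
  rw [LinearMap.mem_ker.mp hc] at this
  simpa [hr.ne'] using this

lemma cz_of_W (h : R1 i α l) (hV : MinI i V) {β : Ch F C} {x : L} (hx : x ∈ W i β)
    (h1 : ∀ y ∈ W i (-β), BF V x y = 0) : x ∈ cz V := by
  refine cz_of_BF h hV (LinearMap.ext fun y => ?_)
  refine (WS_le (T := LinearMap.ker (BF V x)) fun γ _ y hy => ?_) (Dec.top (i := i) y)
  by_cases h0 : β + γ = 0
  · exact h1 y (eq_neg_of_add_eq_zero_right h0 ▸ hy)
  · exact BF_W hV.id hx hy h0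

lemma cz_of_ker (h : R1 i α l) (hV : MinI i V) {c : C} (hc : α.1 c = 0) : i c ∈ cz V := by
  obtain ⟨r, -, h1⟩ := BF_ii h hV
  refine cz_of_W h hV (i_mem_W i c) fun y hy => ?_
  obtain ⟨c', rfl⟩ := h.h0 (neg_zero (G := Ch F C) ▸ hy)
  exact (h1 c c').trans (by simp [hc])

lemma mem_cz_sup (h : R1 i α l) (hV : MinI i V) {c : C} (hc : α.1 c ≠ 0) (c' : C) :
    i c' ∈ cz V ⊔ F ∙ i c := mem_sup_span.mpr
  ⟨i (c' - (α.1 c' / α.1 c) • c), cz_of_ker h hV (by simp [hc]), α.1 c' / α.1 c, by simp⟩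

omit [Module.Finite F L] [CharZero F] in
lemma mem_of_W {K : Submodule F L} (hK : Stb i K) {S : Set (Ch F C)} {β : Ch F C} (hβ : β ∉ S)
    {x : L} (hx : x ∈ W i β) (h : x ∈ K ⊔ WS i S) : x ∈ K := by
  obtain ⟨k, hk, w, hw, e⟩ := Submodule.mem_sup.mp h
  rw [← pr_of_mem hx, ← e, map_add, pr_of_WS hβ hw, add_zero]
  exact hK.pr_mem hk β

/-- an `sl2`-triple modulo the centraliser -/
structure Tri (i : C →ₗ⁅F⁆ L) (K : Submodule F L) (p : Ch F C) (e f : L) (h : C) : Prop where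
  he : e ∈ W i p
  hf : f ∈ W i (-p)
  ef : ⁅e, f⁆ = i h
  ph : p.1 h = 2
  ce : ∀ c, ⁅i c, e⁆ - p.1 c • e ∈ K
  cf : ∀ c, ⁅i c, f⁆ + p.1 c • f ∈ K
  eK : e ∉ K
  fK : f ∉ K
  top : ((K ⊔ F ∙ i h) ⊔ F ∙ e) ⊔ (F ∙ f) = ⊤

theorem exists_tri (h : R1 i α l) (hV : MinI i V) {β : Ch F C} (hβ : β ≠ 0)
    (hK : ¬ W i β ≤ cz V) : ∃ p e f h', 0 < l p ∧ Tri i (cz V) p e f h' := by
  have hN := nrm_cz hV.id
  have hs : Stb i (cz V) := fun _ => hN _
  have pair : ∀ β, ∀ x ∈ W i β, x ∉ cz V → ∃ y ∈ W i (-β), BF V x y ≠ 0 := fun β x hx hx' => by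
    by_contra! hc
    exact hx' (cz_of_W h hV hx hc)
  have pair' : ∀ β, ¬ W i β ≤ cz V → ¬ W i (-β) ≤ cz V := fun β hβ hc => by
    obtain ⟨x, hx, hx'⟩ := SetLike.not_le_iff_exists.mp hβ
    obtain ⟨y, hy, hy'⟩ := pair β x hx hx'
    exact hy' (BF_cz _ (hc hy))
  obtain ⟨p, ⟨hp, hp0⟩, hmin⟩ := Set.exists_min_image {β | ¬ W i β ≤ cz V ∧ 0 < l β} l
    ((finite_W i).subset fun β hβ h0 => hβ.1 (by simp [h0])) (by
      rcases lt_trichotomy (l β) 0 with h1 | h1 | h1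
      · exact ⟨-β, pair' β hK, by simpa⟩
      · exact absurd (h.gen β (fun h0 => hK (by simp [h0])) h1) hβ
      · exact ⟨β, hK, h1⟩)
  obtain ⟨e, -, he, eK, ce⟩ := exists_wvec (stb_top i) (a := cz V) (β := p) (by simpa)
  obtain ⟨f, -, hf, fK, cf⟩ := exists_wvec (stb_top i) (a := cz V) (β := -p)
    (by simpa using pair' p hp)
  have hpW := ne_bot_of_notMem he eK
  have hp1 : p ≠ 0 := fun h0 => by simp [h0] at hp0
  obtain ⟨r, hr, hB⟩ := BF_ii h hV
  have key : ∀ y ∈ W i (-p), BF V e y ≠ 0 → ∃ c, i c = ⁅e, y⁆ ∧ α.1 c ≠ 0 := fun y hy hy' => by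
    obtain ⟨c, hc⟩ := h.h0 (add_neg_cancel p ▸ lie_mem_W he hy)
    refine ⟨c, hc, fun h0 => ?_⟩
    obtain ⟨c', hc'⟩ := Ch.exists_ne hp1
    have h1 := BF_cz y (ce c')
    have h2 := hB c' c
    rw [LieHom.coe_toLinearMap] at hc
    rw [hc, ← BF_inv hV.id, h0, mul_zero] at h2
    rw [map_sub, map_smul, BF_symm hV.id, h2, BF_symm hV.id] at h1
    simp [hc', hy'] at h1
  obtain ⟨f', hf', hef⟩ := pair p e he eK
  obtain ⟨c, hc, hαc⟩ := key f' hf' hef
  have s1 : Stb i (cz V ⊔ F ∙ i c) := hs.sup_span (β := 0) fun c' => by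
    simpa using cz_of_ker h hV (α.2 c' c)
  have s2 := s1.sup_span fun c' => Submodule.mem_sup_left (ce c')
  have s3 := s2.sup_span fun c' => Submodule.mem_sup_left (Submodule.mem_sup_left (cf c'))
  set a := (cz V ⊔ F ∙ i c) ⊔ F ∙ e with ha
  have hKa : cz V ≤ a := le_sup_of_le_left le_sup_left
  have w1 : cz V ⊔ (F ∙ i c) ≤ cz V ⊔ WS i {0} := sup_le_sup_left
    ((Submodule.span_singleton_le_iff_mem _ _).mpr (mem_WS (by simp) (i_mem_W i c))) _
  have w2 : a ≤ cz V ⊔ WS i {0, p} := sup_le (w1.trans (sup_le_sup_left (WS_mono (by simp)) _))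
    (le_sup_of_le_right ((Submodule.span_singleton_le_iff_mem _ _).mpr (mem_WS (by simp) he)))
  have hnp : ∀ γ, l γ < 0 → γ ∉ ({0, p} : Set (Ch F C)) := by
    rintro γ hγ (rfl | rfl)
    · simp at hγ
    · linarith
  have hlp : l (-p) < 0 := by simpa
  have hz : zP i (-l) ≤ a := fun x hx => by
    obtain ⟨c', rfl⟩ := h.h0 (h.zP_eq ▸ zP_neg i l ▸ hx)
    exact Submodule.mem_sup_left (mem_cz_sup h hV hαc c')
  have hneg : ∀ γ, l γ ≤ 0 → W i γ ≤ pP i (-l) := fun γ hγ x hx => mem_WS (by simpa) hx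
  set q := (cz V ⊔ pP i (-l)) ⊔ F ∙ e with hq
  have q1 : cz V ≤ q := le_sup_of_le_left le_sup_left
  have q2 : pP i (-l) ≤ q := le_sup_of_le_left le_sup_right
  have q3 : e ∈ q := mem_sup_span_self _ _
  have nq : ∀ x, (∀ y ∈ pP i (-l), ⁅x, y⁆ ∈ q) → ⁅x, e⁆ ∈ q → Nrm x q := fun x h1 h2 y hy => by
    obtain ⟨y', hy', t, rfl⟩ := mem_sup_span.mp hy
    obtain ⟨y1, hy1, y2, hy2, rfl⟩ := Submodule.mem_sup.mp hy'
    rw [lie_add, lie_add, lie_smul]
    exact add_mem (add_mem (q1 (hN _ _ hy1)) (h1 _ hy2)) (q.smul_mem _ h2)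
  have qe : ∀ c', ⁅i c', e⁆ ∈ q := fun c' => by
    simpa using add_mem (q1 (ce c')) (q.smul_mem (p.1 c') q3)
  have n1 : Nrm e q := nq e (fun y hy => WS_le (T := q.comap (ad F L e)) (fun γ hγ y hy => by
    have hγ' : l γ ≤ 0 := by simpa using hγ
    change ⁅e, y⁆ ∈ q
    by_cases h0 : W i γ = ⊥
    · rw [h0] at hy; simp [show y = 0 from hy]
    rcases hγ'.eq_or_lt with h1 | h1
    · obtain ⟨c', rfl⟩ := h.h0 (h.gen γ h0 h1 ▸ hy)
      rw [← lie_skew]
      exact neg_mem (qe c')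
    rcases le_or_gt (l (p + γ)) 0 with h2 | h2
    · exact q2 (hneg _ h2 (lie_mem_W he hy))
    · refine q1 (not_not.mp (fun h3 => ?_ : ¬ ¬ W i (p + γ) ≤ cz V) (lie_mem_W he hy))
      have := hmin _ ⟨h3, h2⟩
      rw [map_add] at this
      linarith) hy) (by simp)
  have n2 : Nrm f' q := nq f' (fun y hy => q2 (sub_pP i _ _ (hneg _ hlp.le hf') _ hy)) (by
    rw [← lie_skew, ← hc]
    exact neg_mem (q2 (hneg 0 (by simp) (i_mem_W i c))))
  have tr0 : ∀ T : Submodule F L, Nrm e T → Nrm f' T → trOn T (ad F L (i c)) = 0 := by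
    intro T h1 h2
    rw [show i c = ⁅e, f'⁆ from hc, LieHom.map_lie, LieRing.of_associative_ring_bracket, map_sub,
      trOn_comm (f := ad F L e) (g := ad F L f') h1 h2, sub_self]
  have hle : a ⊔ (F ∙ f) ≤ q := sup_le (sup_le (sup_le q1 ((Submodule.span_singleton_le_iff_mem
    _ _).mpr (q2 (hneg 0 (by simp) (i_mem_W i c))))) le_sup_right)
    ((Submodule.span_singleton_le_iff_mem _ _).mpr (q2 (hneg _ hlp.le hf)))
  obtain ⟨s, -, t1, t2, t3, -⟩ := trace_flag _ s3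
    (fun c' => nq _ (fun y hy => q2 (stb_WS i _ c' y hy)) (qe c')) hle
    (Nat.add_sub_cancel' (Submodule.finrank_mono hle)).symm
  have t4 : ∀ γ ∈ s, l γ < 0 := fun γ hγ => by
    by_contra hc
    refine t1 γ hγ fun x hx => Submodule.mem_sup_left (mem_of_W s2 (S := {β | 0 < (-l) β})
      (by simpa using hc) hx.2 ?_)
    refine (sup_le (sup_le (le_sup_of_le_left hKa) ?_) (le_sup_of_le_left le_sup_right) :
      q ≤ a ⊔ nP i (-l)) hx.1
    simpa using ((stb_top i).pP_le (-l)).trans (sup_le_sup (inf_le_right.trans hz) inf_le_right)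
  have t5 := t3 c
  rw [tr0 q n1 n2, trOn_sup_span (f := ad F L (i c)) (s2 c)
      (fun hc => fK (mem_of_W hs (hnp _ hlp) hf (w2 hc))) (hKa (cf c)),
    trOn_sup_span (f := ad F L (i c)) (s1 c)
      (fun hc => eK (mem_of_W hs (by simpa) he (w1 hc))) (Submodule.mem_sup_left (ce c)),
    trOn_sup_span (f := ad F L (i c)) (t := 0) (hs c) (fun hc => hαc (ker_of_cz h hV hc)) (by simp),
    tr0 _ (hN _) (hN _), List.map_congr_left (g := fun β => (l β : F) * α.1 c)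
      (fun β hβ => h.apply (ne_bot_of_not_le (t1 β hβ)) c), List.sum_map_mul_right] at t5
  have t6 : s = [] := by
    by_contra hne
    have := List.sum_lt_sum_of_ne_nil hne l (fun _ => 0) t4
    have t7 : (((s.map l).sum : ℚ) : F) = 0 := by
      rw [Rat.cast_list_sum, List.map_map]
      simpa [hαc, Function.comp_def] using t5
    simp [Rat.cast_eq_zero.mp t7] at this
  have neg : ∀ γ, l γ < 0 → ∀ x ∈ W i γ, ∃ k ∈ cz V, ∃ t : F, x = k + t • f := fun γ hγ x hx => by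
    refine mem_sup_span.mp (mem_of_W (hs.sup_span cf) (hnp γ hγ) hx ?_)
    have : x ∈ a ⊔ F ∙ f := by simpa [t6, WS] using t2 (q2 (hneg γ hγ.le hx))
    exact sup_le (w2.trans (sup_le_sup_right le_sup_left _)) (le_sup_of_le_left le_sup_right) this
  have hef' : BF V e f ≠ 0 := fun h0 => hef (by
    obtain ⟨k, hk, t, rfl⟩ := neg _ hlp f' hf'
    simp [BF_cz e hk, h0])
  obtain ⟨c1, hc1, hα1⟩ := key f hf hef'
  have hp2 := h.ne hα1 p hpW hp1
  have hp3 : 2 / p.1 c1 ≠ 0 := by simpa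
  refine ⟨p, e, (2 / p.1 c1) • f, (2 / p.1 c1) • c1, hp0, he, Submodule.smul_mem _ _ hf,
    by simp [← hc1], by simp [hp2], ce, fun c' => ?_, eK, by rwa [Submodule.smul_mem_iff _ hp3], ?_⟩
  · convert Submodule.smul_mem _ (2 / p.1 c1) (cf c') using 1
    simp [smul_smul, mul_comm]
  · rw [map_smul, Submodule.span_singleton_smul_eq hp3.isUnit,
      Submodule.span_singleton_smul_eq hp3.isUnit, eq_top_iff]
    refine fun x _ => WS_le (fun γ _ x hx => ?_) (Dec.top (i := i) x)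
    by_cases h0 : W i γ = ⊥
    · exact bot_le (α := Submodule F L) (h0 ▸ hx)
    rcases lt_trichotomy (l γ) 0 with h1 | h1 | h1
    · obtain ⟨k, hk, t, rfl⟩ := neg γ h1 x hx
      exact mem_sup_span.mpr ⟨k, Submodule.mem_sup_left (Submodule.mem_sup_left hk), t, rfl⟩
    · obtain ⟨c', rfl⟩ := h.h0 (h.gen γ h0 h1 ▸ hx)
      exact Submodule.mem_sup_left (Submodule.mem_sup_left (mem_cz_sup h hV hα1 c'))
    · have h2 : ∀ x ∈ W i γ, BF V x f = 0 → x ∈ cz V := fun x hx h3 => cz_of_W h hV hx fun y hy => by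
        obtain ⟨k, hk, t, rfl⟩ := neg (-γ) (by simpa) y hy
        simp [BF_cz x hk, h3]
      refine Submodule.mem_sup_left ?_
      by_cases h3 : γ = p
      · subst h3
        exact mem_sup_span.mpr ⟨_, Submodule.mem_sup_left (h2 (x - (BF V x f / BF V e f) • e)
          (sub_mem hx (Submodule.smul_mem _ _ he)) (by simp [hef'])), BF V x f / BF V e f, by simp⟩
      · exact Submodule.mem_sup_left (Submodule.mem_sup_left (h2 x hx (BF_W hV.id hx hf
          (by rwa [← sub_eq_add_neg, sub_ne_zero]))))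

end

end Pool.Agent.P.MP_37e2d5_al
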