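import Pool.Agent.P.MP_37e2d5_al.Lin

/-! Freeness of the enveloping algebra over the enveloping algebra of a subalgebra. -/

namespace Pool.Agent.P.MP_37e2d5_al

open UniversalEnvelopingAlgebra Module

attribute [local instance 100] LieRing.ofAssociativeRing
attribute [-simp] UniversalEnvelopingAlgebra.ι_apply

noncomputable section

variable {F : Type*} [Field F] {L B N : Type*} [LieRing L] [LieAlgebra F L]
  [LieRing B] [LieAlgebra F B] [LieRing N] [LieAlgebra F N]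

/-- range as a submodule -/
def rg (f : B →ₗ⁅F⁆ L) : Submodule F L := LinearMap.range (f : B →ₗ[F] L)

@[simp] lemma mem_rg {f : B →ₗ⁅F⁆ L} {x : L} : x ∈ rg f ↔ ∃ b, f b = x := Iff.rfl

/-- closed under brackets -/
def Sub (a : Submodule F L) : Prop := ∀ x ∈ a, ∀ y ∈ a, ⁅x, y⁆ ∈ a

/-- normalises -/
def Nrm (x : L) (a : Submodule F L) : Prop := ∀ y ∈ a, ⁅x, y⁆ ∈ a

/-- the subalgebra -/
def Sub.toLie {a : Submodule F L} (h : Sub a) : LieSubalgebra F L :=
  { a with lie_mem' := fun hx hy => h _ hx _ hy }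

@[simp] lemma Sub.mem_toLie {a : Submodule F L} (h : Sub a) {x : L} : x ∈ h.toLie ↔ x ∈ a :=
  Iff.rfl

lemma Sub.rg_incl {a : Submodule F L} (h : Sub a) : rg h.toLie.incl = a := by
  ext x
  exact ⟨by rintro ⟨b, rfl⟩; exact b.2, fun hx => ⟨⟨x, hx⟩, rfl⟩⟩

lemma Sub.incl_inj {a : Submodule F L} (h : Sub a) : Function.Injective h.toLie.incl :=
  Subtype.val_injective

lemma sub_rg (f : B →ₗ⁅F⁆ L) : Sub (rg f) := by
  rintro _ ⟨a, rfl⟩ _ ⟨b, rfl⟩
  exact ⟨⁅a, b⁆, f.map_lie a b⟩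

lemma Sub.sup_span {a : Submodule F L} (h : Sub a) {x : L} (hx : Nrm x a) : Sub (a ⊔ F ∙ x) := by
  intro u hu v hv
  obtain ⟨u1, hu1, _, hu2, rfl⟩ := Submodule.mem_sup.mp hu
  obtain ⟨v1, hv1, _, hv2, rfl⟩ := Submodule.mem_sup.mp hv
  obtain ⟨s, rfl⟩ := Submodule.mem_span_singleton.mp hu2
  obtain ⟨t, rfl⟩ := Submodule.mem_span_singleton.mp hv2
  apply Submodule.mem_sup_left
  have e : ⁅u1 + s • x, v1 + t • x⁆ = ⁅u1, v1⁆ - t • ⁅x, u1⁆ + s • ⁅x, v1⁆ := by
    simp only [add_lie, lie_add, smul_lie, lie_smul, lie_self, smul_zero, ← lie_skew u1 x]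
    module
  rw [e]
  exact add_mem (sub_mem (h _ hu1 _ hv1) (a.smul_mem _ (hx _ hu1))) (a.smul_mem _ (hx _ hv1))

lemma mem_sup_span {V : Type*} [AddCommGroup V] [Module F V] {a : Submodule F V} {x u : V} :
    u ∈ a ⊔ F ∙ x ↔ ∃ y ∈ a, ∃ t : F, u = y + t • x := by
  simp only [Submodule.mem_sup, Submodule.mem_span_singleton]
  constructor
  · rintro ⟨y, hy, _, ⟨t, rfl⟩, rfl⟩; exact ⟨y, hy, t, rfl⟩
  · rintro ⟨y, hy, t, rfl⟩; exact ⟨y, hy, _, ⟨t, rfl⟩, rfl⟩

lemma mem_sup_span_self {V : Type*} [AddCommGroup V] [Module F V] (a : Submodule F V) (x : V) :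
    x ∈ a ⊔ F ∙ x := Submodule.mem_sup_right (Submodule.mem_span_singleton_self x)

/-- corestriction -/
def cod (f : B →ₗ⁅F⁆ L) (q : LieSubalgebra F L) (h : ∀ x, f x ∈ q) : B →ₗ⁅F⁆ q :=
  { (f : B →ₗ[F] L).codRestrict q.toSubmodule h with
    map_lie' := fun {x y} => Subtype.ext (f.map_lie x y) }

@[simp] lemma cod_val (f : B →ₗ⁅F⁆ L) (q : LieSubalgebra F L) (h : ∀ x, f x ∈ q) (x : B) :
    (cod f q h x : L) = f x := rfl

lemma incl_comp_cod (f : B →ₗ⁅F⁆ L) (q : LieSubalgebra F L) (h : ∀ x, f x ∈ q) :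
    q.incl.comp (cod f q h) = f := rfl

/-- the ideal -/
def mkIdeal (m : Submodule F L) (h : ∀ x, Nrm x m) : LieIdeal F L :=
  { m with lie_mem := fun hy => h _ _ hy }

@[simp] lemma mem_mkIdeal (m : Submodule F L) (h : ∀ x, Nrm x m) {x : L} :
    x ∈ mkIdeal m h ↔ x ∈ m := Iff.rfl

/-- quotient morphism -/
def qmk (I : LieIdeal F L) : L →ₗ⁅F⁆ L ⧸ I :=
  { I.toSubmodule.mkQ with map_lie' := fun {x y} => LieSubmodule.Quotient.mk_bracket I x y }

lemma qmk_surj (I : LieIdeal F L) : Function.Surjective (qmk I) := I.toSubmodule.mkQ_surjective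

@[simp] lemma qmk_eq_zero (I : LieIdeal F L) {x : L} : qmk I x = 0 ↔ x ∈ I :=
  Submodule.Quotient.mk_eq_zero _

/-- subalgebra of the enveloping algebra generated by a subspace -/
def Ua (q : Submodule F L) : Subalgebra F (U F L) := Algebra.adjoin F (ι F '' (q : Set L))

lemma ι_mem_Ua {q : Submodule F L} {x : L} (hx : x ∈ q) : ι F x ∈ Ua q :=
  Algebra.subset_adjoin ⟨x, hx, rfl⟩

lemma Ua_mono {q q' : Submodule F L} (h : q ≤ q') : Ua q ≤ Ua q' :=
  Algebra.adjoin_mono (Set.image_mono h)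

lemma Ua_induction {q : Submodule F L} {P : U F L → Prop} (h1 : P 1)
    (hadd : ∀ u v, P u → P v → P (u + v)) (hsmul : ∀ (c : F) u, P u → P (c • u))
    (hmul : ∀ y ∈ q, ∀ u, P u → P (ι F y * u)) {u : U F L} (hu : u ∈ Ua q) : P u := by
  suffices H : ∀ v, P v → P (u * v) by simpa using H 1 h1
  induction hu using Algebra.adjoin_induction with
  | mem x hx => obtain ⟨y, hy, rfl⟩ := hx; exact hmul y hy
  | algebraMap r => intro v hv; rw [← Algebra.smul_def]; exact hsmul _ _ hv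
  | add a b _ _ ha hb => intro v hv; rw [add_mul]; exact hadd _ _ (ha _ hv) (hb _ hv)
  | mul a b _ _ ha hb => intro v hv; rw [mul_assoc]; exact ha _ (hb _ hv)

lemma Umap_mem_Ua (f : B →ₗ⁅F⁆ L) {q : Submodule F L} (h : ∀ b, f b ∈ q) (u : U F B) :
    Umap f u ∈ Ua q := by
  induction u using U_induction with
  | h1 => rw [map_one]; exact one_mem _
  | hadd u v hu hv => rw [map_add]; exact add_mem hu hv
  | hsmul c u hu => rw [map_smul]; exact Subalgebra.smul_mem _ hu _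
  | hmul y u hu => rw [map_mul, Umap_ι]; exact mul_mem (ι_mem_Ua (h y)) hu

lemma mem_Ua_rg {f : B →ₗ⁅F⁆ L} {u : U F L} (hu : u ∈ Ua (rg f)) : ∃ b, Umap f b = u := by
  refine Ua_induction (P := fun u => ∃ b, Umap f b = u) ⟨1, map_one _⟩ ?_ ?_ ?_ hu
  · rintro _ _ ⟨a, rfl⟩ ⟨b, rfl⟩; exact ⟨a + b, map_add _ _ _⟩
  · rintro c _ ⟨a, rfl⟩; exact ⟨c • a, map_smul _ _ _⟩
  · rintro _ ⟨y, rfl⟩ _ ⟨a, rfl⟩; exact ⟨ι F y * a, by simp⟩

lemma mem_Ua_top (u : U F L) : u ∈ Ua (⊤ : Submodule F L) := by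
  simpa [Umap_id] using Umap_mem_Ua (LieHom.id : L →ₗ⁅F⁆ L) (q := ⊤) (by simp) u

lemma Umap_Ua (f : B →ₗ⁅F⁆ L) {q : Submodule F B} {q' : Submodule F L} (h : ∀ b ∈ q, f b ∈ q')
    {u : U F B} (hu : u ∈ Ua q) : Umap f u ∈ Ua q' := by
  refine Ua_induction (P := fun u => Umap f u ∈ Ua q') ?_ ?_ ?_ ?_ hu
  · rw [map_one]; exact one_mem _
  · intro u v hu hv; rw [map_add]; exact add_mem hu hv
  · intro c u hu; rw [map_smul]; exact Subalgebra.smul_mem _ hu _
  · intro y hy u hu; rw [map_mul, Umap_ι]; exact mul_mem (ι_mem_Ua (h y hy)) hu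

lemma Umap_surj {f : B →ₗ⁅F⁆ L} (hf : Function.Surjective f) : Function.Surjective (Umap f) := by
  intro u
  apply mem_Ua_rg
  rw [show rg f = ⊤ from LinearMap.range_eq_top.mpr hf]
  exact mem_Ua_top u

lemma mono_add {R : Type*} [Monoid R] {k m : ℕ} (y : Fin (k + m) → R) (a : Fin (k + m) → ℕ) :
    mono y a = mono (fun i => y (Fin.castAdd m i)) (fun i => a (Fin.castAdd m i)) *
      mono (fun i => y (Fin.natAdd k i)) (fun i => a (Fin.natAdd k i)) := by
  simp only [mono, List.ofFn_add, List.prod_append]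
  rfl

lemma mono_single_zero {R : Type*} [Monoid R] {m : ℕ} (y : Fin (m + 1) → R) (k : ℕ) :
    mono y (Pi.single 0 k) = y 0 ^ k := by
  rw [mono_succ]
  have : (fun i : Fin m => (Pi.single 0 k : Fin (m + 1) → ℕ) i.succ) = 0 := by
    funext i; simp
  rw [this, mono_zero, mul_one, Pi.single_eq_same]

theorem exists_coord [Module.Finite F B] (f : B →ₗ⁅F⁆ L) (hf : Function.Injective f) {m : ℕ}
    (y : Fin m → L) (hli : ∀ g : Fin m → F, ∑ i, g i • y i ∈ rg f → g = 0)
    (hsp : rg f ⊔ Submodule.span F (Set.range y) = ⊤) :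
    ∃ p : U F L →ₗ[F] ((Fin m → ℕ) →₀ U F B), (∀ b u, p (Umap f b * u) = b • p u) ∧
      (∀ a, p (mono (fun i => ι F (y i)) a) = Finsupp.single a 1) ∧
      ∀ u, (p u).sum (fun a c => Umap f c * mono (fun i => ι F (y i)) a) = u := by
  let b := Module.finBasis F B
  set k := finrank F B
  have hr : Submodule.span F (Set.range (f ∘ b)) = rg f := by
    rw [Set.range_comp, rg, LinearMap.range_eq_map, ← b.span_eq, Submodule.map_span]
    rfl
  have li : LinearIndependent F (Sum.elim (f ∘ b) y) := by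
    refine LinearIndependent.sum_type (b.linearIndependent.map' (f : B →ₗ[F] L)
      (LinearMap.ker_eq_bot.mpr hf)) ?_ ?_
    · rw [Fintype.linearIndependent_iff]
      intro g hg
      exact congrFun (hli g (by rw [hg]; exact zero_mem _))
    · rw [hr, Submodule.disjoint_def]
      intro x hx hx'
      obtain ⟨g, rfl⟩ := (Submodule.mem_span_range_iff_exists_fun F).mp hx'
      simp [hli g hx]
  let z : Basis (Fin (k + m)) F L := (Basis.mk li (by
    rw [Set.Sum.elim_range, Submodule.span_union, hr, hsp])).reindex finSumFinEquiv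
  have z1 : ∀ i, z (Fin.castAdd m i) = f (b i) := fun i => by simp [z]
  have z2 : ∀ i, z (Fin.natAdd k i) = y i := fun i => by simp [z]
  let Ψ : ((Fin m → ℕ) →₀ U F B) →ₗ[F] U F L := Finsupp.lsum F fun a =>
    LinearMap.mulRight F (mono (fun i => ι F (y i)) a) ∘ₗ (Umap f).toLinearMap
  have Ψs : ∀ a c, Ψ (Finsupp.single a c) = Umap f c * mono (fun i => ι F (y i)) a := by
    intro a c; simp [Ψ]
  let e : (Σ _ : Fin m → ℕ, Fin k → ℕ) ≃ (Fin (k + m) → ℕ) :=
    { toFun := fun s => Fin.append s.2 s.1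
      invFun := fun a => ⟨fun i => a (Fin.natAdd k i), fun i => a (Fin.castAdd m i)⟩
      left_inv := fun s => by simp
      right_inv := fun a => Fin.append_castAdd_natAdd }
  let E := (Finsupp.basis (fun _ : Fin m → ℕ => pbw b)).equiv (pbw z) e
  have hE : Ψ = E.toLinearMap := by
    refine (Finsupp.basis (fun _ : Fin m → ℕ => pbw b)).ext fun s => ?_
    rw [LinearEquiv.coe_coe, Basis.equiv_apply, Finsupp.coe_basis]
    simp only [Ψs, pbw_apply, map_mono, Umap_ι]
    rw [mono_add]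
    simp [e, z1, z2]
  have hE' : ∀ g, E g = Ψ g := fun g => by rw [hE]; rfl
  refine ⟨E.symm.toLinearMap, fun c u => ?_, fun a => ?_, fun u => ?_⟩
  · obtain ⟨g, rfl⟩ := E.surjective u
    apply E.injective
    simp only [LinearEquiv.coe_coe, LinearEquiv.apply_symm_apply, LinearEquiv.symm_apply_apply]
    rw [hE', hE']
    induction g using Finsupp.induction_linear with
    | zero => simp
    | add g g' h h' => simp only [map_add, mul_add, smul_add, h, h']
    | single a c' => rw [Finsupp.smul_single, Ψs, Ψs, smul_eq_mul, map_mul, mul_assoc]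
  · apply E.injective
    rw [LinearEquiv.coe_coe, LinearEquiv.apply_symm_apply, hE', Ψs, map_one, one_mul]
  · conv_rhs => rw [← E.apply_symm_apply u, hE']
    simp [Ψ, Finsupp.sum]

lemma exists_compl_family [Module.Finite F L] (W : Submodule F L) : ∃ (m : ℕ) (y : Fin m → L),
    (∀ g : Fin m → F, ∑ i, g i • y i ∈ W → g = 0) ∧ W ⊔ Submodule.span F (Set.range y) = ⊤ := by
  obtain ⟨Q, hQ⟩ := W.exists_isCompl
  let q := Module.finBasis F Q
  refine ⟨_, fun i => q i, fun g hg => ?_, ?_⟩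
  · have : ∑ i, g i • q i = 0 := by
      have h1 : ((∑ i, g i • q i : Q) : L) ∈ W := by simpa using hg
      exact Subtype.ext (Submodule.disjoint_def.mp hQ.disjoint _ h1 (∑ i, g i • q i).2)
    exact funext (Fintype.linearIndependent_iff.mp q.linearIndependent g this)
  · have : Submodule.span F (Set.range fun i => (q i : L)) = Q := by
      conv_rhs => rw [← Q.range_subtype, LinearMap.range_eq_map, ← q.span_eq, Submodule.map_span,
        ← Set.range_comp]
      rfl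
    rw [this, hQ.sup_eq_top]

lemma exists_compl_family' [Module.Finite F L] (W : Submodule F L) {x : L} (hx : x ∉ W) :
    ∃ (m : ℕ) (y : Fin (m + 1) → L), y 0 = x ∧
    (∀ g : Fin (m + 1) → F, ∑ i, g i • y i ∈ W → g = 0) ∧
      W ⊔ Submodule.span F (Set.range y) = ⊤ := by
  obtain ⟨m, y, h1, h2⟩ := exists_compl_family (W ⊔ F ∙ x)
  refine ⟨m, Fin.cons x y, rfl, fun g hg => ?_, ?_⟩
  · rw [Fin.sum_univ_succ] at hg
    simp only [Fin.cons_zero, Fin.cons_succ] at hg
    have h3 := h1 (fun i => g i.succ) (by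
      have := sub_mem (Submodule.mem_sup_left hg : _ ∈ W ⊔ F ∙ x)
        (Submodule.smul_mem _ (g 0) (mem_sup_span_self W x))
      simpa using this)
    have h4 : ∀ i : Fin m, g i.succ = 0 := congrFun h3
    have h5 : g 0 = 0 := by
      by_contra hc
      simp only [h4, zero_smul, Finset.sum_const_zero, add_zero] at hg
      exact hx ((W.smul_mem_iff hc).mp hg)
    funext i
    exact Fin.cases h5 h4 i
  · rw [Fin.range_cons, Submodule.span_insert, ← sup_assoc, h2]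

section Ysec

variable {Λ : Type*} [Ring Λ] [Algebra F Λ] (κ : B →ₗ⁅F⁆ Λ)

/-- the subspace `κ(a) M` -/
def Y (a : Submodule F B) (M : Type*) [AddCommGroup M] [Module Λ M] [Module F M] :
    Submodule F M := Submodule.span F {m | ∃ x ∈ a, ∃ n : M, κ x • n = m}

variable {κ} {M : Type*} [AddCommGroup M] [Module Λ M] [Module F M] [IsScalarTower F Λ M]

omit [IsScalarTower F Λ M] in
lemma mem_Y {a : Submodule F B} {x : B} (hx : x ∈ a) (n : M) : κ x • n ∈ Y κ a M :=
  Submodule.subset_span ⟨x, hx, n, rfl⟩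

omit [IsScalarTower F Λ M] in
lemma Y_mono {a a' : Submodule F B} (h : a ≤ a') : Y κ a M ≤ Y κ a' M :=
  Submodule.span_mono fun _ ⟨x, hx, n, hn⟩ => ⟨x, h hx, n, hn⟩

lemma Y_ind {a : Submodule F B} {P : M → Prop} (h0 : P 0) (hadd : ∀ u v, P u → P v → P (u + v))
    (hgen : ∀ x ∈ a, ∀ n, P (κ x • n)) {m : M} (hm : m ∈ Y κ a M) : P m := by
  suffices H : ∀ c : F, P (c • m) by simpa using H 1
  induction hm using Submodule.span_induction with
  | mem v hv =>
    obtain ⟨x, hx, n, rfl⟩ := hv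
    intro c
    rw [smul_comm]
    exact hgen x hx _
  | zero => simpa
  | add u v _ _ hu hv => intro c; rw [smul_add]; exact hadd _ _ (hu c) (hv c)
  | smul c u _ hu => intro c'; rw [smul_smul]; exact hu _

lemma Y_bot {m : M} (hm : m ∈ Y κ ⊥ M) : m = 0 :=
  Y_ind (P := fun m : M => m = (0 : M)) rfl (fun u v hu hv => by rw [hu, hv, add_zero])
    (fun x hx n => by rw [(Submodule.mem_bot F).mp hx, map_zero, zero_smul]) hm

lemma Y_map {M' : Type*} [AddCommGroup M'] [Module F M'] {G : Type*} [FunLike G M M']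
    [AddMonoidHomClass G M M'] (f : G) {a : Submodule F B} {P : Submodule F M'}
    (h : ∀ x ∈ a, ∀ n, f (κ x • n) ∈ P) {m : M} (hm : m ∈ Y κ a M) : f m ∈ P :=
  Y_ind (P := fun m => f m ∈ P) (by simp) (fun u v hu hv => by rw [map_add]; exact add_mem hu hv)
    h hm

lemma Y_lmap {M' : Type*} [AddCommGroup M'] [Module Λ M'] [Module F M'] (f : M →ₗ[Λ] M')
    {a : Submodule F B} {m : M} (hm : m ∈ Y κ a M) : f m ∈ Y κ a M' :=
  Y_map f (fun x hx n => by rw [map_smul]; exact mem_Y hx _) hm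

omit [IsScalarTower F Λ M] in
lemma Y_smul {a : Submodule F B} {r : Λ} (hr : r ∈ Y κ a Λ) (m : M) : r • m ∈ Y κ a M :=
  Y_lmap (LinearMap.toSpanSingleton Λ M m) hr

lemma Y_mul {a : Submodule F B} {r : Λ} (hr : r ∈ Y κ a Λ) (s : Λ) : r * s ∈ Y κ a Λ :=
  Y_smul hr s

lemma mem_Y' {a : Submodule F B} {x : B} (hx : x ∈ a) : κ x ∈ Y κ a Λ := by
  simpa using mem_Y (κ := κ) (M := Λ) hx 1

lemma κ_comm (x y : B) : κ x * κ y = κ y * κ x + κ ⁅x, y⁆ := by
  rw [LieHom.map_lie, LieRing.of_associative_ring_bracket]; abel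

lemma smul_mem_Y {a : Submodule F B} {r : Λ} (hr : ∀ x ∈ a, r * κ x ∈ Y κ a Λ) {m : M}
    (hm : m ∈ Y κ a M) : r • m ∈ Y κ a M :=
  Y_map (DistribSMul.toAddMonoidHom M r) (fun x hx n => by
    simpa [smul_smul] using Y_smul (hr x hx) n) hm

lemma Nrm.smul_mem_Y {a : Submodule F B} {x : B} (hx : Nrm x a) {m : M} (hm : m ∈ Y κ a M) :
    κ x • m ∈ Y κ a M :=
  Pool.Agent.P.MP_37e2d5_al.smul_mem_Y (fun y hy => by
    rw [κ_comm]; exact add_mem (mem_Y hy _) (mem_Y' (hx y hy))) hm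

lemma comm_smul_mem_Y {a : Submodule F B} {r : Λ} (hr : ∀ x ∈ a, r * κ x = κ x * r) {m : M}
    (hm : m ∈ Y κ a M) : r • m ∈ Y κ a M :=
  smul_mem_Y (fun y hy => by rw [hr y hy]; exact mem_Y hy _) hm

lemma mem_Y_sup {a : Submodule F B} {x : B} {m : M} (hm : m ∈ Y κ (a ⊔ F ∙ x) M) :
    ∃ n, m - κ x • n ∈ Y κ a M := by
  refine Y_ind (P := fun m => ∃ n, m - κ x • n ∈ Y κ a M) ⟨0, by simp⟩ ?_ ?_ hm
  · rintro u v ⟨n, hn⟩ ⟨n', hn'⟩
    refine ⟨n + n', ?_⟩
    convert add_mem hn hn' using 1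
    rw [smul_add]; abel
  · intro y' hy' n
    obtain ⟨y, hy, t, rfl⟩ := mem_sup_span.mp hy'
    refine ⟨t • n, ?_⟩
    rw [map_add, map_smul, add_smul, smul_assoc, smul_comm t (κ x) n, add_sub_cancel_right]
    exact mem_Y hy _

end Ysec

end

end Pool.Agent.P.MP_37e2d5_al
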