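import Pool.Agent.P.MP_37e2d5_al.Basic

/-! Finite free resolutions over rings with a monomial basis (Janet bases). -/

namespace Pool.Agent.P.MP_37e2d5_al

open Module

noncomputable section

universe u

/-- weighted degree -/
def wt {n : ℕ} (w a : Fin n → ℕ) : ℕ := ∑ i, w i * a i

lemma wt_add {n : ℕ} (w a b : Fin n → ℕ) : wt w (a + b) = wt w a + wt w b := by
  simp [wt, mul_add, Finset.sum_add_distrib]

lemma wt_single {n : ℕ} (w : Fin n → ℕ) (i : Fin n) : wt w (Pi.single i 1) = w i := by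
  simp [wt, Pi.single_apply]

@[simp] lemma wt_zero {n : ℕ} (w : Fin n → ℕ) : wt w 0 = 0 := by simp [wt]

lemma wt_scale {n : ℕ} (c : ℕ) (w a : Fin n → ℕ) : wt (fun i => c * w i) a = c * wt w a := by
  simp [wt, Finset.mul_sum, mul_assoc]

/-- largest index in the support -/
def hi {n : ℕ} (a : Fin n → ℕ) (h : ∃ μ, a μ ≠ 0) : Fin n :=
  (Finset.univ.filter fun i => a i ≠ 0).max' (by obtain ⟨μ, hμ⟩ := h; exact ⟨μ, by simpa⟩)

lemma hi_ne {n : ℕ} (a : Fin n → ℕ) (h : ∃ μ, a μ ≠ 0) : a (hi a h) ≠ 0 := by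
  have := Finset.max'_mem (Finset.univ.filter fun i => a i ≠ 0)
    (by obtain ⟨μ, hμ⟩ := h; exact ⟨μ, by simpa⟩)
  simpa [hi] using this

lemma le_hi {n : ℕ} (a : Fin n → ℕ) (h : ∃ μ, a μ ≠ 0) {i : Fin n} (hi' : a i ≠ 0) :
    i ≤ hi a h := Finset.le_max' _ _ (by simpa)

lemma hi_eq {n : ℕ} (a : Fin n → ℕ) (i : Fin n) (ha : ∀ i' : Fin n, i.1 + 1 ≤ i' → a i' = 0)
    (h : ∃ μ, (a + Pi.single i 1 : Fin n → ℕ) μ ≠ 0) : hi (a + Pi.single i 1) h = i := by
  apply le_antisymm _ (le_hi _ _ (by simp))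
  by_contra hc
  push Not at hc
  apply hi_ne _ h
  simp [ha _ hc, Pi.single_eq_of_ne hc.ne']

variable {F : Type*} [Field F] {Λ : Type u} [Ring Λ] [Algebra F Λ] {n : ℕ}

/-- the filtration hypothesis -/
def Hm (m : Basis (Fin n → ℕ) F Λ) (w : Fin n → ℕ) : Prop :=
  ∀ a b, m a * m b - m (a + b) ∈ fil F m (wt w) (wt w a + wt w b)

lemma Hm.scale {m : Basis (Fin n → ℕ) F Λ} {w : Fin n → ℕ} (h : Hm m w) {c : ℕ} (hc : 0 < c) :
    Hm m fun i => c * w i := fun a b =>
  fil_le (P := fil F m _ _) (fun i hi => mem_fil _ _ (by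
    simp only [wt_scale]; nlinarith)) (h a b)

/-- multiplicative indices -/
abbrev JI {J : Type u} (n : ℕ) (cl : J → ℕ) : Type u :=
  {p : J × (Fin n → ℕ) // ∀ i : Fin n, cl p.1 ≤ i → p.2 i = 0}

/-- Janet basis -/
def Janet (m : Basis (Fin n → ℕ) F Λ) (w : Fin n → ℕ) (N : Type u) [AddCommGroup N] [Module Λ N]
    [Module F N] {J : Type u} (gen : J → N) (cl pw : J → ℕ) : Prop :=
  ∃ b : Basis (JI n cl) F N, (∀ p, b p = m p.1.2 • gen p.1.1) ∧
    ∀ j (i : Fin n), cl j ≤ i → m (Pi.single i 1) • gen j ∈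
      fil F b (fun p => wt w p.1.2 + pw p.1.1) (w i + pw j)

lemma janet_step {m : Basis (Fin n → ℕ) F Λ} {w : Fin n → ℕ} (hm : Hm m w) {N : Type u}
    [AddCommGroup N] [Module Λ N] [Module F N] [IsScalarTower F Λ N] {J : Type u} {gen : J → N}
    {cl pw : J → ℕ} (h : Janet m w N gen cl pw) :
    Function.Surjective (Finsupp.linearCombination Λ gen) ∧
    ∃ (gen' : {p : J × Fin n // cl p.1 ≤ p.2} → LinearMap.ker (Finsupp.linearCombination Λ gen)),
      Janet m (fun i => (n + 1) * w i) _ gen' (fun p => p.1.2 + 1)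
        (fun p => (n + 1) * (pw p.1.1 + w p.1.2) + (n - p.1.2)) := by
  classical
  obtain ⟨b, hb, hlow⟩ := h
  set π := Finsupp.linearCombination Λ gen with hπ
  let e : Basis (J × (Fin n → ℕ)) F (J →₀ Λ) :=
    (Finsupp.basis fun _ : J => m).reindex (Equiv.sigmaEquivProd _ _)
  have he : ∀ p, e p = Finsupp.single p.1 (m p.2) := fun p => by simp [e]
  let ω : J × (Fin n → ℕ) → ℕ := fun p => wt w p.2 + pw p.1
  have m1 : ∀ a j c, m a • e (j, c) - e (j, a + c) ∈ fil F e ω (wt w a + wt w c + pw j) := by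
    intro a j c
    have := fil_map_mem (Finsupp.lsingle j : Λ →ₗ[F] J →₀ Λ)
      (P := fil F e ω (wt w a + wt w c + pw j)) (fun i hi => by
        have := mem_fil (F := F) e ω (i := (j, i)) (d := wt w a + wt w c + pw j)
          (by simp only [ω]; omega)
        rwa [he] at this) (hm a c)
    simpa [he] using this
  have m2 : ∀ a d, ∀ v ∈ fil F e ω d, m a • v ∈ fil F e ω (wt w a + d) := by
    intro a d v hv
    refine fil_map_mem (DistribSMul.toLinearMap F _ (m a)) (fun p hp => ?_) hv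
    have h1 := fil_mono e ω (by simp only [ω] at hp; omega : _ ≤ wt w a + d) (m1 a p.1 p.2)
    have h2 := mem_fil (F := F) e ω (i := (p.1, a + p.2)) (d := wt w a + d)
      (by simp only [ω, wt_add] at hp ⊢; omega)
    simpa using add_mem h1 h2
  let lf : N →ₗ[F] (J →₀ Λ) := b.constr F fun p => e p.1
  have πe : ∀ p : JI n cl, π (e p.1) = b p := fun p => by simp [he, hπ, hb]
  have πlf : ∀ v, π (lf v) = v := by
    have : π.restrictScalars F ∘ₗ lf = LinearMap.id := b.ext fun p => by simp [lf, πe]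
    exact LinearMap.congr_fun this
  refine ⟨fun v => ⟨_, πlf v⟩, ?_⟩
  let κ : J → Fin n → (J →₀ Λ) := fun j i =>
    e (j, Pi.single i 1) - lf (m (Pi.single i 1) • gen j)
  have κ1 : ∀ j i, π (κ j i) = 0 := fun j i => by
    rw [map_sub, πlf]; simp [he, hπ]
  have κ2 : ∀ j (i : Fin n), cl j ≤ i → ∀ a, m a • κ j i - e (j, a + Pi.single i 1) ∈
      fil F e ω (ω (j, a + Pi.single i 1)) := by
    intro j i hji a
    have h1 : lf (m (Pi.single i 1) • gen j) ∈ fil F e ω (w i + pw j) :=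
      fil_map_mem lf (fun p hp => by
        simp only [lf, Basis.constr_basis]; exact mem_fil _ _ hp) (hlow j i hji)
    have h2 := m2 a _ _ h1
    have h3 := m1 a j (Pi.single i 1)
    rw [wt_single, add_assoc] at h3
    convert sub_mem h3 h2 using 1
    · simp only [ω, wt_add, wt_single, add_assoc]
    · simp only [κ, smul_sub]; abel
  let E : J × (Fin n → ℕ) → (J →₀ Λ) := fun p =>
    if h : ∃ i : Fin n, cl p.1 ≤ i ∧ p.2 i ≠ 0 then
      m (p.2 - Pi.single (hi p.2 (h.imp fun _ => And.right)) 1) •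
        κ p.1 (hi p.2 (h.imp fun _ => And.right))
    else e p
  have hcl : ∀ (p : J × (Fin n → ℕ)) (h : ∃ i : Fin n, cl p.1 ≤ i ∧ p.2 i ≠ 0),
      cl p.1 ≤ hi p.2 (h.imp fun _ => And.right) := by
    rintro p ⟨i, h1, h2⟩
    exact h1.trans (le_hi _ _ h2)
  have hE : ∀ p, E p - e p ∈ fil F e ω (ω p) := by
    intro p
    simp only [E]
    split_ifs with h
    · have := κ2 p.1 _ (hcl p h) (p.2 - Pi.single (hi p.2 (h.imp fun _ => And.right)) 1)
      rwa [sub_single_add (hi_ne _ _)] at this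
    · simp
  let EB := triBasis e ω E hE
  let gen' : {p : J × Fin n // cl p.1 ≤ p.2} → LinearMap.ker π := fun p => ⟨κ p.1.1 p.1.2, κ1 _ _⟩
  let φ : JI n (fun p : {p : J × Fin n // cl p.1 ≤ p.2} => p.1.2.1 + 1) → J × (Fin n → ℕ) :=
    fun q => (q.1.1.1.1, q.1.2 + Pi.single q.1.1.1.2 1)
  let b' : JI n (fun p : {p : J × Fin n // cl p.1 ≤ p.2} => p.1.2.1 + 1) → LinearMap.ker π :=
    fun q => m q.1.2 • gen' q.1.1
  have hφ : ∀ q, E (φ q) = b' q := by
    intro q
    have h : ∃ i : Fin n, cl (φ q).1 ≤ i ∧ (φ q).2 i ≠ 0 := ⟨q.1.1.1.2, q.1.1.2, by simp [φ]⟩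
    simp only [E, dif_pos h]
    have : hi (φ q).2 (h.imp fun _ => And.right) = q.1.1.1.2 := hi_eq _ _ q.2 _
    rw [this]
    simp [φ, b', gen']
  have φinj : Function.Injective φ := by
    rintro ⟨⟨⟨⟨j, i⟩, h1⟩, a⟩, h2⟩ ⟨⟨⟨⟨j', i'⟩, h1'⟩, a'⟩, h2'⟩ h
    simp only [φ, Prod.mk.injEq] at h
    obtain ⟨rfl, h⟩ := h
    have e1 := hi_eq a i h2 ⟨i, by simp⟩
    have e2 := hi_eq a' i' h2' ⟨i', by simp⟩
    simp only [h] at e1
    obtain rfl : i = i' := e1.symm.trans e2
    obtain rfl : a = a' := add_right_cancel h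
    rfl
  have φsurj : ∀ p : J × (Fin n → ℕ), (∃ i : Fin n, cl p.1 ≤ i ∧ p.2 i ≠ 0) → ∃ q, φ q = p := by
    intro p h
    refine ⟨⟨(⟨(p.1, hi p.2 (h.imp fun _ => And.right)), hcl p h⟩,
      p.2 - Pi.single (hi p.2 (h.imp fun _ => And.right)) 1), fun i hi' => ?_⟩, ?_⟩
    · have : p.2 i = 0 := by
        by_contra hc
        have := le_hi p.2 (h.imp fun _ => And.right) hc
        simp only at hi'
        omega
      simp [this]
    · simp only [φ, sub_single_add (hi_ne _ _)]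
  have K : ∀ d (v : LinearMap.ker π), (v : J →₀ Λ) ∈ fil F e ω d → v ∈ fil F b' (ω ∘ φ) d := by
    intro d v hv
    rw [← fil_eq_of_tri e ω E hE] at hv
    have hv' : (v : J →₀ Λ) ∈ fil F EB ω d := by
      convert hv using 2
      funext p
      simp [EB]
    rw [fil, ← Submodule.apply_mem_span_image_iff_mem_span
      (f := (LinearMap.ker π).subtype.restrictScalars F) Subtype.val_injective]
    refine Submodule.span_mono ?_ (EB.mem_span_repr_support (v : J →₀ Λ))
    rintro _ ⟨p, hp, rfl⟩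
    have hp' : EB.repr v p ≠ 0 := by simpa using hp
    have h : ∃ i : Fin n, cl p.1 ≤ i ∧ p.2 i ≠ 0 := by
      by_contra hc
      push Not at hc
      have : b.coord ⟨p, hc⟩ ∘ₗ π.restrictScalars F = EB.coord p := EB.ext fun p' => by
        by_cases h' : ∃ i : Fin n, cl p'.1 ≤ i ∧ p'.2 i ≠ 0
        · have hne : p' ≠ p := by
            rintro rfl
            obtain ⟨i, h1, h2⟩ := h'
            exact h2 (hc i h1)
          rw [Basis.coord_apply, Basis.repr_self, Finsupp.single_eq_of_ne hne.symm]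
          simp [EB, E, dif_pos h', κ1]
        · have e1 : EB p' = e p' := by simp [EB, E, dif_neg h']
          push Not at h'
          rw [Basis.coord_apply, Basis.repr_self, e1, LinearMap.comp_apply,
            LinearMap.restrictScalars_apply, πe ⟨p', h'⟩]
          simp [Finsupp.single_apply]
      apply hp'
      rw [← Basis.coord_apply, ← this]
      simp
    obtain ⟨q, rfl⟩ := φsurj p h
    exact ⟨b' q, ⟨q, (mem_fil_basis EB ω).mp hv' _ hp', rfl⟩, by simp [EB, hφ]⟩
  have li : LinearIndependent F b' := by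
    refine LinearIndependent.of_comp ((LinearMap.ker π).subtype.restrictScalars F) ?_
    have : ((LinearMap.ker π).subtype.restrictScalars F) ∘ b' = EB ∘ φ := by
      funext q
      simp [EB, hφ]
    rw [this]
    exact EB.linearIndependent.comp φ φinj
  refine ⟨gen', Basis.mk li (fun v _ => ?_), fun q => by simp [b'], fun j i' hi' => ?_⟩
  · obtain ⟨d, hd⟩ := exists_mem_fil e ω (v : J →₀ Λ)
    exact Submodule.span_mono (Set.image_subset_range _ _) (K d v hd)
  · obtain ⟨⟨j, i⟩, hj⟩ := j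
    simp only at hi' hj ⊢
    have hj' : cl j ≤ i' := by omega
    rw [Basis.coe_mk]
    let q : JI n (fun p : {p : J × Fin n // cl p.1 ≤ p.2} => p.1.2.1 + 1) :=
      ⟨(⟨(j, i'), hj'⟩, Pi.single i 1), fun k hk => Pi.single_eq_of_ne (by
        rintro rfl; simp only at hk; omega) _⟩
    have h1 := K (ω (j, Pi.single i' 1 + Pi.single i 1))
      (m (Pi.single i' 1) • gen' ⟨(j, i), hj⟩ - b' q) (by
        have a1 := κ2 j i hj (Pi.single i' 1)
        have a2 := κ2 j i' hj' (Pi.single i 1)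
        rw [add_comm] at a2
        simpa [b', gen', q] using sub_mem a1 a2)
    rw [← sub_add_cancel (m (Pi.single i' 1) • gen' ⟨(j, i), hj⟩) (b' q)]
    refine add_mem (fil_le (fun q' hq' => mem_fil _ _ ?_) h1) (mem_fil _ _ ?_)
    · simp only [Function.comp, ω, φ, wt_add, wt_single, wt_scale] at hq' ⊢
      have : (n + 1) * (wt w q'.1.2 + w q'.1.1.1.2 + pw q'.1.1.1.1 + 1) ≤
        (n + 1) * (w i' + w i + pw j) := Nat.mul_le_mul_left _ hq'
      have h3 : n - q'.1.1.1.2.1 ≤ n := Nat.sub_le _ _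
      nlinarith [Nat.zero_le (n - i)]
    · simp only [q, wt_single]
      have : n - i' < n - i := by omega
      nlinarith

theorem gd (m : Basis (Fin n → ℕ) F Λ) (w : Fin n → ℕ) (hw : ∀ i, 0 < w i) (hm : Hm m w)
    (m0 : m 0 = 1)
    (Q : ∀ (N : Type u) [AddCommGroup N] [Module Λ N] [Module F N] [IsScalarTower F Λ N], Prop)
    (h0 : ∀ (N : Type u) [AddCommGroup N] [Module Λ N] [Module F N] [IsScalarTower F Λ N],
      Subsingleton N → Q N)
    (hs : ∀ (N : Type u) [AddCommGroup N] [Module Λ N] [Module F N] [IsScalarTower F Λ N]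
      (J : Type u) (π : (J →₀ Λ) →ₗ[Λ] N), Function.Surjective π → Q (LinearMap.ker π) → Q N)
    (N : Type u) [AddCommGroup N] [Module Λ N] [Module F N] [IsScalarTower F Λ N] : Q N := by
  have key : ∀ (r : ℕ) (w : Fin n → ℕ), Hm m w → ∀ (N : Type u) [AddCommGroup N] [Module Λ N]
      [Module F N] [IsScalarTower F Λ N] (J : Type u) (gen : J → N) (cl pw : J → ℕ),
      (∀ j, cl j ≤ n ∧ n + 1 ≤ cl j + r) → Janet m w N gen cl pw → Q N := by
    intro r
    induction r with
    | zero =>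
      intro w _ N _ _ _ _ J gen cl pw h ⟨b, _⟩
      have : IsEmpty (JI n cl) := ⟨fun p => by have := h p.1.1; omega⟩
      exact h0 N b.repr.toEquiv.subsingleton
    | succ r ih =>
      intro w hm N _ _ _ _ J gen cl pw h hJ
      obtain ⟨h1, gen', h2⟩ := janet_step hm hJ
      refine hs N J _ h1 (ih _ (hm.scale (Nat.succ_pos n)) _ _ gen' _ _ (fun p => ?_) h2)
      have := h p.1.1
      have := p.2
      have := p.1.2.2
      omega
  let b := Basis.ofVectorSpace F N
  let e : Basis.ofVectorSpaceIndex F N ≃ JI n (fun _ : Basis.ofVectorSpaceIndex F N => 0) :=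
    { toFun := fun j => ⟨(j, 0), fun _ _ => rfl⟩
      invFun := fun p => p.1.1
      left_inv := fun _ => rfl
      right_inv := fun p => Subtype.ext (Prod.ext rfl (funext fun i => (p.2 i (by simp)).symm)) }
  refine key (n + 1) w hm N _ b (fun _ => 0) (fun _ => 0) (by simp)
    ⟨b.reindex e, fun p => ?_, fun j i _ => ?_⟩
  · obtain ⟨j, rfl⟩ := e.surjective p
    simp [e, m0]
  · rw [mem_fil_basis]
    intro p _
    obtain ⟨j, rfl⟩ := e.surjective p
    simpa [e] using hw i

end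

end Pool.Agent.P.MP_37e2d5_al
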