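import Pool.Agent.P.MP_37e2d5_al.Weights

/-! The Harish-Chandra projection. -/

namespace Pool.Agent.P.MP_37e2d5_al

open UniversalEnvelopingAlgebra Module LieAlgebra

attribute [local instance 100] LieRing.ofAssociativeRing
attribute [-simp] UniversalEnvelopingAlgebra.ι_apply

noncomputable section

variable {F : Type*} [Field F] {C L : Type*} [LieRing C] [LieAlgebra F C]
  [LieRing L] [LieAlgebra F L]

lemma ua_dec [Module.Finite F L] {q p n : Submodule F L} (hq : Sub q) (hp : Sub p) (hn : Sub n)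
    (hpq : p ≤ q) (hnq : n ≤ q) (hd : Disjoint p n) (hs : q ≤ p ⊔ n) {u : U F L} (hu : u ∈ Ua q) :
    ∃ b ∈ Ua p, ∀ P : Submodule F (U F L), (∀ v ∈ Ua q, ∀ y ∈ n, v * ι F y ∈ P) → u - b ∈ P := by
  rw [← hq.rg_incl] at hu
  obtain ⟨u, rfl⟩ := mem_Ua_rg hu
  let f : hp.toLie →ₗ⁅F⁆ hq.toLie := cod hp.toLie.incl hq.toLie fun y => hpq y.2
  let n' : Submodule F hq.toLie := n.comap (hq.toLie.incl : hq.toLie →ₗ[F] L)
  obtain ⟨π, -, -, -, h⟩ := exists_proj f
    (fun a b h => Subtype.ext (congrArg (Subtype.val : hq.toLie → L) h)) (n := n')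
    (fun x hx y hy => hn _ hx _ hy) ⟨Submodule.disjoint_def.mpr (by
      rintro _ ⟨x, rfl⟩ hx
      exact Subtype.ext (Submodule.disjoint_def.mp hd _ x.2 hx)),
      codisjoint_iff.mpr (eq_top_iff.mpr (by
        rintro ⟨x, hx⟩ -
        obtain ⟨a, ha, b, hb, rfl⟩ := Submodule.mem_sup.mp (hs hx)
        exact Submodule.mem_sup.mpr ⟨f ⟨a, ha⟩, ⟨_, rfl⟩, ⟨b, hnq hb⟩, hb, rfl⟩))⟩
  refine ⟨Umap hp.toLie.incl (π u), Umap_mem_Ua _ (fun b => b.2) _, fun P hP => ?_⟩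
  have e : Umap hp.toLie.incl (π u) = Umap hq.toLie.incl (Umap f (π u)) := by
    rw [Umap_Umap]; rfl
  rw [e, ← map_sub]
  refine lI_ind (P := fun v => Umap hq.toLie.incl v ∈ P) (by simp)
    (fun u v hu hv => by rw [map_add]; exact add_mem hu hv) (fun x hx v => ?_) (h u)
  rw [map_mul, Umap_ι]
  exact hP _ (Umap_mem_Ua _ (fun b => b.2) _) _ hx

lemma ua_dec_right [Module.Finite F L] {q p n : Submodule F L} (hq : Sub q) (hp : Sub p)
    (hn : Sub n) (hpq : p ≤ q) (hnq : n ≤ q) (hd : Disjoint p n) (hs : q ≤ p ⊔ n) {u : U F L}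
    (hu : u ∈ Ua q) : ∃ b ∈ Ua p, u - b ∈ rI n := by
  obtain ⟨b, hb, h⟩ := ua_dec hq hp hn hpq hnq hd hs (anti_Ua hu)
  refine ⟨anti b, anti_Ua hb, ?_⟩
  simpa using anti_lI (h ((lI n).restrictScalars F) fun v _ y hy => mem_lI v hy)

variable [CharZero F] (i : C →ₗ⁅F⁆ L) (l : Ch F C →ₗ[ℚ] ℚ)

/-- positive part -/
def nP : Submodule F L := WS i {β | 0 < l β}

/-- zero part -/
def zP : Submodule F L := WS i {β | l β = 0}

/-- nonnegative part -/
def pP : Submodule F L := WS i {β | 0 ≤ l β}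

lemma zP_neg : zP i (-l) = zP i l := by simp [zP]

lemma sub_nP : Sub (nP i l) := fun _ hx _ hy =>
  lie_mem_WS (fun β hβ γ hγ => by simp only [Set.mem_ofPred_eq, map_add] at *; linarith) hx hy

lemma sub_zP : Sub (zP i l) := fun _ hx _ hy =>
  lie_mem_WS (fun β hβ γ hγ => by simp only [Set.mem_ofPred_eq, map_add] at *; linarith) hx hy

lemma sub_pP : Sub (pP i l) := fun _ hx _ hy =>
  lie_mem_WS (fun β hβ γ hγ => by simp only [Set.mem_ofPred_eq, map_add] at *; linarith) hx hy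

variable {i l} in
lemma nrm_nP {x : L} (hx : x ∈ pP i l) : Nrm x (nP i l) := fun _ hy =>
  lie_mem_WS (fun β hβ γ hγ => by simp only [Set.mem_ofPred_eq, map_add] at *; linarith) hx hy

lemma nP_le_pP : nP i l ≤ pP i l := WS_mono fun β (h : 0 < l β) => h.le

lemma zP_le_pP : zP i l ≤ pP i l := WS_mono fun _ h => le_of_eq (Eq.symm h)

lemma zP_le_pP_neg : zP i l ≤ pP i (-l) := zP_neg i l ▸ zP_le_pP i (-l)

lemma W_zero_le_zP : W i 0 ≤ zP i l := fun _ hx => mem_WS (by simp) hx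

omit [CharZero F] in
lemma Sub.inf {a b : Submodule F L} (ha : Sub a) (hb : Sub b) : Sub (a ⊓ b) :=
  fun _ hx _ hy => ⟨ha _ hx.1 _ hy.1, hb _ hx.2 _ hy.2⟩

variable [LieRing.IsNilpotent C]

lemma disjoint_pP_nP : Disjoint (pP i (-l)) (nP i l) :=
  WS_disjoint i (Set.disjoint_left.mpr fun β h1 h2 => by
    simp only [Set.mem_ofPred_eq, LinearMap.neg_apply] at h1 h2; linarith)

variable [Dec i]

variable {i} in
omit [CharZero F] in
lemma Stb.le_sup {q : Submodule F L} (hq : Stb i q) {S T R : Set (Ch F C)}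
    (h : ∀ β ∈ R, β ∈ S ∨ β ∈ T) : q ⊓ WS i R ≤ (q ⊓ WS i S) ⊔ (q ⊓ WS i T) := fun _ hx =>
  hq.indS (P := fun x => x ∈ (q ⊓ WS i S) ⊔ (q ⊓ WS i T)) (zero_mem _) (fun _ _ => add_mem)
    (fun β hβ _ hx hx' => (h β hβ).elim (fun h => Submodule.mem_sup_left ⟨hx, mem_WS h hx'⟩)
      (fun h => Submodule.mem_sup_right ⟨hx, mem_WS h hx'⟩)) hx.1 hx.2

variable {i} in
lemma Stb.le_pP_sup_nP {q : Submodule F L} (hq : Stb i q) :
    q ≤ (q ⊓ pP i (-l)) ⊔ (q ⊓ nP i l) := fun x hx =>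
  hq.le_sup (R := Set.univ) (fun β _ => by
    simp only [Set.mem_ofPred_eq, LinearMap.neg_apply]
    rcases le_or_gt (l β) 0 with h | h
    · left; linarith
    · right; exact h) ⟨hx, Dec.top x⟩

variable {i} in
lemma Stb.pP_le {q : Submodule F L} (hq : Stb i q) :
    q ⊓ pP i l ≤ (q ⊓ zP i l) ⊔ (q ⊓ nP i l) :=
  hq.le_sup (fun _ h => (eq_or_lt_of_le h).imp Eq.symm id)

lemma isCompl_pP_nP : IsCompl (pP i (-l)) (nP i l) :=
  ⟨disjoint_pP_nP i l, codisjoint_iff.mpr (eq_top_iff.mpr (by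
    simpa using (stb_top i).le_pP_sup_nP l))⟩

variable {i l} [Module.Finite F L]

lemma hc_unique {u : U F L} (hu : u ∈ Ua (pP i (-l))) (h : u ∈ lI (nP i l)) : u = 0 :=
  eq_zero_of_compl (sub_pP i _) (sub_nP i _) (isCompl_pP_nP i l) hu h

lemma neg_mem_rI {q : Submodule F L} (hq : Sub q) (hs : Stb i q) {u : U F L} (hu : u ∈ Ua q)
    {β : Ch F C} (hβ : l β < 0) (h : u ∈ W (jU i) β) : u ∈ rI (q ⊓ nP i (-l)) := by
  obtain ⟨b, hb, h1⟩ := ua_dec_right hq (hq.inf (sub_pP i l)) (hq.inf (sub_nP i (-l)))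
    inf_le_left inf_le_left (by
      simpa using (disjoint_pP_nP i (-l)).mono inf_le_right inf_le_right)
    (by simpa using hs.le_pP_sup_nP (-l)) hu
  have h2 := (hs.inf (stb_WS i _)).rI.pr_mem h1 β
  have h3 : b ∈ WS (jU i) {β | 0 ≤ l β} := Ua_mem_WS (by simp)
    (fun β hβ γ hγ => by simp only [Set.mem_ofPred_eq, map_add] at *; linarith) inf_le_right hb
  rwa [map_sub, pr_of_mem h, pr_of_WS (by simpa) h3, sub_zero] at h2

omit [Module.Finite F L] in
lemma zero_part {q : Submodule F L} (hs : Stb i q) {b : U F L} (hb : b ∈ Ua (q ⊓ pP i l))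
    (h : b ∈ W (jU i) 0) : b ∈ Ua (q ⊓ zP i l) := by
  have hz : ∀ u ∈ Ua (q ⊓ zP i l), u ∈ WS (jU i) {β | l β = 0} := fun u hu => Ua_mem_WS (by simp)
    (fun β hβ γ hγ => by simp only [Set.mem_ofPred_eq, map_add] at *; linarith) inf_le_right hu
  obtain ⟨b0, hb0, h1⟩ : ∃ b0 ∈ Ua (q ⊓ zP i l), b - b0 ∈ WS (jU i) {β | 0 < l β} := by
    refine Ua_induction (P := fun b => ∃ b0 ∈ Ua (q ⊓ zP i l), b - b0 ∈ WS (jU i) {β | 0 < l β})
      ⟨1, one_mem _, by simp⟩ ?_ ?_ ?_ hb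
    · rintro u v ⟨a, ha, h1⟩ ⟨b, hb, h2⟩
      exact ⟨a + b, add_mem ha hb, by convert add_mem h1 h2 using 1; abel⟩
    · rintro c u ⟨a, ha, h1⟩
      exact ⟨c • a, Subalgebra.smul_mem _ ha _, by
        convert Submodule.smul_mem _ c h1 using 1; rw [smul_sub]⟩
    · rintro y hy u ⟨a, ha, h1⟩
      obtain ⟨y0, hy0, y1, hy1, rfl⟩ := Submodule.mem_sup.mp (hs.pP_le l hy)
      refine ⟨ι F y0 * a, mul_mem (ι_mem_Ua hy0) ha, ?_⟩
      have a1 := mul_mem_WS (R := {β | 0 < l β}) (fun β hβ γ hγ => by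
        simp only [Set.mem_ofPred_eq, map_add] at *; linarith) (WS_map (ι F) hy.2) h1
      have a2 := mul_mem_WS (R := {β | 0 < l β}) (fun β hβ γ hγ => by
        simp only [Set.mem_ofPred_eq, map_add] at *; linarith) (WS_map (ι F) hy1.2) (hz a ha)
      convert add_mem a1 a2 using 1
      rw [map_add]; noncomm_ring
  have := eq_zero_of_WS (S := {β | l β = 0}) (fun β h1 h2 => by
    simp only [Set.mem_ofPred_eq] at *; linarith) (sub_mem (mem_WS (by simp) h) (hz _ hb0)) h1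
  rwa [sub_eq_zero.mp this]

theorem hc (l : Ch F C →ₗ[ℚ] ℚ) {q : Submodule F L} (hq : Sub q) (hs : Stb i q) {a : U F L}
    (ha : a ∈ Ua q) (h : a ∈ W (jU i) 0) : ∃ a0 ∈ Ua (q ⊓ zP i l),
      a - a0 ∈ lI (q ⊓ nP i l) ∧ a - a0 ∈ rI (q ⊓ nP i (-l)) := by
  obtain ⟨b, hb, h1⟩ := ua_dec hq (hq.inf (sub_pP i (-l))) (hq.inf (sub_nP i l))
    inf_le_left inf_le_left ((disjoint_pP_nP i l).mono inf_le_right inf_le_right)
    (hs.le_pP_sup_nP l) ha
  refine ⟨pr (jU i) 0 b, zP_neg i l ▸ zero_part hs ((hs.inf (stb_WS i _)).Ua.pr_mem hb 0)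
    (pr_mem _ _), ?_, ?_⟩
  · have := (hs.inf (stb_WS i _)).lI.pr_mem (h1 _ fun v _ y hy => mem_lI v hy) 0
    rwa [map_sub, pr_of_mem h] at this
  · have := h1 ((rI (q ⊓ nP i (-l))).comap (pr (jU i) 0)) (by
      intro v hv y hy
      refine hs.Ua.ind (P := fun v => v * ι F y ∈ (rI (q ⊓ nP i (-l))).comap (pr (jU i) 0))
        (by simp) (fun a b ha hb => by rw [add_mul]; exact add_mem ha hb) (fun β v hv hv' => ?_) hv
      refine hs.indS (P := fun y => v * ι F y ∈ (rI (q ⊓ nP i (-l))).comap (pr (jU i) 0))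
        (by simp) (fun a b ha hb => by rw [map_add, mul_add]; exact add_mem ha hb)
        (fun γ hγ y _ hy' => ?_) hy.1 hy.2
      have h2 := mul_mem_W hv' (W_map (ι F) hy')
      rw [Submodule.mem_comap]
      by_cases h0 : 0 = β + γ
      · rw [pr_of_mem (h0 ▸ h2)]
        refine Y_mul (neg_mem_rI hq hs hv ?_ hv') _
        have := congrArg l h0
        simp only [Set.mem_ofPred_eq, map_zero, map_add] at this hγ
        linarith
      · rw [pr_of_ne h0 h2]; exact zero_mem _)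
    rwa [Submodule.mem_comap, map_sub, pr_of_mem h] at this

end

end Pool.Agent.P.MP_37e2d5_al
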