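import Pool.Agent.P.MP_37e2d5_al.Transfer

/-! A monomial basis of the double cover attached to a central element of a Lie algebra. -/

namespace Pool.Agent.P.MP_37e2d5_al

open UniversalEnvelopingAlgebra Module

attribute [local instance 100] LieRing.ofAssociativeRing
attribute [-simp] UniversalEnvelopingAlgebra.ι_apply

noncomputable section

universe u

variable {F : Type*} [Field F] {A : Type u} [Ring A] [Algebra F A]

open QA

lemma fil_of_sub {V I : Type*} [AddCommGroup V] [Module F V] {m : I → V} {ω : I → ℕ} {d d' : ℕ}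
    {x : V} {i : I} (h : x - m i ∈ fil F m ω d) (hd : d ≤ d') (hi : ω i < d') :
    x ∈ fil F m ω d' := by
  simpa using add_mem (fil_mono _ _ hd h) (mem_fil (F := F) m ω hi)

/-- parity splitting of exponents -/
def parE (n : ℕ) : (Fin (n + 1) → ℕ) ⊕ (Fin (n + 1) → ℕ) ≃ (Fin (n + 1) → ℕ) where
  toFun := Sum.elim (fun b => Function.update b 0 (2 * b 0))
    (fun b => Function.update b 0 (2 * b 0 + 1))
  invFun a := if a 0 % 2 = 0 then Sum.inl (Function.update a 0 (a 0 / 2))
    else Sum.inr (Function.update a 0 (a 0 / 2))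
  left_inv := by
    rintro (b | b)
    · simp
    · have : (2 * b 0 + 1) / 2 = b 0 := by omega
      simp [this]
  right_inv a := by
    dsimp only
    split_ifs with h
    · have : 2 * (a 0 / 2) = a 0 := by omega
      simp [this]
    · have : 2 * (a 0 / 2) + 1 = a 0 := by omega
      simp [this]

lemma qa_basis {n : ℕ} (pb : Basis (Fin (n + 1) → ℕ) F A)
    (hmul : ∀ a b, pb a * pb b - pb (a + b) ∈ fil F pb deg (deg a + deg b)) (h0 : pb 0 = 1)
    (t : {t : A // Cen t}) (c : F) (ht : t.1 = pb (Pi.single 0 1) - algebraMap F A c) :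
    ∃ (m : Basis (Fin (n + 1) → ℕ) F (QA t)) (w : Fin (n + 1) → ℕ),
      (∀ i, 0 < w i) ∧ Hm m w ∧ m 0 = 1 := by
  let e : (A × A) ≃ₗ[F] QA t :=
    { toFun := fun p => mk t p.1 p.2
      invFun := fun x => (x.1, x.2)
      map_add' := fun _ _ => rfl
      map_smul' := fun _ _ => rfl
      left_inv := fun _ => rfl
      right_inv := fun _ => rfl }
  let m := ((pb.prod pb).map e).reindex (parE n)
  let w : Fin (n + 1) → ℕ := Fin.cons 1 fun _ => 2
  have ml : ∀ b, m (parE n (Sum.inl b)) = inl F t (pb b) := fun b => by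
    ext <;> simp [m, e]
  have mr : ∀ b, m (parE n (Sum.inr b)) = inl F t (pb b) * s t := fun b => by
    ext <;> simp [m, e]
  have wl : ∀ b, wt w (parE n (Sum.inl b)) = 2 * deg b := fun b => by
    simp [parE, wt, deg, w, Fin.sum_univ_succ, Finset.mul_sum, mul_add]
  have wr : ∀ b, wt w (parE n (Sum.inr b)) = 2 * deg b + 1 := fun b => by
    simp [parE, wt, deg, w, Fin.sum_univ_succ, Finset.mul_sum, mul_add]; ring
  have fl : ∀ d d', 2 * d ≤ d' + 1 → ∀ u ∈ fil F pb deg d, inl F t u ∈ fil F m (wt w) d' :=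
    fun d d' h u hu => fil_map_mem (inl F t).toLinearMap (fun a ha => by
      rw [AlgHom.toLinearMap_apply, ← ml]; exact mem_fil _ _ (by rw [wl]; omega)) hu
  have fr : ∀ d d', 2 * d ≤ d' → ∀ u ∈ fil F pb deg d, inl F t u * s t ∈ fil F m (wt w) d' :=
    fun d d' h u hu => fil_map_mem (LinearMap.mulRight F (s t) ∘ₗ (inl F t).toLinearMap)
      (fun a ha => by
        rw [LinearMap.comp_apply, AlgHom.toLinearMap_apply, LinearMap.mulRight_apply, ← mr]
        exact mem_fil _ _ (by rw [wr]; omega)) hu
  refine ⟨m, w, fun i => Fin.cases (by simp [w]) (by simp [w]) i, fun a b => ?_, ?_⟩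
  · obtain ⟨a | a, rfl⟩ := (parE n).surjective a <;> obtain ⟨b | b, rfl⟩ := (parE n).surjective b
    · have : parE n (Sum.inl a) + parE n (Sum.inl b) = parE n (Sum.inl (a + b)) := by
        funext i
        refine Fin.cases ?_ (fun i => ?_) i <;> simp [parE, mul_add]
      rw [this, ml, ml, ml, wl, wl, ← map_mul, ← map_sub]
      exact fl _ _ (by omega) _ (hmul a b)
    · have : parE n (Sum.inl a) + parE n (Sum.inr b) = parE n (Sum.inr (a + b)) := by
        funext i
        refine Fin.cases ?_ (fun i => ?_) i <;> simp [parE, mul_add, add_assoc]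
      rw [this, ml, mr, mr, wl, wr, ← mul_assoc, ← map_mul, ← sub_mul, ← map_sub]
      exact fr _ _ (by omega) _ (hmul a b)
    · have : parE n (Sum.inr a) + parE n (Sum.inl b) = parE n (Sum.inr (a + b)) := by
        funext i
        refine Fin.cases ?_ (fun i => ?_) i <;> simp [parE, mul_add, add_right_comm]
      rw [this, ml, mr, mr, wl, wr, mul_assoc, ← s_cen t, ← mul_assoc, ← map_mul, ← sub_mul,
        ← map_sub]
      exact fr _ _ (by omega) _ (hmul a b)
    · have : parE n (Sum.inr a) + parE n (Sum.inr b) =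
          parE n (Sum.inl (a + b + Pi.single 0 1)) := by
        funext i
        refine Fin.cases ?_ (fun i => ?_) i <;> simp [parE, mul_add]
        ring
      rw [this, ml, mr, mr, wr, wr, mul_assoc, ← mul_assoc (s t), ← s_cen t, mul_assoc,
        s_mul_s (F := F), ← map_mul, ← map_mul, ← map_sub]
      refine fl (deg a + deg b + 1) _ (by omega) _ ?_
      have h1 : (pb a * pb b - pb (a + b)) * pb (Pi.single 0 1) ∈
          fil F pb deg (deg a + deg b + 1) :=
        fil_map_mem (LinearMap.mulRight F (pb (Pi.single 0 1))) (fun i hi => by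
          have h1 := hmul i (Pi.single 0 1)
          rw [deg_single] at h1
          exact fil_of_sub h1 (by omega) (by rw [deg_add, deg_single]; omega)) (hmul a b)
      have h2 := hmul (a + b) (Pi.single 0 1)
      rw [deg_single, deg_add] at h2
      have h3 : pb a * pb b ∈ fil F pb deg (deg a + deg b + 1) :=
        fil_of_sub (hmul a b) (by omega) (by rw [deg_add]; omega)
      convert sub_mem (add_mem h1 h2) (Submodule.smul_mem _ c h3) using 1
      rw [ht, Algebra.smul_def, Algebra.commutes]
      noncomm_ring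
  · have : (0 : Fin (n + 1) → ℕ) = parE n (Sum.inl 0) := by simp [parE]
    rw [this, ml, h0, map_one]

lemma qa_basis_of_center {H : Type*} [LieRing H] [LieAlgebra F H] [Module.Finite F H]
    (φ : U F H ≃ₐ[F] A) {z : H} (hz : z ≠ 0) (t : {t : A // Cen t}) (c : F)
    (ht : t.1 = φ (ι F z) - algebraMap F A c) :
    ∃ (n : ℕ) (m : Basis (Fin n → ℕ) F (QA t)) (w : Fin n → ℕ),
      (∀ i, 0 < w i) ∧ Hm m w ∧ m 0 = 1 := by
  obtain ⟨n, y, rfl, h1, h2⟩ := exists_compl_family' (⊥ : Submodule F H) (x := z) (by simpa)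
  let x : Basis (Fin (n + 1)) F H := Basis.mk (v := y) (Fintype.linearIndependent_iff.mpr
    fun g hg => congrFun (h1 g (by simpa))) (by simpa using h2)
  refine ⟨n + 1, qa_basis ((pbw x).map φ.toLinearEquiv) (fun a b => ?_) (by simp [pbw_apply]) t c
    (by simp [ht, pbw_single, x])⟩
  have := fil_map_mem φ.toLinearEquiv.toLinearMap
    (P := fil F ((pbw x).map φ.toLinearEquiv) deg (deg a + deg b))
    (fun i hi => mem_fil _ _ hi) (pbw_mul x a b)
  simpa using this

end

end Pool.Agent.P.MP_37e2d5_al
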