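import Pool.Agent.P.MP_37e2d5_al.Wall

/-! Jacobson's refinement of Engel's theorem; graded subalgebras acting nilpotently. -/

namespace Pool.Agent.P.MP_37e2d5_al

open UniversalEnvelopingAlgebra Module LieAlgebra

attribute [local instance 100] LieRing.ofAssociativeRing
attribute [-simp] UniversalEnvelopingAlgebra.ι_apply

noncomputable section

variable {F : Type*} [Field F] {C L : Type*} [LieRing C] [LieAlgebra F C]
  [LieRing L] [LieAlgebra F L]

/-- lower central series of `L` as a module over a subspace -/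
def lcs (a : Submodule F L) : ℕ → Submodule F L
  | 0 => ⊤
  | k + 1 => Submodule.span F {w | ∃ x ∈ a, ∃ v ∈ lcs a k, ⁅x, v⁆ = w}

lemma lie_mem_lcs {a : Submodule F L} {k : ℕ} {x v : L} (hx : x ∈ a) (hv : v ∈ lcs a k) :
    ⁅x, v⁆ ∈ lcs a (k + 1) := Submodule.subset_span ⟨x, hx, v, hv, rfl⟩

lemma Nrm.lcs {a : Submodule F L} {s : L} (hs : Nrm s a) (k : ℕ) : Nrm s (lcs a k) := by
  induction k with
  | zero => exact fun _ _ => trivial
  | succ k ih =>
    refine Submodule.span_le (p := (Pool.Agent.P.MP_37e2d5_al.lcs a (k + 1)).comap (ad F L s))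
      |>.mpr ?_
    rintro _ ⟨x, hx, v, hv, rfl⟩
    simp only [SetLike.mem_coe, Submodule.mem_comap, ad_apply, leibniz_lie s x v]
    exact add_mem (lie_mem_lcs (hs x hx) hv) (lie_mem_lcs hx (ih v hv))

/-- all elements are ad-nilpotent -/
def Nil (a : Submodule F L) : Prop := ∀ x ∈ a, IsNilpotent (ad F L x)

variable [Module.Finite F L]

lemma exists_lcs {a : Submodule F L} (ha : Sub a) (hn : Nil a) : ∃ N, lcs a N = ⊥ := by
  have : LieModule.IsNilpotent ha.toLie L := by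
    rw [LieModule.isNilpotent_iff_forall' (R := F)]
    exact fun x => hn x x.2
  obtain ⟨N, hN⟩ := LieModule.IsNilpotent.nilpotent F ha.toLie L
  have key : ∀ k, lcs a k ≤ (LieModule.lowerCentralSeries F ha.toLie L k).toSubmodule := by
    intro k
    induction k with
    | zero => simp
    | succ k ih =>
      refine Submodule.span_le.mpr ?_
      rintro _ ⟨x, hx, v, hv, rfl⟩
      rw [LieModule.lowerCentralSeries_succ]
      exact LieSubmodule.lie_mem_lie (LieSubmodule.mem_top (⟨x, hx⟩ : ha.toLie)) (ih hv)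
  exact ⟨N, by simpa [hN] using key N⟩

lemma Nil.isNilpotent {a : Submodule F L} (ha : Sub a) (hn : Nil a) :
    LieRing.IsNilpotent ha.toLie := by
  rw [LieAlgebra.isNilpotent_iff_forall (R := F)]
  intro x
  obtain ⟨k, hk⟩ := hn x x.2
  refine ⟨k, LinearMap.ext fun y => ha.incl_inj ?_⟩
  have := pow_map_comm ha.toLie.incl x 0 k y
  simp only [zero_smul, sub_zero] at this
  rw [← this]
  simp [hk]

lemma Nil.sup_span {a : Submodule F L} (ha : Sub a) (hn : Nil a) {s : L} (hs : Nrm s a)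
    (h : IsNilpotent (ad F L s)) : Nil (a ⊔ F ∙ s) := by
  intro x hx
  obtain ⟨y, hy, t, rfl⟩ := mem_sup_span.mp hx
  obtain ⟨N, hN⟩ := exists_lcs ha hn
  obtain ⟨m, hm⟩ := h.smul t
  have h1 : ∀ k, ∀ v ∈ lcs a k, ad F L (y + t • s) v ∈ lcs a k := fun k =>
    Nrm.lcs (s := y + t • s) (fun w hw => by
      rw [add_lie, smul_lie]; exact add_mem (ha y hy w hw) (a.smul_mem _ (hs w hw))) k
  have h2 : ∀ k j, ∀ v ∈ lcs a k, (ad F L (y + t • s) ^ j) v - ((t • ad F L s) ^ j) v ∈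
      lcs a (k + 1) := by
    intro k j
    induction j with
    | zero => simp
    | succ j ih =>
      intro v hv
      have := add_mem (h1 _ _ (ih v hv)) (lie_mem_lcs hy (End.pow_apply_mem_of_forall_mem j
        (f' := t • ad F L s) (fun v hv => Submodule.smul_mem _ _ (hs.lcs k v hv)) v hv))
      convert this using 1
      simp [pow_succ', smul_sub]
      abel
  have h3 : ∀ k v, (ad F L (y + t • s) ^ (m * k)) v ∈ lcs a k := by
    intro k
    induction k with
    | zero => exact fun _ => trivial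
    | succ k ih =>
      intro v
      rw [mul_add, mul_one, add_comm (m * k), pow_add]
      simpa [hm] using h2 k m _ (ih v)
  exact ⟨m * N, LinearMap.ext fun v => by simpa [hN] using h3 N v⟩

theorem jac {S : Set L} (hS : ∀ x ∈ S, ∀ y ∈ S, ⁅x, y⁆ ∈ S)
    (hn : ∀ x ∈ S, IsNilpotent (ad F L x)) : Nil (Submodule.span F S) := by
  classical
  suffices H : ∀ a : Submodule F L, a ≤ Submodule.span F (S ∩ a) → Nil a → Sub a →
      Nil (Submodule.span F S) from H ⊥ bot_le (fun x hx => by simp_all) (fun x hx => by simp_all)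
  intro a
  induction a using WellFoundedGT.induction with
  | ind a ih =>
  intro h1 h2 ha
  by_cases hc : S ⊆ a
  · exact fun x hx => h2 x (Submodule.span_le.mpr hc hx)
  have key : ∀ s, (∀ t ∈ S, t ∈ a → ⁅t, s⁆ ∈ a) → Nrm s a := fun s hs x hx => by
    have := Submodule.span_le (p := a.comap (ad F L s)).mpr (fun t ht => by
      simp only [SetLike.mem_coe, Submodule.mem_comap, ad_apply]
      rw [← lie_skew]
      exact neg_mem (hs t ht.1 ht.2)) (h1 hx)
    exact this
  obtain ⟨N, hN⟩ := exists_lcs ha h2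
  have hex : ∃ k, ∀ s ∈ S, s ∈ lcs a k → s ∈ a := ⟨N, by simp +contextual [hN]⟩
  obtain ⟨k, hk⟩ : ∃ k, Nat.find hex = k + 1 := Nat.exists_eq_succ_of_ne_zero fun h0 => by
    have := Nat.find_spec hex
    rw [h0] at this
    exact hc fun s hs => this s hs trivial
  have h3 := Nat.find_min hex (m := k) (by omega)
  push Not at h3
  obtain ⟨s, hs, hsk, hsa⟩ := h3
  have h4 := key s fun t ht hta => (hk ▸ Nat.find_spec hex) _ (hS t ht s hs) (lie_mem_lcs hta hsk)
  refine ih (a ⊔ F ∙ s) (lt_of_le_of_ne le_sup_left fun h => hsa (h ▸ mem_sup_span_self a s)) ?_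
    (h2.sup_span ha h4 (hn s hs)) (ha.sup_span h4)
  refine sup_le (h1.trans (Submodule.span_mono fun x hx => ⟨hx.1, Submodule.mem_sup_left hx.2⟩)) ?_
  exact Submodule.span_mono (Set.singleton_subset_iff.mpr ⟨hs, mem_sup_span_self a s⟩)

lemma Nil.triv {R V : Submodule F L} (hn : Nil R) (hR : ∀ x, Nrm x R) (hV : ∀ x, Nrm x V)
    (hmin : ∀ J ≤ V, (∀ x, Nrm x J) → J = ⊥ ∨ J = V) {r v : L} (hr : r ∈ R) (hv : v ∈ V) :
    ⁅r, v⁆ = 0 := by
  by_contra hc
  obtain ⟨N, hN⟩ := exists_lcs (fun x _ => hR x) hn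
  obtain ⟨k, w, h1, h2, h3, h4⟩ := exists_filt_step (lcs R) (a := ⊥) (b := V) le_top hN
    (fun h => hc (h (hV r v hv)))
  rcases hmin (V ⊓ lcs R k) inf_le_left (fun x y hy => ⟨hV x y hy.1, (hR x).lcs k y hy.2⟩) with h | h
  · exact h3 (h ▸ ⟨h1, h2⟩)
  · exact hc (h4 ⟨hV r v hv, lie_mem_lcs hr (h.ge hv).2⟩)

variable [CharZero F] [LieRing.IsNilpotent C] {i : C →ₗ⁅F⁆ L} [Dec i]

lemma nil_of_graded {R : Submodule F L} (hR : Sub R) (hs : Stb i R)
    (h0 : ∀ x ∈ R, x ∈ W i 0 → IsNilpotent (ad F L x)) : Nil R := fun x hx =>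
  jac (S := {x | x ∈ R ∧ ∃ β, x ∈ W i β})
    (fun _ ⟨h1, _, h2⟩ _ ⟨h3, _, h4⟩ => ⟨hR _ h1 _ h3, _, lie_mem_W h2 h4⟩)
    (fun x ⟨h1, β, h2⟩ => by
      by_cases hβ : β = 0
      · exact h0 x h1 (hβ ▸ h2)
      · exact ad_nil_of_W hβ h2) x
    (hs.le (fun β y h1 h2 => Submodule.subset_span (by exact ⟨h1, β, h2⟩)) hx)

omit [CharZero F] [LieRing.IsNilpotent C] in
lemma ad_nil_of_ker {c : C} (h : ∀ β, W i β ≠ ⊥ → β.1 c = 0) : IsNilpotent (ad F L (i c)) := by
  refine End.isNilpotent_iff_of_finite.mpr fun x => ?_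
  refine WS_ind (P := fun x => ∃ k, (ad F L (i c) ^ k) x = 0) ⟨0, by simp⟩ ?_ ?_
    (Dec.top (i := i) x)
  · rintro x y ⟨k, hk⟩ ⟨l, hl⟩
    refine ⟨k + l, ?_⟩
    rw [map_add, pow_add, End.mul_apply, End.mul_apply, hl, ← End.mul_apply, ← pow_add, add_comm k,
      pow_add, End.mul_apply, hk]
    simp
  · intro β _ x hx
    by_cases hβ : W i β = ⊥
    · exact ⟨0, by simpa [hβ] using hx⟩
    · simpa [h β hβ] using mem_W.mp hx c

end

end Pool.Agent.P.MP_37e2d5_al
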