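import Pool.Agent.P.MP_37e2d5_al.Basic

/-! The linear part of an element of the enveloping algebra (via symmetrisation). -/

namespace Pool.Agent.P.MP_37e2d5_al

open UniversalEnvelopingAlgebra Module Polynomial

attribute [local instance 100] LieRing.ofAssociativeRing
attribute [-simp] UniversalEnvelopingAlgebra.ι_apply

noncomputable section

/-- sum of all words with given content -/
def sw {R : Type*} [Semiring R] {n : ℕ} (y : Fin n → R) (a : Fin n → ℕ) : R :=
  if a = 0 then 1 else ∑ i, if _h : a i ≠ 0 then y i * sw y (a - Pi.single i 1) else 0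
termination_by deg a
decreasing_by have := deg_sub_single _h; omega

lemma sw_zero {R : Type*} [Semiring R] {n : ℕ} (y : Fin n → R) : sw y 0 = 1 := by
  rw [sw, if_pos rfl]

lemma mem_AD {n k : ℕ} {a : Fin n → ℕ} :
    a ∈ Finset.piAntidiag Finset.univ k ↔ deg a = k := by
  simp [deg]

variable {F : Type*} [Field F] {L L' : Type*} [LieRing L] [LieAlgebra F L]
  [LieRing L'] [LieAlgebra F L'] {n : ℕ}

lemma sum_pow_eq {R : Type*} [Ring R] [Algebra F R] (y : Fin n → R) (t : Fin n → F) (k : ℕ) :
    (∑ i, t i • y i) ^ k =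
      ∑ a ∈ Finset.piAntidiag Finset.univ k, (∏ i, t i ^ a i) • sw y a := by
  induction k with
  | zero => simp [sw_zero]
  | succ k ih =>
    have e : ∀ b ∈ Finset.piAntidiag (Finset.univ : Finset (Fin n)) (k + 1),
        (∏ i, t i ^ b i) • sw y b = ∑ i, if b i ≠ 0 then
          (∏ i, t i ^ b i) • (y i * sw y (b - Pi.single i 1)) else 0 := by
      intro b hb
      have hb0 : b ≠ 0 := by rintro rfl; simp at hb
      rw [sw, if_neg hb0, Finset.smul_sum]
      refine Finset.sum_congr rfl fun i _ => ?_
      split_ifs <;> simp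
    rw [Finset.sum_congr rfl e, Finset.sum_comm, pow_succ', ih, Finset.sum_mul]
    refine Finset.sum_congr rfl fun i _ => ?_
    rw [← Finset.sum_filter, Finset.mul_sum]
    refine Finset.sum_nbij' (fun a => a + Pi.single i 1) (fun b => b - Pi.single i 1)
      ?_ ?_ ?_ ?_ ?_
    · intro a ha
      simp only [mem_AD, Finset.mem_filter] at ha ⊢
      exact ⟨by rw [deg_add, deg_single, ha], by simp⟩
    · intro b hb
      simp only [mem_AD, Finset.mem_filter] at hb ⊢
      have := deg_sub_single hb.2
      omega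
    · intro a _; simp
    · intro b hb
      simp only [Finset.mem_filter] at hb
      exact sub_single_add hb.2
    · intro a _
      have : ∏ j, t j ^ (a + Pi.single i 1 : Fin n → ℕ) j = t i * ∏ j, t j ^ a j := by
        simp only [Pi.add_apply, pow_add, Finset.prod_mul_distrib]
        rw [mul_comm, Finset.prod_eq_single i] <;> simp +contextual
      rw [this, add_tsub_cancel_right, smul_mul_smul_comm]

lemma sw_tri (x : Basis (Fin n) F L) (a : Fin n → ℕ) : ∃ c : ℕ, 0 < c ∧
    sw (fun i => ι F (x i)) a - (c : F) • pbw x a ∈ fil F (pbw x) deg (deg a) := by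
  induction hd : deg a using Nat.strong_induction_on generalizing a with
  | _ d ih =>
    by_cases h0 : a = 0
    · subst h0
      exact ⟨1, one_pos, by simp [sw_zero, pbw_apply]⟩
    have : ∀ i, ∃ c : ℕ, (a i ≠ 0 → 0 < c) ∧ (if _h : a i ≠ 0 then ι F (x i) *
        sw (fun i => ι F (x i)) (a - Pi.single i 1) else 0) - (c : F) • pbw x a ∈
          fil F (pbw x) deg d := by
      intro i
      by_cases h : a i ≠ 0
      · have h1 := deg_sub_single h
        obtain ⟨c, hc, hc'⟩ := ih _ (by omega) (a - Pi.single i 1) rfl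
        refine ⟨c, fun _ => hc, ?_⟩
        have h2 := ι_mul_fil x i hc'
        have h3 := Submodule.smul_mem _ (c : F) (ι_mul_pbw x i (a - Pi.single i 1))
        rw [sub_single_add h] at h3
        have := add_mem h2 h3
        rw [h1, hd] at this
        rw [dif_pos h]
        convert this using 1
        simp [mul_sub, smul_sub]
      · exact ⟨0, fun h' => absurd h' h, by simp [h]⟩
    choose c hc hc' using this
    refine ⟨∑ i, c i, ?_, ?_⟩
    · obtain ⟨i, hi⟩ := Function.ne_iff.mp h0
      exact lt_of_lt_of_le (hc i hi) (Finset.single_le_sum (f := c) (by simp) (Finset.mem_univ i))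
    · rw [sw, if_neg h0, Nat.cast_sum, Finset.sum_smul, ← Finset.sum_sub_distrib]
      exact Submodule.sum_mem _ fun i _ => hc' i

lemma exists_sw_basis [CharZero F] (x : Basis (Fin n) F L) :
    ∃ (b : Basis (Fin n → ℕ) F (U F L)) (c : (Fin n → ℕ) → F), (∀ a, c a ≠ 0) ∧
      ∀ a, sw (fun i => ι F (x i)) a = c a • b a := by
  choose c hc hc' using sw_tri x
  have hc0 : ∀ a, (c a : F) ≠ 0 := fun a => Nat.cast_ne_zero.mpr (hc a).ne'
  refine ⟨triBasis (pbw x) deg (fun a => (c a : F)⁻¹ • sw (fun i => ι F (x i)) a) ?_,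
    fun a => c a, hc0, fun a => ?_⟩
  · intro a
    have := Submodule.smul_mem _ (c a : F)⁻¹ (hc' a)
    simpa [smul_sub, smul_smul, hc0] using this
  · simp [smul_smul, hc0]

lemma ι_pow_eq (x : Basis (Fin n) F L) (y : L) (k : ℕ) : ι F y ^ k =
    ∑ a ∈ Finset.piAntidiag Finset.univ k,
      (∏ i, x.repr y i ^ a i) • sw (fun i => ι F (x i)) a := by
  rw [← sum_pow_eq]
  conv_lhs => rw [← x.sum_repr y, map_sum]
  simp only [map_smul]

lemma pow_ext [CharZero F] [Module.Finite F L] {V : Type*} [AddCommGroup V] [Module F V]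
    {f g : U F L →ₗ[F] V} (h : ∀ y k, f (ι F y ^ k) = g (ι F y ^ k)) : f = g := by
  let x := Module.finBasis F L
  obtain ⟨b, c, hc, hb⟩ := exists_sw_basis x
  rw [← sub_eq_zero]
  refine b.ext fun a => ?_
  rw [LinearMap.zero_apply, ← forall_dual_apply_eq_zero_iff F]
  intro φ
  set ψ := φ ∘ₗ (f - g)
  have hψ : ∀ y k, ψ (ι F y ^ k) = 0 := fun y k => by simp [ψ, h]
  let p : MvPolynomial (Fin (finrank F L)) F :=
    ∑ a' ∈ Finset.piAntidiag Finset.univ (deg a), MvPolynomial.monomial
      (Finsupp.equivFunOnFinite.symm a') (ψ (sw (fun i => ι F (x i)) a'))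
  have hp : p = 0 := by
    apply MvPolynomial.funext
    intro t
    have := hψ (x.equivFun.symm t) (deg a)
    rw [ι_pow_eq x] at this
    simp only [map_sum, map_smul, smul_eq_mul] at this
    simp only [p, map_sum, MvPolynomial.eval_monomial, map_zero]
    rw [← this]
    refine Finset.sum_congr rfl fun a' _ => ?_
    rw [mul_comm, Finsupp.prod_fintype _ _ (by simp)]
    have : ∀ i, x.repr (x.equivFun.symm t) i = t i := fun i => by
      rw [← Basis.equivFun_apply, LinearEquiv.apply_symm_apply]
    simp only [this]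
    rfl
  have := congrArg (MvPolynomial.coeff (Finsupp.equivFunOnFinite.symm a)) hp
  simp only [p, MvPolynomial.coeff_sum, MvPolynomial.coeff_monomial,
    EmbeddingLike.apply_eq_iff_eq, Finset.sum_ite_eq', MvPolynomial.coeff_zero] at this
  rw [if_pos (by simp [deg]), hb, map_smul, smul_eq_mul, mul_eq_zero] at this
  exact this.resolve_left (hc a)

lemma exists_lin (F L : Type*) [Field F] [LieRing L] [LieAlgebra F L] [CharZero F]
    [Module.Finite F L] :
    ∃ lin : U F L →ₗ[F] L, ∀ y k, lin (ι F y ^ k) = if k = 1 then y else 0 := by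
  let x := Module.finBasis F L
  obtain ⟨b, c, hc, hb⟩ := exists_sw_basis x
  obtain ⟨r, hr⟩ := LinearMap.exists_leftInverse_of_injective
    ((ι F : L →ₗ⁅F⁆ U F L) : L →ₗ[F] U F L) (LinearMap.ker_eq_bot.mpr ι_injective)
  let P : U F L →ₗ[F] U F L := b.constr F fun a => if deg a = 1 then b a else 0
  have hP : ∀ y k, P (ι F y ^ k) = if k = 1 then ι F y else 0 := by
    intro y k
    have : P (ι F y ^ k) = if k = 1 then ι F y ^ k else 0 := by
      rw [ι_pow_eq x]
      simp only [map_sum, map_smul, hb, P, Basis.constr_basis]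
      split_ifs with hk
      · refine Finset.sum_congr rfl fun a ha => ?_
        rw [if_pos ((mem_AD.mp ha).trans hk)]
      · refine Finset.sum_eq_zero fun a ha => ?_
        rw [if_neg (by rwa [mem_AD.mp ha])]
        simp
    rw [this]
    split_ifs with hk <;> simp [hk]
  refine ⟨r ∘ₗ P, fun y k => ?_⟩
  rw [LinearMap.comp_apply, hP]
  split_ifs
  · exact LinearMap.congr_fun hr y
  · simp

variable [CharZero F] [Module.Finite F L] [Module.Finite F L']

/-- the linear part -/
def lin : U F L →ₗ[F] L := (exists_lin F L).choose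

lemma lin_pow (y : L) (k : ℕ) : lin (ι F y ^ k) = if k = 1 then y else 0 :=
  (exists_lin F L).choose_spec y k

@[simp] lemma lin_ι (y : L) : lin (ι F y) = y := by simpa using lin_pow (F := F) y 1

@[simp] lemma lin_one : lin (1 : U F L) = 0 := by simpa using lin_pow (F := F) (0 : L) 0

@[simp] lemma lin_algebraMap (c : F) : lin (algebraMap F (U F L) c) = 0 := by
  rw [Algebra.algebraMap_eq_smul_one, map_smul, lin_one, smul_zero]

lemma lin_Umap (f : L →ₗ⁅F⁆ L') (u : U F L) : lin (Umap f u) = f (lin u) := by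
  have : lin ∘ₗ (Umap f).toLinearMap = (f : L →ₗ[F] L') ∘ₗ lin := pow_ext (by
    intro y k
    simp only [LinearMap.comp_apply, AlgHom.toLinearMap_apply, map_pow, Umap_ι, lin_pow]
    split_ifs <;> simp)
  exact LinearMap.congr_fun this u

lemma coeff_lin_pow {A : Type*} [Ring A] (y x : A) (k : ℕ) :
    ((C x + C (y * x - x * y) * X) ^ k).coeff 0 = x ^ k ∧
      ((C x + C (y * x - x * y) * X) ^ k).coeff 1 = y * x ^ k - x ^ k * y := by
  induction k with
  | zero => simp [coeff_one]
  | succ k ih =>
    obtain ⟨h0, h1⟩ := ih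
    constructor
    · rw [pow_succ, mul_coeff_zero, h0]; simp [pow_succ]
    · rw [pow_succ, mul_add, coeff_add, coeff_mul_C, h1, ← mul_assoc, coeff_mul_X, coeff_mul_C,
        h0, pow_succ]
      noncomm_ring

lemma lin_ad (y : L) (u : U F L) : lin (ι F y * u - u * ι F y) = ⁅y, lin u⁆ := by
  have : lin ∘ₗ (LinearMap.mulLeft F (ι F y) - LinearMap.mulRight F (ι F y)) =
      LieAlgebra.ad F L y ∘ₗ lin := pow_ext (by
    intro x k
    have key := poly_vp ((C (ι F x) + C (ι F y * ι F x - ι F x * ι F y) * X) ^ k)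
      (lin : U F L →ₗ[F] L) Set.univ Set.infinite_univ (if k = 1 then x else 0)
      (if k = 1 then ⁅y, x⁆ else 0) (by
        intro t _
        have : evT t (C (ι F x) + C (ι F y * ι F x - ι F x * ι F y) * X) =
            ι F (x + t • ⁅y, x⁆) := by
          rw [map_add, map_mul, evT_C, evT_C, evT_X, map_add, map_smul, ι_comm y x,
            Algebra.smul_def, Algebra.commutes]
          simp
        rw [map_pow, this, lin_pow]
        split_ifs <;> simp)
    rw [(coeff_lin_pow _ _ k).2] at key
    simp only [LinearMap.comp_apply, LinearMap.sub_apply, LinearMap.mulLeft_apply,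
      LinearMap.mulRight_apply, key.2.1, lin_pow, LieAlgebra.ad_apply]
    split_ifs <;> simp)
  exact LinearMap.congr_fun this u

lemma Cen.lie_lin {z : U F L} (hz : Cen z) (y : L) : ⁅y, lin z⁆ = 0 := by
  rw [← lin_ad, hz, sub_self, map_zero]

end

end Pool.Agent.P.MP_37e2d5_al
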