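import Pool.Agent.P.MP_37e2d5_al.Red
import Pool.Agent.P.MP_37e2d5_al.HSide

/-! The inequality of dimensions over an algebraically closed field. -/

namespace Pool.Agent.P.MP_37e2d5_al

open UniversalEnvelopingAlgebra Module LieAlgebra Matrix

attribute [local instance 100] LieRing.ofAssociativeRing
attribute [-simp] UniversalEnvelopingAlgebra.ι_apply

noncomputable section

variable {F : Type*} [Field F] {C L H : Type*} [LieRing C] [LieAlgebra F C] [LieRing L]
  [LieAlgebra F L] [LieRing H] [LieAlgebra F H]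

lemma noPerf_ext {s : Submodule F L} (d : ℕ → Submodule F L) (h0 : s ≤ d 0)
    (hd : ∀ k, ∀ x ∈ d k, ∀ y ∈ d k, ⁅x, y⁆ ∈ d (k + 1)) {n : ℕ} (hn : NoPerf (d n)) :
    NoPerf s := by
  classical
  intro a has ha hne
  by_cases h : a ≤ d n
  · exact hn a h ha hne
  have hex : ∃ k, ¬ a ≤ d k := ⟨n, h⟩
  have hk := Nat.find_spec hex
  obtain ⟨k, hk'⟩ : ∃ k, Nat.find hex = k + 1 := by
    refine Nat.exists_eq_succ_of_ne_zero fun hc => ?_
    rw [hc] at hk
    exact hk (has.trans h0)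
  have hk2 : a ≤ d k := not_not.mp (Nat.find_min hex (by omega))
  rw [hk'] at hk
  exact exists_hyper hk (fun x hx y hy => hd k _ (hk2 hx) _ (hk2 hy)) ha

variable [CharZero F] [IsAlgClosed F] [Module.Finite F C] [LieRing.IsNilpotent C]
  [Module.Finite F L] [Module.Finite F H] {i : C →ₗ⁅F⁆ L} {l : Ch F C →ₗ[ℚ] ℚ}

lemma noPerf_pP (h : zP i l ≤ rg i) : NoPerf (pP i l) := by
  obtain ⟨N, hN⟩ := exists_lcs (sub_top (F := F) (L := C))
    fun x _ => LieModule.isNilpotent_toEnd_of_isNilpotent F C C x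
  refine noPerf_ext (fun k => (lcs ⊤ k).map (i : C →ₗ[F] L) ⊔ nP i l) ?_ (fun k x hx y hy => ?_)
    (n := N) (by simpa [hN] using noPerf_nP le_rfl)
  · simpa [lcs, rg] using
      ((stb_top i).pP_le l).trans (sup_le_sup (inf_le_right.trans h) inf_le_right)
  · obtain ⟨_, ⟨c, -, rfl⟩, x, hx', rfl⟩ := Submodule.mem_sup.mp hx
    obtain ⟨_, ⟨c', hc', rfl⟩, y, hy', rfl⟩ := Submodule.mem_sup.mp hy
    rw [add_lie, lie_add, lie_add, add_assoc]
    exact Submodule.add_mem_sup ⟨⁅c, c'⁆, lie_mem_lcs trivial hc', i.map_lie c c'⟩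
      (add_mem (stb_WS i _ c y hy') (add_mem ((stb_WS i _ c').lie_left hx')
        (sub_nP i l x hx' y hy')))

theorem Gam.lin_ne (h0 : W i 0 ≤ rg i) (hl : Gen i l) (φ : U F H ≃ₐ[F] U F L) {x : H}
    (hx : x ≠ 0) (hz : Cen (φ (ι F x))) {γ : U F C} (hγ : Cen γ) (h : Gam i l (φ (ι F x)) γ) :
    lin γ ≠ 0 := fun hlin => by
  obtain ⟨J, _, _, D, h1, h2⟩ := nc_cen (u := γ - algebraMap F _ (eps F C γ))
    (fun a => by rw [mul_sub, sub_mul, hγ, Algebra.commutes]) (by simp)
    (by simp [hlin, lin_algebraMap])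
  let t : {t : U F L // Cen t} := ⟨φ (ι F x) - algebraMap F _ (eps F C γ),
    fun a => by rw [mul_sub, sub_mul, hz, Algebra.commutes]⟩
  obtain ⟨n, m, w, m1, m2, m3⟩ := qa_basis_of_center φ hx t _ rfl
  have hs := sub_pP i (-l)
  let j : C →ₗ⁅F⁆ hs.toLie := cod i hs.toLie fun c =>
    zP_le_pP_neg i l (W_zero_le_zP i l (i_mem_W i c))
  have hj : hs.toLie.incl.comp j = i := incl_comp_cod _ _ _
  have hz0 : zP i (-l) ≤ rg i := WS_le fun β hβ => by
    by_cases h : W i β = ⊥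
    · simp [h]
    · rwa [hl β h (by simpa using hβ)]
  have hB : NoPerf (⊤ : Submodule F hs.toLie) := fun a _ => noPerf_pP (i := j) (l := -l)
    (fun x hx => (hz0 (by
      have := WS_map hs.toLie.incl hx
      rwa [hj] at this)).imp fun c hc => Subtype.ext hc) a
    fun x _ => WS_of_map hs.incl_inj (by rw [hj]; exact x.2)
  let ρ : Ch F hs.toLie := (2 : F)⁻¹ • (TC hs.toLie.incl ⊤ (fun _ _ _ => trivial) -
    TC hs.toLie.incl (pP i (-l)) fun b => hs b b.2)
  have ρ1 : Ch.comap j ρ = rho i l := by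
    ext c
    have := trOn_sup (f := ad F L (i c)) (W := pP i (-l)) (W' := nP i l) (stb_WS i _ c)
      (stb_WS i _ c) (disjoint_pP_nP i l)
    rw [(isCompl_pP_nP i l).sup_eq_top] at this
    simp [ρ, rho, j, this]
  have ρ2 : ∀ y : hs.toLie, (y : L) ∈ nP i (-l) → ρ.1 y = 0 := fun y hy => by
    have : ∀ T : Submodule F L, Nrm (y : L) T → trOn T (ad F L y) = 0 := fun T hT => by
      obtain ⟨k, hk⟩ := nil_of_graded (sub_nP i (-l)) (stb_WS i _) (fun x h1 h2 => by
        simp [eq_zero_of_W (by simp) h2 h1]) y hy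
      exact trOn_nil hT fun v _ => ⟨k, by simp [hk]⟩
    simp [ρ, this ⊤ (fun _ _ => trivial), this _ (hs y y.2)]
  let κ := tw ((ι F).comp hs.toLie.incl) ρ
  have κ1 : ∀ b, lift F κ b = Umap hs.toLie.incl (tau ρ b) := AlgHom.congr_fun
    (U_ext (h := (Umap hs.toLie.incl).comp (tau ρ)) fun x => by simp [lift_ι_apply, κ, tw_apply])
  have κ2 : ∀ u, lift F κ (Umap j u) = Umap i (tau (rho i l) u) := fun u => by
    rw [κ1, tau_Umap, Umap_Umap, hj, ρ1]
  obtain ⟨p, p1, p2, p3, p4⟩ := exists_proj hs.toLie.incl hs.incl_inj (sub_nP i l)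
    (by rw [hs.rg_incl]; exact isCompl_pP_nP i l)
  have := transfer m w m1 m2 m3 hB κ (reg_tw _ hs.incl_inj ρ ⊤) ?_ (lI (nP i l)) ⟨?_, ?_⟩
    (D.map (Umap j)) ?_ ?_
  · refine h2 ?_
    rwa [Matrix.map_map, show eps F hs.toLie ∘ Umap j = eps F C from funext (eps_Umap j)] at this
  · have a1 : φ (ι F x) - Umap i (tau (rho i l) γ) ∈ Y κ ⊤ (U F L) :=
      Y_map (AddMonoidHom.id _) (fun y hy u => by
        have := mem_Y (κ := κ) (a := ⊤) (x := ⟨y, nP_le_pP i _ hy⟩) trivial u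
        simpa [κ, tw_apply, ρ2 ⟨y, nP_le_pP i _ hy⟩ hy] using this)
        (rI_of_lI hz (Umap_mem_zP l _) h)
    have a2 := Y_map ((lift F κ).comp (Umap j)) (P := Y κ ⊤ (U F L)) (fun y _ u => by
      simpa [lift_ι_apply] using mem_Y (κ := κ) (a := ⊤) (x := j y) trivial
        (lift F κ (Umap j u)))
      (sub_eps_mem_rI (mem_Ua_top γ))
    convert add_mem a1 a2 using 1
    simp [t, κ2]
  · intro b b' hb
    have := p3 _ ((Submodule.Quotient.eq _).mp hb)
    rw [← map_sub, κ1, ← mul_one (Umap _ _), p1, p2, mul_one] at this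
    rw [← sub_eq_zero, ← tau_neg_tau ρ (b - b'), this, map_zero]
  · intro v
    obtain ⟨u, rfl⟩ := (lI (nP i l)).mkQ_surjective v
    exact ⟨tau (-ρ) (p u), ((Submodule.Quotient.eq _).mpr (by
      rw [κ1, tau_tau_neg]; exact p4 u)).symm⟩
  · intro a b v hv
    rw [Matrix.map_apply, κ2]
    exact lI_mul_Ua (fun x hx => nrm_nP (zP_le_pP i l hx)) (Umap_mem_zP l _) hv
  · intro a b
    rw [← Matrix.map_mul, Matrix.map_apply, κ2, h1]
    by_cases hab : a = b
    · subst hab
      convert neg_mem h using 1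
      simp [t]
    · simp [hab]

theorem finrank_center_le (φ : U F H ≃ₐ[F] U F L) :
    finrank F (center F H) ≤ finrank F (center F L) := by
  obtain ⟨x0, hx0⟩ := exists_isCartanSubalgebra_engel F L
  let i := (LieSubalgebra.engel F x0).incl
  have hi : Function.Injective i := Subtype.val_injective
  have h0 : W i 0 ≤ rg i := fun x hx => by
    have : x ∈ zeroRootSubalgebra F L (LieSubalgebra.engel F x0) :=
      (mem_zeroRootSubalgebra _ _ _ _).mpr fun y => (mem_W.mp hx y).imp fun k hk => by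
        rwa [Ch.zero_val, LinearMap.zero_apply, zero_smul, sub_zero] at hk
    rw [zeroRootSubalgebra_eq_of_is_cartan] at this
    exact ⟨⟨x, this⟩, rfl⟩
  obtain ⟨l, hl⟩ := exists_gen i
  have hz : ∀ x : center F H, Cen (φ (ι F (x : H))) := fun x => (cen_of_ι fun y => by
    rw [ι_comm, x.2 y, map_zero, add_zero]).map_surj φ φ.surjective
  let G : Submodule F (center F H × center F L) :=
    { carrier := {p | ∃ γ, Gam i l (φ (ι F (p.1 : H))) γ ∧ i (lin γ) = p.2}
      zero_mem' := ⟨0, by simp [Gam], by simp⟩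
      add_mem' := by
        rintro a b ⟨γ, h1, h2⟩ ⟨γ', h3, h4⟩
        refine ⟨γ + γ', ?_, by simp [h2, h4]⟩
        rw [Gam]
        convert add_mem h1 h3 using 1
        simp only [Prod.fst_add, AddMemClass.coe_add, map_add]
        abel
      smul_mem' := by
        rintro c a ⟨γ, h1, h2⟩
        refine ⟨c • γ, ?_, by simp [h2]⟩
        rw [Gam]
        convert lI_smul c h1 using 1
        simp [smul_sub] }
  refine (LinearMap.finrank_le_finrank_of_surjective (f := LinearMap.fst F _ _ ∘ₗ G.subtype)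
    fun x => ?_).trans (LinearMap.finrank_le_finrank_of_injective
      (f := LinearMap.snd F _ _ ∘ₗ G.subtype) ((injective_iff_map_eq_zero _).mpr ?_))
  · obtain ⟨γ, h⟩ := exists_gam h0 hl (hz x)
    exact ⟨⟨(x, ⟨_, h.central hi h0 hl (hz x)⟩), γ, h, rfl⟩, rfl⟩
  · rintro ⟨⟨x, y⟩, γ, h1, h2⟩ (rfl : y = 0)
    have : (x : H) = 0 := by
      by_contra hx
      exact h1.lin_ne h0 hl φ hx (hz x) (h1.cen hi (hz x)) (hi (h2.trans (map_zero i).symm))
    exact Subtype.ext (Prod.ext (Subtype.ext this) rfl)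

end

end Pool.Agent.P.MP_37e2d5_al
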