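import Pool.Agent.P.MP_37e2d5_al.NCp

/-! Non exact matrix factorisations for central elements with zero linear part. -/

namespace Pool.Agent.P.MP_37e2d5_al

open UniversalEnvelopingAlgebra Module Matrix

attribute [local instance 100] LieRing.ofAssociativeRing
attribute [-simp] UniversalEnvelopingAlgebra.ι_apply

noncomputable section

variable {F : Type*} [Field F] {L : Type*} [LieRing L] [LieAlgebra F L]

lemma exists_eigen_mod [IsAlgClosed F] {V : Type*} [AddCommGroup V] [Module F V]
    [Module.Finite F V] (g : V →ₗ[F] V) {K I : Submodule F V} (hK : ∀ v ∈ K, g v ∈ K)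
    (hI : ∀ v ∈ K, v ∈ I → g v ∈ I) (h : ¬ K ≤ I) : ∃ b : F, ∃ v ∈ K, v ∉ I ∧ g v - b • v ∈ I := by
  let I' : Submodule F K := I.comap K.subtype
  have : Nontrivial (K ⧸ I') := by
    refine Submodule.Quotient.nontrivial_iff.mpr fun hc => h fun v hv => ?_
    have : (⟨v, hv⟩ : K) ∈ I' := by rw [hc]; trivial
    exact this
  obtain ⟨b, hb⟩ := Module.End.exists_eigenvalue
    (I'.mapQ I' (g.restrict hK) fun v hv => hI v v.2 hv)
  obtain ⟨v, hv⟩ := hb.exists_hasEigenvector
  obtain ⟨v, rfl⟩ := I'.mkQ_surjective v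
  refine ⟨b, v, v.2, fun hc => hv.2 ((Submodule.Quotient.mk_eq_zero _).mpr hc), ?_⟩
  have := hv.apply_eq_smul
  rw [Submodule.mkQ_apply, Submodule.mapQ_apply, ← Submodule.Quotient.mk_smul,
    Submodule.Quotient.eq] at this
  exact this

/-- exactness of a square matrix acting on row vectors -/
def Ex {J : Type} [Fintype J] (d : Matrix J J F) : Prop := ∀ v, v ᵥ* d = 0 → ∃ v', v' ᵥ* d = v

lemma not_ex_block [IsAlgClosed F] {J : Type} [Fintype J] [DecidableEq J] {d n : Matrix J J F}
    (hc : n * d = d * n) (h : ¬ Ex d) :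
    ∃ b : F, ¬ Ex (fromBlocks d 0 (scalar J b - n) (-d)) := by
  obtain ⟨b, v, hv, hv', v', hv''⟩ := exists_eigen_mod n.vecMulLinear
    (K := LinearMap.ker d.vecMulLinear) (I := LinearMap.range d.vecMulLinear) (by
      intro v hv
      simp only [LinearMap.mem_ker, vecMulLinear_apply] at hv ⊢
      rw [vecMul_vecMul, hc, ← vecMul_vecMul, hv, zero_vecMul]) (by
      rintro _ - ⟨v, rfl⟩
      exact ⟨v ᵥ* n, by simp [hc]⟩) (fun hle => h fun v hv => hle hv)
  refine ⟨b, fun hex => hv' ?_⟩
  simp only [LinearMap.mem_ker, vecMulLinear_apply] at hv hv''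
  obtain ⟨a, ha⟩ := hex (Sum.elim v' v) (by
    rw [vecMul_fromBlocks]
    simp only [Sum.elim_comp_inl, Sum.elim_comp_inr, vecMul_sub, hv'', vecMul_neg, hv]
    ext (i | i) <;> simp)
  refine ⟨-(a ∘ Sum.inr), ?_⟩
  rw [vecMul_fromBlocks] at ha
  have := congrArg (· ∘ Sum.inr) ha
  simpa [neg_vecMul, vecMul_neg] using this

lemma mem_Y_pi {B Λ : Type*} [LieRing B] [LieAlgebra F B] [Ring Λ] [Algebra F Λ]
    {κ : B →ₗ⁅F⁆ Λ} {M : Type*} [AddCommGroup M] [Module Λ M] [Module F M] [IsScalarTower F Λ M]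
    {J : Type*} [Fintype J] [DecidableEq J] {a : Submodule F B} {v : J → M} :
    v ∈ Y κ a (J → M) ↔ ∀ j, v j ∈ Y κ a M := by
  refine ⟨fun h j => Y_lmap (LinearMap.proj (R := Λ) (φ := fun _ => M) j) h, fun h => ?_⟩
  rw [← Finset.univ_sum_single v]
  exact Submodule.sum_mem _ fun j _ => Y_lmap (LinearMap.single Λ (fun _ => M) j) (h j)

lemma ex_of_ac {J : Type} [Fintype J] [DecidableEq J] {D : Matrix J J (U F L)}
    (h : Ac D.vecMulLinear (Y (ι F) (⊤ : Submodule F L) (J → U F L))) : Ex (D.map (eps F L)) := by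
  intro v hv
  have key : ∀ m : J → U F L, (eps F L) ∘ (m ᵥ* D) = (eps F L ∘ m) ᵥ* D.map (eps F L) :=
    fun m => funext fun i => (eps F L).toRingHom.map_vecMul D m i
  have e : eps F L ∘ (fun j => algebraMap F (U F L) (v j)) = v := by ext; simp
  obtain ⟨m', hm'⟩ := h (fun j => algebraMap F _ (v j)) (mem_Y_pi.mpr fun j =>
    mem_rI_of_eps (mem_Ua_top _) (by
      have := congrFun (key fun j => algebraMap F _ (v j)) j
      rwa [e, hv] at this))
  refine ⟨eps F L ∘ m', ?_⟩
  rw [← key]
  funext j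
  have := eps_rI (mem_Y_pi.mp hm' j)
  simp only [Pi.sub_apply, map_sub, AlgHom.commutes, Algebra.algebraMap_self, RingHom.id_apply,
    sub_eq_zero] at this
  exact this.symm

/-- matrices with entries in the right ideal -/
def MI (m : Submodule F L) (J : Type) : AddSubgroup (Matrix J J (U F L)) where
  carrier := {D | ∀ i j, D i j ∈ rI m}
  add_mem' := fun ha hb i j => add_mem (ha i j) (hb i j)
  zero_mem' := fun _ _ => zero_mem _
  neg_mem' := fun ha i j => neg_mem (ha i j)

section

variable {m : Submodule F L} {J : Type} [Fintype J] [DecidableEq J]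

omit [DecidableEq J] in
lemma MI_mul {D : Matrix J J (U F L)} (h : D ∈ MI m J) (E : Matrix J J (U F L)) :
    D * E ∈ MI m J := fun i j => by
  rw [mul_apply]; exact Submodule.sum_mem _ fun k _ => Y_mul (h i k) _

omit [DecidableEq J] in
lemma mul_MI (hm : ∀ x, Nrm x m) (E : Matrix J J (U F L)) {D : Matrix J J (U F L)}
    (h : D ∈ MI m J) : E * D ∈ MI m J := fun i j => by
  rw [mul_apply]
  exact Submodule.sum_mem _ fun k _ => Ua_mul_rI (fun x _ => hm x) (mem_Ua_top _) (h k j)

lemma comm_all (hm : ∀ x, Nrm x m) {u : U F L} (hu : ∀ x, ι F x * u - u * ι F x ∈ rI m)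
    (a : U F L) : a * u - u * a ∈ rI m := by
  induction a using U_induction with
  | h1 => simp
  | hadd a b ha hb => convert add_mem ha hb using 1; noncomm_ring
  | hsmul c a ha => convert Submodule.smul_mem _ c ha using 1; simp [smul_sub]
  | hmul y a ha =>
    convert add_mem ((hm y).smul_mem_Y ha) (Y_mul (hu y) a) using 1
    rw [smul_eq_mul]; noncomm_ring

lemma scalar_comm_MI (hm : ∀ x, Nrm x m) {u : U F L} (hu : ∀ x, ι F x * u - u * ι F x ∈ rI m)
    (E : Matrix J J (U F L)) : E * scalar J u - scalar J u * E ∈ MI m J := fun i j => by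
  simpa using comm_all hm hu (E i j)

lemma vecMul_sq (hm : ∀ x, Nrm x m) {u : U F L} (hu : ∀ x, ι F x * u - u * ι F x ∈ rI m)
    {D : Matrix J J (U F L)} (h : D * D - scalar J u ∈ MI m J) (v : J → U F L) :
    D.vecMulLinear (D.vecMulLinear v) - u • v ∈ Y (ι F) m (J → U F L) := by
  refine mem_Y_pi.mpr fun j => ?_
  have h1 : (v ᵥ* (D * D - scalar J u)) j ∈ rI m := by
    rw [vecMul, dotProduct]
    exact Submodule.sum_mem _ fun k _ => Ua_mul_rI (fun x _ => hm x) (mem_Ua_top _) (h k j)
  convert add_mem h1 (comm_all hm hu (v j)) using 1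
  simp [vecMul_sub]

end

variable [CharZero F] [Module.Finite F L] [IsAlgClosed F] [LieRing.IsNilpotent L]

theorem nc (n : ℕ) : ∀ (m : Submodule F L), finrank F L = finrank F m + n → (∀ x, Nrm x m) →
    ∀ u : U F L, (∀ x, ι F x * u - u * ι F x ∈ rI m) → eps F L u = 0 → lin u ∈ m →
    ∃ (J : Type) (_ : Fintype J) (_ : DecidableEq J) (D : Matrix J J (U F L)),
      D * D - scalar J u ∈ MI m J ∧ ¬ Ex (D.map (eps F L)) := by
  induction n with
  | zero =>
    intro m hn hm u _ he _
    obtain rfl : m = ⊤ := Submodule.eq_top_of_finrank_eq hn.symm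
    refine ⟨Unit, inferInstance, inferInstance, 0, fun i j => ?_, fun h => ?_⟩
    · simpa using mem_rI_of_eps (mem_Ua_top u) he
    · obtain ⟨v, hv⟩ := h (fun _ => 1) (by simp)
      simpa using congrFun hv ()
  | succ n ih =>
    intro m hn hm u hc he hl
    obtain ⟨w, -, hwm, hw⟩ := exists_nz (a := m) (b := ⊤) (by
      intro h
      rw [top_le_iff.mp h, finrank_top] at hn
      omega)
    replace hw : ∀ x, ⁅x, w⁆ ∈ m := fun x => hw x trivial
    have hsm : Sub m := fun x _ y hy => hm x y hy
    obtain ⟨J, _, _, D, hD, hex⟩ := ih (m ⊔ F ∙ w)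
      (by rw [Submodule.finrank_sup_span_singleton hwm]; omega) (by
        intro x y' hy'
        obtain ⟨y, hy, t, rfl⟩ := mem_sup_span.mp hy'
        rw [lie_add, lie_smul]
        exact Submodule.mem_sup_left (add_mem (hm x y hy) (m.smul_mem _ (hw x)))) u
      (fun x => Y_mono le_sup_left (hc x)) he (Submodule.mem_sup_left hl)
    choose ν' hν' using fun i j => mem_Y_sup (hD i j)
    let ν : Matrix J J (U F L) := of ν'
    have hcw : ∀ x, ι F x * ι F w - ι F w * ι F x ∈ rI m := fun x => by
      simpa [ι_comm x w] using mem_Y' (κ := ι F) (hw x)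
    set W := scalar J (ι F w) with hW
    set Uu := scalar J u with hU
    have h1 : D * D - Uu - W * ν ∈ MI m J := fun i j => by simpa [hW, ν] using hν' i j
    have h2 : D * ν - ν * D ∈ MI m J := by
      have : W * (D * ν - ν * D) ∈ MI m J := by
        convert sub_mem (sub_mem (sub_mem (MI_mul h1 D) (mul_MI hm D h1))
          (MI_mul (scalar_comm_MI hm hcw D) ν)) (scalar_comm_MI hm hc D) using 1
        rw [← hW, ← hU]
        noncomm_ring
      intro i j
      refine reg_U ⊤ _ m le_top hsm (Nat.lt_succ_self _) w trivial hwm (hm w) _ ?_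
      simpa [hW] using this i j
    obtain ⟨b, hb⟩ := not_ex_block (d := D.map (eps F L)) (n := ν.map (eps F L)) (by
      rw [← Matrix.map_mul, ← Matrix.map_mul]
      ext i j
      have := eps_rI (h2 i j)
      rw [Matrix.sub_apply, map_sub, sub_eq_zero] at this
      exact this.symm) hex
    set Bs := scalar J (algebraMap F (U F L) b) with hBs
    have hBc : ∀ E : Matrix J J (U F L), Bs * E = E * Bs := fun E =>
      scalar_commute _ (fun r => Algebra.commutes b r) E
    let D' := fromBlocks D W (Bs - ν) (-D)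
    have hD' : D' * D' - scalar (J ⊕ J) (u + b • ι F w) ∈ MI m (J ⊕ J) := by
      have e : scalar (J ⊕ J) (u + b • ι F w) = fromBlocks (Uu + Bs * W) 0 0 (Uu + Bs * W) := by
        rw [hU, hBs, hW, ← map_mul, ← map_add, ← Algebra.smul_def, scalar_apply, scalar_apply,
          fromBlocks_diagonal]
        congr 1
        ext (i | i) <;> rfl
      have b1 : D * D + W * (Bs - ν) - (Uu + Bs * W) ∈ MI m J := by
        convert h1 using 1
        rw [hBc W]; noncomm_ring
      have b2 : D * W + W * -D ∈ MI m J := by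
        convert scalar_comm_MI hm hcw D using 1
        rw [← hW]; noncomm_ring
      have b3 : (Bs - ν) * D + -D * (Bs - ν) ∈ MI m J := by
        convert h2 using 1
        rw [sub_mul, hBc D]; noncomm_ring
      have b4 : (Bs - ν) * W + -D * -D - (Uu + Bs * W) ∈ MI m J := by
        convert sub_mem h1 (scalar_comm_MI hm hcw ν) using 1
        rw [← hW]; noncomm_ring
      rw [e, fromBlocks_multiply]
      rintro (i | i) (j | j)
      · exact b1 i j
      · simpa using b2 i j
      · simpa using b3 i j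
      · exact b4 i j
    have hmap : D'.map (eps F L) =
        fromBlocks (D.map (eps F L)) 0 (scalar J b - ν.map (eps F L)) (-D.map (eps F L)) := by
      rw [fromBlocks_map]
      congr 1 <;> ext i j <;> simp [hW, hBs, diagonal_apply, apply_ite]
    have hb0 : b = 0 := by
      by_contra hb0
      have hc' : ∀ x, ι F x * (u + b • ι F w) - (u + b • ι F w) * ι F x ∈ rI m := fun x => by
        convert add_mem (hc x) (Submodule.smul_mem _ b (hcw x)) using 1
        simp only [mul_add, add_mul, smul_sub, mul_smul_comm, smul_mul_assoc]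
        abel
      refine hb (hmap ▸ ex_of_ac (ncp (fun k => (reg_U ⊤ k).pi _) _ (n + 1) m ⊤ (u + b • ι F w)
        (by rwa [finrank_top]) (fun _ _ _ _ => trivial) le_top (fun x _ => hm x) (mem_Ua_top _)
        (by simp [he]) (fun x _ => hc' x) ?_ (vecMul_sq hm hc' hD')))
      intro h
      apply hwm
      rw [← m.smul_mem_iff hb0]
      simpa using sub_mem h hl
    refine ⟨J ⊕ J, inferInstance, inferInstance, D', by simpa [hb0] using hD', hmap ▸ hb⟩

theorem nc_cen {u : U F L} (hu : Cen u) (he : eps F L u = 0) (hl : lin u = 0) :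
    ∃ (J : Type) (_ : Fintype J) (_ : DecidableEq J) (D : Matrix J J (U F L)),
      D * D = scalar J u ∧ ¬ Ex (D.map (eps F L)) := by
  obtain ⟨J, _, _, D, h1, h2⟩ := nc (finrank F L) ⊥ (by simp) (fun x y hy => by simp_all) u
    (fun x => by simp [hu _]) he (by simp [hl])
  refine ⟨J, inferInstance, inferInstance, D, ?_, h2⟩
  rw [← sub_eq_zero]
  ext i j
  exact Y_bot (h1 i j)

theorem lin_red {z : U F L} (hz : Cen z) (he : eps F L z = 0) (hl : lin z = 0)
    {m q : Submodule F L} (hq : Sub q) (hmq : m ≤ q) (hm : ∀ x ∈ q, Nrm x m) {u : U F L}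
    (hu : u ∈ Ua q) (h : z - u ∈ rI m) : lin u ∈ m := by
  obtain ⟨J, _, _, D, h1, h2⟩ := nc_cen hz he hl
  by_contra hcon
  have hδ : ∀ v, D.vecMulLinear (D.vecMulLinear v) = z • v := fun v => by
    ext j
    simp [h1, vecMul_diagonal, hz _]
  have he' : eps F L u = 0 := by simpa [he] using eps_rI h
  have hzq : z ∈ rI q := by simpa using add_mem (Y_mono hmq h) (mem_rI_of_eps hu he')
  have hreg : ∀ k, Reg (ι F : L →ₗ⁅F⁆ U F L) ⊤ k (J → U F L) := fun k => (reg_U ⊤ k).pi _
  have key : ∀ (n : ℕ) (q' : Submodule F L), finrank F L = finrank F q' + n → Sub q' → q ≤ q' →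
      Ac D.vecMulLinear (Y (ι F) q' (J → U F L)) →
      Ac D.vecMulLinear (Y (ι F) (⊤ : Submodule F L) (J → U F L)) := by
    intro n
    induction n with
    | zero =>
      intro q' hn _ _ h
      rwa [Submodule.eq_top_of_finrank_eq hn.symm] at h
    | succ n ih =>
      intro q' hn hq' hqq' h
      obtain ⟨x, -, hx, hx'⟩ := exists_nz (a := q') (b := ⊤) (by
        intro h
        rw [top_le_iff.mp h, finrank_top] at hn
        omega)
      have hxn : Nrm x q' := fun y _ => by rw [← lie_skew]; exact neg_mem (hx' y trivial)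
      refine ih (q' ⊔ F ∙ x) (by rw [Submodule.finrank_sup_span_singleton hx]; omega)
        (hq'.sup_span hxn) (hqq'.trans le_sup_left) (cone hxn
          (hreg _ q' le_top hq' (Nat.lt_succ_self _) x trivial hx hxn) (fun v => ?_) h)
      rw [hδ]
      exact Y_smul (Y_mono hqq' hzq) v
  refine h2 (ex_of_ac (key (finrank F L - finrank F q) q ?_ hq le_rfl
    (ncp hreg _ (finrank F q - finrank F m) m q u ?_ hq hmq hm hu he' (fun x hx => ?_) hcon
      (fun v => ?_))))
  · have := Submodule.finrank_le q; omega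
  · have := Submodule.finrank_mono hmq; omega
  · convert sub_mem (Y_mul h (ι F x)) ((hm x hx).smul_mem_Y h) using 1
    rw [smul_eq_mul, mul_sub, sub_mul, hz]; abel
  · rw [hδ, ← sub_smul]
    exact Y_smul h v

end

end Pool.Agent.P.MP_37e2d5_al
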