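import Pool.Agent.P.MP_37e2d5_al.Pure

/-! Acyclicity for central elements with nonzero linear part (nilpotent case). -/

namespace Pool.Agent.P.MP_37e2d5_al

open UniversalEnvelopingAlgebra Module

attribute [local instance 100] LieRing.ofAssociativeRing
attribute [-simp] UniversalEnvelopingAlgebra.ι_apply

noncomputable section

variable {F : Type*} [Field F] {L : Type*} [LieRing L] [LieAlgebra F L]

lemma exists_filt_step {V : Type*} [AddCommGroup V] [Module F V] (d : ℕ → Submodule F V)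
    {a b : Submodule F V} (h0 : b ≤ d 0) {n : ℕ} (hn : d n = ⊥) (hab : ¬ b ≤ a) :
    ∃ k, ∃ w ∈ b, w ∈ d k ∧ w ∉ a ∧ b ⊓ d (k + 1) ≤ a := by
  classical
  have hex : ∃ k, b ⊓ d k ≤ a := ⟨n, by simp [hn]⟩
  obtain ⟨k, hk'⟩ : ∃ k, Nat.find hex = k + 1 := by
    refine Nat.exists_eq_succ_of_ne_zero fun hc => ?_
    have hk := Nat.find_spec hex
    rw [hc, inf_eq_left.mpr h0] at hk
    exact hab hk
  obtain ⟨w, hw, hwa⟩ := SetLike.not_le_iff_exists.mp (Nat.find_min hex (m := k) (by omega))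
  exact ⟨k, w, hw.1, hw.2, hwa, hk' ▸ Nat.find_spec hex⟩

lemma exists_nz [LieRing.IsNilpotent L] {a b : Submodule F L} (hab : ¬ b ≤ a) :
    ∃ w ∈ b, w ∉ a ∧ ∀ x : L, ⁅x, w⁆ ∈ b → ⁅x, w⁆ ∈ a := by
  obtain ⟨n, hn⟩ := LieModule.IsNilpotent.nilpotent F L L
  obtain ⟨k, w, hw, hwk, hwa, h⟩ := exists_filt_step
    (fun k => (LieModule.lowerCentralSeries F L L k).toSubmodule) (a := a) (b := b) (by simp)
    (n := n) (by simp [hn]) hab
  refine ⟨w, hw, hwa, fun x hx => h ⟨hx, ?_⟩⟩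
  simp only [LieModule.lowerCentralSeries_succ]
  exact LieSubmodule.lie_mem_lie (LieSubmodule.mem_top x) hwk

lemma comm_mem_rI {m q : Submodule F L} (hm : ∀ x ∈ q, Nrm x m) {y : L}
    (hy : ∀ x ∈ q, ⁅y, x⁆ ∈ m) {u : U F L} (hu : u ∈ Ua q) : ι F y * u - u * ι F y ∈ rI m := by
  refine Ua_induction (P := fun u => ι F y * u - u * ι F y ∈ rI m) (by simp) ?_ ?_ ?_ hu
  · intro u v hu hv
    convert add_mem hu hv using 1
    noncomm_ring
  · intro c u hu
    convert Submodule.smul_mem _ c hu using 1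
    simp [smul_sub]
  · intro x hx u hu
    have := add_mem ((hm x hx).smul_mem_Y hu) (mem_rI (hy x hx) u)
    convert this using 1
    rw [← mul_assoc, ι_comm y x, smul_eq_mul]
    noncomm_ring

lemma comm_pow_mem_rI {m : Submodule F L} {x y w : L} (hx : Nrm x m) (h1 : ⁅y, x⁆ - w ∈ m)
    (h2 : ⁅x, w⁆ ∈ m) (k : ℕ) : ι F y * ι F x ^ (k + 1) - ι F x ^ (k + 1) * ι F y -
      ((k + 1 : ℕ) : F) • (ι F w * ι F x ^ k) ∈ rI m := by
  induction k with
  | zero =>
    have := mem_Y' (κ := ι F) h1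
    convert this using 1
    simp [ι_comm y x]
  | succ k ih =>
    have := add_mem (add_mem (hx.smul_mem_Y ih) (mem_rI h1 (ι F x ^ (k + 1))))
      (Submodule.smul_mem _ ((k + 1 : ℕ) : F) (mem_rI h2 (ι F x ^ k)))
    convert this using 1
    have e1 : ι F ⁅y, x⁆ = ι F y * ι F x - ι F x * ι F y := by rw [ι_comm y x]; abel
    have e2 : ι F ⁅x, w⁆ = ι F x * ι F w - ι F w * ι F x := by rw [ι_comm x w]; abel
    rw [map_sub, e1, e2, Nat.cast_succ (k + 1), add_smul, one_smul]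
    simp only [pow_succ', smul_eq_mul, mul_sub, sub_mul, mul_assoc, smul_sub, mul_smul_comm]
    abel

variable [CharZero F] [Module.Finite F L]

omit [CharZero F] [Module.Finite F L] in
lemma poly_mod {m : Submodule F L} {w : L} (hw : Nrm w m) {u : U F L} (hu : u ∈ Ua (m ⊔ F ∙ w)) :
    ∃ (c0 c1 : F) (t : U F L), t ∈ Submodule.span F (Set.range fun k : ℕ => ι F w ^ (k + 2)) ∧
      u - (c0 • 1 + c1 • ι F w + t) ∈ rI m := by
  refine Ua_induction (P := fun u => ∃ (c0 c1 : F) (t : U F L),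
    t ∈ Submodule.span F (Set.range fun k : ℕ => ι F w ^ (k + 2)) ∧
      u - (c0 • 1 + c1 • ι F w + t) ∈ rI m) ⟨1, 0, 0, zero_mem _, by simp⟩ ?_ ?_ ?_ hu
  · rintro u v ⟨c0, c1, t, ht, h⟩ ⟨c0', c1', t', ht', h'⟩
    refine ⟨c0 + c0', c1 + c1', t + t', add_mem ht ht', ?_⟩
    convert add_mem h h' using 1
    module
  · rintro c u ⟨c0, c1, t, ht, h⟩
    refine ⟨c * c0, c * c1, c • t, Submodule.smul_mem _ _ ht, ?_⟩
    convert Submodule.smul_mem _ c h using 1
    module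
  · rintro y' hy' u ⟨c0, c1, t, ht, h⟩
    obtain ⟨y, hy, s, rfl⟩ := mem_sup_span.mp hy'
    refine ⟨0, s * c0, s • (c1 • ι F w ^ (0 + 2) + ι F w * t), Submodule.smul_mem _ _ (add_mem
      (Submodule.smul_mem _ _ (Submodule.subset_span ⟨0, rfl⟩)) ?_), ?_⟩
    · refine (Submodule.span_le (p := Submodule.comap (LinearMap.mulLeft F (ι F w))
        (Submodule.span F (Set.range fun k : ℕ => ι F w ^ (k + 2))))).mpr ?_ ht
      rintro _ ⟨k, rfl⟩
      exact Submodule.subset_span ⟨k + 1, by simp [pow_succ']⟩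
    · convert add_mem (mem_rI hy u) (Submodule.smul_mem _ s (hw.smul_mem_Y h)) using 1
      simp only [map_add, map_smul, add_mul, smul_mul_assoc, smul_eq_mul, mul_sub, mul_add,
        mul_smul_comm, mul_one, zero_add, pow_two]
      module

theorem ncp [LieRing.IsNilpotent L] {M : Type*} [AddCommGroup M] [Module (U F L) M] [Module F M]
    [IsScalarTower F (U F L) M] (hreg : ∀ k, Reg (ι F : L →ₗ⁅F⁆ U F L) ⊤ k M) (δ : M →ₗ[U F L] M) (n : ℕ) :
    ∀ (m q : Submodule F L) (u : U F L), finrank F q = finrank F m + n → Sub q → m ≤ q →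
      (∀ x ∈ q, Nrm x m) → u ∈ Ua q → eps F L u = 0 →
      (∀ x ∈ q, ι F x * u - u * ι F x ∈ rI m) → lin u ∉ m →
      (∀ v, δ (δ v) - u • v ∈ Y (ι F) m M) → Ac δ (Y (ι F) q M) := by
  induction n using Nat.strong_induction_on with
  | _ n ih =>
  intro m q u hn hq hmq hm hu he hc hl hδ
  set w := lin u with hw
  have hwq : w ∈ q := lin_mem hq hu
  have hsm : Sub m := fun x hx y hy => hm x (hmq hx) y hy
  have hwc : ∀ x ∈ q, ⁅x, w⁆ ∈ m := fun x hx => by
    rw [hw, ← lin_ad]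
    exact lin_mem_of_rI hq hmq hm (sub_mem (mul_mem (ι_mem_Ua hx) hu) (mul_mem hu (ι_mem_Ua hx)))
      (hc x hx)
  have hwm : Nrm w m := hm w hwq
  have hreg' : ∀ a, Sub a → ∀ x, x ∉ a → Nrm x a → ∀ v : M, ι F x • v ∈ Y (ι F) a M →
      v ∈ Y (ι F) a M := fun a ha x hx hxa => hreg _ a le_top ha (Nat.lt_succ_self _) x trivial hx hxa
  by_cases ha : ∃ w' ∈ q, (∀ x ∈ q, ⁅x, w'⁆ ∈ m) ∧ w' ∉ m ⊔ F ∙ w
  · obtain ⟨w', hw'q, hw'c, hw'⟩ := ha
    have hw'm : w' ∉ m := fun h => hw' (Submodule.mem_sup_left h)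
    have hle : m ⊔ (F ∙ w') ≤ q := sup_le hmq ((Submodule.span_singleton_le_iff_mem _ _).mpr hw'q)
    have h1 := Submodule.finrank_sup_span_singleton hw'm
    have h2 := Submodule.finrank_mono hle
    refine ih (n - 1) (by omega) (m ⊔ F ∙ w') q u (by omega) hq hle ?_ hu he
      (fun x hx => Y_mono le_sup_left (hc x hx)) ?_ (fun v => Y_mono le_sup_left (hδ v))
    · intro x hx y' hy'
      obtain ⟨y, hy, t, rfl⟩ := mem_sup_span.mp hy'
      rw [lie_add, lie_smul]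
      exact Submodule.mem_sup_left (add_mem (hm x hx y hy) (m.smul_mem _ (hw'c x hx)))
    · intro h
      obtain ⟨y, hy, t, ht⟩ := mem_sup_span.mp h
      by_cases h0 : t = 0
      · apply hl
        rw [← hw] at ht
        simpa [ht, h0] using hy
      · apply hw'
        refine mem_sup_span.mpr ⟨-t⁻¹ • y, m.smul_mem _ hy, t⁻¹, ?_⟩
        rw [hw, ht]
        simp [smul_smul, h0]
  by_cases hb : q ≤ m ⊔ F ∙ w
  · obtain rfl : q = m ⊔ F ∙ w :=
      le_antisymm hb (sup_le hmq ((Submodule.span_singleton_le_iff_mem _ _).mpr hwq))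
    obtain ⟨c0, c1, t, ht, h⟩ := poly_mod hwm hu
    have t1 : eps F L t = 0 ∧ lin t = 0 ∧ t ∈ Ua (m ⊔ F ∙ w) ∧ ∃ a, t = ι F w * (ι F w * a) := by
      refine Submodule.span_induction (p := fun t _ => eps F L t = 0 ∧ lin t = 0 ∧
        t ∈ Ua (m ⊔ F ∙ w) ∧ ∃ a, t = ι F w * (ι F w * a)) ?_ ⟨by simp, by simp, zero_mem _,
          0, by simp⟩ ?_ ?_ ht
      · rintro _ ⟨k, rfl⟩
        exact ⟨by simp, by simp [lin_pow], pow_mem (ι_mem_Ua hwq) _, ι F w ^ k,
          by simp [pow_succ']⟩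
      · rintro a b _ _ ⟨a1, a2, a3, a4, rfl⟩ ⟨b1, b2, b3, b4, rfl⟩
        exact ⟨by rw [map_add, a1, b1, add_zero], by rw [map_add, a2, b2, add_zero],
          add_mem a3 b3, a4 + b4, by simp [mul_add]⟩
      · rintro c a _ ⟨a1, a2, a3, a4, rfl⟩
        exact ⟨by rw [map_smul, a1, smul_zero], by rw [map_smul, a2, smul_zero],
          Subalgebra.smul_mem _ a3 _, c • a4, by simp⟩
    obtain ⟨t1, t2, t3, a, ta⟩ := t1
    have hc0 : c0 = 0 := by simpa [he, t1] using eps_rI h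
    have hc1 : c1 = 1 := by
      have := lin_mem_of_rI hq hmq hm (sub_mem hu (add_mem (add_mem
        (Subalgebra.smul_mem _ (one_mem _) c0) (Subalgebra.smul_mem _ (ι_mem_Ua hwq) c1)) t3)) h
      simp only [map_sub, map_add, map_smul, lin_one, lin_ι, t2, smul_zero, zero_add, add_zero,
        ← hw] at this
      by_contra hne
      apply hl
      rw [← m.smul_mem_iff (sub_ne_zero.mpr (Ne.symm hne))]
      simpa [sub_smul] using this
    rw [hc0, hc1, ta, zero_smul, zero_add, one_smul] at h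
    intro v hv
    obtain ⟨v1, h1⟩ := mem_Y_sup hv
    have h2 := hreg' m hsm w hl hwm (v + ι F w • a • v - δ v1) (by
      have := sub_mem (sub_mem (Y_lmap δ h1) (hδ v)) (Y_smul h v)
      convert this using 1
      simp only [smul_sub, smul_add, map_sub, map_smul, sub_smul, add_smul, mul_smul]
      abel)
    refine ⟨v1, ?_⟩
    have := sub_mem (Y_mono le_sup_left h2) (mem_Y (κ := ι F) (mem_sup_span_self m w) (a • v))
    convert this using 1
    abel
  obtain ⟨y, hyq, hym, hy⟩ := exists_nz hb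
  obtain ⟨x0, hx0, hx0'⟩ : ∃ x ∈ q, ⁅x, y⁆ ∉ m := by
    by_contra hcon
    push Not at hcon
    exact ha ⟨y, hyq, hcon, hym⟩
  have hy' : ∀ z ∈ q, ∃ t : F, ⁅y, z⁆ - t • w ∈ m := by
    intro z hz
    obtain ⟨y', hy', t, ht⟩ := mem_sup_span.mp (neg_mem (hy z (hq _ hz _ hyq)))
    rw [lie_skew] at ht
    exact ⟨t, by simpa [ht] using hy'⟩
  obtain ⟨x, hxq, hx⟩ : ∃ x ∈ q, ⁅y, x⁆ - w ∈ m := by
    obtain ⟨t, ht⟩ := hy' x0 hx0
    have h0 : t ≠ 0 := by
      rintro rfl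
      apply hx0'
      rw [← lie_skew]
      exact neg_mem (by simpa using ht)
    refine ⟨t⁻¹ • x0, q.smul_mem _ hx0, ?_⟩
    have := m.smul_mem t⁻¹ ht
    simpa [smul_sub, smul_smul, h0] using this
  let q' : Submodule F L := q ⊓ m.comap (LieAlgebra.ad F L y)
  have mem_q' : ∀ z, z ∈ q' ↔ z ∈ q ∧ ⁅y, z⁆ ∈ m := fun z => Iff.rfl
  have hbr : ∀ a ∈ q, ∀ b ∈ q, ⁅a, b⁆ ∈ q' := by
    intro a ha b hb
    refine (mem_q' _).mpr ⟨hq _ ha _ hb, ?_⟩
    obtain ⟨s, hs⟩ := hy' a ha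
    obtain ⟨t, ht⟩ := hy' b hb
    have := add_mem (sub_mem (neg_mem (hm b hb _ hs)) (m.smul_mem s (hwc b hb)))
      (add_mem (hm a ha _ ht) (m.smul_mem t (hwc a ha)))
    convert this using 1
    rw [leibniz_lie, ← lie_skew ⁅y, a⁆ b]
    simp
  have hq' : Sub q' := fun a ha b hb => hbr a ha.1 b hb.1
  have hxq' : x ∉ q' := fun h => hl (by simpa using sub_mem ((mem_q' _).mp h).2 hx)
  have hmq' : m ≤ q' := fun z hz => (mem_q' _).mpr ⟨hmq hz, hm y hyq z hz⟩
  have hwq' : w ∈ q' := (mem_q' _).mpr ⟨hwq, hwc y hyq⟩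
  have hm' : ∀ z ∈ q', Nrm z m := fun z hz => hm z hz.1
  have hqe : q = q' ⊔ F ∙ x := by
    refine le_antisymm (fun z hz => ?_)
      (sup_le inf_le_left ((Submodule.span_singleton_le_iff_mem _ _).mpr hxq))
    obtain ⟨t, ht⟩ := hy' z hz
    refine mem_sup_span.mpr ⟨z - t • x, (mem_q' _).mpr ⟨sub_mem hz (q.smul_mem _ hxq), ?_⟩, t,
      by simp⟩
    convert sub_mem ht (m.smul_mem t hx) using 1
    simp [smul_sub]
  have hxn : Nrm x q' := fun z hz => hbr x hxq z hz.1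
  have hq'q : q' ≤ q := inf_le_left
  clear_value q'
  subst hqe
  obtain ⟨N, b, hb⟩ := span_left hq' hxq' hq hu
  obtain ⟨N, rfl⟩ : ∃ N', N = N' + 1 := Nat.exists_eq_succ_of_ne_zero (by
    rintro rfl
    apply hl
    rw [hw, hb]
    simp)
  have hB : ∀ k, Umap hq'.toLie.incl (b k) ∈ Ua q' := fun k => Umap_mem_Ua _ (fun b => b.2) _
  have h1 : ∑ k ∈ Finset.range N, Umap hq'.toLie.incl (((k + 1 : ℕ) : F) •
      (b (k + 1) * ι F (⟨w, hwq'⟩ : hq'.toLie))) * ι F x ^ k ∈ rI m := by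
    have h2 := hc y hyq
    rw [hb, Finset.sum_range_succ', pow_zero, mul_one, mul_add, add_mul, add_sub_add_comm,
      Finset.mul_sum, Finset.sum_mul, ← Finset.sum_sub_distrib] at h2
    have h3 := sub_mem h2 (comm_mem_rI hm' (fun z hz => ((mem_q' z).mp hz).2) (hB 0))
    rw [add_sub_cancel_right] at h3
    have h4 : ∑ k ∈ Finset.range N, ((ι F y * (Umap hq'.toLie.incl (b (k + 1)) * ι F x ^ (k + 1)) -
        Umap hq'.toLie.incl (b (k + 1)) * ι F x ^ (k + 1) * ι F y) - Umap hq'.toLie.incl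
          (((k + 1 : ℕ) : F) • (b (k + 1) * ι F (⟨w, hwq'⟩ : hq'.toLie))) * ι F x ^ k) ∈ rI m := by
      refine Submodule.sum_mem _ fun k _ => ?_
      have := add_mem (Y_mul (comm_mem_rI hm' (fun z hz => ((mem_q' z).mp hz).2) (hB (k + 1)))
        (ι F x ^ (k + 1))) (Ua_mul_rI hm' (hB (k + 1))
          (comm_pow_mem_rI (hm x hxq) hx (hwc x hxq) k))
      convert this using 1
      simp only [map_smul, map_mul, Umap_ι, LieSubalgebra.coe_incl, mul_sub, sub_mul, mul_assoc,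
        smul_mul_assoc, mul_smul_comm]
      abel
    rw [Finset.sum_sub_distrib] at h4
    simpa using sub_mem h3 h4
  have h5 : ∀ k ∈ Finset.range N, Umap hq'.toLie.incl (b (k + 1)) ∈ rI m := by
    intro k hk
    have h2 := ind_left hq'.incl_inj (by rwa [hq'.rg_incl])
      (a := m.comap (hq'.toLie.incl : hq'.toLie →ₗ[F] L)) (fun z hz => ⟨⟨z, hmq' hz⟩, hz, rfl⟩)
      _ _ h1 k hk
    have h3 := Umap_rI hq'.toLie.incl (a' := m) (fun z hz => hz) h2
    rw [map_smul, Submodule.smul_mem_iff _ (Nat.cast_ne_zero.mpr (Nat.succ_ne_zero k))] at h3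
    refine reg_U ⊤ _ m le_top hsm (Nat.lt_succ_self _) w trivial hl hwm _ ?_
    have h4 := comm_mem_rI hm' (y := w) (fun z hz => by
      rw [← lie_skew]; exact neg_mem (hwc z (hq'q hz))) (hB (k + 1))
    simpa using add_mem h4 h3
  have h6 : u - Umap hq'.toLie.incl (b 0) ∈ rI m := by
    rw [hb, Finset.sum_range_succ', pow_zero, mul_one, add_sub_cancel_right]
    exact Submodule.sum_mem _ fun k hk => Y_mul (h5 k hk) _
  have h7 : eps F L (Umap hq'.toLie.incl (b 0)) = 0 := by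
    have := eps_rI h6
    rwa [map_sub, he, zero_sub, neg_eq_zero] at this
  have h8 : ∀ v, δ (δ v) - Umap hq'.toLie.incl (b 0) • v ∈ Y (ι F) m M := fun v => by
    convert add_mem (hδ v) (Y_smul h6 v) using 1
    rw [sub_smul]; abel
  have h9 := Submodule.finrank_sup_span_singleton hxq'
  have h10 := Submodule.finrank_mono hmq'
  refine cone hxn (hreg' q' hq' x hxq' hxn) (fun v => ?_)
    (ih (n - 1) (by omega) m q' _ (by omega) hq' hmq' hm' (hB 0) h7 (fun z hz => ?_) ?_ h8)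
  · simpa using add_mem (Y_mono hmq' (h8 v)) (Y_smul (mem_rI_of_eps (hB 0) h7) v)
  · have := add_mem (sub_mem (hc z (hq'q hz)) ((hm' z hz).smul_mem_Y h6)) (Y_mul h6 (ι F z))
    convert this using 1
    simp only [smul_eq_mul, mul_sub, sub_mul]
    abel
  · intro h
    apply hl
    have := lin_mem_of_rI hq hmq hm (sub_mem hu (Ua_mono hq'q (hB 0))) h6
    simpa using add_mem this h

end

end Pool.Agent.P.MP_37e2d5_al
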