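import Mathlib

/-! The Poincare-Birkhoff-Witt theorem for finite dimensional Lie algebras over a field. -/

namespace Pool.Agent.P.MP_37e2d5_al

open UniversalEnvelopingAlgebra Module

attribute [local instance 100] LieRing.ofAssociativeRing
attribute [-simp] UniversalEnvelopingAlgebra.ι_apply

noncomputable section

/-- ordered monomial -/
def mono {R : Type*} [Monoid R] {n : ℕ} (y : Fin n → R) (a : Fin n → ℕ) : R :=
  (List.ofFn fun i => y i ^ a i).prod

/-- total degree -/
def deg {n : ℕ} (a : Fin n → ℕ) : ℕ := ∑ i, a i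

lemma deg_add {n : ℕ} (a b : Fin n → ℕ) : deg (a + b) = deg a + deg b := by
  simp [deg, Finset.sum_add_distrib]

lemma deg_single {n : ℕ} (i : Fin n) (k : ℕ) : deg (Pi.single i k : Fin n → ℕ) = k := by
  simp [deg]

@[simp] lemma deg_zero {n : ℕ} : deg (0 : Fin n → ℕ) = 0 := by simp [deg]

lemma deg_eq_zero {n : ℕ} {a : Fin n → ℕ} (h : deg a = 0) : a = 0 := by
  funext i
  exact (Finset.sum_eq_zero_iff.mp h) i (Finset.mem_univ i)

lemma sub_single_add {n : ℕ} {a : Fin n → ℕ} {i : Fin n} (h : a i ≠ 0) :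
    a - Pi.single i 1 + Pi.single i 1 = a := by
  funext j
  by_cases hj : j = i
  · subst hj; simp; omega
  · simp [Pi.single_eq_of_ne hj]

lemma deg_sub_single {n : ℕ} {a : Fin n → ℕ} {i : Fin n} (h : a i ≠ 0) :
    deg (a - Pi.single i 1) + 1 = deg a := by
  conv_rhs => rw [← sub_single_add h, deg_add, deg_single]

@[simp] lemma mono_zero {R : Type*} [Monoid R] {n : ℕ} (y : Fin n → R) : mono y 0 = 1 := by
  simp [mono]

lemma mono_succ {R : Type*} [Monoid R] {n : ℕ} (y : Fin (n + 1) → R) (a : Fin (n + 1) → ℕ) :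
    mono y a = y 0 ^ a 0 * mono (fun i => y i.succ) (fun i => a i.succ) := by
  simp [mono, List.ofFn_succ]

lemma mono_add_single {R : Type*} [Monoid R] {n : ℕ} (y : Fin n → R) (a : Fin n → ℕ) (μ : Fin n)
    (h : ∀ i < μ, a i = 0) : mono y (a + Pi.single μ 1) = y μ * mono y a := by
  induction n with
  | zero => exact μ.elim0
  | succ n ih =>
    rw [mono_succ, mono_succ y a]
    refine Fin.cases (motive := fun μ => (∀ i < μ, a i = 0) →
      y 0 ^ (a + Pi.single μ 1 : Fin (n + 1) → ℕ) 0 * mono (fun i => y i.succ)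
        (fun i => (a + Pi.single μ 1 : Fin (n + 1) → ℕ) i.succ) = y μ * (y 0 ^ a 0 *
          mono (fun i => y i.succ) (fun i => a i.succ))) ?_ ?_ μ h
    · intro _
      simp [pow_succ', mul_assoc]
    · intro ν hν
      have h0 : a 0 = 0 := hν 0 (Fin.succ_pos ν)
      have := ih (fun i => y i.succ) (fun i => a i.succ) ν
        (fun i hi => hν i.succ (Fin.succ_lt_succ_iff.mpr hi))
      have e : (fun i : Fin n => (a + Pi.single ν.succ 1 : Fin (n + 1) → ℕ) i.succ) =
          (fun i : Fin n => a i.succ) + Pi.single ν 1 := by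
        funext i
        simp [Pi.single_apply]
      rw [e, this]
      simp [h0, (Fin.succ_ne_zero ν).symm]

lemma map_mono {R S : Type*} [Monoid R] [Monoid S] {n : ℕ} {G : Type*} [FunLike G R S]
    [MonoidHomClass G R S] (f : G) (y : Fin n → R) (a : Fin n → ℕ) :
    f (mono y a) = mono (fun i => f (y i)) a := by
  simp [mono, map_list_prod, List.map_ofFn, Function.comp_def]

/-- least index in the support -/
def lo {n : ℕ} (a : Fin n → ℕ) (h : ∃ μ, a μ ≠ 0) : Fin n :=
  (Finset.univ.filter fun i => a i ≠ 0).min' (by obtain ⟨μ, hμ⟩ := h; exact ⟨μ, by simpa⟩)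

lemma lo_ne {n : ℕ} (a : Fin n → ℕ) (h : ∃ μ, a μ ≠ 0) : a (lo a h) ≠ 0 := by
  have := Finset.min'_mem (Finset.univ.filter fun i => a i ≠ 0)
    (by obtain ⟨μ, hμ⟩ := h; exact ⟨μ, by simpa⟩)
  simpa [lo] using this

lemma lo_le {n : ℕ} (a : Fin n → ℕ) (h : ∃ μ, a μ ≠ 0) {i : Fin n} (hi : a i ≠ 0) :
    lo a h ≤ i := Finset.min'_le _ _ (by simpa)

lemma lo_min {n : ℕ} (a : Fin n → ℕ) (h : ∃ μ, a μ ≠ 0) {i : Fin n} (hi : i < lo a h) :
    a i = 0 := by
  by_contra hc
  exact absurd (lo_le a h hc) (not_le.mpr hi)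

variable {F : Type*} [Field F] {L : Type*} [LieRing L] [LieAlgebra F L] {n : ℕ}

/-- the recursive action on monomials -/
def act (x : Basis (Fin n) F L) (l : Fin n) (a : Fin n → ℕ) : (Fin n → ℕ) →₀ F :=
  if h : ∃ μ, μ < l ∧ a μ ≠ 0 then
    Finsupp.single (a + Pi.single l 1) 1 +
      (act x l (a - Pi.single (lo a (h.imp fun _ => And.right)) 1) -
        Finsupp.single (a - Pi.single (lo a (h.imp fun _ => And.right)) 1 + Pi.single l 1) 1).sum
        (fun a' c => if _h' : deg a' < deg a then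
          c • act x (lo a (h.imp fun _ => And.right)) a' else 0) +
      ∑ ν, x.repr ⁅x l, x (lo a (h.imp fun _ => And.right))⁆ ν •
        act x ν (a - Pi.single (lo a (h.imp fun _ => And.right)) 1)
  else Finsupp.single (a + Pi.single l 1) 1
termination_by deg a
decreasing_by
  · have := deg_sub_single (lo_ne a (h.imp fun _ => And.right)); omega
  · assumption
  · have := deg_sub_single (lo_ne a (h.imp fun _ => And.right)); omega

/-- degree filtration on the polynomial space -/
def SF (F : Type*) [Field F] (n d : ℕ) : Submodule F ((Fin n → ℕ) →₀ F) :=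
  Finsupp.supported F F {a | deg a ≤ d}

lemma SF_mono {d d' : ℕ} (h : d ≤ d') : SF F n d ≤ SF F n d' :=
  Finsupp.supported_mono fun _ ha => le_trans ha h

lemma single_mem_SF {d : ℕ} {a : Fin n → ℕ} (h : deg a ≤ d) (c : F) :
    Finsupp.single a c ∈ SF F n d := Finsupp.single_mem_supported _ _ h

lemma act_sub_mem (x : Basis (Fin n) F L) (l : Fin n) (a : Fin n → ℕ) :
    act x l a - Finsupp.single (a + Pi.single l 1) 1 ∈ SF F n (deg a) := by
  induction hd : deg a using Nat.strong_induction_on generalizing a l with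
  | _ d ih =>
    have key : ∀ (l : Fin n) (a' : Fin n → ℕ), deg a' < d → act x l a' ∈ SF F n d := by
      intro l a' ha'
      have h1 := SF_mono (F := F) (n := n) ha'.le (ih _ ha' l a' rfl)
      have h2 : Finsupp.single (a' + Pi.single l 1) (1 : F) ∈ SF F n d :=
        single_mem_SF (by rw [deg_add, deg_single]; omega) _
      simpa using add_mem h1 h2
    rw [act]
    split_ifs with h
    · rw [add_assoc, add_sub_cancel_left]
      refine add_mem (Submodule.sum_mem _ fun a' _ => ?_) (Submodule.sum_mem _ fun ν _ => ?_)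
      · dsimp only
        split_ifs with h'
        · exact Submodule.smul_mem _ _ (key _ _ (hd ▸ h'))
        · exact zero_mem _
      · refine Submodule.smul_mem _ _ (key _ _ ?_)
        have := deg_sub_single (lo_ne a (h.imp fun _ => And.right)); omega
    · simp

lemma act_mem (x : Basis (Fin n) F L) (l : Fin n) (a : Fin n → ℕ) :
    act x l a ∈ SF F n (deg a + 1) := by
  have h1 := SF_mono (F := F) (n := n) (Nat.le_succ _) (act_sub_mem x l a)
  have h2 : Finsupp.single (a + Pi.single l 1) (1 : F) ∈ SF F n (deg a + 1) :=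
    single_mem_SF (by rw [deg_add, deg_single]) _
  simpa using add_mem h1 h2

/-- the action as a bilinear map -/
def G (x : Basis (Fin n) F L) : L →ₗ[F] Module.End F ((Fin n → ℕ) →₀ F) :=
  x.constr F fun l => Finsupp.linearCombination F (act x l)

lemma G_basis (x : Basis (Fin n) F L) (l : Fin n) (a : Fin n → ℕ) :
    G x (x l) (Finsupp.single a 1) = act x l a := by
  simp [G]

lemma G_apply_single (x : Basis (Fin n) F L) (y : L) (a : Fin n → ℕ) :
    G x y (Finsupp.single a 1) = ∑ ν, x.repr y ν • act x ν a := by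
  conv_lhs => rw [← x.sum_repr y]
  rw [map_sum, LinearMap.sum_apply]
  simp only [map_smul, LinearMap.smul_apply, G_basis]

lemma SF_induction {d : ℕ} {P : ((Fin n → ℕ) →₀ F) → Prop} (h0 : P 0)
    (hadd : ∀ u v, P u → P v → P (u + v)) (hsmul : ∀ (c : F) u, P u → P (c • u))
    (hs : ∀ a, deg a ≤ d → P (Finsupp.single a 1)) {u} (hu : u ∈ SF F n d) : P u := by
  rw [SF, Finsupp.supported_eq_span_single] at hu
  induction hu using Submodule.span_induction with
  | mem v hv => obtain ⟨a, ha, rfl⟩ := hv; exact hs a ha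
  | zero => exact h0
  | add u v _ _ hu hv => exact hadd u v hu hv
  | smul c u _ hu => exact hsmul c u hu

lemma act_of_le (x : Basis (Fin n) F L) (l : Fin n) (a : Fin n → ℕ) (h : ∀ i < l, a i = 0) :
    act x l a = Finsupp.single (a + Pi.single l 1) 1 := by
  rw [act, dif_neg]
  rintro ⟨μ, h1, h2⟩
  exact h2 (h μ h1)

lemma act_rec (x : Basis (Fin n) F L) (l μ : Fin n) (T : Fin n → ℕ) (hT : ∀ i < μ, T i = 0)
    (hμ : μ < l) : act x l (T + Pi.single μ 1) =
      G x (x μ) (G x (x l) (Finsupp.single T 1)) + G x ⁅x l, x μ⁆ (Finsupp.single T 1) := by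
  have h : ∃ ν, ν < l ∧ (T + Pi.single μ 1 : Fin n → ℕ) ν ≠ 0 := ⟨μ, hμ, by simp⟩
  have hlo : lo (T + Pi.single μ 1) (h.imp fun _ => And.right) = μ := by
    apply le_antisymm (lo_le _ _ (by simp))
    by_contra hc
    push Not at hc
    have := lo_ne (T + Pi.single μ 1) (h.imp fun _ => And.right)
    apply this
    simp [hT _ hc, Pi.single_eq_of_ne hc.ne]
  rw [act, dif_pos h]
  simp only [hlo, add_tsub_cancel_right]
  rw [G_apply_single x ⁅x l, x μ⁆, G_basis]
  congr 1
  have e1 : G x (x μ) (Finsupp.single (T + Pi.single l 1) 1) =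
      Finsupp.single (T + Pi.single μ 1 + Pi.single l 1) 1 := by
    rw [G_basis, act_of_le, add_right_comm]
    intro i hi
    simp [hT i hi, Pi.single_eq_of_ne (hi.trans hμ).ne]
  have hw := act_sub_mem x l T
  set w := act x l T - Finsupp.single (T + Pi.single l 1) 1 with hwdef
  have e2 : act x l T = Finsupp.single (T + Pi.single l 1) 1 + w := by simp [hwdef]
  rw [e2, map_add, e1]
  congr 1
  simp only [G, Basis.constr_basis, Finsupp.linearCombination_apply]
  refine Finsupp.sum_congr fun a' ha' => ?_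
  have : deg a' ≤ deg T := hw ha'
  rw [dif_pos]
  rw [deg_add, deg_single]; omega

lemma G_comm_aux (x : Basis (Fin n) F L) (w : (Fin n → ℕ) →₀ F)
    (h : ∀ l μ, G x (x l) (G x (x μ) w) - G x (x μ) (G x (x l) w) = G x ⁅x l, x μ⁆ w) (y y' : L) :
    G x y (G x y' w) - G x y' (G x y w) = G x ⁅y, y'⁆ w := by
  let B1 : L →ₗ[F] L →ₗ[F] ((Fin n → ℕ) →₀ F) := LinearMap.mk₂ F
    (fun y y' => G x y (G x y' w) - G x y' (G x y w))
    (by intros; simp; abel) (by intros; simp [smul_sub]) (by intros; simp; abel)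
    (by intros; simp [smul_sub])
  let B2 : L →ₗ[F] L →ₗ[F] ((Fin n → ℕ) →₀ F) := LinearMap.mk₂ F
    (fun y y' => G x ⁅y, y'⁆ w)
    (by intros; simp) (by intros; simp) (by intros; simp) (by intros; simp)
  have : B1 = B2 := LinearMap.ext_basis x x h
  exact LinearMap.congr_fun₂ this y y'

lemma G_comm (x : Basis (Fin n) F L) (d : ℕ) : ∀ w ∈ SF F n d, ∀ y y' : L,
    G x y (G x y' w) - G x y' (G x y w) = G x ⁅y, y'⁆ w := by
  induction d using Nat.strong_induction_on with
  | _ d ih =>
    intro w hw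
    refine G_comm_aux x w ?_
    intro l μ
    refine SF_induction (P := fun w => G x (x l) (G x (x μ) w) - G x (x μ) (G x (x l) w) =
      G x ⁅x l, x μ⁆ w) (by simp) ?_ ?_ ?_ hw
    · intro u v hu hv
      simp only [map_add, ← hu, ← hv]; abel
    · intro c u hu
      simp only [map_smul, ← hu, smul_sub]
    intro T hT
    have first : ∀ (l μ : Fin n) (T : Fin n → ℕ), (∀ i < μ, T i = 0) → μ < l →
        G x (x l) (G x (x μ) (Finsupp.single T 1)) - G x (x μ) (G x (x l) (Finsupp.single T 1)) =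
          G x ⁅x l, x μ⁆ (Finsupp.single T 1) := by
      intro l μ T hT hμ
      rw [G_basis x μ, act_of_le x μ T hT, G_basis, act_rec x l μ T hT hμ]
      abel
    wlog hlt : μ < l generalizing l μ
    · rcases (not_lt.mp hlt).eq_or_lt with h | h
      · subst h; simp
      · have := this μ l h
        rw [← lie_skew, map_neg, LinearMap.neg_apply, ← this]; abel
    by_cases hc : ∀ i < μ, T i = 0
    · exact first l μ T hc hlt
    push Not at hc
    obtain ⟨i, hi, hTi⟩ := hc
    have hex : ∃ μ, T μ ≠ 0 := ⟨i, hTi⟩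
    set ν := lo T hex
    have hνμ : ν < μ := lt_of_le_of_lt (lo_le T hex hTi) hi
    have hνl : ν < l := hνμ.trans hlt
    set Ψ := T - Pi.single ν 1 with hΨ
    have hΨ0 : ∀ i < ν, Ψ i = 0 := fun i hi => by simp [hΨ, lo_min T hex hi]
    have hTΨ : Finsupp.single T (1 : F) = G x (x ν) (Finsupp.single Ψ 1) := by
      rw [G_basis, act_of_le x ν Ψ hΨ0, hΨ, sub_single_add (lo_ne T hex)]
    have hd : deg Ψ < d := by
      have : deg Ψ + 1 = deg T := deg_sub_single (lo_ne T hex)
      omega
    have ih' := ih _ hd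
    have hz : Finsupp.single Ψ (1 : F) ∈ SF F n (deg Ψ) := single_mem_SF le_rfl _
    have three : ∀ l μ : Fin n, ν < l → ν < μ →
        G x (x l) (G x (x ν) (G x (x μ) (Finsupp.single Ψ 1))) =
          G x (x ν) (G x (x l) (G x (x μ) (Finsupp.single Ψ 1))) +
            G x ⁅x l, x ν⁆ (G x (x μ) (Finsupp.single Ψ 1)) := by
      intro l μ hl hμ
      have hw := act_sub_mem x μ Ψ
      set w := act x μ Ψ - Finsupp.single (Ψ + Pi.single μ 1) 1 with hwdef
      have e2 : act x μ Ψ = Finsupp.single (Ψ + Pi.single μ 1) 1 + w := by simp [hwdef]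
      have a1 := first l ν (Ψ + Pi.single μ 1) (fun i hi => by
        simp [hΨ0 i hi, Pi.single_eq_of_ne (hi.trans hμ).ne]) hl
      have a2 := ih' w hw (x l) (x ν)
      rw [G_basis x μ, e2]
      simp only [map_add]
      rw [← a1, ← a2]; abel
    rw [hTΨ]
    set z := Finsupp.single Ψ (1 : F)
    have b1 : G x (x μ) (G x (x ν) z) = G x (x ν) (G x (x μ) z) + G x ⁅x μ, x ν⁆ z := by
      rw [← ih' z hz]; abel
    have b2 : G x (x l) (G x (x ν) z) = G x (x ν) (G x (x l) z) + G x ⁅x l, x ν⁆ z := by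
      rw [← ih' z hz]; abel
    have b3 := ih' z hz (x l) (x μ)
    have b4 := ih' z hz ⁅x l, x ν⁆ (x μ)
    have b5 := ih' z hz (x l) ⁅x μ, x ν⁆
    have b6 := ih' z hz ⁅x l, x μ⁆ (x ν)
    have jac : ⁅⁅x l, x μ⁆, x ν⁆ = ⁅⁅x l, x ν⁆, x μ⁆ + ⁅x l, ⁅x μ, x ν⁆⁆ := by
      rw [lie_lie, ← lie_skew ⁅x l, x ν⁆ (x μ)]
      abel
    rw [b1, b2, map_add, map_add, three l μ hνl hνμ, three μ l hνμ hνl]
    rw [jac, map_add, LinearMap.add_apply, ← b4, ← b5] at b6
    have b7 : G x (x ν) (G x (x l) (G x (x μ) z)) - G x (x ν) (G x (x μ) (G x (x l) z)) =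
      G x (x ν) (G x ⁅x l, x μ⁆ z) := by rw [← b3, map_sub]
    linear_combination (norm := abel) b7 - b6

lemma mem_SF_exists (w : (Fin n → ℕ) →₀ F) : ∃ d, w ∈ SF F n d :=
  ⟨w.support.sup deg, fun _ ha => Finset.le_sup (f := deg) ha⟩

/-- the action as a Lie algebra morphism -/
def Grep (x : Basis (Fin n) F L) : L →ₗ⁅F⁆ Module.End F ((Fin n → ℕ) →₀ F) :=
  { G x with
    map_lie' := fun {y y'} => by
      ext1 w
      ext1
      obtain ⟨d, hd⟩ := mem_SF_exists (Finsupp.single w (1 : F))
      simpa [LieRing.of_associative_ring_bracket] using (G_comm x d _ hd y y').symm }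

/-- enveloping algebra -/
abbrev U (F L : Type*) [CommRing F] [LieRing L] [LieAlgebra F L] := UniversalEnvelopingAlgebra F L

/-- evaluation on the vacuum -/
def ev (x : Basis (Fin n) F L) : U F L →ₗ[F] ((Fin n → ℕ) →₀ F) :=
  (LinearMap.applyₗ (Finsupp.single (0 : Fin n → ℕ) (1 : F))) ∘ₗ (lift F (Grep x)).toLinearMap

lemma ev_one (x : Basis (Fin n) F L) : ev x 1 = Finsupp.single 0 1 := by simp [ev]

lemma ev_ι_mul (x : Basis (Fin n) F L) (y : L) (u : U F L) :
    ev x (ι F y * u) = G x y (ev x u) := by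
  simp [ev, lift_ι_apply]
  rfl

lemma ev_mono (x : Basis (Fin n) F L) (a : Fin n → ℕ) :
    ev x (mono (fun i => ι F (x i)) a) = Finsupp.single a 1 := by
  induction hd : deg a using Nat.strong_induction_on generalizing a with
  | _ d ih =>
    by_cases h : ∃ μ, a μ ≠ 0
    · have h0 : ∀ i < lo a h, (a - Pi.single (lo a h) 1 : Fin n → ℕ) i = 0 :=
        fun i hi => by simp [lo_min a h hi]
      have h1 := deg_sub_single (lo_ne a h)
      rw [← sub_single_add (lo_ne a h), mono_add_single _ _ _ h0, ev_ι_mul,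
        ih _ (by omega) _ rfl, G_basis, act_of_le _ _ _ h0]
    · push Not at h
      obtain rfl : a = 0 := funext h
      simp [ev_one]

/-- the linear map from polynomials to the enveloping algebra -/
def sg (x : Basis (Fin n) F L) : ((Fin n → ℕ) →₀ F) →ₗ[F] U F L :=
  Finsupp.linearCombination F (mono fun i => ι F (x i))

lemma sg_single (x : Basis (Fin n) F L) (a : Fin n → ℕ) :
    sg x (Finsupp.single a 1) = mono (fun i => ι F (x i)) a := by simp [sg]

lemma ι_comm (y y' : L) : ι F y * ι F y' = ι F y' * ι F y + ι F ⁅y, y'⁆ := by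
  rw [LieHom.map_lie, LieRing.of_associative_ring_bracket]; abel

lemma sg_G (x : Basis (Fin n) F L) (d : ℕ) : ∀ w ∈ SF F n d, ∀ y : L,
    sg x (G x y w) = ι F y * sg x w := by
  induction d using Nat.strong_induction_on with
  | _ d ih =>
    intro w hw y
    suffices H : ∀ l, sg x (G x (x l) w) = ι F (x l) * sg x w by
      rw [← x.sum_repr y]
      simp only [map_sum, LinearMap.sum_apply, map_smul, LinearMap.smul_apply, H,
        Finset.sum_mul, smul_mul_assoc]
    intro l
    refine SF_induction (P := fun w => sg x (G x (x l) w) = ι F (x l) * sg x w) (by simp)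
      ?_ ?_ ?_ hw
    · intro u v hu hv
      simp only [map_add, hu, hv, mul_add]
    · intro c u hu
      simp only [map_smul, hu, mul_smul_comm]
    intro a ha
    have first : ∀ (l : Fin n) (a : Fin n → ℕ), (∀ i < l, a i = 0) →
        sg x (G x (x l) (Finsupp.single a 1)) = ι F (x l) * sg x (Finsupp.single a 1) := by
      intro l a h
      rw [G_basis, act_of_le _ _ _ h, sg_single, sg_single, mono_add_single _ _ _ h]
    by_cases hc : ∀ i < l, a i = 0
    · exact first l a hc
    push Not at hc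
    obtain ⟨i, hi, hai⟩ := hc
    have hex : ∃ μ, a μ ≠ 0 := ⟨i, hai⟩
    set μ := lo a hex
    have hμ : μ < l := lt_of_le_of_lt (lo_le a hex hai) hi
    set T := a - Pi.single μ 1 with hT
    have hT0 : ∀ i < μ, T i = 0 := fun i hi => by simp [hT, lo_min a hex hi]
    have hd : deg T < d := by
      have : deg T + 1 = deg a := deg_sub_single (lo_ne a hex)
      omega
    have ha' : a = T + Pi.single μ 1 := (sub_single_add (lo_ne a hex)).symm
    have hz : Finsupp.single T (1 : F) ∈ SF F n (deg T) := single_mem_SF le_rfl _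
    have hw := act_sub_mem x l T
    set w := act x l T - Finsupp.single (T + Pi.single l 1) 1 with hwdef
    have e2 : act x l T = Finsupp.single (T + Pi.single l 1) 1 + w := by simp [hwdef]
    have a1 := first μ (T + Pi.single l 1) (fun i hi => by
      simp [hT0 i hi, Pi.single_eq_of_ne (hi.trans hμ).ne])
    have a2 := ih _ hd w hw (x μ)
    have a3 := ih _ hd _ hz (x l)
    rw [ha', G_basis, act_rec x l μ T hT0 hμ, map_add, ih _ hd _ hz, G_basis, e2, map_add,
      map_add, a1, a2, ← mul_add, ← map_add, ← e2, ← G_basis, a3, sg_single, sg_single,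
      mono_add_single _ _ _ hT0, ← mul_assoc, ← add_mul, ← ι_comm, mul_assoc]

lemma U_induction {P : U F L → Prop} (h1 : P 1) (hadd : ∀ u v, P u → P v → P (u + v))
    (hsmul : ∀ (c : F) u, P u → P (c • u)) (hmul : ∀ y u, P u → P (ι F y * u)) (u : U F L) :
    P u := by
  have h0 : P 0 := by simpa using hsmul 0 1 h1
  suffices H : ∀ t : TensorAlgebra F L, ∀ v, P v → P (mkAlgHom F L t * v) by
    obtain ⟨t, rfl⟩ := RingCon.mkₐ_surjective (α := F) (ringCon F L) u
    have := H t 1 h1
    rw [mul_one] at this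
    exact this
  intro t
  induction t using TensorAlgebra.induction with
  | algebraMap r => intro v hv; rw [AlgHom.commutes, ← Algebra.smul_def]; exact hsmul _ _ hv
  | ι y => intro v hv; exact hmul y v hv
  | mul a b ha hb => intro v hv; rw [map_mul, mul_assoc]; exact ha _ (hb _ hv)
  | add a b ha hb => intro v hv; rw [map_add, add_mul]; exact hadd _ _ (ha _ hv) (hb _ hv)

lemma sg_ev (x : Basis (Fin n) F L) (u : U F L) : sg x (ev x u) = u := by
  induction u using U_induction with
  | h1 => rw [ev_one, sg_single, mono_zero]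
  | hadd u v hu hv => rw [map_add, map_add, hu, hv]
  | hsmul c u hu => rw [map_smul, map_smul, hu]
  | hmul y u hu =>
    obtain ⟨d, hd⟩ := mem_SF_exists (ev x u)
    rw [ev_ι_mul, sg_G x d _ hd, hu]

lemma ev_sg (x : Basis (Fin n) F L) (w : (Fin n → ℕ) →₀ F) : ev x (sg x w) = w := by
  have : ev x ∘ₗ sg x = LinearMap.id := by
    ext1 a
    ext1
    simp [sg_single, ev_mono]
  exact LinearMap.congr_fun this w

/-- The PBW basis. -/
def pbw (x : Basis (Fin n) F L) : Basis (Fin n → ℕ) F (U F L) :=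
  Basis.ofRepr (LinearEquiv.ofLinearMap (ev x) (sg x) (LinearMap.ext (ev_sg x))
    (LinearMap.ext (sg_ev x)))

lemma pbw_apply (x : Basis (Fin n) F L) (a : Fin n → ℕ) :
    pbw x a = mono (fun i => ι F (x i)) a := by
  simp [pbw, sg_single]

/-- degree filtration -/
def fil (F : Type*) [Field F] {R I : Type*} [AddCommGroup R] [Module F R] (m : I → R) (ω : I → ℕ)
    (d : ℕ) : Submodule F R := Submodule.span F (m '' {a | ω a < d})

lemma ι_mul_pbw (x : Basis (Fin n) F L) (l : Fin n) (a : Fin n → ℕ) :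
    ι F (x l) * pbw x a - pbw x (a + Pi.single l 1) ∈ fil F (pbw x) deg (deg a + 1) := by
  have h := act_sub_mem x l a
  have e : ι F (x l) * pbw x a - pbw x (a + Pi.single l 1) =
      sg x (act x l a - Finsupp.single (a + Pi.single l 1) 1) := by
    rw [map_sub, ← G_basis, sg_G x _ _ (single_mem_SF le_rfl _), sg_single, sg_single, pbw_apply,
      pbw_apply]
  rw [e]
  refine SF_induction (P := fun w => sg x w ∈ fil F (pbw x) deg (deg a + 1)) (by simp)
    ?_ ?_ ?_ h
  · intro u v hu hv; rw [map_add]; exact add_mem hu hv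
  · intro c u hu; rw [map_smul]; exact Submodule.smul_mem _ _ hu
  · intro b hb
    rw [sg_single, ← pbw_apply]
    exact Submodule.subset_span ⟨b, Nat.lt_succ_of_le hb, rfl⟩

end

end Pool.Agent.P.MP_37e2d5_al
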