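import Pool.Agent.P.MP_37e2d5_al.Reg

/-! Regular modules; purity; the cone lemma. -/

namespace Pool.Agent.P.MP_37e2d5_al

open UniversalEnvelopingAlgebra Module

attribute [local instance 100] LieRing.ofAssociativeRing
attribute [-simp] UniversalEnvelopingAlgebra.ι_apply

noncomputable section

variable {F : Type*} [Field F] {L B : Type*} [LieRing L] [LieAlgebra F L]
  [LieRing B] [LieAlgebra F B] {Λ Λ' : Type*} [Ring Λ] [Algebra F Λ] [Ring Λ'] [Algebra F Λ']

/-- regularity up to dimension `k` -/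
def Reg (κ : B →ₗ⁅F⁆ Λ) (s : Submodule F B) (k : ℕ) (M : Type*) [AddCommGroup M] [Module Λ M]
    [Module F M] : Prop :=
  ∀ a ≤ s, Sub a → finrank F a < k → ∀ x ∈ s, x ∉ a → Nrm x a →
    ∀ m : M, κ x • m ∈ Y κ a M → m ∈ Y κ a M

/-- every nonzero subalgebra has a normalised hyperplane -/
def NoPerf (s : Submodule F B) : Prop :=
  ∀ a ≤ s, Sub a → a ≠ ⊥ → ∃ a' x, Sub a' ∧ x ∉ a' ∧ Nrm x a' ∧ a = a' ⊔ F ∙ x

lemma exists_hyper {a d : Submodule F B} (hd : ¬ a ≤ d) (h : ∀ x ∈ a, ∀ y ∈ a, ⁅x, y⁆ ∈ d)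
    (ha : Sub a) : ∃ a' x, Sub a' ∧ x ∉ a' ∧ Nrm x a' ∧ a = a' ⊔ F ∙ x := by
  obtain ⟨x, hx, hxd⟩ := SetLike.not_le_iff_exists.mp hd
  obtain ⟨φ, h1, h2⟩ := Submodule.exists_le_ker_of_notMem hxd
  refine ⟨a ⊓ LinearMap.ker φ, x, fun u hu v hv => ⟨ha _ hu.1 _ hv.1, h2 (h _ hu.1 _ hv.1)⟩,
    fun hc => h1 hc.2, fun v hv => ⟨ha _ hx _ hv.1, h2 (h _ hx _ hv.1)⟩, le_antisymm ?_ ?_⟩
  · intro u hu
    refine mem_sup_span.mpr ⟨u - (φ u / φ x) • x, ⟨sub_mem hu (a.smul_mem _ hx), ?_⟩,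
      φ u / φ x, by simp⟩
    simp [h1]
  · exact sup_le inf_le_left ((Submodule.span_singleton_le_iff_mem _ _).mpr hx)

lemma noPerf_of_filt {s : Submodule F B} (d : ℕ → Submodule F B) (h0 : s ≤ d 0)
    (hd : ∀ k, ∀ x ∈ d k, ∀ y ∈ d k, x ∈ s → y ∈ s → ⁅x, y⁆ ∈ d (k + 1)) {n : ℕ}
    (hn : d n = ⊥) : NoPerf s := by
  classical
  intro a has ha hne
  have hex : ∃ k, ¬ a ≤ d k := ⟨n, by rwa [hn, le_bot_iff]⟩
  have hk := Nat.find_spec hex
  obtain ⟨k, hk'⟩ : ∃ k, Nat.find hex = k + 1 := by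
    refine Nat.exists_eq_succ_of_ne_zero fun hc => ?_
    rw [hc] at hk
    exact hk (has.trans h0)
  have hk2 : a ≤ d k := not_not.mp (Nat.find_min hex (by omega))
  rw [hk'] at hk
  exact exists_hyper hk (fun x hx y hy => hd k _ (hk2 hx) _ (hk2 hy) (has hx) (has hy)) ha

variable {κ : B →ₗ⁅F⁆ Λ} {κ' : B →ₗ⁅F⁆ Λ'} {s : Submodule F B} {k : ℕ}
  {M : Type*} [AddCommGroup M] [Module Λ M] [Module F M] [IsScalarTower F Λ M]
  {M' : Type*} [AddCommGroup M'] [Module Λ' M'] [Module F M'] [IsScalarTower F Λ' M']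

lemma Reg.of_retract (h : Reg κ' s k M') {I : Type*} (p : I → M →+ M') (q : I → M' →+ M)
    (hp : ∀ i x m, p i (κ x • m) = κ' x • p i m) (hq : ∀ i x m, q i (κ' x • m) = κ x • q i m)
    (hsum : ∀ m, ∃ t : Finset I, ∑ i ∈ t, q i (p i m) = m) : Reg κ s k M := by
  intro a has ha hk x hx hxa hn m hm
  obtain ⟨t, ht⟩ := hsum m
  rw [← ht]
  refine Submodule.sum_mem _ fun i _ => ?_
  have h1 : p i (κ x • m) ∈ Y κ' a M' :=
    Y_map (p i) (fun y hy n => by rw [hp]; exact mem_Y hy _) hm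
  rw [hp] at h1
  exact Y_map (q i) (fun y hy n => by rw [hq]; exact mem_Y hy _) (h a has ha hk x hx hxa hn _ h1)

lemma Reg.finsupp (h : Reg κ s k M) (J : Type*) : Reg κ s k (J →₀ M) :=
  h.of_retract (fun j => Finsupp.applyAddHom j) (fun j => Finsupp.singleAddHom j)
    (by simp) (by simp) (fun m => ⟨m.support, m.sum_single⟩)

lemma Reg.pi (h : Reg κ s k M) (J : Type*) [Fintype J] [DecidableEq J] : Reg κ s k (J → M) :=
  h.of_retract (fun j => Pi.evalAddMonoidHom (fun _ => M) j)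
    (fun j => AddMonoidHom.single (fun _ => M) j)
    (by simp) (by simp [Pi.single_smul']) (fun m => ⟨Finset.univ, Finset.univ_sum_single m⟩)

lemma reg_U [Module.Finite F B] (s : Submodule F B) (k : ℕ) : Reg (ι F) s k (U F B) := by
  intro a _ ha _ x _ hxa hn u hu
  obtain ⟨m, y, rfl, h1, h2⟩ := exists_compl_family' (rg ha.toLie.incl) (x := x)
    (by rwa [ha.rg_incl])
  obtain ⟨p, p1, p2, p3⟩ := exists_coord _ ha.incl_inj y h1 h2
  let η : U F B →ₗ[F] ((Fin (m + 1) → ℕ) →₀ F) :=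
    Finsupp.mapRange.linearMap (eps F ha.toLie).toLinearMap ∘ₗ p
  have η1 : ∀ v ∈ rI a, η v = 0 := fun v hv => Y_map η (P := ⊥) (fun z hz w => by
    have : ι F z = Umap ha.toLie.incl (ι F ⟨z, hz⟩) := by simp
    ext c
    rw [this, smul_eq_mul]
    simp [-Umap_ι, η, p1]) hv
  have η2 : ∀ c, η (mono (fun i => ι F (y i)) c) = Finsupp.single c 1 := fun c => by
    simp [η, p2]
  have η3 : ∀ v, η (ι F (y 0) * v) = Finsupp.mapDomain (· + Pi.single 0 1) (η v) := by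
    intro v
    rw [← p3 v, Finsupp.sum, Finset.mul_sum, map_sum, map_sum, Finsupp.mapDomain_finsetSum]
    refine Finset.sum_congr rfl fun c _ => ?_
    have h := sub_eps_mem_rI (Umap_mem_Ua ha.toLie.incl (q := a) (fun b => b.2) (p v c))
    set w := Umap ha.toLie.incl (p v c)
    set t := eps F B w
    have e : w = (w - algebraMap F _ t) + algebraMap F _ t := by simp
    have h' := Y_mul h (mono (fun i => ι F (y i)) c)
    rw [e, add_mul, mul_add, map_add, map_add, η1 _ h', η1 (_ * _) (hn.smul_mem_Y h'), zero_add,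
      zero_add, ← Algebra.smul_def, mul_smul_comm, map_smul, map_smul,
      ← mono_add_single (fun i => ι F (y i)) c 0 (by simp), η2, η2]
    simp
  have h0 : η u = 0 := by
    apply Finsupp.mapDomain_injective (f := (· + Pi.single 0 1)) (add_left_injective _)
    rw [← η3, Finsupp.mapDomain_zero]
    exact η1 _ hu
  rw [← p3 u]
  refine Submodule.sum_mem _ fun c _ => Y_mul ?_ _
  refine mem_rI_of_eps (Umap_mem_Ua ha.toLie.incl (q := a) (fun b => b.2) _) ?_
  rw [eps_Umap]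
  simpa [η] using DFunLike.congr_fun h0 c

lemma reg_tw [Module.Finite F B] [Module.Finite F L] (f : B →ₗ⁅F⁆ L) (hf : Function.Injective f)
    (χ : Ch F B) (s : Submodule F B) (k : ℕ) : Reg (tw ((ι F).comp f) χ) s k (U F L) := by
  obtain ⟨m, y, h1, h2⟩ := exists_compl_family (rg f)
  obtain ⟨p, p1, p2, p3⟩ := exists_coord f hf y h1 h2
  have e : ∀ x, tw ((ι F).comp f) χ x = Umap f (tau χ (ι F x)) := fun x => by simp [tw_apply]
  refine (reg_U s k).of_retract
    (fun a => ((tau (-χ)).toLinearMap ∘ₗ Finsupp.lapply a ∘ₗ p).toAddMonoidHom)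
    (fun a => (LinearMap.mulRight F (mono (fun i => ι F (y i)) a) ∘ₗ (Umap f).toLinearMap ∘ₗ
      (tau χ).toLinearMap).toAddMonoidHom) ?_ ?_ (fun u => ⟨(p u).support, ?_⟩)
  · intro a x u
    rw [e]
    simp [-tau_ι, p1, tau_neg_tau]
  · intro a x u
    rw [e]
    simp [-tau_ι, mul_assoc]
  · simpa [tau_tau_neg, Finsupp.sum] using p3 u

variable {P : Type*} [AddCommGroup P] [Module Λ P] [Module F P] [IsScalarTower F Λ P]

omit [IsScalarTower F Λ P] in
lemma Y_lift (π : P →ₗ[Λ] M) (hπ : Function.Surjective π) {a : Submodule F B} {m : M}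
    (hm : m ∈ Y κ a M) : ∃ g ∈ Y κ a P, π g = m := by
  refine Y_ind (P := fun m => ∃ g ∈ Y κ a P, π g = m) ⟨0, zero_mem _, map_zero _⟩ ?_ ?_ hm
  · rintro _ _ ⟨g, hg, rfl⟩ ⟨g', hg', rfl⟩
    exact ⟨g + g', add_mem hg hg', map_add _ _ _⟩
  · intro x hx n
    obtain ⟨g, rfl⟩ := hπ n
    exact ⟨κ x • g, mem_Y hx _, map_smul _ _ _⟩

lemma pure [Module.Finite F B] (hs : NoPerf s) (π : P →ₗ[Λ] M) (hπ : Function.Surjective π)
    (hM : Reg κ s k M) {a : Submodule F B} (has : a ≤ s) (ha : Sub a) (hk : finrank F a ≤ k)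
    (w : LinearMap.ker π) (hw : (w : P) ∈ Y κ a P) : w ∈ Y κ a (LinearMap.ker π) := by
  induction hd : finrank F a using Nat.strong_induction_on generalizing a w with
  | _ d ih =>
    by_cases h0 : a = ⊥
    · subst h0
      rw [show w = 0 from Subtype.ext (Y_bot hw)]
      exact zero_mem _
    obtain ⟨a', x, ha', hx, hn, rfl⟩ := hs a has ha h0
    rw [Submodule.finrank_sup_span_singleton hx] at hd hk
    obtain ⟨f, hf⟩ := mem_Y_sup hw
    have h1 : κ x • π f ∈ Y κ a' M := by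
      have := neg_mem (Y_lmap π hf)
      simpa [w.2.out] using this
    obtain ⟨g, hg, hg'⟩ := Y_lift π hπ (hM a' (le_sup_left.trans has) ha' (by omega) x
      (has (mem_sup_span_self _ _)) hx hn _ h1)
    let w1 : LinearMap.ker π := ⟨f - g, by simp [hg']⟩
    have h2 := ih _ (by omega) (le_sup_left.trans has) ha' (by omega) (w - κ x • w1) (by
      have := add_mem hf (hn.smul_mem_Y hg)
      convert this using 1
      simp [w1, smul_sub]; abel) rfl
    have := add_mem (Y_mono le_sup_left h2) (mem_Y (κ := κ) (mem_sup_span_self a' x) w1)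
    simpa using this

lemma reg_ker [Module.Finite F B] (hs : NoPerf s) (π : P →ₗ[Λ] M) (hπ : Function.Surjective π)
    (hM : Reg κ s k M) (hP : Reg κ s (k + 1) P) : Reg κ s (k + 1) (LinearMap.ker π) := by
  intro a has ha hk x hx hxa hn m hm
  exact pure hs π hπ hM has ha (by omega) m
    (hP a has ha hk x hx hxa hn _ (Y_lmap (LinearMap.ker π).subtype hm))

/-- acyclicity modulo a subspace -/
def Ac (δ : M →ₗ[Λ] M) (W : Submodule F M) : Prop := ∀ m, δ m ∈ W → ∃ m', m - δ m' ∈ W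

lemma cone {δ : M →ₗ[Λ] M} {a : Submodule F B} {x : B} (hn : Nrm x a)
    (hreg : ∀ m : M, κ x • m ∈ Y κ a M → m ∈ Y κ a M) (h2 : ∀ m, δ (δ m) ∈ Y κ a M)
    (h : Ac δ (Y κ a M)) : Ac δ (Y κ (a ⊔ F ∙ x) M) := by
  intro m hm
  obtain ⟨m1, h1⟩ := mem_Y_sup hm
  have h3 : δ m1 ∈ Y κ a M := by
    apply hreg
    have := sub_mem (h2 m) (Y_lmap δ h1)
    simpa using this
  obtain ⟨m2, h4⟩ := h _ h3
  obtain ⟨m3, h5⟩ := h (m - κ x • m2) (by
    have := add_mem h1 (hn.smul_mem_Y h4)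
    convert this using 1
    simp [smul_sub])
  refine ⟨m3, ?_⟩
  have := add_mem (Y_mono le_sup_left h5) (mem_Y (κ := κ) (mem_sup_span_self a x) m2)
  convert this using 1
  abel

end

end Pool.Agent.P.MP_37e2d5_al
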