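import Pool.Agent.P.MP_37e2d5_al.T1

/-! The linear part of the shifted Harish-Chandra projection is central. -/

namespace Pool.Agent.P.MP_37e2d5_al

open UniversalEnvelopingAlgebra Module LieAlgebra

attribute [local instance 100] LieRing.ofAssociativeRing
attribute [-simp] UniversalEnvelopingAlgebra.ι_apply

noncomputable section

variable {F : Type*} [Field F] [CharZero F] [IsAlgClosed F] {C L : Type*} [LieRing C]
  [LieAlgebra F C] [Module.Finite F C] [LieRing.IsNilpotent C] [LieRing L] [LieAlgebra F L]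
  [Module.Finite F L] {i : C →ₗ⁅F⁆ L}

theorem Gam.central (hi : Function.Injective i) (h0 : W i 0 ≤ rg i) {l : Ch F C →ₗ[ℚ] ℚ}
    (hl : Gen i l) {z : U F L} (hz : Cen z) {γ : U F C} (h : Gam i l z γ) (x : L) :
    ⁅x, i (lin γ)⁆ = 0 := by
  have hγ := h.cen hi hz
  refine WS_le (T := LinearMap.ker ((ad F L : L →ₗ[F] End F L).flip (i (lin γ))))
    (fun α _ x hx => ?_) (Dec.top (i := i) x)
  change ⁅x, i (lin γ)⁆ = 0
  by_cases hα : α = 0
  · obtain ⟨c, rfl⟩ := h0 (hα ▸ hx)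
    exact (i.map_lie c _).symm.trans (by rw [hγ.lie_lin, map_zero])
  obtain ⟨l0, a1, a2⟩ := exists_l i (ℚ ∙ α)
  obtain ⟨l1, a3⟩ := Projective.exists_dual_eq_one ℚ hα
  have hR : ∀ β, W i β ≠ ⊥ → l0 β = 0 → β = l1 β • α := fun β hβ h1 => by
    obtain ⟨t, rfl⟩ := Submodule.mem_span_singleton.mp (a2 β hβ h1)
    simp [a3]
  have hg : ∀ β, W i β ≠ ⊥ → l0 β = 0 → l1 β = 0 → β = 0 := fun β hβ h1 h2 => by
    rw [hR β hβ h1, h2, zero_smul]
  obtain ⟨lp, p1, p2⟩ := exists_lex i l0 l1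
  obtain ⟨lm, m1, -⟩ := exists_lex i l0 (-l1)
  obtain ⟨-, z0, b1, b2, b3, b4⟩ := wall hi h0 hg p1 m1 hz (gam_indep hi h0 hz hl (p1.gen p2 hg) h)
  have hs := sub_zP i l0
  let j : C →ₗ⁅F⁆ hs.toLie := cod i hs.toLie fun c => W_zero_le_zP i l0 (i_mem_W i c)
  have hj : hs.toLie.incl.comp j = i := incl_comp_cod _ _ _
  have hW : ∀ β, ∀ x ∈ W j β, (x : L) ∈ W i β := fun β x hx => by
    have := W_map hs.toLie.incl hx
    rwa [hj] at this
  obtain ⟨z', rfl⟩ := mem_Ua_rg (hs.rg_incl.symm ▸ b1)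
  have hz' : Cen z' := cen_of_ι fun x => Umap_inj hs.incl_inj (by
    simpa using (b2 x x.2).symm)
  have hwt : ∀ β, ¬ zP i l0 ⊓ W i β ≤ ⊥ → β = l1 β • α := fun β hβ =>
    hR β (ne_bot_of_not_le hβ) (by
      by_contra h1
      exact hβ fun v hv => eq_zero_of_W h1 hv.2 hv.1)
  have hR1 : R1 j α l1 := ⟨fun x hx => (h0 (hW 0 x hx)).imp fun c hc => Subtype.ext hc,
    fun β hβ => hwt β fun h1 => hβ (eq_bot_iff.mpr fun x hx => Subtype.ext (h1 ⟨x.2, hW β x hx⟩))⟩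
  obtain ⟨r, hr⟩ : ∃ r : F, (2 : F)⁻¹ • TC i _ (stb_n0 i l0 l1) = r • α := by
    obtain ⟨s, -, c1, -, c2, -⟩ := trace_flag _ (stb_bot i) (stb_n0 i l0 l1) bot_le
      (by rw [finrank_bot, zero_add])
    refine ⟨2⁻¹ * (s.map fun β => (l1 β : F)).sum, ?_⟩
    rw [mul_smul]
    congr 1
    ext c
    rw [TC_apply, c2, trOn_bot, zero_add, List.map_congr_left (g := fun β => (l1 β : F) * α.1 c),
      List.sum_map_mul_right]
    · rfl
    · intro β hβ
      conv_lhs => rw [hwt β fun h1 => c1 β hβ ((inf_le_inf_right _ inf_le_left).trans h1)]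
      simp [Rat.smul_def]
  let χ : Ch F hs.toLie := -(2 : F)⁻¹ • TC hs.toLie.incl (nP i l0) fun b => nrm_nP (zP_le_pP i l0 b.2)
  have key : ∀ (l1 : Ch F C →ₗ[ℚ] ℚ) (σ : Ch F C), Umap hs.toLie.incl z' -
      Umap i (tau (rho i l0 + σ) γ) ∈ lI (zP i l0 ⊓ nP i l1) →
      tau χ z' - Umap j (tau σ γ) ∈ lI (nP j l1) := fun l1 σ h1 => by
    have h2 : z' - Umap j (tau (rho i l0 + σ) γ) ∈ lI (nP j l1) := lI_of_Umap hs.incl_inj
      (a' := zP i l0 ⊓ nP i l1) (fun x hx => ⟨⟨x, hx.1⟩, WS_of_map hs.incl_inj (by rw [hj]; exact hx.2), rfl⟩)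
      (by rwa [map_sub, Umap_Umap, hj])
    have h3 := tau_lI (χ := χ) (WS_le (T := LinearMap.ker χ.1) fun β hβ x hx => by
      obtain ⟨k, hk⟩ := ad_nil_of_W (by rintro rfl; simp at hβ) (hW β x hx)
      simp [χ, trOn_nil (f := ad F L (x : L)) (nrm_nP (zP_le_pP i l0 x.2))
        fun v _ => ⟨k, by simp [hk]⟩]) h2
    rwa [map_sub, tau_Umap, tau_tau, show Ch.comap j χ + (rho i l0 + σ) = σ by
      ext c; simp [χ, rho, j]] at h3
  rw [hr] at b3 b4
  have := t1 hγ _ hs.toLie j (Nat.lt_succ_self _) hR1 _ (hz'.tau χ) (key _ _ b3)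
    (Or.inr (key _ _ (by rwa [neg_smul, ← sub_eq_add_neg])))
    ⟨x, mem_WS (a1 α (Submodule.mem_span_singleton_self α)) hx⟩
  exact congrArg Subtype.val this

end

end Pool.Agent.P.MP_37e2d5_al
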