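import Pool.Agent.P.MP_37e2d5_al.Free

/-! Consequences of freeness; regular modules; purity; the cone lemma. -/

namespace Pool.Agent.P.MP_37e2d5_al

open UniversalEnvelopingAlgebra Module

attribute [local instance 100] LieRing.ofAssociativeRing
attribute [-simp] UniversalEnvelopingAlgebra.ι_apply

noncomputable section

variable {F : Type*} [Field F] {L B N : Type*} [LieRing L] [LieAlgebra F L]
  [LieRing B] [LieAlgebra F B] [LieRing N] [LieAlgebra F N]

/-- right ideal generated by a subspace -/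
abbrev rI (a : Submodule F L) : Submodule F (U F L) := Y (ι F) a (U F L)

/-- left ideal generated by a subspace -/
def lI (a : Submodule F L) : Submodule (U F L) (U F L) :=
  Submodule.span (U F L) (ι F '' (a : Set L))

lemma mem_lI' {a : Submodule F L} {x : L} (hx : x ∈ a) : ι F x ∈ lI a :=
  Submodule.subset_span ⟨x, hx, rfl⟩

lemma lI_mul {a : Submodule F L} (u : U F L) {v : U F L} (hv : v ∈ lI a) : u * v ∈ lI a :=
  Submodule.smul_mem _ u hv

lemma lI_smul {a : Submodule F L} (c : F) {v : U F L} (hv : v ∈ lI a) : c • v ∈ lI a :=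
  Submodule.smul_of_tower_mem _ c hv

lemma mem_lI {a : Submodule F L} (u : U F L) {x : L} (hx : x ∈ a) : u * ι F x ∈ lI a :=
  lI_mul u (mem_lI' hx)

lemma mem_rI {a : Submodule F L} {x : L} (hx : x ∈ a) (u : U F L) : ι F x * u ∈ rI a :=
  mem_Y hx u

lemma lI_mono {a a' : Submodule F L} (h : a ≤ a') : lI a ≤ lI a' :=
  Submodule.span_mono (Set.image_mono h)

lemma lI_ind {a : Submodule F L} {P : U F L → Prop} (h0 : P 0)
    (hadd : ∀ u v, P u → P v → P (u + v)) (hgen : ∀ x ∈ a, ∀ u, P (u * ι F x)) {v : U F L}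
    (hv : v ∈ lI a) : P v := by
  suffices H : ∀ c : U F L, P (c * v) by simpa using H 1
  induction hv using Submodule.span_induction with
  | mem v hv => obtain ⟨x, hx, rfl⟩ := hv; exact hgen x hx
  | zero => simpa
  | add u v _ _ hu hv => intro c; rw [mul_add]; exact hadd _ _ (hu c) (hv c)
  | smul c u _ hu => intro c'; rw [smul_eq_mul, ← mul_assoc]; exact hu _

lemma lI_mul_right {a : Submodule F L} {r : U F L} (hr : ∀ x ∈ a, ι F x * r ∈ lI a) {v : U F L}
    (hv : v ∈ lI a) : v * r ∈ lI a :=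
  lI_ind (P := fun v => v * r ∈ lI a) (by simp)
    (fun u v hu hv => by rw [add_mul]; exact add_mem hu hv)
    (fun x hx u => by rw [mul_assoc]; exact lI_mul _ (hr x hx)) hv

lemma Nrm.lI_mul {a : Submodule F L} {x : L} (hx : Nrm x a) {v : U F L} (hv : v ∈ lI a) :
    v * ι F x ∈ lI a :=
  lI_mul_right (fun y hy => by
    have : ι F y * ι F x = ι F x * ι F y - ι F ⁅x, y⁆ := by rw [ι_comm x y]; abel
    rw [this]; exact sub_mem (mem_lI _ hy) (mem_lI' (hx y hy))) hv

lemma lI_mul_Ua {a q : Submodule F L} (h : ∀ x ∈ q, Nrm x a) {u v : U F L} (hu : u ∈ Ua q)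
    (hv : v ∈ lI a) : v * u ∈ lI a := by
  revert v
  refine Ua_induction (P := fun u => ∀ {v}, v ∈ lI a → v * u ∈ lI a) (by simp) ?_ ?_ ?_ hu
  · intro u u' h1 h2 v hv; rw [mul_add]; exact add_mem (h1 hv) (h2 hv)
  · intro c u h1 v hv; rw [mul_smul_comm]; exact lI_smul _ (h1 hv)
  · intro y hy u h1 v hv; rw [← mul_assoc]; exact h1 ((h y hy).lI_mul hv)

lemma Ua_smul_Y {Λ : Type*} [Ring Λ] [Algebra F Λ] {κ : L →ₗ⁅F⁆ Λ} {M : Type*} [AddCommGroup M]
    [Module Λ M] [Module F M] [IsScalarTower F Λ M] {a q : Submodule F L}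
    (h : ∀ x ∈ q, Nrm x a) {u : U F L} (hu : u ∈ Ua q) {m : M} (hm : m ∈ Y κ a M) :
    lift F κ u • m ∈ Y κ a M := by
  refine Ua_induction (P := fun u => lift F κ u • m ∈ Y κ a M) (by simpa) ?_ ?_ ?_ hu
  · intro u u' h1 h2; rw [map_add, add_smul]; exact add_mem h1 h2
  · intro c u h1; rw [map_smul, smul_assoc]; exact Submodule.smul_mem _ _ h1
  · intro y hy u h1; rw [map_mul, lift_ι_apply, mul_smul]; exact (h y hy).smul_mem_Y h1

lemma lift_ι_self (u : U F L) : lift F (ι F : L →ₗ⁅F⁆ U F L) u = u := by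
  have : lift F (ι F : L →ₗ⁅F⁆ U F L) = AlgHom.id F _ := U_ext (by simp [lift_ι_apply])
  exact AlgHom.congr_fun this u

lemma Ua_smul_Y' {M : Type*} [AddCommGroup M]
    [Module (U F L) M] [Module F M] [IsScalarTower F (U F L) M] {a q : Submodule F L}
    (h : ∀ x ∈ q, Nrm x a) {u : U F L} (hu : u ∈ Ua q) {m : M} (hm : m ∈ Y (ι F) a M) :
    u • m ∈ Y (ι F) a M := by
  simpa [lift_ι_self] using Ua_smul_Y h hu hm

lemma Ua_mul_rI {a q : Submodule F L} (h : ∀ x ∈ q, Nrm x a) {u v : U F L} (hu : u ∈ Ua q)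
    (hv : v ∈ rI a) : u * v ∈ rI a := Ua_smul_Y' h hu hv

lemma anti_lI {a : Submodule F L} {v : U F L} (hv : v ∈ lI a) : anti v ∈ rI a :=
  lI_ind (P := fun v => anti v ∈ rI a) (by simp)
    (fun u v hu hv => by rw [map_add]; exact add_mem hu hv)
    (fun x hx u => by rw [anti_mul, anti_ι, neg_mul]; exact neg_mem (mem_rI hx _)) hv

lemma anti_rI {a : Submodule F L} {v : U F L} (hv : v ∈ rI a) : anti v ∈ lI a :=
  Y_ind (P := fun v => anti v ∈ lI a) (by simp)
    (fun u v hu hv => by rw [map_add]; exact add_mem hu hv)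
    (fun x hx u => by
      rw [smul_eq_mul, anti_mul, anti_ι, mul_neg]; exact neg_mem (mem_lI _ hx)) hv

lemma anti_Ua {q : Submodule F L} {u : U F L} (hu : u ∈ Ua q) : anti u ∈ Ua q := by
  refine Ua_induction (P := fun u => anti u ∈ Ua q) ?_ ?_ ?_ ?_ hu
  · rw [anti_one]; exact one_mem _
  · intro u v hu hv; rw [map_add]; exact add_mem hu hv
  · intro c u hu; rw [map_smul]; exact Subalgebra.smul_mem _ hu _
  · intro y hy u hu; rw [anti_mul, anti_ι]; exact mul_mem hu (neg_mem (ι_mem_Ua hy))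

lemma Umap_lI (f : B →ₗ⁅F⁆ L) {a : Submodule F B} {a' : Submodule F L} (h : ∀ x ∈ a, f x ∈ a')
    {v : U F B} (hv : v ∈ lI a) : Umap f v ∈ lI a' :=
  lI_ind (P := fun v => Umap f v ∈ lI a') (by simp)
    (fun u v hu hv => by rw [map_add]; exact add_mem hu hv)
    (fun x hx u => by rw [map_mul, Umap_ι]; exact mem_lI _ (h x hx)) hv

lemma Umap_rI (f : B →ₗ⁅F⁆ L) {a : Submodule F B} {a' : Submodule F L} (h : ∀ x ∈ a, f x ∈ a')
    {v : U F B} (hv : v ∈ rI a) : Umap f v ∈ rI a' :=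
  Y_map (Umap f) (fun x hx u => by
    rw [smul_eq_mul, map_mul, Umap_ι]; exact mem_rI (h x hx) _) hv

lemma Umap_lI_zero (f : B →ₗ⁅F⁆ L) {a : Submodule F B} (h : ∀ x ∈ a, f x = 0)
    {v : U F B} (hv : v ∈ lI a) : Umap f v = 0 :=
  lI_ind (P := fun v => Umap f v = (0 : U F L)) (by simp)
    (fun u v hu hv => by rw [map_add, hu, hv, add_zero])
    (fun x hx u => by rw [map_mul, Umap_ι, h x hx, map_zero, mul_zero]) hv

lemma Umap_rI_zero (f : B →ₗ⁅F⁆ L) {a : Submodule F B} (h : ∀ x ∈ a, f x = 0)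
    {v : U F B} (hv : v ∈ rI a) : Umap f v = 0 :=
  Y_bot (Umap_rI f (a' := ⊥) h hv)

lemma eps_rI {a : Submodule F L} {v : U F L} (hv : v ∈ rI a) : eps F L v = 0 :=
  Y_map (eps F L) (P := ⊥) (fun x _ u => by simp) hv

lemma eps_lI {a : Submodule F L} {v : U F L} (hv : v ∈ lI a) : eps F L v = 0 :=
  lI_ind (P := fun v => eps F L v = (0 : F)) (by simp)
    (fun u v hu hv => by rw [map_add, hu, hv, add_zero]) (fun x _ u => by simp) hv

lemma sub_eps_mem_rI {q : Submodule F L} {u : U F L} (hu : u ∈ Ua q) :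
    u - algebraMap F _ (eps F L u) ∈ rI q := by
  refine Ua_induction (P := fun u => u - algebraMap F _ (eps F L u) ∈ rI q) (by simp) ?_ ?_ ?_ hu
  · intro u v hu hv
    convert add_mem hu hv using 1
    rw [map_add, map_add]; abel
  · intro c u hu
    convert Submodule.smul_mem _ c hu using 1
    rw [map_smul, smul_sub, smul_eq_mul, map_mul, Algebra.smul_def c (algebraMap _ _ _)]
  · intro y hy u _
    simpa using mem_rI hy u

lemma mem_rI_of_eps {q : Submodule F L} {u : U F L} (hu : u ∈ Ua q) (h : eps F L u = 0) :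
    u ∈ rI q := by simpa [h] using sub_eps_mem_rI hu

lemma eps_anti (u : U F L) : eps F L (anti u) = eps F L u := by
  induction u using U_induction with
  | h1 => simp
  | hadd u v hu hv => simp only [map_add, hu, hv]
  | hsmul c u hu => simp only [map_smul, hu]
  | hmul y u hu => simp [anti_mul]

lemma mem_lI_of_eps {q : Submodule F L} {u : U F L} (hu : u ∈ Ua q) (h : eps F L u = 0) :
    u ∈ lI q := by
  simpa using anti_rI (mem_rI_of_eps (anti_Ua hu) (by rwa [eps_anti]))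

variable [Module.Finite F L] [Module.Finite F B] [Module.Finite F N]

lemma exists_retr (f : B →ₗ⁅F⁆ L) (hf : Function.Injective f) :
    ∃ p : U F L →ₗ[F] U F B, (∀ b u, p (Umap f b * u) = b * p u) ∧ p 1 = 1 := by
  obtain ⟨m, y, h1, h2⟩ := exists_compl_family (rg f)
  obtain ⟨p, p1, p2, -⟩ := exists_coord f hf y h1 h2
  refine ⟨Finsupp.lapply 0 ∘ₗ p, fun b u => by simp [p1], ?_⟩
  have := p2 0
  rw [mono_zero] at this
  simp [this]

lemma Umap_inj {f : B →ₗ⁅F⁆ L} (hf : Function.Injective f) : Function.Injective (Umap f) := by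
  obtain ⟨p, p1, p2⟩ := exists_retr f hf
  intro a b h
  have := p1 a 1
  rw [h, p1, p2, mul_one, mul_one] at this
  exact this.symm

omit [Module.Finite F L] [Module.Finite F B] in
lemma retr_rI (f : B →ₗ⁅F⁆ L) {p : U F L →ₗ[F] U F B} (p1 : ∀ b u, p (Umap f b * u) = b * p u)
    {a : Submodule F B} {a' : Submodule F L} (h : ∀ x ∈ a', ∃ y ∈ a, f y = x) {v : U F L}
    (hv : v ∈ rI a') : p v ∈ rI a :=
  Y_map p (fun x hx u => by
    obtain ⟨y, hy, rfl⟩ := h x hx
    rw [smul_eq_mul, ← Umap_ι, p1]; exact mem_rI hy _) hv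

lemma rI_of_Umap {f : B →ₗ⁅F⁆ L} (hf : Function.Injective f) {a : Submodule F B}
    {a' : Submodule F L} (h : ∀ x ∈ a', ∃ y ∈ a, f y = x) {b : U F B} (hb : Umap f b ∈ rI a') :
    b ∈ rI a := by
  obtain ⟨p, p1, p2⟩ := exists_retr f hf
  have := retr_rI f p1 h hb
  rwa [← mul_one (Umap f b), p1, p2, mul_one] at this

lemma lI_of_Umap {f : B →ₗ⁅F⁆ L} (hf : Function.Injective f) {a : Submodule F B}
    {a' : Submodule F L} (h : ∀ x ∈ a', ∃ y ∈ a, f y = x) {b : U F B} (hb : Umap f b ∈ lI a') :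
    b ∈ lI a := by
  have := anti_lI hb
  rw [anti_Umap] at this
  simpa using anti_rI (rI_of_Umap hf h this)

lemma ind_left {f : B →ₗ⁅F⁆ L} (hf : Function.Injective f) {x : L} (hx : x ∉ rg f)
    {a : Submodule F B} {a' : Submodule F L} (h : ∀ x ∈ a', ∃ y ∈ a, f y = x) (s : Finset ℕ)
    (b : ℕ → U F B) (hb : ∑ k ∈ s, Umap f (b k) * ι F x ^ k ∈ rI a') : ∀ k ∈ s, b k ∈ rI a := by
  obtain ⟨m, y, rfl, h1, h2⟩ := exists_compl_family' (rg f) hx
  obtain ⟨p, p1, p2, -⟩ := exists_coord f hf y h1 h2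
  intro k hk
  have := retr_rI f (p := Finsupp.lapply (Pi.single 0 k) ∘ₗ p) (fun b u => by simp [p1]) h hb
  have e : ∀ k, p (ι F (y 0) ^ k) = Finsupp.single (Pi.single 0 k) 1 := fun k => by
    rw [← p2, mono_single_zero]
  simp only [LinearMap.comp_apply, map_sum, p1, e, Finsupp.lapply_apply, Finsupp.smul_apply,
    Finsupp.single_apply, Pi.single_inj, smul_eq_mul, mul_ite, mul_one, mul_zero,
    Finset.sum_ite_eq', if_pos hk] at this
  exact this

lemma ind_right {f : B →ₗ⁅F⁆ L} (hf : Function.Injective f) {x : L} (hx : x ∉ rg f)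
    {a : Submodule F B} {a' : Submodule F L} (h : ∀ x ∈ a', ∃ y ∈ a, f y = x) (s : Finset ℕ)
    (b : ℕ → U F B) (hb : ∑ k ∈ s, ι F x ^ k * Umap f (b k) ∈ lI a') : ∀ k ∈ s, b k ∈ lI a := by
  have := anti_lI hb
  simp only [map_sum, anti_mul, anti_pow, anti_ι, anti_Umap, ← map_neg] at this
  intro k hk
  simpa using anti_rI (ind_left hf (x := -x) (by simpa only [neg_mem_iff] using hx) h s
    (fun k => anti (b k)) this k hk)

omit [Module.Finite F L] in
lemma span_left_top {f : B →ₗ⁅F⁆ L} (hf : Function.Injective f) {x : L} (hx : x ∉ rg f)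
    (htop : rg f ⊔ (F ∙ x) = ⊤) (u : U F L) :
    ∃ (n : ℕ) (b : ℕ → U F B), u = ∑ k ∈ Finset.range n, Umap f (b k) * ι F x ^ k := by
  obtain ⟨p, -, -, p3⟩ := exists_coord f hf (fun _ : Fin 1 => x) (fun g hg => by
    simp only [Finset.univ_unique, Fin.default_eq_zero, Finset.sum_singleton] at hg
    have : g 0 = 0 := by
      by_contra hc
      exact hx ((Submodule.smul_mem_iff _ hc).mp hg)
    funext i
    rw [Subsingleton.elim i 0, this]; rfl) (by simpa using htop)
  let e : (Fin 1 → ℕ) ≃ ℕ := Equiv.funUnique _ _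
  let g := Finsupp.equivMapDomain e (p u)
  refine ⟨g.support.sup id + 1, g, ?_⟩
  rw [← p3 u, ← Finsupp.sum_of_support_subset g (s := Finset.range (g.support.sup id + 1))
    (fun k hk => Finset.mem_range.mpr (Nat.lt_succ_of_le (Finset.le_sup (f := id) hk)))
    (fun k c => Umap f c * ι F x ^ k) (by simp), Finsupp.sum_equivMapDomain]
  refine Finsupp.sum_congr fun a _ => ?_
  simp [mono, e]

lemma span_left {q : Submodule F L} (hq : Sub q) {x : L} (hx : x ∉ q) (hs : Sub (q ⊔ F ∙ x))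
    {u : U F L} (hu : u ∈ Ua (q ⊔ F ∙ x)) : ∃ (n : ℕ) (b : ℕ → U F hq.toLie),
      u = ∑ k ∈ Finset.range n, Umap hq.toLie.incl (b k) * ι F x ^ k := by
  rw [← hs.rg_incl] at hu
  obtain ⟨u, rfl⟩ := mem_Ua_rg hu
  let f : hq.toLie →ₗ⁅F⁆ hs.toLie := cod hq.toLie.incl hs.toLie fun y => Submodule.mem_sup_left y.2
  obtain ⟨n, b, rfl⟩ := span_left_top (f := f) 
    (fun a b h => Subtype.ext (congrArg (Subtype.val : hs.toLie → L) h))
    (x := ⟨x, mem_sup_span_self q x⟩) (by
      rintro ⟨y, hy⟩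
      have : (y : L) = x := congrArg Subtype.val hy
      exact hx (this ▸ y.2)) (by
      rw [eq_top_iff]
      rintro ⟨y, hy⟩ -
      obtain ⟨y, hy', t, rfl⟩ := mem_sup_span.mp hy
      exact mem_sup_span.mpr ⟨f ⟨y, hy'⟩, ⟨_, rfl⟩, t, rfl⟩) u
  refine ⟨n, b, ?_⟩
  simp only [map_sum, map_mul, map_pow, Umap_Umap, Umap_ι]
  rfl

lemma span_right {q : Submodule F L} (hq : Sub q) {x : L} (hx : x ∉ q) (hs : Sub (q ⊔ F ∙ x))
    {u : U F L} (hu : u ∈ Ua (q ⊔ F ∙ x)) : ∃ (n : ℕ) (b : ℕ → U F hq.toLie),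
      u = ∑ k ∈ Finset.range n, ι F x ^ k * Umap hq.toLie.incl (b k) := by
  obtain ⟨n, b, h⟩ := span_left hq hx hs (anti_Ua hu)
  refine ⟨n, fun k => (-1 : F) ^ k • anti (b k), ?_⟩
  rw [← anti_anti u, h]
  simp only [map_sum, anti_mul, anti_pow, anti_ι, anti_Umap, map_smul]
  refine Finset.sum_congr rfl fun k _ => ?_
  rw [← neg_one_smul F (ι F x), smul_pow, smul_mul_assoc, mul_smul_comm]

lemma exists_proj (f : B →ₗ⁅F⁆ L) (hf : Function.Injective f) {n : Submodule F L} (hn : Sub n)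
    (hc : IsCompl (rg f) n) : ∃ p : U F L →ₗ[F] U F B, (∀ b u, p (Umap f b * u) = b * p u) ∧
      p 1 = 1 ∧ (∀ u ∈ lI n, p u = 0) ∧ ∀ u, u - Umap f (p u) ∈ lI n := by
  let q := Module.finBasis F hn.toLie
  obtain ⟨p, p1, p2, p3⟩ := exists_coord f hf (fun i => (q i : L)) (fun g hg => by
    have : ∑ i, g i • q i = 0 := by
      have h1 : ((∑ i, g i • q i : hn.toLie) : L) ∈ rg f := by
        rw [← LieSubalgebra.coe_incl, map_sum]; simpa using hg
      exact Subtype.ext (Submodule.disjoint_def.mp hc.disjoint _ h1 (∑ i, g i • q i).2)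
    exact funext (Fintype.linearIndependent_iff.mp q.linearIndependent g this)) (by
    have : Submodule.span F (Set.range fun i => (q i : L)) = n := by
      conv_rhs => rw [← hn.rg_incl, rg, LinearMap.range_eq_map, ← q.span_eq, Submodule.map_span,
        ← Set.range_comp]
      rfl
    rw [this, hc.sup_eq_top])
  have hm : ∀ a, mono (fun i => ι F (q i : L)) a = Umap hn.toLie.incl (pbw q a) := fun a => by
    simp [pbw_apply, map_mono]
  have he : ∀ a, eps F _ (pbw q a) = if a = 0 then 1 else 0 := by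
    intro a
    rw [pbw_apply, map_mono]
    split_ifs with h
    · simp [h]
    · obtain ⟨i, hi⟩ := Function.ne_iff.mp h
      simp only [mono, eps_ι]
      exact List.prod_eq_zero (List.mem_ofFn.mpr ⟨i, zero_pow hi⟩)
  have key : ∀ v, p (Umap hn.toLie.incl v) 0 = algebraMap F _ (eps F _ v) := by
    have : Finsupp.lapply 0 ∘ₗ p ∘ₗ (Umap hn.toLie.incl).toLinearMap =
        Algebra.linearMap F _ ∘ₗ (eps F _).toLinearMap := (pbw q).ext fun a => by
      simp only [LinearMap.comp_apply, AlgHom.toLinearMap_apply, ← hm, p2, he,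
        Finsupp.lapply_apply, Finsupp.single_apply, Algebra.linearMap_apply]
      split_ifs <;> simp
    exact LinearMap.congr_fun this
  refine ⟨Finsupp.lapply 0 ∘ₗ p, fun b u => by simp [p1], ?_, fun u hu => ?_, fun u => ?_⟩
  · simpa using key 1
  · refine lI_ind (P := fun u => (Finsupp.lapply 0 ∘ₗ p) u = (0 : U F B)) (by simp)
      (fun u v hu hv => by rw [map_add, hu, hv, add_zero]) (fun x hx u => ?_) hu
    rw [← p3 u, Finsupp.sum, Finset.sum_mul, map_sum]
    refine Finset.sum_eq_zero fun a _ => ?_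
    have : ι F x = Umap hn.toLie.incl (ι F ⟨x, hx⟩) := by simp
    rw [mul_assoc, hm, this, ← map_mul, LinearMap.comp_apply, p1,
      Finsupp.lapply_apply, Finsupp.smul_apply, key]
    simp
  · conv => enter [2, 1]; rw [← p3 u]
    rw [Finsupp.sum_of_support_subset _ (s := insert 0 (p u).support) (Finset.subset_insert _ _) _
      (by simp), ← Finset.add_sum_erase _ _ (Finset.mem_insert_self 0 _)]
    simp only [mono_zero, mul_one, LinearMap.comp_apply, Finsupp.lapply_apply, add_sub_cancel_left]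
    refine Submodule.sum_mem _ fun a ha => lI_mul _ ?_
    rw [hm]
    refine mem_lI_of_eps (Umap_mem_Ua _ (fun b => b.2) _) ?_
    rw [eps_Umap, he, if_neg (Finset.ne_of_mem_erase ha)]

lemma eq_zero_of_compl {q n : Submodule F L} (hq : Sub q) (hn : Sub n) (hc : IsCompl q n)
    {u : U F L} (hu : u ∈ Ua q) (hu' : u ∈ lI n) : u = 0 := by
  obtain ⟨p, p1, p2, p3, -⟩ := exists_proj hq.toLie.incl hq.incl_inj hn (by rwa [hq.rg_incl])
  rw [← hq.rg_incl] at hu
  obtain ⟨b, rfl⟩ := mem_Ua_rg hu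
  have := p3 _ hu'
  rw [← mul_one (Umap _ b), p1, p2, mul_one] at this
  rw [this, map_zero]

lemma lin_mem [CharZero F] {q : Submodule F L} (hq : Sub q) {u : U F L} (hu : u ∈ Ua q) :
    lin u ∈ q := by
  rw [← hq.rg_incl] at hu
  obtain ⟨b, rfl⟩ := mem_Ua_rg hu
  rw [lin_Umap]
  exact (lin b).2

lemma lin_mem_of_rI [CharZero F] {m q : Submodule F L} (hq : Sub q) (hmq : m ≤ q)
    (hm : ∀ x ∈ q, Nrm x m) {u : U F L} (hu : u ∈ Ua q) (hu' : u ∈ rI m) : lin u ∈ m := by
  rw [← hq.rg_incl] at hu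
  obtain ⟨b, rfl⟩ := mem_Ua_rg hu
  let I : LieIdeal F hq.toLie := mkIdeal (m.comap (hq.toLie.incl : hq.toLie →ₗ[F] L))
    fun x y hy => hm x x.2 y hy
  have h1 : b ∈ rI I.toSubmodule :=
    rI_of_Umap hq.incl_inj (fun x hx => ⟨⟨x, hmq hx⟩, hx, rfl⟩) hu'
  have h2 := Umap_rI_zero (qmk I) (fun x hx => (qmk_eq_zero I).mpr hx) h1
  have h3 := lin_Umap (qmk I) b
  rw [h2, map_zero, eq_comm, qmk_eq_zero] at h3
  rw [lin_Umap]
  exact h3

end

end Pool.Agent.P.MP_37e2d5_al
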