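import Pool.Agent.P.MP_37e2d5_al.Weyl

/-! The rank one theorem. -/

namespace Pool.Agent.P.MP_37e2d5_al

open UniversalEnvelopingAlgebra Module LieAlgebra

attribute [local instance 100] LieRing.ofAssociativeRing
attribute [-simp] UniversalEnvelopingAlgebra.ι_apply

noncomputable section

universe v

variable {F : Type*} [Field F] [CharZero F] {C : Type*} [LieRing C] [LieAlgebra F C]

/-- brackets of opposite root spaces lie in the kernel of `α` -/
def SP {L : Type*} [LieRing L] [LieAlgebra F L] (i : C →ₗ⁅F⁆ L) (α : Ch F C) : Prop :=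
  ∀ β ≠ 0, ∀ x ∈ W i β, ∀ y ∈ W i (-β), ∃ c, α.1 c = 0 ∧ i c = ⁅x, y⁆

variable [Module.Finite F C]

/-- the rank one statement below a given dimension -/
def T1P (α : Ch F C) (l : Ch F C →ₗ[ℚ] ℚ) (u : U F C) (s : F) (n : ℕ) : Prop :=
  ∀ (L : Type v) [LieRing L] [LieAlgebra F L] [Module.Finite F L] (i : C →ₗ⁅F⁆ L),
    finrank F L < n → R1 i α l → ∀ z, Cen z → z - Umap i (tau (s • α) u) ∈ lI (nP i l) →
    (SP i α ∨ z - Umap i (tau (-s • α) u) ∈ lI (nP i (-l))) → ∀ x : L, ⁅x, i (lin u)⁆ = 0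

variable [IsAlgClosed F] [LieRing.IsNilpotent C] {α : Ch F C} {l : Ch F C →ₗ[ℚ] ℚ} {u : U F C}
  {s : F} {n : ℕ}

lemma T1P.surj (H : T1P.{v} α l u s n) {L : Type*} [LieRing L] [LieAlgebra F L] [Module.Finite F L]
    {L' : Type v} [LieRing L'] [LieAlgebra F L'] [Module.Finite F L'] {i : C →ₗ⁅F⁆ L}
    {π : L →ₗ⁅F⁆ L'} (hπ : Function.Surjective π) (hn : finrank F L' < n) (h : R1 i α l)
    {z : U F L} (hz : Cen (Umap π z)) (h1 : z - Umap i (tau (s • α) u) ∈ lI (nP i l))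
    (h2 : SP i α ∨ z - Umap i (tau (-s • α) u) ∈ lI (nP i (-l))) (x : L) :
    π ⁅x, i (lin u)⁆ = 0 := by
  have hW : ∀ β, ∀ x ∈ W (π.comp i) β, ∃ y ∈ W i β, π y = x := fun β x hx => by
    obtain ⟨x, rfl⟩ := hπ x
    exact W_of_surj π hx
  have hI : ∀ l u, z - Umap i u ∈ lI (nP i l) →
      Umap π z - Umap (π.comp i) u ∈ lI (nP (π.comp i) l) := fun l u h => by
    rw [← Umap_Umap, ← map_sub]
    exact Umap_lI π (fun x hx => WS_map π hx) h
  rw [LieHom.map_lie]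
  refine H L' (π.comp i) hn ⟨fun x hx => ?_, fun β hβ => h.h1 β fun h0 => hβ ?_⟩ _ hz (hI _ _ h1)
    (h2.imp (fun h3 β hβ x hx y hy => ?_) (hI _ _)) _
  · obtain ⟨y, hy, rfl⟩ := hW 0 x hx
    obtain ⟨c, rfl⟩ := h.h0 hy
    exact ⟨c, rfl⟩
  · refine eq_bot_iff.mpr fun x hx => ?_
    obtain ⟨y, hy, rfl⟩ := hW β x hx
    rw [h0] at hy
    simp [show y = 0 from hy]
  · obtain ⟨x', hx', rfl⟩ := hW _ x hx
    obtain ⟨y', hy', rfl⟩ := hW _ y hy
    obtain ⟨c, h4, h5⟩ := h3 β hβ x' hx' y' hy'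
    exact ⟨c, h4, by simp [h5]⟩

variable {L : Type v} [LieRing L] [LieAlgebra F L] [Module.Finite F L] {i : C →ₗ⁅F⁆ L}

lemma case2_q (H : T1P.{v} α l u s (finrank F L)) (h : R1 i α l) {V : Submodule F L}
    (hV : MinI i V) (hVK : V ≤ cz V) {p : Ch F C} {e f : L} {h' : C} (hp : 0 < l p)
    (ht : Tri i (cz V) p e f h') {m : Ch F C} (hm : 0 < l m) {y : L} (hy : y ∈ V) (hym : y ∈ W i m)
    (hyh : ⁅i h', y⁆ = m.1 h' • y) (hye : ⁅e, y⁆ = 0) (hyf : ⁅f, y⁆ ∉ F ∙ y) {z : U F L}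
    (hz : Cen z) (h1 : z - Umap i (tau (s • α) u) ∈ lI (nP i l)) :
    ∀ x ∈ (cz V ⊔ F ∙ i h') ⊔ F ∙ e, ⁅x, i (lin u)⁆ ∈ F ∙ y := by
  have hN := nrm_cz hV.id
  have hs : Stb i (cz V) := fun _ => hN _
  have hα : α.1 h' ≠ 0 := fun h0 => by
    simpa [h.apply (ne_bot_of_notMem ht.he ht.eK), h0] using ht.ph
  have hq : Sub ((cz V ⊔ F ∙ i h') ⊔ F ∙ e) := by
    rw [sup_right_comm]
    exact (Sub.sup_span (fun x _ => hN x) (hN e)).sup_span (hs.sup_span ht.ce h')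
  set q := (cz V ⊔ F ∙ i h') ⊔ F ∙ e with hq'
  have q1 : cz V ≤ q := le_sup_of_le_left le_sup_left
  have q2 : ∀ c, i c ∈ q := fun c => Submodule.mem_sup_left (mem_cz_sup h hV hα c)
  have q3 : ∀ γ, l γ < 0 → ∀ x ∈ W i γ, x ∈ q → x ∈ cz V := fun γ hγ x hx hxq =>
    mem_of_W hs (S := {β | 0 ≤ l β}) (by simpa) hx ((sup_le (sup_le le_sup_left (le_sup_of_le_right
      ((Submodule.span_singleton_le_iff_mem _ _).mpr (mem_WS (by simp) (i_mem_W i h')))))
      (le_sup_of_le_right ((Submodule.span_singleton_le_iff_mem _ _).mpr (mem_WS hp.le ht.he))) :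
        q ≤ _) hxq)
  have q4 : f ∉ q := fun hf => ht.fK (q3 _ (by simpa) f ht.hf hf)
  have q5 : nP i l ≤ q := WS_le fun γ hγ x hx => mem_of_W (fun c => hq _ (q2 c)) (S := {-p})
    (by rintro rfl; simp at hγ; linarith) hx ((ht.top.ge.trans (sup_le_sup_left
      ((Submodule.span_singleton_le_iff_mem _ _).mpr (mem_WS (Set.mem_singleton _) ht.hf)) _))
        trivial)
  have q6 : ∀ x ∈ q, Nrm x (F ∙ y) := fun x hx w hw => by
    obtain ⟨t, rfl⟩ := Submodule.mem_span_singleton.mp hw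
    obtain ⟨x1, hx1, t1, rfl⟩ := mem_sup_span.mp hx
    obtain ⟨x2, hx2, t2, rfl⟩ := mem_sup_span.mp hx1
    simp only [lie_smul, add_lie, smul_lie, hx2 y hy, hyh, hye, smul_zero, add_zero, zero_add]
    exact Submodule.smul_mem _ _ (Submodule.smul_mem _ _ (Submodule.smul_mem _ _
      (Submodule.mem_span_singleton_self y)))
  obtain ⟨b, hb⟩ := red_q hq q4 ht.top (hVK.trans q1) (hV.id f) hy q6 hyf hz
  let j : C →ₗ⁅F⁆ hq.toLie := cod i hq.toLie q2
  let I : LieIdeal F hq.toLie := mkIdeal ((F ∙ y).comap (hq.toLie.incl : hq.toLie →ₗ[F] L))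
    fun x w hw => q6 x x.2 w hw
  have hj : hq.toLie.incl.comp j = i := incl_comp_cod _ _ _
  have hW : ∀ β, ∀ x ∈ W j β, (x : L) ∈ W i β := fun β x hx => hj ▸ W_map hq.toLie.incl hx
  have hyq : (F ∙ y) ≤ q := (Submodule.span_singleton_le_iff_mem _ _).mpr (q1 (hVK hy))
  have a1 : finrank F (hq.toLie ⧸ I) < finrank F L := lt_of_le_of_lt
    (LinearMap.finrank_le_finrank_of_surjective (f := (qmk I).toLinearMap) (qmk_surj I))
    (Submodule.finrank_lt (s := q) fun h0 => q4 (h0 ▸ trivial))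
  have a2 : R1 j α l := ⟨fun x hx => (h.h0 (hW 0 x hx)).imp fun c hc => Subtype.ext hc,
    fun β hβ => h.h1 β fun h0 => hβ (eq_bot_iff.mpr fun x hx => Subtype.ext (h0.le (hW β x hx)))⟩
  have a3 : Cen (Umap (qmk I) b) := cen_of_ι fun x => by
    obtain ⟨x, rfl⟩ := qmk_surj I x
    rw [← Umap_ι, ← map_mul, ← map_mul, ← sub_eq_zero, ← map_sub]
    refine Umap_lI_zero _ (a := I.toSubmodule) (fun x hx => (qmk_eq_zero I).mpr hx)
      (lI_of_Umap hq.incl_inj (a' := F ∙ y) (fun x hx => ⟨⟨x, hyq hx⟩, hx, rfl⟩) ?_)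
    convert sub_mem ((q6 x x.2).lI_mul hb) (lI_mul (ι F (x : L)) hb) using 1
    simp only [map_sub, map_mul, Umap_ι, LieSubalgebra.coe_incl, sub_mul, mul_sub, hz (ι F (x : L))]
    abel
  have a4 : b - Umap j (tau (s • α) u) ∈ lI (nP j l) := lI_of_Umap hq.incl_inj (a' := nP i l)
    (fun x hx => ⟨⟨x, q5 hx⟩, WS_of_map hq.incl_inj (by rw [hj]; exact hx), rfl⟩) (by
      rw [map_sub, Umap_Umap, hj]
      convert sub_mem h1 (lI_mono ((Submodule.span_singleton_le_iff_mem _ _).mpr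
        (mem_WS hm hym)) hb) using 1
      rw [sub_sub_sub_cancel_left])
  have a5 : SP j α := fun β hβ x hx x' hx' => by
    obtain ⟨c, hc⟩ := h.h0 (add_neg_cancel β ▸ lie_mem_W (hW _ _ hx) (hW _ _ hx'))
    refine ⟨c, ker_of_cz h hV ?_, Subtype.ext hc⟩
    rw [show i c = _ from hc]
    rcases lt_trichotomy (l β) 0 with h2 | h2 | h2
    · exact (hN _).lie_left (q3 _ h2 _ (hW _ _ hx) x.2)
    · by_cases h0 : W i β = ⊥
      · simp [show (x : L) = 0 from h0.le (hW _ _ hx)]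
      · exact absurd (h.gen β h0 h2) hβ
    · exact hN _ _ (q3 _ (by simpa) _ (hW _ _ hx') x'.2)
  exact fun x hx => (qmk_eq_zero I).mp (H.surj (qmk_surj I) a1 a2 a3 a4 (Or.inl a5) ⟨x, hx⟩)

lemma case2 (H : T1P.{v} α l u s (finrank F L)) (h : R1 i α l) {V : Submodule F L}
    (hV : MinI i V) {p : Ch F C} {e f : L} {h' : C} (hp : 0 < l p) (ht : Tri i (cz V) p e f h')
    (hu : Cen u) (hc : ∀ x : L, ⁅x, i (lin u)⁆ ∈ V) {z : U F L} (hz : Cen z)
    (h1 : z - Umap i (tau (s • α) u) ∈ lI (nP i l))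
    (h2 : z - Umap i (tau (-s • α) u) ∈ lI (nP i (-l))) (x : L) : ⁅x, i (lin u)⁆ = 0 := by
  by_contra hx
  have hN := nrm_cz hV.id
  obtain ⟨n, n1, n2, n3, n4, n5⟩ := exists_weyl h hV ht
  have hfix : n (i (lin u)) = i (lin u) := weyl_fix n4
    (fun c hc => ker_of_cz h hV (hc ▸ zero_mem _)) (s := s) (by
      refine sub_eq_zero.mp (hc_unique (i := i) (l := -l) (Ua_mono (zP_le_pP_neg i _)
        (sub_mem ?_ (Umap_mem_zP _ _))) ?_)
      · rw [Umap_Umap]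
        refine Umap_mem_Ua _ (fun c => ?_) _
        obtain ⟨c', h3, -⟩ := n4 c
        exact h3 ▸ W_zero_le_zP i _ (i_mem_W i c')
      · have := Umap_lI n (a' := nP i (-l)) (fun x hx => WS_le (T := (nP i (-l)).comap (n : L →ₗ[F] L))
          (fun β hβ x hx => mem_WS (by simpa using hβ) (n2 β x hx)) hx) h1
        rw [map_sub, n1.2.2 z hz] at this
        convert sub_mem h2 this using 1
        abel)
  set c := i (lin u) with hc'
  have hcK : c ∈ cz V := by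
    obtain ⟨c', h3, h4⟩ := n4 (lin u)
    have := ker_of_cz h hV (c := c' - lin u) (by rw [map_sub, ← h3, hfix, sub_self]; exact zero_mem _)
    rw [map_sub, h4] at this
    exact cz_of_ker h hV (by linear_combination (-2⁻¹ : F) * this)
  have hVK : V ≤ cz V := by
    rcases hV.min (V ⊓ cz V) inf_le_left (fun x y hy => ⟨hV.id x y hy.1, hN x y hy.2⟩) with h3 | h3
    · exact absurd (h3.le ⟨hc x, hN x c hcK⟩) hx
    · exact h3.ge.trans inf_le_right
  have flp : ∀ β, V ⊓ W i (-β) ≤ ⊥ → V ⊓ W i β ≤ ⊥ := fun β h3 v hv =>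
    n1.1 ((h3 ⟨n1.2.1 V hV.id v hv.1, n2 β v hv.2⟩).trans (map_zero n).symm)
  obtain ⟨β, hβ, hβ'⟩ := hV.wt
  obtain ⟨m, hm, hmax⟩ := Set.exists_max_image {β | ¬ V ⊓ W i β ≤ ⊥} l
    ((finite_W i).subset fun _ => ne_bot_of_not_le) ⟨β, hβ'⟩
  have hm0 : 0 < l m := by
    have a1 := hmax β hβ'
    have a2 := hmax (-β) fun h3 => hβ' (flp β h3)
    rw [map_neg] at a2
    by_contra h3
    exact hβ (h.gen β (ne_bot_of_not_le hβ') (by linarith))
  have htop : ∀ γ, l m < l γ → ∀ v ∈ V, v ∈ W i γ → v = 0 := fun γ hγ v hv hv' =>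
    not_not.mp (mt (hmax γ) (not_le.mpr hγ)) ⟨hv, hv'⟩
  obtain ⟨y, hy, hym, hy0, hyc⟩ := exists_wvec (fun _ => hV.id _) hm
  simp only [Submodule.mem_bot, sub_eq_zero] at hy0 hyc
  have hα : α.1 h' ≠ 0 := fun h0 => by
    simpa [h.apply (ne_bot_of_notMem ht.he ht.eK), h0] using ht.ph
  have hye : ⁅e, y⁆ = 0 := htop _ (by simpa) _ (hV.id e y hy) (lie_mem_W ht.he hym)
  have hef : ⁅e, ⁅f, y⁆⁆ = m.1 h' • y := by rw [leibniz_lie, ht.ef, hyc, hye, lie_zero, add_zero]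
  have hmh : m.1 h' ≠ 0 := h.ne hα m (ne_bot_of_not_le hm) (by rintro rfl; simp at hm0)
  have hq := case2_q H h hV hVK hp ht hm0 hy hym (hyc h') hye (fun h3 => by
    obtain ⟨t, h3⟩ := Submodule.mem_span_singleton.mp h3
    simp [← h3, hye, hmh, hy0, eq_comm (a := (0 : L))] at hef) hz h1
  rw [← hc'] at hq
  have hKc : ∀ k ∈ cz V, ⁅k, c⁆ = 0 := fun k hk => n1.1 (by
    have a1 := hq _ (Submodule.mem_sup_left (Submodule.mem_sup_left (n1.2.1 _ hN k hk)))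
    have a2 := n2 m _ ((Submodule.span_singleton_le_iff_mem _ _).mpr hym
      (hq _ (Submodule.mem_sup_left (Submodule.mem_sup_left hk))))
    rw [LieHom.map_lie, hfix] at a2 ⊢
    rw [map_zero]
    exact eq_zero_of_W (T := {β | 0 < l β}) (by simpa using hm0.le) a2
      (mem_WS hm0 ((Submodule.span_singleton_le_iff_mem _ _).mpr hym a1)))
  have hhc : ⁅i h', c⁆ = 0 := by rw [hc', ← LieHom.map_lie, hu.lie_lin, map_zero]
  obtain ⟨a, ha⟩ := Submodule.mem_span_singleton.mp (hq e (mem_sup_span_self _ _))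
  have hfc : ⁅f, c⁆ = -a • n y := by
    have := hKc _ n3
    rw [add_lie, ← hfix, ← LieHom.map_lie, hfix, ← ha, map_smul] at this
    rw [neg_smul, eq_neg_of_add_eq_zero_right this]
  by_cases ha0 : a = 0
  · apply hx
    obtain ⟨x1, hx1, t1, rfl⟩ := mem_sup_span.mp (ht.top.ge (Submodule.mem_top (x := x)))
    obtain ⟨x2, hx2, t2, rfl⟩ := mem_sup_span.mp hx1
    obtain ⟨x3, hx3, t3, rfl⟩ := mem_sup_span.mp hx2
    simp [hKc x3 hx3, hhc, hfc, ← ha, ha0]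
  have hmp : m = p := by
    by_contra h3
    refine hy0 (eq_zero_of_W (T := {p}) h3 hym (mem_WS (Set.mem_singleton _) ?_))
    rw [← Submodule.smul_mem_iff _ ha0, ha]
    simpa using lie_mem_W ht.he (i_mem_W i (lin u))
  subst hmp
  rw [ht.ph] at hef
  have hhf : ⁅i h', ⁅f, y⁆⁆ = 0 := by
    have := ht.cf h' y hy
    rw [add_lie, smul_lie] at this
    rw [leibniz_lie, hyc, lie_smul, this]
  have e2 : ⁅e, ⁅f, ⁅f, y⁆⁆⁆ = (2 : F) • ⁅f, y⁆ := by
    rw [leibniz_lie, ht.ef, hhf, hef, lie_smul, zero_add]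
  have hny := n5 y hy hye hef (flp (-m + (-m + (-m + m))) (fun v hv => htop _ (by simpa) v hv.1 hv.2)
    ⟨hV.id f _ (hV.id f _ (hV.id f _ hy)), lie_mem_W ht.hf (lie_mem_W ht.hf (lie_mem_W ht.hf hym))⟩)
    e2
  rw [← ht.ef, lie_lie, hfc, ← ha, hny] at hhc
  simp only [lie_smul, e2, smul_smul, ← sub_smul, smul_eq_zero] at hhc
  rcases hhc with h3 | h3
  · exact ha0 (by linear_combination (-2⁻¹ : F) * h3)
  · simp [h3, hy0, eq_comm (a := (0 : L))] at hef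

theorem t1 (hu : Cen u) (n : ℕ) : T1P.{v} α l u s n := by
  induction n with
  | zero => exact fun L _ _ _ i hn => absurd hn (Nat.not_lt_zero _)
  | succ n ih =>
  intro L _ _ _ i hn h z hz h1 h2 x
  have H : T1P.{v} α l u s (finrank F L) := fun L' _ _ _ i' hn' => ih L' i' (by omega)
  by_contra hx
  obtain ⟨V, ⟨hV0, hV1⟩, hV2⟩ := exists_minimal_of_wellFoundedLT
    (fun V : Submodule F L => V ≠ ⊥ ∧ ∀ x, Nrm x V)
    ⟨⊤, fun h0 => hx (h0.le trivial), fun _ _ _ => trivial⟩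
  have hc : ∀ x : L, ⁅x, i (lin u)⁆ ∈ V := fun x => (qmk_eq_zero (mkIdeal V hV1)).mp
    (H.surj (qmk_surj _) (by
      have := Submodule.finrank_quotient_add_finrank V
      have h3 := Submodule.finrank_eq_zero.not.mpr hV0
      change finrank F (L ⧸ V) < _
      omega) h (hz.map_surj _ (Umap_surj (qmk_surj _))) h1 h2 x)
  have hV : MinI i V := ⟨hV1, fun J h3 h4 => or_iff_not_imp_left.mpr fun h5 =>
    le_antisymm h3 (hV2 ⟨h5, h4⟩ h3), by
      by_contra! h3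
      refine hx (WS_le (T := LinearMap.ker ((ad F L : L →ₗ[F] End F L).flip (i (lin u))))
        (fun β _ x hx => ?_) (Dec.top (i := i) x))
      change ⁅x, i (lin u)⁆ = 0
      by_cases hβ : β = 0
      · obtain ⟨c, rfl⟩ := h.h0 (hβ ▸ hx)
        exact (i.map_lie c _).symm.trans (by rw [hu.lie_lin, map_zero])
      · exact h3 β hβ ⟨hc x, by simpa using lie_mem_W hx (i_mem_W i (lin u))⟩⟩
  by_cases hK : ∀ β ≠ 0, W i β ≤ cz V
  · exact hx (case1 h hV hK hz h1 x)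
  push Not at hK
  obtain ⟨β, hβ, hK⟩ := hK
  obtain ⟨p, e, f, h', hp, ht⟩ := exists_tri h hV hβ hK
  refine hx (case2 H h hV hp ht hu hc hz h1 (h2.resolve_left fun h3 => ?_) x)
  obtain ⟨c, h4, h5⟩ := h3 p (by rintro rfl; simp at hp) e ht.he f ht.hf
  have := ker_of_cz h hV (c := h' - c) (by rw [map_sub, h5, ht.ef, sub_self]; exact zero_mem _)
  rw [map_sub, h4, sub_zero] at this
  simpa [h.apply (ne_bot_of_notMem ht.he ht.eK), this] using ht.ph

end

end Pool.Agent.P.MP_37e2d5_al
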