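import Pool.Agent.P.MP_37e2d5_al.HC

/-! Traces on invariant subspaces, flags of weight vectors. -/

namespace Pool.Agent.P.MP_37e2d5_al

open UniversalEnvelopingAlgebra Module LieAlgebra LinearMap

attribute [local instance 100] LieRing.ofAssociativeRing
attribute [-simp] UniversalEnvelopingAlgebra.ι_apply

noncomputable section

variable {F : Type*} [Field F]

section tr

variable {V : Type*} [AddCommGroup V] [Module F V]

/-- a chosen projection -/
def prj (W : Submodule F V) : End F V := W.projection _ W.exists_isCompl.choose_spec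

lemma prj_mem (W : Submodule F V) (v : V) : prj W v ∈ W := Submodule.projection_apply_mem _ _

lemma prj_of_mem {W : Submodule F V} {v : V} (hv : v ∈ W) : prj W v = v :=
  Submodule.projection_apply_of_mem_left _ hv

/-- trace on a subspace -/
def trOn (W : Submodule F V) : End F V →ₗ[F] F := trace F V ∘ₗ mulRight F (prj W)

lemma trOn_eq {W : Submodule F V} {P f : End F V} (h1 : ∀ v, P v ∈ W) (h2 : ∀ v ∈ W, P v = v)
    (hf : ∀ v ∈ W, f v ∈ W) : trOn W f = trace F V (f * P) := by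
  have e1 : f * prj W = P * (f * prj W) := by
    ext v; simp [h2 _ (hf _ (prj_mem W v))]
  have e2 : f * prj W * P = f * P := by
    ext v; simp [prj_of_mem (h1 v)]
  rw [trOn, comp_apply, mulRight_apply, e1, trace_mul_comm, e2]

lemma trOn_top (f : End F V) : trOn ⊤ f = trace F V f := by
  rw [trOn_eq (P := 1) (by simp) (by simp) (by simp), mul_one]

lemma trOn_bot (f : End F V) : trOn ⊥ f = 0 := by
  rw [trOn_eq (P := 0) (by simp) (by simp) (by simp), mul_zero, map_zero]

lemma trOn_comm {W : Submodule F V} {f g : End F V} (hf : ∀ v ∈ W, f v ∈ W)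
    (hg : ∀ v ∈ W, g v ∈ W) : trOn W (f * g) = trOn W (g * f) := by
  have e1 : f * g * prj W = (f * prj W) * (g * prj W) := by
    ext v; simp [prj_of_mem (hg _ (prj_mem W v))]
  have e2 : g * f * prj W = (g * prj W) * (f * prj W) := by
    ext v; simp [prj_of_mem (hf _ (prj_mem W v))]
  simp only [trOn, comp_apply, mulRight_apply]
  rw [e1, e2, trace_mul_comm]

lemma trOn_congr {W : Submodule F V} {f g : End F V} (h : ∀ v ∈ W, f v = g v) :
    trOn W f = trOn W g := by
  simp only [trOn, comp_apply, mulRight_apply]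
  congr 1
  ext v
  exact h _ (prj_mem W v)

variable [Module.Finite F V]

lemma trOn_sup_span {W : Submodule F V} {f : End F V} (hf : ∀ v ∈ W, f v ∈ W) {x : V} (hx : x ∉ W)
    {t : F} (ht : f x - t • x ∈ W) : trOn (W ⊔ F ∙ x) f = trOn W f + t := by
  obtain ⟨φ0, h1, h2⟩ := Submodule.exists_le_ker_of_notMem hx
  let φ := (φ0 x)⁻¹ • φ0
  have φx : φ x = 1 := by simp [φ, h1]
  have φW : ∀ v ∈ W, φ v = 0 := fun v hv => by simp [φ, mem_ker.mp (h2 hv)]
  rw [trOn_eq (W := W) (P := prj W * (1 - φ.smulRight x)) (fun v => prj_mem _ _)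
    (fun v hv => by simp [φW v hv, prj_of_mem hv]) hf,
    trOn_eq (P := prj W * (1 - φ.smulRight x) + φ.smulRight x), mul_add, map_add]
  · congr 1
    have : f * φ.smulRight x = φ.smulRight (f x) := by ext; simp
    rw [this, trace_smulRight]
    simpa [φx, sub_eq_zero] using φW _ ht
  · exact fun v => Submodule.add_mem_sup (prj_mem _ _)
      (Submodule.smul_mem _ _ (Submodule.mem_span_singleton_self x))
  · intro v hv
    obtain ⟨y, hy, s, rfl⟩ := mem_sup_span.mp hv
    simp [φW y hy, φx, prj_of_mem hy]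
  · intro v hv
    obtain ⟨y, hy, s, rfl⟩ := mem_sup_span.mp hv
    refine mem_sup_span.mpr ⟨f y + s • (f x - t • x), add_mem (hf y hy) (W.smul_mem _ ht), s * t, ?_⟩
    simp [smul_sub, smul_smul, add_assoc]

omit [Module.Finite F V] in
lemma trOn_sup {W W' : Submodule F V} {f : End F V} (hf : ∀ v ∈ W, f v ∈ W)
    (hf' : ∀ v ∈ W', f v ∈ W') (hd : Disjoint W W') :
    trOn (W ⊔ W') f = trOn W f + trOn W' f := by
  obtain ⟨Q', hQ1, hQ2⟩ := hd.symm.exists_isCompl
  let Q := W.projection Q' hQ2.symm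
  have q1 : ∀ v ∈ W, Q v = v := fun v hv => Submodule.projection_apply_of_mem_left _ hv
  have q2 : ∀ v ∈ W', Q v = 0 := fun v hv =>
    (Submodule.projection_apply_eq_zero_iff _).mpr (hQ1 hv)
  rw [trOn_eq (W := W) (P := Q) (fun v => Submodule.projection_apply_mem _ _) q1 hf,
    trOn_eq (W := W') (P := prj W' * (1 - Q)) (fun v => prj_mem _ _)
      (fun v hv => by simp [q2 v hv, prj_of_mem hv]) hf',
    trOn_eq (P := Q + prj W' * (1 - Q)), mul_add, map_add]
  · exact fun v => Submodule.add_mem_sup (Submodule.projection_apply_mem _ _) (prj_mem _ _)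
  · intro v hv
    obtain ⟨a, ha, b, hb, rfl⟩ := Submodule.mem_sup.mp hv
    simp [q1 a ha, q2 b hb, prj_of_mem hb]
  · intro v hv
    obtain ⟨a, ha, b, hb, rfl⟩ := Submodule.mem_sup.mp hv
    rw [map_add]
    exact Submodule.add_mem_sup (hf a ha) (hf' b hb)

lemma trOn_nil {W : Submodule F V} {f : End F V} (hf : ∀ v ∈ W, f v ∈ W)
    (h : ∀ v ∈ W, ∃ k, (f ^ k) v = 0) : trOn W f = 0 := by
  refine (isNilpotent_trace_of_isNilpotent (End.isNilpotent_iff_of_finite.mpr fun v => ?_)).eq_zero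
  obtain ⟨k, hk⟩ := h _ (prj_mem W v)
  have : ∀ k, ∀ v ∈ W, ((f * prj W) ^ k) v = (f ^ k) v := by
    intro k
    induction k with
    | zero => simp
    | succ k ih => intro v hv; simp [pow_succ, prj_of_mem hv, ih _ (hf v hv)]
  refine ⟨k + 1, ?_⟩
  rw [mulRight_apply, pow_succ, End.mul_apply, End.mul_apply, this _ _ (hf _ (prj_mem W v)),
    ← End.mul_apply, ← pow_succ, pow_succ', End.mul_apply, hk, map_zero]

lemma engel_step {C : Type*} [LieRing C] [LieAlgebra F C] (π : C →ₗ⁅F⁆ End F V)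
    {T a : Submodule F V} (hT : ∀ c, ∀ v ∈ T, π c v ∈ T)
    (hn : ∀ c, ∀ v ∈ T, ∃ k, (π c ^ k) v = 0) (h : ¬ T ≤ a) :
    ∃ x ∈ T, x ∉ a ∧ ∀ c, π c x ∈ a := by
  let := LieRingModule.compLieHom V π
  have := LieModule.compLieHom V π
  let T' : LieSubmodule F C V := { T with lie_mem := fun {c v} hv => hT c v hv }
  have hnil : LieModule.IsNilpotent C T' := by
    rw [LieModule.isNilpotent_iff_forall' (R := F)]
    intro c
    refine End.isNilpotent_iff_of_finite.mpr fun v => ?_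
    obtain ⟨k, hk⟩ := hn c v v.2
    refine ⟨k, Subtype.ext ?_⟩
    have : ∀ (k : ℕ) (v : T'), (((LieModule.toEnd F C T' c) ^ k) v : V) = (π c ^ k) v := by
      intro k
      induction k with
      | zero => simp
      | succ k ih => intro v; rw [pow_succ, pow_succ, End.mul_apply, End.mul_apply, ih]; rfl
    rw [this, hk]; rfl
  obtain ⟨n, hn⟩ := LieModule.IsNilpotent.nilpotent F C T'
  obtain ⟨k, w, hw, ⟨w', hw', rfl⟩, hwa, h⟩ := exists_filt_step
    (fun k => (LieModule.lowerCentralSeries F C T' k).toSubmodule.map T.subtype) (a := a) (b := T)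
    (fun v hv => ⟨⟨v, hv⟩, trivial, rfl⟩) (n := n) (by simp [hn]) h
  refine ⟨_, hw, hwa, fun c => h ⟨hT c _ hw, LieModule.toEnd F C T' c w', ?_, rfl⟩⟩
  simp only [LieModule.lowerCentralSeries_succ]
  exact LieSubmodule.lie_mem_lie (M := T') (LieSubmodule.mem_top c) hw'

end tr

variable {C L B : Type*} [LieRing C] [LieAlgebra F C] [LieRing L] [LieAlgebra F L]
  [LieRing B] [LieAlgebra F B]

/-- trace character -/
def TC (f : B →ₗ⁅F⁆ L) (a : Submodule F L) (h : ∀ b, Nrm (f b) a) : Ch F B :=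
  ⟨trOn a ∘ₗ (((ad F L).comp f : B →ₗ⁅F⁆ End F L) : B →ₗ[F] End F L), fun x y => by
    simp only [comp_apply, LieHom.coe_toLinearMap, LieHom.map_lie,
      LieRing.of_associative_ring_bracket, map_sub]
    exact sub_eq_zero.mpr (trOn_comm (h x) (h y))⟩

@[simp] lemma TC_apply (f : B →ₗ⁅F⁆ L) (a : Submodule F L) (h : ∀ b, Nrm (f b) a) (b : B) :
    (TC f a h).1 b = trOn a (ad F L (f b)) := rfl

variable [Module.Finite F L] [LieRing.IsNilpotent C] {i : C →ₗ⁅F⁆ L}

lemma exists_wvec {a b : Submodule F L} (hb : Stb i b) {β : Ch F C} (h : ¬ b ⊓ W i β ≤ a) :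
    ∃ x ∈ b, x ∈ W i β ∧ x ∉ a ∧ ∀ c, ⁅i c, x⁆ - β.1 c • x ∈ a := by
  have e : ∀ c, tw ((ad F L).comp i) (-β) c = ad F L (i c) - β.1 c • 1 := fun c => by
    rw [tw_apply, Algebra.algebraMap_eq_smul_one]; simp [sub_eq_add_neg]
  obtain ⟨x, hx, hxa, h⟩ := engel_step (tw ((ad F L).comp i) (-β)) (T := b ⊓ W i β)
    (fun c v hv => by
      rw [e]
      exact sub_mem ((hb.inf (stb_W i β)) c v hv) (Submodule.smul_mem _ _ hv))
    (fun c v hv => by rw [e]; exact mem_W.mp hv.2 c) h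
  exact ⟨x, hx.1, hx.2, hxa, fun c => by simpa [e] using h c⟩

omit [Module.Finite F L] [LieRing.IsNilpotent C] in
lemma Stb.sup_span {a : Submodule F L} (ha : Stb i a) {x : L} {β : Ch F C}
    (h : ∀ c, ⁅i c, x⁆ - β.1 c • x ∈ a) : Stb i (a ⊔ F ∙ x) := fun c v hv => by
  obtain ⟨y, hy, s, rfl⟩ := mem_sup_span.mp hv
  refine mem_sup_span.mpr ⟨⁅i c, y⁆ + s • (⁅i c, x⁆ - β.1 c • x),
    add_mem (ha c y hy) (a.smul_mem _ (h c)), s * β.1 c, ?_⟩
  simp [smul_sub, smul_smul, add_assoc]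

variable (i) in
lemma finite_W : {β | W i β ≠ ⊥}.Finite :=
  WellFoundedGT.finite_ne_bot_of_iSupIndep (W_indep i)

variable [Dec i]

lemma trace_flag (n : ℕ) : ∀ {a b : Submodule F L}, Stb i a → Stb i b → a ≤ b →
    finrank F b = finrank F a + n → ∃ l : List (Ch F C), l.length = n ∧
      (∀ β ∈ l, ¬ b ⊓ W i β ≤ a) ∧ b ≤ a ⊔ WS i {β | β ∈ l} ∧
      (∀ c, trOn b (ad F L (i c)) = trOn a (ad F L (i c)) + (l.map fun β => β.1 c).sum) ∧
      ∀ c c', trOn b (ad F L (i c) * ad F L (i c')) = trOn a (ad F L (i c) * ad F L (i c')) +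
        (l.map fun β => β.1 c * β.1 c').sum := by
  induction n with
  | zero =>
    intro a b _ _ hab hn
    obtain rfl := Submodule.eq_of_le_of_finrank_eq hab hn.symm
    exact ⟨[], by simp⟩
  | succ n ih =>
    intro a b ha hb hab hn
    obtain ⟨β, hβ⟩ : ∃ β, ¬ b ⊓ W i β ≤ a := by
      by_contra hc
      push Not at hc
      have := Submodule.finrank_mono (hb.le fun β x hx hx' => hc β ⟨hx, hx'⟩)
      omega
    obtain ⟨x, hx, hxW, hxa, h⟩ := exists_wvec hb hβ
    obtain ⟨l, h1, h2, h3, h4, h5⟩ := ih (ha.sup_span h) hb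
      (sup_le hab ((Submodule.span_singleton_le_iff_mem _ _).mpr hx))
      (by rw [Submodule.finrank_sup_span_singleton hxa]; omega)
    refine ⟨β :: l, by simp [h1], ?_, ?_, fun c => ?_, fun c c' => ?_⟩
    · intro γ hγ
      rcases List.mem_cons.mp hγ with rfl | hγ
      · exact hβ
      · exact fun hc => h2 γ hγ (hc.trans le_sup_left)
    · refine h3.trans (sup_le (sup_le le_sup_left ?_) (le_sup_of_le_right (WS_mono ?_)))
      · exact (Submodule.span_singleton_le_iff_mem _ _).mpr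
          (Submodule.mem_sup_right (mem_WS (by simp) hxW))
      · intro γ hγ; exact List.mem_cons_of_mem _ hγ
    · rw [h4, trOn_sup_span (f := ad F L (i c)) (ha c) hxa (h c)]; simp [add_assoc]
    · rw [h5, trOn_sup_span (t := β.1 c * β.1 c') (fun v hv => ha c _ (ha c' v hv)) hxa]
      · simp [add_assoc]
      · convert add_mem (ha c _ (h c')) (a.smul_mem (β.1 c') (h c)) using 1
        simp [smul_sub, smul_smul, mul_comm]

lemma nil_of_shift [CharZero F] {g : End F L} {η : Ch F C} (hη : η ≠ 0)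
    (h : ∀ δ, ∀ x ∈ W i δ, g x ∈ W i (δ + η)) : IsNilpotent g := by
  refine End.isNilpotent_iff_of_finite.mpr fun x => ?_
  refine WS_ind (P := fun x => ∃ k, (g ^ k) x = 0) ⟨0, by simp⟩ ?_ ?_ (Dec.top (i := i) x)
  · rintro x y ⟨k, hk⟩ ⟨l, hl⟩
    refine ⟨k + l, ?_⟩
    rw [map_add, pow_add, End.mul_apply, End.mul_apply, hl, ← End.mul_apply, ← pow_add, add_comm k,
      pow_add, End.mul_apply, hk]
    simp
  · intro δ _ x hx
    have h1 : ∀ k : ℕ, (g ^ k) x ∈ W i (δ + (k : F) • η) := by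
      intro k
      induction k with
      | zero => simpa
      | succ k ih =>
        rw [pow_succ', Nat.cast_succ, add_smul, one_smul, ← add_assoc]
        exact h _ _ ih
    have hinj : Function.Injective fun k : ℕ => δ + (k : F) • η := fun k l hkl => by
      simpa [hη] using smul_left_injective F hη (add_left_cancel hkl)
    obtain ⟨_, ⟨k, rfl⟩, hk⟩ := (Set.infinite_range_of_injective hinj).exists_notMem_finite
      (finite_W i)
    refine ⟨k, ?_⟩
    have := h1 k
    simp only [ne_eq, Set.mem_ofPred_eq, not_not] at hk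
    rwa [hk] at this

lemma ad_nil_of_W [CharZero F] {η : Ch F C} (hη : η ≠ 0) {x : L} (hx : x ∈ W i η) :
    IsNilpotent (ad F L x) :=
  nil_of_shift hη fun _ _ hy => add_comm η _ ▸ lie_mem_W hx hy

omit [Dec i] in
lemma exists_bounds [CharZero F] (l : Ch F C →ₗ[ℚ] ℚ) :
    ∃ m M : ℚ, 0 < m ∧ ∀ β, W i β ≠ ⊥ → 0 < l β → m ≤ l β ∧ l β ≤ M := by
  have hf : ({β | W i β ≠ ⊥} ∩ {β | 0 < l β}).Finite := (finite_W i).inter_of_left _
  by_cases hne : ({β | W i β ≠ ⊥} ∩ {β | 0 < l β}).Nonempty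
  · obtain ⟨a, ha, ha'⟩ := Set.exists_min_image _ l hf hne
    obtain ⟨b, -, hb'⟩ := Set.exists_max_image _ l hf hne
    exact ⟨l a, l b, ha.2, fun β h1 h2 => ⟨ha' β ⟨h1, h2⟩, hb' β ⟨h1, h2⟩⟩⟩
  · exact ⟨1, 1, one_pos, fun β h1 h2 => absurd ⟨β, h1, h2⟩ hne⟩

end

end Pool.Agent.P.MP_37e2d5_al
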