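import Pool.Agent.P.MP_37e2d5_al.GD
import Pool.Agent.P.MP_37e2d5_al.NC

/-! The double cover ring and the transfer theorem. -/

namespace Pool.Agent.P.MP_37e2d5_al

open UniversalEnvelopingAlgebra Module Matrix

attribute [local instance 100] LieRing.ofAssociativeRing
attribute [-simp] UniversalEnvelopingAlgebra.ι_apply

noncomputable section

universe u

/-- the ring obtained by adjoining a central square root of `t` -/
def QA {A : Type u} [Ring A] (_t : {t : A // Cen t}) : Type u := A × A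

namespace QA

variable {F : Type*} [Field F] {A : Type u} [Ring A] [Algebra F A] {t : {t : A // Cen t}}

instance : AddCommGroup (QA t) := inferInstanceAs (AddCommGroup (A × A))
instance : Module F (QA t) := inferInstanceAs (Module F (A × A))
instance : One (QA t) := ⟨(1, 0)⟩
instance : Mul (QA t) := ⟨fun x y => (x.1 * y.1 + x.2 * y.2 * t.1, x.1 * y.2 + x.2 * y.1)⟩

@[ext] lemma ext {x y : QA t} (h1 : x.1 = y.1) (h2 : x.2 = y.2) : x = y := Prod.ext h1 h2

@[simp] lemma add_1 (x y : QA t) : (x + y).1 = x.1 + y.1 := rfl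
@[simp] lemma add_2 (x y : QA t) : (x + y).2 = x.2 + y.2 := rfl
@[simp] lemma sub_1 (x y : QA t) : (x - y).1 = x.1 - y.1 := rfl
@[simp] lemma sub_2 (x y : QA t) : (x - y).2 = x.2 - y.2 := rfl
@[simp] lemma zero_1 : (0 : QA t).1 = 0 := rfl
@[simp] lemma zero_2 : (0 : QA t).2 = 0 := rfl
@[simp] lemma one_1 : (1 : QA t).1 = 1 := rfl
@[simp] lemma one_2 : (1 : QA t).2 = 0 := rfl
@[simp] lemma mul_1 (x y : QA t) : (x * y).1 = x.1 * y.1 + x.2 * y.2 * t.1 := rfl
@[simp] lemma mul_2 (x y : QA t) : (x * y).2 = x.1 * y.2 + x.2 * y.1 := rfl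
@[simp] lemma smul_1 (c : F) (x : QA t) : (c • x).1 = c • x.1 := rfl
@[simp] lemma smul_2 (c : F) (x : QA t) : (c • x).2 = c • x.2 := rfl

instance : Ring (QA t) :=
  { (inferInstance : AddCommGroup (QA t)), (inferInstance : One (QA t)),
    (inferInstance : Mul (QA t)) with
    left_distrib := fun x y z => by ext <;> simp [mul_add, add_mul] <;> abel
    right_distrib := fun x y z => by ext <;> simp [add_mul] <;> abel
    zero_mul := fun x => by ext <;> simp
    mul_zero := fun x => by ext <;> simp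
    mul_assoc := fun x y z => by
      ext <;> simp [mul_add, add_mul, mul_assoc, ← t.2 z.1, ← t.2 z.2] <;> abel
    one_mul := fun x => by ext <;> simp
    mul_one := fun x => by ext <;> simp }

instance : Algebra F (QA t) := Algebra.ofModule
  (fun c x y => by ext <;> simp) (fun c x y => by ext <;> simp)

variable (t) in
/-- constructor -/
def mk (a b : A) : QA t := (a, b)

@[simp] lemma mk_1 (a b : A) : (mk t a b).1 = a := rfl
@[simp] lemma mk_2 (a b : A) : (mk t a b).2 = b := rfl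

variable (F t) in
/-- the inclusion -/
def inl : A →ₐ[F] QA t where
  toFun a := mk t a 0
  map_one' := rfl
  map_mul' x y := by ext <;> simp
  map_zero' := rfl
  map_add' x y := by ext <;> simp
  commutes' c := by rw [Algebra.algebraMap_eq_smul_one, Algebra.algebraMap_eq_smul_one]; ext <;> simp

variable (t) in
/-- first coordinate -/
def fst : QA t →+ A := ⟨⟨fun x => x.1, rfl⟩, fun _ _ => rfl⟩

variable (t) in
/-- second coordinate -/
def snd : QA t →+ A := ⟨⟨fun x => x.2, rfl⟩, fun _ _ => rfl⟩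

@[simp] lemma fst_apply (x : QA t) : fst t x = x.1 := rfl
@[simp] lemma snd_apply (x : QA t) : snd t x = x.2 := rfl

@[simp] lemma inl_1 (a : A) : (inl F t a).1 = a := rfl
@[simp] lemma inl_2 (a : A) : (inl F t a).2 = 0 := rfl

variable (t) in
/-- the square root -/
def s : QA t := (0, 1)

@[simp] lemma s_1 : (s t).1 = 0 := rfl
@[simp] lemma s_2 : (s t).2 = 1 := rfl

variable (t) in
lemma s_cen : Cen (s t) := fun x => by ext <;> simp

lemma s_mul_s : s t * s t = inl F t t.1 := by ext <;> simp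

/-- a module with a square root of `t` -/
@[reducible] def modQ {M : Type*} [AddCommGroup M] [Module A M] (δ : M →ₗ[A] M)
    (h : ∀ m, δ (δ m) = t.1 • m) : Module (QA t) M where
  smul x m := x.1 • m + x.2 • δ m
  one_smul m := by change (1 : A) • m + (0 : A) • δ m = m; simp
  mul_smul x y m := by
    change (x * y).1 • m + (x * y).2 • δ m =
      x.1 • (y.1 • m + y.2 • δ m) + x.2 • δ (y.1 • m + y.2 • δ m)
    simp [add_smul, mul_smul, h]; abel
  smul_zero x := by change x.1 • (0 : M) + x.2 • δ 0 = 0; simp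
  smul_add x m n := by
    change x.1 • (m + n) + x.2 • δ (m + n) = x.1 • m + x.2 • δ m + (x.1 • n + x.2 • δ n)
    simp; abel
  add_smul x y m := by
    change (x + y).1 • m + (x + y).2 • δ m = x.1 • m + x.2 • δ m + (y.1 • m + y.2 • δ m)
    simp [add_smul]; abel
  zero_smul m := by change (0 : A) • m + (0 : A) • δ m = 0; simp

end QA

/-- multiplication by a central element -/
def cenMul {Λ : Type*} [Ring Λ] {c : Λ} (hc : Cen c) (N : Type*) [AddCommGroup N] [Module Λ N] :
    N →ₗ[Λ] N where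
  toFun n := c • n
  map_add' := smul_add c
  map_smul' r n := by simp [smul_smul, hc r]

@[simp] lemma cenMul_apply {Λ : Type*} [Ring Λ] {c : Λ} (hc : Cen c) {N : Type*} [AddCommGroup N]
    [Module Λ N] (n : N) : cenMul hc N n = c • n := rfl

variable {F : Type*} [Field F] {B : Type*} [LieRing B] [LieAlgebra F B]

lemma mem_Y_finsupp {Λ : Type*} [Ring Λ] [Algebra F Λ]
    {κ : B →ₗ⁅F⁆ Λ} {M : Type*} [AddCommGroup M] [Module Λ M] [Module F M] [IsScalarTower F Λ M]
    {J : Type*} {a : Submodule F B} {v : J →₀ M} :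
    v ∈ Y κ a (J →₀ M) ↔ ∀ j, v j ∈ Y κ a M := by
  refine ⟨fun h j => Y_lmap (Finsupp.lapply (R := Λ) j) h, fun h => ?_⟩
  rw [← v.sum_single]
  exact Submodule.sum_mem _ fun j _ => Y_lmap (Finsupp.lsingle (R := Λ) j) (h j)

variable {A : Type u} [Ring A] [Algebra F A] {t : {t : A // Cen t}}

open QA

theorem ac_of_gd [Module.Finite F B] {n : ℕ} (m : Basis (Fin n → ℕ) F (QA t)) (w : Fin n → ℕ)
    (hw : ∀ i, 0 < w i) (hm : Hm m w) (m0 : m 0 = 1) (hB : NoPerf (⊤ : Submodule F B))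
    (κ : B →ₗ⁅F⁆ A) (hreg : ∀ k, Reg κ ⊤ k A) (ht : t.1 ∈ Y κ ⊤ A)
    (N : Type u) [AddCommGroup N] [Module (QA t) N] [Module F N] [IsScalarTower F (QA t) N]
    (hN : ∀ k, Reg (((inl F t : A →ₐ[F] QA t) : A →ₗ⁅F⁆ QA t).comp κ) ⊤ k N) :
    Ac (cenMul (s_cen t) N) (Y (((inl F t : A →ₐ[F] QA t) : A →ₗ⁅F⁆ QA t).comp κ) ⊤ N) := by
  set κ' := ((inl F t : A →ₐ[F] QA t) : A →ₗ⁅F⁆ QA t).comp κ with hκ'
  have κ'_apply : ∀ x, κ' x = inl F t (κ x) := fun x => rfl
  have hinl : ∀ a ∈ Y κ ⊤ A, inl F t a ∈ Y κ' ⊤ (QA t) := fun a ha =>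
    Y_map (inl F t) (fun x hx n => by
      rw [smul_eq_mul, map_mul]; exact mem_Y (κ := κ') hx _) ha
  have hregQ : ∀ k, Reg κ' ⊤ k (QA t) := fun k => (hreg k).of_retract (I := Bool)
    (fun i => if i then fst t else snd t)
    (fun i => if i then (inl F t).toRingHom.toAddMonoidHom else
      (AddMonoidHom.mulRight (s t)).comp (inl F t).toRingHom.toAddMonoidHom)
    (by rintro (_ | _) x m <;> simp [κ'_apply])
    (by rintro (_ | _) x m <;> simp [κ'_apply, mul_assoc])
    (fun m => ⟨Finset.univ, by ext <;> simp⟩)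
  have hfree : ∀ J : Type u, Ac (cenMul (s_cen t) (J →₀ QA t)) (Y κ' ⊤ (J →₀ QA t)) := by
    intro J v hv
    refine ⟨v.mapRange (fun x => inl F t x.2) (by simp), mem_Y_finsupp.mpr fun j => ?_⟩
    have h1 : (s t * v j).2 ∈ Y κ ⊤ A := Y_map (snd t) (fun x hx n => by
      simpa [κ'_apply] using mem_Y (κ := κ) hx n.2) (mem_Y_finsupp.mp hv j)
    convert hinl _ h1 using 1
    ext <;> simp
  revert hN
  refine gd m w hw hm m0 (fun N _ _ _ _ => (∀ k, Reg κ' ⊤ k N) → Ac (cenMul (s_cen t) N) (Y κ' ⊤ N))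
    (fun N _ _ _ _ h _ v _ => ⟨0, by rw [Subsingleton.elim (_ - _) 0]; exact zero_mem _⟩) ?_ N
  intro N _ _ _ _ J π hπ ih hN v hv
  have hker := ih fun k => by
    rcases k with _ | k
    · intro a _ _ h; omega
    · exact reg_ker hB π hπ (hN k) ((hregQ _).finsupp J)
  obtain ⟨v, rfl⟩ := hπ v
  obtain ⟨y, hy, hy'⟩ := Y_lift π hπ hv
  let ω : LinearMap.ker π := ⟨s t • v - y, by simp [hy']⟩
  obtain ⟨ω', h1⟩ := hker ω (pure hB π hπ (hN _) le_rfl (fun _ _ _ _ => trivial) le_rfl _ (by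
    have := sub_mem (Y_smul (hinl _ ht) v) (Y_lmap (cenMul (s_cen t) _) hy)
    simpa [ω, smul_sub, smul_smul, s_mul_s (F := F)] using this))
  obtain ⟨f, hf⟩ := hfree J (v - ω') (by
    have := add_mem (Y_lmap (LinearMap.ker π).subtype h1) hy
    convert this using 1
    simp [ω, smul_sub]; abel)
  exact ⟨π f, by simpa [ω'.2.out] using Y_lmap π hf⟩

theorem transfer [Module.Finite F B] {n : ℕ} (m : Basis (Fin n → ℕ) F (QA t)) (w : Fin n → ℕ)
    (hw : ∀ i, 0 < w i) (hm : Hm m w) (m0 : m 0 = 1) (hB : NoPerf (⊤ : Submodule F B))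
    (κ : B →ₗ⁅F⁆ A) (hreg : ∀ k, Reg κ ⊤ k A) (ht : t.1 ∈ Y κ ⊤ A) (I : Submodule A A)
    (hbij : Function.Bijective fun b => I.mkQ (lift F κ b)) {J : Type} [Fintype J] [DecidableEq J]
    (D : Matrix J J (U F B)) (hI : ∀ i j, ∀ v ∈ I, v * lift F κ (D i j) ∈ I)
    (hD : ∀ i j, lift F κ ((D * D) i j) - scalar J t.1 i j ∈ I) : Ex (D.map (eps F B)) := by
  let D' := D.map (lift F κ)
  let δ : (J → A ⧸ I) →ₗ[A] (J → A ⧸ I) := LinearMap.pi fun j => ∑ i,
    I.mapQ I (LinearMap.toSpanSingleton A A (D' i j)) (hI i j) ∘ₗ LinearMap.proj i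
  have hδ : ∀ a : J → A, δ (I.mkQ ∘ a) = I.mkQ ∘ (a ᵥ* D') := fun a => by
    funext j
    simp [δ, vecMul, dotProduct, map_sum]
  have hsurj : ∀ v : J → A ⧸ I, ∃ a : J → A, I.mkQ ∘ a = v := fun v =>
    ⟨fun j => (I.mkQ_surjective (v j)).choose, funext fun j => (I.mkQ_surjective (v j)).choose_spec⟩
  have hδ2 : ∀ v, δ (δ v) = t.1 • v := fun v => by
    obtain ⟨a, rfl⟩ := hsurj v
    rw [hδ, hδ, vecMul_vecMul]
    funext j
    rw [Pi.smul_apply, Function.comp_apply, Function.comp_apply, ← map_smul, Submodule.mkQ_apply,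
      Submodule.mkQ_apply, Submodule.Quotient.eq]
    have h1 : (a ᵥ* (D' * D' - scalar J t.1)) j ∈ I := by
      rw [vecMul, dotProduct]
      refine Submodule.sum_mem _ fun k _ => I.smul_mem _ ?_
      simpa [D', ← Matrix.map_mul] using hD k j
    simpa [vecMul_sub, t.2 (a j)] using h1
  let := modQ δ hδ2
  have smul_def : ∀ (x : QA t) (v : J → A ⧸ I), x • v = x.1 • v + x.2 • δ v := fun _ _ => rfl
  have : IsScalarTower F (QA t) (J → A ⧸ I) := ⟨fun c x v => by simp [smul_def]⟩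
  let e0 : U F B →ₗ[F] A ⧸ I := I.mkQ.restrictScalars F ∘ₗ (lift F κ).toLinearMap
  let e : U F B ≃ₗ[F] A ⧸ I := LinearEquiv.ofBijective e0 hbij
  have he : ∀ b, e b = I.mkQ (lift F κ b) := fun _ => rfl
  have he' : ∀ x b, e (ι F x * b) = κ x • e b := fun x b => by
    rw [he, he, map_mul, lift_ι_apply, ← map_smul, smul_eq_mul]
  have he'' : ∀ x v, e.symm (κ x • v) = ι F x * e.symm v := fun x v => by
    apply e.injective
    simp [he']
  set κ' := ((inl F t : A →ₐ[F] QA t) : A →ₗ⁅F⁆ QA t).comp κ with hκ'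
  have hκ : ∀ x (v : J → A ⧸ I), κ' x • v = κ x • v := fun x v => by
    change inl F t (κ x) • v = _
    simp [smul_def]
  have hac := ac_of_gd m w hw hm m0 hB κ hreg ht (J → A ⧸ I) fun k => (reg_U ⊤ k).of_retract
    (fun j => (e.symm.toLinearMap ∘ₗ LinearMap.proj (R := F) (φ := fun _ => A ⧸ I) j).toAddMonoidHom)
    (fun j => (LinearMap.single F (fun _ => A ⧸ I) j ∘ₗ e.toLinearMap).toAddMonoidHom)
    (fun j x v => by rw [← hκ', hκ]; simp [he''])
    (fun j x v => by rw [← hκ', hκ]; simp [he', Pi.single_smul'])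
    (fun v => ⟨Finset.univ, by simpa using Finset.univ_sum_single v⟩)
  rw [← hκ'] at hac
  have hY : ∀ b : J → U F B, e ∘ b ∈ Y κ' ⊤ (J → A ⧸ I) ↔ eps F B ∘ b = 0 := fun b => by
    constructor
    · intro h
      funext j
      have := Y_map ((eps F B).toLinearMap ∘ₗ e.symm.toLinearMap ∘ₗ
        LinearMap.proj (R := F) (φ := fun _ => A ⧸ I) j) (P := ⊥) (fun x _ v => by
          simp [hκ, he'']) h
      simpa using this
    · intro h
      rw [← Finset.univ_sum_single (e ∘ b)]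
      refine Submodule.sum_mem _ fun j _ => ?_
      exact Y_map (LinearMap.single F (fun _ => A ⧸ I) j ∘ₗ e.toLinearMap) (fun x hx v => by
        have := mem_Y (κ := κ') hx (Pi.single j (e v) : J → A ⧸ I)
        simpa [hκ, he', Pi.single_smul'] using this)
        (mem_rI_of_eps (mem_Ua_top (b j)) (congrFun h j))
  have hs : ∀ b : J → U F B, s t • (e ∘ b) = e ∘ (b ᵥ* D) := fun b => by
    have := hδ (lift F κ ∘ b)
    rw [smul_def, s_1, s_2, zero_smul, one_smul, zero_add]
    refine this.trans ?_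
    funext j
    rw [Function.comp_apply, Function.comp_apply, he]
    exact congrArg _ ((lift F κ).toRingHom.map_vecMul D b j).symm
  have key : ∀ b : J → U F B, (eps F B) ∘ (b ᵥ* D) = (eps F B ∘ b) ᵥ* D.map (eps F B) :=
    fun b => funext fun i => (eps F B).toRingHom.map_vecMul D b i
  intro v hv
  have ev : eps F B ∘ (fun j => algebraMap F (U F B) (v j)) = v := by ext; simp
  obtain ⟨m', hm'⟩ := hac (e ∘ fun j => algebraMap F _ (v j)) (by
    rw [cenMul_apply, hs, hY, key, ev, hv])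
  obtain ⟨b, rfl⟩ : ∃ b : J → U F B, e ∘ b = m' := ⟨e.symm ∘ m', by ext; simp⟩
  refine ⟨eps F B ∘ b, ?_⟩
  rw [cenMul_apply, hs] at hm'
  have := (hY ((fun j => algebraMap F _ (v j)) - b ᵥ* D)).mp (by
    convert hm' using 1
    ext; simp)
  rw [← key]
  funext j
  have := congrFun this j
  simp only [Function.comp_apply, Pi.sub_apply, map_sub, AlgHom.commutes, Algebra.algebraMap_self,
    RingHom.id_apply, Pi.zero_apply, sub_eq_zero] at this
  exact this.symm

end

end Pool.Agent.P.MP_37e2d5_al
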