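import Pool.Agent.P.MP_37e2d5_al.Flip

/-! Wall crossing: the shifted Harish-Chandra projection does not depend on the chamber. -/

namespace Pool.Agent.P.MP_37e2d5_al

open UniversalEnvelopingAlgebra Module LieAlgebra

attribute [local instance 100] LieRing.ofAssociativeRing
attribute [-simp] UniversalEnvelopingAlgebra.ι_apply

noncomputable section

variable {F : Type*} [Field F] {C L : Type*} [LieRing C] [LieAlgebra F C]
  [LieRing L] [LieAlgebra F L] [CharZero F]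

/-- `l` has the signs of the lexicographic combination of `l0` and `l1` on the roots -/
def Lex (i : C →ₗ⁅F⁆ L) (l l0 l1 : Ch F C →ₗ[ℚ] ℚ) : Prop :=
  ∀ β, W i β ≠ ⊥ → (0 < l β ↔ 0 < l0 β ∨ (l0 β = 0 ∧ 0 < l1 β))

/-- does not vanish on nonzero roots -/
def Gen (i : C →ₗ⁅F⁆ L) (l : Ch F C →ₗ[ℚ] ℚ) : Prop := ∀ β, W i β ≠ ⊥ → l β = 0 → β = 0

lemma Lex.gen {i : C →ₗ⁅F⁆ L} {l l0 l1 : Ch F C →ₗ[ℚ] ℚ} (h : Lex i l l0 l1)
    (h' : Lex i (-l) (-l0) (-l1)) (hg : ∀ β, W i β ≠ ⊥ → l0 β = 0 → l1 β = 0 → β = 0) :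
    Gen i l := fun β hβ h0 => by
  have h1 := h β hβ
  have h2 := h' β hβ
  simp only [LinearMap.neg_apply, h0, lt_irrefl, false_iff, neg_zero, not_or, not_and, not_lt,
    neg_eq_zero] at h1 h2
  have : l0 β = 0 := by linarith [h1.1, h2.1]
  exact hg β hβ this (by linarith [h1.2 this, h2.2 this])

omit [CharZero F] in
lemma TC_congr {B : Type*} [LieRing B] [LieAlgebra F B] {f : B →ₗ⁅F⁆ L} {a b : Submodule F L}
    (h : a = b) (ha : ∀ x, Nrm (f x) a) (hb : ∀ x, Nrm (f x) b) : TC f a ha = TC f b hb := by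
  subst h; rfl

variable [Module.Finite F L] [LieRing.IsNilpotent C] (i : C →ₗ⁅F⁆ L)

lemma exists_lex (l0 l1 : Ch F C →ₗ[ℚ] ℚ) :
    ∃ l, Lex i l l0 l1 ∧ Lex i (-l) (-l0) (-l1) := by
  obtain ⟨N, hN⟩ := ((finite_W i).image fun β => |l1 β| / |l0 β|).bddAbove
  have key : ∀ β, W i β ≠ ⊥ → l0 β ≠ 0 → |l1 β| < (N + 1) * |l0 β| := fun β hβ h0 => by
    have h1 := hN ⟨β, hβ, rfl⟩
    have h2 := abs_pos.mpr h0
    rw [div_le_iff₀ h2] at h1
    linarith
  refine ⟨(N + 1) • l0 + l1, fun β hβ => ?_, fun β hβ => ?_⟩ <;>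
    simp only [LinearMap.neg_apply, LinearMap.add_apply, LinearMap.smul_apply, smul_eq_mul] <;>
    rcases lt_trichotomy (l0 β) 0 with h | h | h
  · have := key β hβ h.ne
    rw [abs_of_neg h, abs_lt] at this
    constructor
    · intro; linarith
    · rintro (h' | h') <;> [linarith; exact absurd h'.1 h.ne]
  · simp [h]
  · have := key β hβ h.ne'
    rw [abs_of_pos h, abs_lt] at this
    exact ⟨fun _ => Or.inl h, fun _ => by linarith⟩
  · have := key β hβ h.ne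
    rw [abs_of_neg h, abs_lt] at this
    exact ⟨fun _ => Or.inl (by linarith), fun _ => by linarith⟩
  · simp [h]
  · have := key β hβ h.ne'
    rw [abs_of_pos h, abs_lt] at this
    constructor
    · intro; linarith
    · rintro (h' | ⟨h', -⟩) <;> linarith

lemma exists_l (p : Submodule ℚ (Ch F C)) : ∃ l : Ch F C →ₗ[ℚ] ℚ, (∀ β ∈ p, l β = 0) ∧
    ∀ β, W i β ≠ ⊥ → l β = 0 → β ∈ p := by
  have : Finite {β // W i β ≠ ⊥ ∧ β ∉ p} := ((finite_W i).subset fun _ h => h.1).to_subtype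
  obtain ⟨f, hf⟩ := exists_dual_forall_apply_ne_zero (K := ℚ)
    (fun β : {β // W i β ≠ ⊥ ∧ β ∉ p} => p.mkQ β.1) (fun β => by simpa using β.2.2)
  refine ⟨f ∘ₗ p.mkQ, fun β hβ => ?_, fun β hβ h => ?_⟩
  · simp [(Submodule.Quotient.mk_eq_zero p).mpr hβ]
  · by_contra hc
    exact hf ⟨β, hβ, hc⟩ h

lemma exists_gen : ∃ l, Gen i l := by
  obtain ⟨l, -, h⟩ := exists_l i ⊥
  exact ⟨l, h⟩

/-- half the sum of the positive roots -/
def rho (l : Ch F C →ₗ[ℚ] ℚ) : Ch F C := (2 : F)⁻¹ • TC i (nP i l) (stb_WS i _)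

/-- `γ` is the shifted Harish-Chandra projection of `z` -/
def Gam (l : Ch F C →ₗ[ℚ] ℚ) (z : U F L) (γ : U F C) : Prop :=
  z - Umap i (tau (rho i l) γ) ∈ lI (nP i l)

omit [Module.Finite F L] in
lemma stb_n0 (l0 l1 : Ch F C →ₗ[ℚ] ℚ) : Stb i (zP i l0 ⊓ nP i l1) :=
  (stb_WS i _).inf (stb_WS i _)

variable {i} [Dec i]

omit [CharZero F] [Module.Finite F L] in
lemma WS_inf (S T : Set (Ch F C)) : WS i S ⊓ WS i T = WS i (S ∩ T) :=
  le_antisymm (fun _ hx => mem_WS_of_pr fun _ hβ => (not_and_or.mp hβ).elim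
    (fun h => pr_of_WS h hx.1) (fun h => pr_of_WS h hx.2))
    (le_inf (WS_mono Set.inter_subset_left) (WS_mono Set.inter_subset_right))

omit [Module.Finite F L] in
lemma Lex.nP_eq {l l0 l1 : Ch F C →ₗ[ℚ] ℚ} (h : Lex i l l0 l1) :
    nP i l = nP i l0 ⊔ (zP i l0 ⊓ nP i l1) := by
  rw [zP, nP, nP, nP, WS_inf, WS_congr (S := {β | 0 < l β})
    (T := {β | 0 < l0 β} ∪ ({β | l0 β = 0} ∩ {β | 0 < l1 β})) h, WS, iSup_union]
  rfl

omit [Module.Finite F L] in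
lemma Lex.rho_eq {l l0 l1 : Ch F C →ₗ[ℚ] ℚ} (h : Lex i l l0 l1) :
    rho i l = rho i l0 + (2 : F)⁻¹ • TC i _ (stb_n0 i l0 l1) := by
  rw [rho, rho, ← smul_add, TC_congr h.nP_eq _ ((stb_WS i _).sup (stb_n0 i l0 l1))]
  congr 1
  ext c
  exact trOn_sup (stb_WS i _ c) (stb_n0 i l0 l1 c)
    ((disjoint_pP_nP i l0).symm.mono_right (inf_le_left.trans (zP_le_pP_neg i l0)))

omit [Module.Finite F L] [Dec i] in
lemma Umap_mem_zP (l : Ch F C →ₗ[ℚ] ℚ) (u : U F C) : Umap i u ∈ Ua (zP i l) :=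
  Umap_mem_Ua i (fun c => W_zero_le_zP i l (i_mem_W i c)) u

lemma hc_eq {l : Ch F C →ₗ[ℚ] ℚ} {z : U F L} {u u' : U F C} (h : z - Umap i u ∈ lI (nP i l))
    (h' : z - Umap i u' ∈ lI (nP i l)) : Umap i u = Umap i u' := by
  refine sub_eq_zero.mp (hc_unique (l := l) (Ua_mono (zP_le_pP_neg i l)
    (sub_mem (Umap_mem_zP l u) (Umap_mem_zP l u'))) ?_)
  convert sub_mem h' h using 1
  abel

lemma exists_z0 (l : Ch F C →ₗ[ℚ] ℚ) {z : U F L} (hz : Cen z) : ∃ z0 ∈ Ua (zP i l),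
    (∀ x ∈ zP i l, z0 * ι F x = ι F x * z0) ∧ z - z0 ∈ lI (nP i l) := by
  obtain ⟨z0, h1, h2, -⟩ := hc l (q := ⊤) (fun _ _ _ _ => trivial) (stb_top i) (mem_Ua_top z)
    (hz.mem_W i)
  rw [top_inf_eq] at h1 h2
  refine ⟨z0, h1, fun x hx => sub_eq_zero.mp (hc_unique (i := i) (l := l)
    (Ua_mono (zP_le_pP_neg i l)
      (sub_mem (mul_mem h1 (ι_mem_Ua hx)) (mul_mem (ι_mem_Ua hx) h1))) ?_), h2⟩
  convert sub_mem (lI_mul (ι F x) h2) ((nrm_nP (zP_le_pP i l hx)).lI_mul h2) using 1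
  rw [mul_sub, sub_mul, hz]
  abel

lemma exists_u (h0 : W i 0 ≤ rg i) {l0 l1 : Ch F C →ₗ[ℚ] ℚ}
    (hg : ∀ β, W i β ≠ ⊥ → l0 β = 0 → l1 β = 0 → β = 0) {z0 : U F L} (h1 : z0 ∈ Ua (zP i l0))
    (h2 : ∀ x ∈ zP i l0, z0 * ι F x = ι F x * z0) : ∃ u, z0 - Umap i u ∈ lI (zP i l0 ⊓ nP i l1) ∧
      z0 - Umap i (tau (TC i _ (stb_n0 i l0 (-l1))) u) ∈ lI (zP i l0 ⊓ nP i (-l1)) := by
  obtain ⟨a, ha, h3, h4⟩ := hc l1 (sub_zP i l0) (stb_WS i _) h1 (mem_W_zero fun c => by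
    simp [LieRing.of_associative_ring_bracket, h2 _ (W_zero_le_zP i l0 (i_mem_W i c))])
  obtain ⟨u, rfl⟩ := mem_Ua_rg (Ua_mono (q' := rg i) (by
    rw [zP, zP, WS_inf]
    refine WS_le fun β hβ => ?_
    by_cases h : W i β = ⊥
    · simp [h]
    · rwa [hg β h hβ.1 hβ.2]) ha)
  exact ⟨u, h3, flip inf_le_right ((sub_zP i l0).inf (sub_nP i _)) _ (fun x hx => h2 x hx.1) h4⟩

variable [Module.Finite F C]

theorem wall (hi : Function.Injective i) (h0 : W i 0 ≤ rg i) {l0 l1 lp lm : Ch F C →ₗ[ℚ] ℚ}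
    (hg : ∀ β, W i β ≠ ⊥ → l0 β = 0 → l1 β = 0 → β = 0) (hp : Lex i lp l0 l1)
    (hm : Lex i lm l0 (-l1)) {z : U F L} (hz : Cen z) {γ : U F C} (h : Gam i lp z γ) :
    Gam i lm z γ ∧ ∃ z0 ∈ Ua (zP i l0), (∀ x ∈ zP i l0, z0 * ι F x = ι F x * z0) ∧
      z0 - Umap i (tau (rho i l0 + (2 : F)⁻¹ • TC i _ (stb_n0 i l0 l1)) γ) ∈
        lI (zP i l0 ⊓ nP i l1) ∧
      z0 - Umap i (tau (rho i l0 - (2 : F)⁻¹ • TC i _ (stb_n0 i l0 l1)) γ) ∈
        lI (zP i l0 ⊓ nP i (-l1)) := by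
  obtain ⟨z0, h1, h2, h3⟩ := exists_z0 (i := i) l0 hz
  obtain ⟨u, a1, a2⟩ := exists_u h0 hg h1 h2
  obtain ⟨u', b1, b2⟩ := exists_u (l1 := -l1) h0 (by simpa using hg) h1 h2
  rw [TC_congr (by rw [neg_neg]) _ (stb_n0 i l0 l1), neg_neg] at b2
  set T := TC i _ (stb_n0 i l0 l1)
  set T' := TC i _ (stb_n0 i l0 (-l1))
  have e1 := Umap_inj hi (hc_eq (lI_mono inf_le_right a1) (lI_mono inf_le_right b2))
  have e2 := Umap_inj hi (hc_eq (lI_mono inf_le_right b1) (lI_mono inf_le_right a2))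
  have e3 := Umap_inj hi (hc_eq h (u' := u) (by
    convert add_mem (lI_mono (hp.nP_eq ▸ le_sup_left) h3) (lI_mono (hp.nP_eq ▸ le_sup_right) a1)
      using 1
    abel))
  rw [hp.rho_eq] at e3
  have e4 : ∀ t : F, tau (t • (T + T')) u = u := tau_periodic _ _ (by rw [← tau_tau, ← e2, ← e1])
  have e5 : tau (rho i l0 - (2 : F)⁻¹ • T) γ = u' := by
    rw [e2, ← e4 (-1), ← e3, tau_tau, tau_tau]
    congr 2
    module
  have e6 : tau (rho i lm) γ = u' := by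
    rw [e2, ← e4 (-(2 : F)⁻¹), ← e3, tau_tau, tau_tau, hm.rho_eq]
    congr 2
    module
  refine ⟨?_, z0, h1, h2, e3 ▸ a1, e5 ▸ b1⟩
  rw [Gam, e6]
  convert add_mem (lI_mono (hm.nP_eq ▸ le_sup_left) h3) (lI_mono (hm.nP_eq ▸ le_sup_right) b1)
    using 1
  abel

theorem gam_indep (hi : Function.Injective i) (h0 : W i 0 ≤ rg i) {z : U F L} (hz : Cen z)
    {γ : U F C} {l l' : Ch F C →ₗ[ℚ] ℚ} (hl : Gen i l) (hl' : Gen i l') (h : Gam i l z γ) :
    Gam i l' z γ := by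
  let D : (Ch F C →ₗ[ℚ] ℚ) → Set (Ch F C) := fun l => {β | W i β ≠ ⊥ ∧ l β * l' β < 0}
  have hD : ∀ l, (D l).Finite := fun l => (finite_W i).subset fun _ h => h.1
  induction hn : (D l).ncard using Nat.strong_induction_on generalizing l with
  | _ n ih =>
  have sg : ∀ β, W i β ≠ ⊥ → β ∉ D l → (0 < l β ↔ 0 < l' β) := fun β hβ h => by
    by_cases h0 : β = 0
    · simp [h0]
    · have h1 : l β ≠ 0 := fun h => h0 (hl β hβ h)
      have h2 : l' β ≠ 0 := fun h => h0 (hl' β hβ h)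
      have h3 : 0 < l β * l' β := lt_of_le_of_ne (not_lt.mp fun h' => h ⟨hβ, h'⟩)
        (mul_ne_zero h1 h2).symm
      exact pos_iff_pos_of_mul_pos h3
  by_cases hne : (D l).Nonempty
  · obtain ⟨β0, hβ0, hmin⟩ := Set.exists_min_image _ (fun β => -l β / l' β) (hD l) hne
    have hd : ∀ β ∈ D l, l' β ≠ 0 := fun β hβ h => by simpa [h] using hβ.2
    set t := -l β0 / l' β0 with ht
    have ht0 : 0 < t := by
      have := hβ0.2
      have h2 := hd β0 hβ0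
      rw [ht, div_pos_iff]
      rcases lt_or_gt_of_ne h2 with h2 | h2
      · right; constructor <;> nlinarith
      · left; constructor <;> nlinarith
    have hp : Lex i l (l + t • l') l := fun β hβ => by
      simp only [LinearMap.add_apply, LinearMap.smul_apply, smul_eq_mul]
      by_cases hβ' : β ∈ D l
      · have h1 := hmin β hβ'
        have h2 := hβ'.2
        rcases lt_or_gt_of_ne (hd β hβ') with h3 | h3
        · rw [le_div_iff_of_neg h3] at h1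
          have h4 : 0 < l β := by nlinarith
          simp only [h4, true_iff, and_true]
          exact (lt_or_eq_of_le (by linarith)).imp id Eq.symm
        · rw [le_div_iff₀ h3] at h1
          have h4 : ¬ 0 < l β := by intro; nlinarith
          simp only [h4, false_iff, and_false, or_false]
          linarith
      · have h1 := sg β hβ hβ'
        refine ⟨fun h => Or.inl (by nlinarith [h1.mp h]), fun h => h.elim (fun h => ?_) And.right⟩
        by_contra hc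
        have := not_lt.mp (mt h1.mpr hc)
        nlinarith [not_lt.mp hc]
    have hg : ∀ β, W i β ≠ ⊥ → (l + t • l') β = 0 → l β = 0 → β = 0 := fun β hβ _ => hl β hβ
    obtain ⟨lm, hm, hm'⟩ := exists_lex i (l + t • l') (-l)
    refine ih _ (hn ▸ Set.ncard_lt_ncard ⟨fun β hβ => ⟨hβ.1, ?_⟩, fun hc => ?_⟩ (hD l))
      (hm.gen hm' (by simpa using hg)) (wall hi h0 hg hp hm hz h).1 rfl
    · have h1 := hm β hβ.1
      have h2 := hm' β hβ.1
      have h3 := hβ.2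
      simp only [LinearMap.add_apply, LinearMap.smul_apply, smul_eq_mul, LinearMap.neg_apply,
        neg_neg, neg_eq_zero] at h1 h2
      rcases mul_neg_iff.mp h3 with ⟨h4, h5⟩ | ⟨h4, h5⟩
      · rcases h1.mp h4 with h6 | ⟨h6, h7⟩
        · nlinarith [mul_pos ht0 (neg_pos.mpr h5)]
        · nlinarith [mul_pos ht0 (neg_pos.mpr h5)]
      · rcases h2.mp (neg_pos.mpr h4) with h6 | ⟨h6, h7⟩
        · nlinarith [mul_pos ht0 h5]
        · nlinarith [mul_pos ht0 h5]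
    · have h1 := hm β0 hβ0.1
      have h2 := hm' β0 hβ0.1
      have h3 := (hc hβ0).2
      have h4 : l β0 + t * l' β0 = 0 := by rw [ht, div_mul_cancel₀ _ (hd β0 hβ0), add_neg_cancel]
      simp only [LinearMap.add_apply, LinearMap.smul_apply, smul_eq_mul, LinearMap.neg_apply,
        neg_neg, h4, lt_irrefl, neg_zero, true_and, false_or] at h1 h2
      rcases mul_neg_iff.mp h3 with ⟨h5, h6⟩ | ⟨h5, h6⟩
      · nlinarith [mul_pos ht0 (neg_pos.mpr h6), h1.mp h5]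
      · nlinarith [mul_pos ht0 h6, h2.mp (neg_pos.mpr h5)]
  · have e : nP i l = nP i l' := WS_congr fun β hβ => sg β hβ fun h => hne ⟨β, h⟩
    rwa [Gam, rho, ← TC_congr e (stb_WS i _), ← e]

omit [Module.Finite F C] in
lemma exists_gam (h0 : W i 0 ≤ rg i) {l : Ch F C →ₗ[ℚ] ℚ} (hl : Gen i l) {z : U F L}
    (hz : Cen z) : ∃ γ, Gam i l z γ := by
  obtain ⟨z0, h1, -, h3⟩ := exists_z0 (i := i) l hz
  obtain ⟨u, rfl⟩ := mem_Ua_rg (Ua_mono (q' := rg i) (WS_le fun β hβ => by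
    by_cases h : W i β = ⊥
    · simp [h]
    · rwa [hl β h hβ]) h1)
  exact ⟨tau (-rho i l) u, by rwa [Gam, tau_tau_neg]⟩

lemma Gam.cen (hi : Function.Injective i) {l : Ch F C →ₗ[ℚ] ℚ} {z : U F L} (hz : Cen z)
    {γ : U F C} (h : Gam i l z γ) : Cen γ := by
  rw [← tau_neg_tau (rho i l) γ]
  refine (cen_of_ι fun c => Umap_inj hi (hc_eq (l := l) (z := ι F (i c) * z) ?_ ?_)).tau _
  · rw [map_mul, Umap_ι, ← mul_sub]
    exact lI_mul _ h
  · rw [map_mul, Umap_ι, hz, ← sub_mul]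
    exact (stb_WS i _ c).lI_mul h

end

end Pool.Agent.P.MP_37e2d5_al
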