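import Pool.Agent.P.MP_37e2d5_al.NC

/-! Weight spaces for a morphism from a nilpotent Lie algebra. -/

namespace Pool.Agent.P.MP_37e2d5_al

open UniversalEnvelopingAlgebra Module LieAlgebra

attribute [local instance 100] LieRing.ofAssociativeRing
attribute [-simp] UniversalEnvelopingAlgebra.ι_apply

noncomputable section

variable {F : Type*} [Field F] {C L L' : Type*} [LieRing C] [LieAlgebra F C]
  [LieRing L] [LieAlgebra F L] [LieRing L'] [LieAlgebra F L']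

lemma bilin_pow {M₁ M₂ M₃ : Type*} [AddCommGroup M₁] [Module F M₁] [AddCommGroup M₂] [Module F M₂]
    [AddCommGroup M₃] [Module F M₃] (B : M₁ →ₗ[F] M₂ →ₗ[F] M₃) (D₁ : End F M₁) (D₂ : End F M₂)
    (D₃ : End F M₃) (h : ∀ x y, D₃ (B x y) = B (D₁ x) y + B x (D₂ y)) (k l : ℕ) (x : M₁) (y : M₂)
    (hx : (D₁ ^ k) x = 0) (hy : (D₂ ^ l) y = 0) : (D₃ ^ (k + l)) (B x y) = 0 := by
  induction k generalizing l x y with
  | zero => simp_all
  | succ k ih =>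
    induction l generalizing y with
    | zero => simp_all
    | succ l ih' =>
      rw [← add_assoc, pow_succ, End.mul_apply, h, map_add, ih' (D₂ y) (by rwa [pow_succ] at hy),
        add_zero, add_right_comm, add_assoc]
      exact ih _ _ _ (by rwa [pow_succ] at hx) hy

lemma mem_of_shift {V : Type*} [AddCommGroup V] [Module F V] (D : End F V) {T : Submodule F V}
    (hT : ∀ v ∈ T, D v ∈ T) {a : F} (ha : a ≠ 0) (k : ℕ) {v : V} (hv : (D ^ k) v = 0)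
    (h : D v + a • v ∈ T) : v ∈ T := by
  induction k generalizing v with
  | zero => simp_all
  | succ k ih =>
    have := ih (v := D v) (by rwa [pow_succ] at hv) (by simpa using hT _ h)
    rw [← T.smul_mem_iff ha]
    simpa using sub_mem h this

lemma mem_of_shift_pow {V : Type*} [AddCommGroup V] [Module F V] (D : End F V) {T : Submodule F V}
    (hT : ∀ v ∈ T, D v ∈ T) {a : F} (ha : a ≠ 0) (k n : ℕ) {v : V} (hv : (D ^ k) v = 0)
    (h : ((D + a • 1) ^ n) v ∈ T) : v ∈ T := by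
  induction n generalizing v with
  | zero => simpa using h
  | succ n ih =>
    refine mem_of_shift D hT ha k hv (ih ?_ (by rwa [pow_succ] at h))
    have : Commute (D ^ k) D := (Commute.refl D).pow_left k
    rw [map_add, map_smul, hv, smul_zero, add_zero, ← End.mul_apply, this.eq, End.mul_apply, hv,
      map_zero]

/-- generalised weight space -/
def W (i : C →ₗ⁅F⁆ L) (β : Ch F C) : Submodule F L :=
  ⨅ c, (ad F L (i c)).maxGenEigenspace (β.1 c)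

lemma mem_W {i : C →ₗ⁅F⁆ L} {β : Ch F C} {x : L} :
    x ∈ W i β ↔ ∀ c, ∃ k : ℕ, ((ad F L (i c) - β.1 c • 1) ^ k) x = 0 := by
  simp [W, End.mem_maxGenEigenspace]

lemma pow_map_comm (f : L →ₗ⁅F⁆ L') (y : L) (a : F) (k : ℕ) (x : L) :
    ((ad F L' (f y) - a • 1) ^ k) (f x) = f (((ad F L y - a • 1) ^ k) x) := by
  induction k generalizing x with
  | zero => simp
  | succ k ih => simp [pow_succ, ← ih]

lemma W_map {i : C →ₗ⁅F⁆ L} {β : Ch F C} (f : L →ₗ⁅F⁆ L') {x : L} (hx : x ∈ W i β) :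
    f x ∈ W (f.comp i) β := mem_W.mpr fun c => (mem_W.mp hx c).imp fun k hk => by
  rw [LieHom.comp_apply, pow_map_comm, hk, map_zero]

lemma W_of_map {i : C →ₗ⁅F⁆ L} {β : Ch F C} {f : L →ₗ⁅F⁆ L'} (hf : Function.Injective f) {x : L}
    (hx : f x ∈ W (f.comp i) β) : x ∈ W i β := mem_W.mpr fun c => (mem_W.mp hx c).imp fun k hk => by
  rw [LieHom.comp_apply, pow_map_comm] at hk
  exact hf (by rw [hk, map_zero])

lemma lie_mem_W {i : C →ₗ⁅F⁆ L} {β γ : Ch F C} {x y : L} (hx : x ∈ W i β) (hy : y ∈ W i γ) :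
    ⁅x, y⁆ ∈ W i (β + γ) := mem_W.mpr fun c => by
  obtain ⟨k, hk⟩ := mem_W.mp hx c
  obtain ⟨l, hl⟩ := mem_W.mp hy c
  exact ⟨k + l, bilin_pow (ad F L : L →ₗ[F] End F L) _ _ _ (fun x y => by
    have := leibniz_lie (i c) x y
    simp only [LinearMap.sub_apply, ad_apply, LieHom.coe_toLinearMap, LinearMap.smul_apply,
      End.one_apply, map_sub, map_smul, this, Ch.add_val, LinearMap.add_apply, add_smul]
    abel) k l x y hk hl⟩

lemma mul_mem_W {A : Type*} [Ring A] [Algebra F A] {i : C →ₗ⁅F⁆ A} {β γ : Ch F C} {x y : A}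
    (hx : x ∈ W i β) (hy : y ∈ W i γ) : x * y ∈ W i (β + γ) := mem_W.mpr fun c => by
  obtain ⟨k, hk⟩ := mem_W.mp hx c
  obtain ⟨l, hl⟩ := mem_W.mp hy c
  exact ⟨k + l, bilin_pow (LinearMap.mul F A) _ _ _ (fun x y => by
    simp [add_smul, LieRing.of_associative_ring_bracket, mul_sub, mul_assoc]
    abel) k l x y hk hl⟩

lemma mem_W_zero {i : C →ₗ⁅F⁆ L} {x : L} (h : ∀ c, ⁅i c, x⁆ = 0) : x ∈ W i 0 :=
  mem_W.mpr fun c => ⟨1, by simp [h]⟩

/-- sum of the weight spaces with weights in a set -/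
def WS (i : C →ₗ⁅F⁆ L) (S : Set (Ch F C)) : Submodule F L := ⨆ β ∈ S, W i β

lemma mem_WS {i : C →ₗ⁅F⁆ L} {S : Set (Ch F C)} {β : Ch F C} (hβ : β ∈ S) {x : L}
    (hx : x ∈ W i β) : x ∈ WS i S := (le_biSup (W i) hβ) hx

lemma WS_le {i : C →ₗ⁅F⁆ L} {S : Set (Ch F C)} {T : Submodule F L} (h : ∀ β ∈ S, W i β ≤ T) :
    WS i S ≤ T := iSup₂_le h

lemma WS_mono {i : C →ₗ⁅F⁆ L} {S T : Set (Ch F C)} (h : S ⊆ T) : WS i S ≤ WS i T :=
  WS_le fun _ hβ _ hx => mem_WS (h hβ) hx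

lemma WS_congr {i : C →ₗ⁅F⁆ L} {S T : Set (Ch F C)} (h : ∀ β, W i β ≠ ⊥ → (β ∈ S ↔ β ∈ T)) :
    WS i S = WS i T := by
  apply le_antisymm <;> refine WS_le fun β hβ => ?_ <;> by_cases h0 : W i β = ⊥
  · simp [h0]
  · exact fun _ => mem_WS ((h β h0).mp hβ)
  · simp [h0]
  · exact fun _ => mem_WS ((h β h0).mpr hβ)

lemma WS_ind {i : C →ₗ⁅F⁆ L} {S : Set (Ch F C)} {P : L → Prop} (h0 : P 0)
    (hadd : ∀ x y, P x → P y → P (x + y)) (h : ∀ β ∈ S, ∀ x ∈ W i β, P x) {x : L}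
    (hx : x ∈ WS i S) : P x := by
  rw [WS, iSup_subtype'] at hx
  exact Submodule.iSup_induction _ (motive := P) hx (fun β => h β β.2) h0 hadd

lemma WS_map {i : C →ₗ⁅F⁆ L} {S : Set (Ch F C)} (f : L →ₗ⁅F⁆ L') {x : L} (hx : x ∈ WS i S) :
    f x ∈ WS (f.comp i) S :=
  WS_le (T := (WS (f.comp i) S).comap (f : L →ₗ[F] L')) (fun _ hβ _ hx => mem_WS hβ (W_map f hx)) hx

lemma bilin_mem_WS {i : C →ₗ⁅F⁆ L} (B : L →ₗ[F] L →ₗ[F] L)
    (hB : ∀ β γ, ∀ x ∈ W i β, ∀ y ∈ W i γ, B x y ∈ W i (β + γ)) {S T R : Set (Ch F C)}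
    (h : ∀ β ∈ S, ∀ γ ∈ T, β + γ ∈ R) {x y : L} (hx : x ∈ WS i S) (hy : y ∈ WS i T) :
    B x y ∈ WS i R :=
  WS_le (T := (WS i R).comap (B.flip y)) (fun β hβ x hx =>
    WS_le (T := (WS i R).comap (B x)) (fun γ hγ y hy => mem_WS (h β hβ γ hγ) (hB β γ x hx y hy))
      hy) hx

lemma lie_mem_WS {i : C →ₗ⁅F⁆ L} {S T R : Set (Ch F C)} (h : ∀ β ∈ S, ∀ γ ∈ T, β + γ ∈ R)
    {x y : L} (hx : x ∈ WS i S) (hy : y ∈ WS i T) : ⁅x, y⁆ ∈ WS i R :=
  bilin_mem_WS (ad F L : L →ₗ[F] End F L) (fun _ _ _ hx _ hy => lie_mem_W hx hy) h hx hy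

lemma mul_mem_WS {A : Type*} [Ring A] [Algebra F A] {i : C →ₗ⁅F⁆ A} {S T R : Set (Ch F C)}
    (h : ∀ β ∈ S, ∀ γ ∈ T, β + γ ∈ R) {x y : A} (hx : x ∈ WS i S) (hy : y ∈ WS i T) :
    x * y ∈ WS i R :=
  bilin_mem_WS (LinearMap.mul F A) (fun _ _ _ hx _ hy => mul_mem_W hx hy) h hx hy

/-- the weight spaces span -/
class Dec (i : C →ₗ⁅F⁆ L) : Prop where
  top : ∀ x, x ∈ WS i Set.univ

/-- the induced morphism to the enveloping algebra -/
abbrev jU (i : C →ₗ⁅F⁆ L) : C →ₗ⁅F⁆ U F L := (ι F).comp i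

lemma one_mem_W (i : C →ₗ⁅F⁆ L) : (1 : U F L) ∈ W (jU i) 0 :=
  mem_W_zero fun c => by simp [LieRing.of_associative_ring_bracket]

lemma Cen.mem_W (i : C →ₗ⁅F⁆ L) {z : U F L} (hz : Cen z) : z ∈ W (jU i) 0 :=
  mem_W_zero fun c => by simp [LieRing.of_associative_ring_bracket, hz _]

lemma Ua_mem_WS {i : C →ₗ⁅F⁆ L} {S : Set (Ch F C)} (h0 : 0 ∈ S) (h : ∀ β ∈ S, ∀ γ ∈ S, β + γ ∈ S)
    {q : Submodule F L} (hq : q ≤ WS i S) {u : U F L} (hu : u ∈ Ua q) : u ∈ WS (jU i) S :=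
  Ua_induction (P := fun u => u ∈ WS (jU i) S) (mem_WS h0 (one_mem_W i))
    (fun _ _ => add_mem) (fun c _ => Submodule.smul_mem _ c)
    (fun _ hy _ hu => mul_mem_WS h (WS_map (ι F) (hq hy)) hu) hu

instance (i : C →ₗ⁅F⁆ L) [Dec i] : Dec (jU i) :=
  ⟨fun u => Ua_mem_WS (Set.mem_univ _) (fun _ _ _ _ => Set.mem_univ _)
    (fun x _ => Dec.top x) (mem_Ua_top u)⟩

/-- stable under the image of `C` -/
def Stb (i : C →ₗ⁅F⁆ L) (T : Submodule F L) : Prop := ∀ c, Nrm (i c) T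

lemma Stb.inf {i : C →ₗ⁅F⁆ L} {S T : Submodule F L} (hS : Stb i S) (hT : Stb i T) :
    Stb i (S ⊓ T) := fun c x hx => ⟨hS c x hx.1, hT c x hx.2⟩

lemma Stb.sup {i : C →ₗ⁅F⁆ L} {S T : Submodule F L} (hS : Stb i S) (hT : Stb i T) :
    Stb i (S ⊔ T) := fun c x hx => by
  obtain ⟨a, ha, b, hb, rfl⟩ := Submodule.mem_sup.mp hx
  rw [lie_add]
  exact Submodule.add_mem_sup (hS c a ha) (hT c b hb)

lemma stb_top (i : C →ₗ⁅F⁆ L) : Stb i ⊤ := fun _ _ _ => trivial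

lemma stb_bot (i : C →ₗ⁅F⁆ L) : Stb i ⊥ := fun _ _ hx => by simp_all

lemma Stb.rI {i : C →ₗ⁅F⁆ L} {T : Submodule F L} (hT : Stb i T) : Stb (jU i) (rI T) :=
  fun c _ hx => sub_mem ((hT c).smul_mem_Y hx) (Y_mul hx _)

lemma Stb.lI {i : C →ₗ⁅F⁆ L} {T : Submodule F L} (hT : Stb i T) :
    Stb (jU i) ((lI T).restrictScalars F) :=
  fun c _ hx => sub_mem (lI_mul _ hx) ((hT c).lI_mul hx)

lemma Nrm.Ua {x : L} {T : Submodule F L} (hT : Nrm x T) {u : U F L} (hu : u ∈ Ua T) :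
    ι F x * u - u * ι F x ∈ Ua T := by
  have key : u ∈ Pool.Agent.P.MP_37e2d5_al.Ua T ∧
      ι F x * u - u * ι F x ∈ Pool.Agent.P.MP_37e2d5_al.Ua T := by
    refine Ua_induction (P := fun u => u ∈ Pool.Agent.P.MP_37e2d5_al.Ua T ∧
      ι F x * u - u * ι F x ∈ Pool.Agent.P.MP_37e2d5_al.Ua T)
      ⟨one_mem _, by simp⟩ ?_ ?_ ?_ hu
    · rintro u v ⟨h1, h2⟩ ⟨h3, h4⟩
      refine ⟨add_mem h1 h3, ?_⟩
      convert add_mem h2 h4 using 1
      noncomm_ring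
    · rintro c u ⟨h1, h2⟩
      refine ⟨Subalgebra.smul_mem _ h1 c, ?_⟩
      convert Subalgebra.smul_mem _ h2 c using 1
      simp [smul_sub]
    · rintro y hy u ⟨h1, h2⟩
      refine ⟨mul_mem (ι_mem_Ua hy) h1, ?_⟩
      convert add_mem (mul_mem (ι_mem_Ua hy) h2) (mul_mem (ι_mem_Ua (hT y hy)) h1) using 1
      rw [← mul_assoc, ι_comm x y]
      noncomm_ring
  exact key.2

lemma Stb.Ua {i : C →ₗ⁅F⁆ L} {T : Submodule F L} (hT : Stb i T) :
    Stb (jU i) (Subalgebra.toSubmodule (Ua T)) := fun c _ hx => (hT c).Ua hx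

variable [LieRing.IsNilpotent C]

lemma i_mem_W (i : C →ₗ⁅F⁆ L) (c : C) : i c ∈ W i 0 := by
  refine W_map (i := LieHom.id) i (mem_W.mpr fun c' => ?_)
  obtain ⟨k, hk⟩ := LieModule.isNilpotent_toEnd_of_isNilpotent F C C c'
  exact ⟨k, by simpa [ad] using LinearMap.congr_fun hk c⟩

lemma stb_W (i : C →ₗ⁅F⁆ L) (β : Ch F C) : Stb i (W i β) := fun c x hx => by
  simpa using lie_mem_W (i_mem_W i c) hx

lemma stb_WS (i : C →ₗ⁅F⁆ L) (S : Set (Ch F C)) : Stb i (WS i S) := fun c _ hx =>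
  lie_mem_WS (S := {0}) (by simp) (mem_WS (Set.mem_singleton _) (i_mem_W i c)) hx

lemma W_indep (i : C →ₗ⁅F⁆ L) : iSupIndep (W i) := by
  let := LieRingModule.compLieHom L i
  have := LieModule.compLieHom L i
  have h := LieModule.iSupIndep_genWeightSpace F C L
  rw [← LieSubmodule.iSupIndep_toSubmodule] at h
  have h2 := h.comp (f := fun β : Ch F C => (β.1 : C → F))
    (fun a b hab => Ch.ext (DFunLike.coe_injective hab))
  convert h2 using 1
  ext β x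
  simp only [mem_W, Function.comp_apply, LieSubmodule.mem_toSubmodule, LieModule.mem_genWeightSpace]
  rfl

instance dec_fd [IsAlgClosed F] [CharZero F] [Module.Finite F L] (i : C →ₗ⁅F⁆ L) : Dec i := by
  let := LieRingModule.compLieHom L i
  have := LieModule.compLieHom L i
  refine ⟨fun x => ?_⟩
  have h := LieModule.iSup_genWeightSpace_eq_top' F C L
  rw [← LieSubmodule.toSubmodule_inj, LieSubmodule.iSup_toSubmodule] at h
  have hx : x ∈ ⨆ χ : LieModule.Weight F C L, (LieModule.genWeightSpace L χ).toSubmodule := by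
    rw [h]; trivial
  refine (iSup_le fun χ y hy => ?_ : _ ≤ WS i Set.univ) hx
  refine mem_WS (β := ⟨χ.toLinear, fun x y => χ.apply_lie x y⟩) (Set.mem_univ _) (mem_W.mpr ?_)
  exact (LieModule.mem_genWeightSpace _ _ _).mp hy

lemma WS_disjoint (i : C →ₗ⁅F⁆ L) {S T : Set (Ch F C)} (h : Disjoint S T) :
    Disjoint (WS i S) (WS i T) := (W_indep i).disjoint_biSup_biSup h

lemma eq_zero_of_WS {i : C →ₗ⁅F⁆ L} {S T : Set (Ch F C)} (h : ∀ β ∈ S, β ∉ T) {x : L}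
    (hS : x ∈ WS i S) (hT : x ∈ WS i T) : x = 0 :=
  Submodule.disjoint_def.mp (WS_disjoint i (Set.disjoint_left.mpr h)) x hS hT

lemma eq_zero_of_W {i : C →ₗ⁅F⁆ L} {β : Ch F C} {T : Set (Ch F C)} (h : β ∉ T) {x : L}
    (hS : x ∈ W i β) (hT : x ∈ WS i T) : x = 0 :=
  eq_zero_of_WS (S := {β}) (by simpa) (mem_WS (Set.mem_singleton _) hS) hT

lemma W_isCompl (i : C →ₗ⁅F⁆ L) [Dec i] (β : Ch F C) : IsCompl (W i β) (WS i {β}ᶜ) := by
  refine ⟨W_indep i β, codisjoint_iff.mpr (eq_top_iff.mpr fun x _ => ?_)⟩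
  refine WS_le (T := W i β ⊔ WS i {β}ᶜ) (fun γ _ y hy => ?_) (Dec.top (i := i) x)
  by_cases h : γ = β
  · exact Submodule.mem_sup_left (h ▸ hy)
  · exact Submodule.mem_sup_right (mem_WS h hy)

/-- projection to a weight space -/
def pr (i : C →ₗ⁅F⁆ L) [Dec i] (β : Ch F C) : L →ₗ[F] L :=
  (W i β).projection _ (W_isCompl i β)

variable {i : C →ₗ⁅F⁆ L} [Dec i]

lemma pr_mem (β : Ch F C) (x : L) : pr i β x ∈ W i β := Submodule.projection_apply_mem _ _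

lemma pr_of_mem {β : Ch F C} {x : L} (hx : x ∈ W i β) : pr i β x = x :=
  Submodule.projection_apply_of_mem_left _ hx

lemma pr_of_WS {β : Ch F C} {S : Set (Ch F C)} (h : β ∉ S) {x : L} (hx : x ∈ WS i S) :
    pr i β x = 0 :=
  (Submodule.projection_apply_eq_zero_iff _).mpr (WS_mono (by simpa) hx)

lemma pr_of_ne {β γ : Ch F C} (h : β ≠ γ) {x : L} (hx : x ∈ W i γ) : pr i β x = 0 :=
  pr_of_WS (S := {γ}) h (mem_WS (Set.mem_singleton _) hx)

lemma exists_sum_pr (x : L) : ∃ s : Finset (Ch F C), ∑ β ∈ s, pr i β x = x ∧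
    ∀ β ∉ s, pr i β x = 0 := by
  classical
  refine WS_ind (P := fun x => ∃ s : Finset (Ch F C), ∑ β ∈ s, pr i β x = x ∧
    ∀ β ∉ s, pr i β x = 0) ⟨∅, by simp⟩ ?_ ?_ (Dec.top (i := i) x)
  · rintro x y ⟨s, h1, h2⟩ ⟨t, h3, h4⟩
    refine ⟨s ∪ t, ?_, fun β hβ => by simp_all⟩
    simp only [map_add, Finset.sum_add_distrib]
    rw [← Finset.sum_subset Finset.subset_union_left (fun β _ => h2 β),
      ← Finset.sum_subset Finset.subset_union_right (fun β _ => h4 β), h1, h3]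
  · intro β _ x hx
    exact ⟨{β}, by simp [pr_of_mem hx], fun γ hγ => pr_of_ne (by simpa using hγ) hx⟩

lemma mem_of_pr {T : Submodule F L} {x : L} (h : ∀ β, pr i β x ∈ T) : x ∈ T := by
  obtain ⟨s, hs, -⟩ := exists_sum_pr (i := i) x
  exact hs ▸ Submodule.sum_mem _ fun β _ => h β

lemma mem_WS_of_pr {S : Set (Ch F C)} {x : L} (h : ∀ β ∉ S, pr i β x = 0) : x ∈ WS i S :=
  mem_of_pr (i := i) fun β => by
    by_cases hβ : β ∈ S
    · exact mem_WS hβ (pr_mem β x)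
    · rw [h β hβ]; exact zero_mem _

lemma pr_lie (β : Ch F C) (c : C) (x : L) : pr i β ⁅i c, x⁆ = ⁅i c, pr i β x⁆ := by
  refine WS_ind (P := fun x => pr i β ⁅i c, x⁆ = ⁅i c, pr i β x⁆) (by simp)
    (fun x y hx hy => by simp [hx, hy]) (fun γ _ x hx => ?_) (Dec.top (i := i) x)
  by_cases h : β = γ
  · subst h; rw [pr_of_mem hx, pr_of_mem (stb_W i β c x hx)]
  · rw [pr_of_ne h hx, pr_of_ne h (stb_W i γ c x hx), lie_zero]

lemma Stb.pr_mem {T : Submodule F L} (hT : Stb i T) {x : L} (hx : x ∈ T) (β : Ch F C) :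
    pr i β x ∈ T := by
  classical
  obtain ⟨s, -, hs⟩ := exists_sum_pr (i := i) x
  induction s using Finset.strongInduction generalizing x with
  | _ s ih =>
    by_cases h : ∃ γ ∈ s, γ ≠ β
    · obtain ⟨γ, hγ, hne⟩ := h
      obtain ⟨c, hc⟩ := Ch.exists_ne (sub_ne_zero.mpr hne.symm)
      obtain ⟨n, hn⟩ := mem_W.mp (Pool.Agent.P.MP_37e2d5_al.pr_mem (i := i) γ x) c
      obtain ⟨k, hk⟩ := mem_W.mp (Pool.Agent.P.MP_37e2d5_al.pr_mem (i := i) β x) c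
      have h1 : ∀ (a : F) (n : ℕ) δ x, pr i δ (((ad F L (i c) - a • 1) ^ n) x) =
          ((ad F L (i c) - a • 1) ^ n) (pr i δ x) := by
        intro a n δ
        induction n with
        | zero => simp
        | succ n ih => intro x; simp [pow_succ, ih, pr_lie]
      have h2 : ∀ (a : F), ∀ x ∈ T, (ad F L (i c) - a • 1) x ∈ T := fun a x hx => by
        simpa using sub_mem (hT c x hx) (T.smul_mem a hx)
      have h3 := ih (s.erase γ) (Finset.erase_ssubset hγ)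
        (x := ((ad F L (i c) - γ.1 c • 1) ^ n) x) (End.pow_apply_mem_of_forall_mem n (h2 _) x hx)
        (fun δ hδ => by
          rw [h1]
          by_cases hδγ : δ = γ
          · rw [hδγ, hn]
          · rw [hs δ (by simpa [hδγ] using hδ), map_zero])
      rw [h1] at h3
      refine mem_of_shift_pow _ (h2 _) hc k n hk ?_
      convert h3 using 3
      simp [sub_smul]
    · push Not at h
      have : x - pr i β x = 0 := by
        refine (Submodule.mem_bot F).mp (mem_of_pr (i := i) fun δ => ?_)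
        by_cases hδ : δ = β
        · simp [hδ, pr_of_mem (Pool.Agent.P.MP_37e2d5_al.pr_mem (i := i) β x)]
        · simp [pr_of_ne hδ (Pool.Agent.P.MP_37e2d5_al.pr_mem (i := i) β x),
            hs δ (fun hδ' => hδ (h δ hδ'))]
      rwa [← sub_eq_zero.mp this]

lemma Stb.ind {T : Submodule F L} (hT : Stb i T) {P : L → Prop} (h0 : P 0)
    (hadd : ∀ x y, P x → P y → P (x + y)) (h : ∀ β, ∀ x ∈ T, x ∈ W i β → P x) {x : L}
    (hx : x ∈ T) : P x := by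
  obtain ⟨s, hs, -⟩ := exists_sum_pr (i := i) x
  rw [← hs]
  exact Finset.sum_induction _ P hadd h0 fun β _ =>
    h β _ (hT.pr_mem hx β) (Pool.Agent.P.MP_37e2d5_al.pr_mem β x)

lemma Stb.le {T P : Submodule F L} (hT : Stb i T) (h : ∀ β, ∀ x ∈ T, x ∈ W i β → x ∈ P) :
    T ≤ P := fun _ hx => hT.ind (P := fun x => x ∈ P) (zero_mem _) (fun _ _ => add_mem) h hx

lemma Stb.indS {T : Submodule F L} (hT : Stb i T) {S : Set (Ch F C)} {P : L → Prop} (h0 : P 0)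
    (hadd : ∀ x y, P x → P y → P (x + y)) (h : ∀ β ∈ S, ∀ x ∈ T, x ∈ W i β → P x) {x : L}
    (hx : x ∈ T) (hS : x ∈ WS i S) : P x :=
  (hT.inf (stb_WS i S)).ind h0 hadd (fun β y hy hy' => by
    by_cases hβ : β ∈ S
    · exact h β hβ y hy.1 hy'
    · rw [eq_zero_of_W hβ hy' hy.2]; exact h0) ⟨hx, hS⟩

lemma pr_map (f : L →ₗ⁅F⁆ L') [Dec (f.comp i)] (β : Ch F C) (x : L) :
    pr (f.comp i) β (f x) = f (pr i β x) := by
  refine WS_ind (P := fun x => pr (f.comp i) β (f x) = f (pr i β x)) (by simp)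
    (fun x y hx hy => by simp [hx, hy]) (fun γ _ x hx => ?_) (Dec.top (i := i) x)
  by_cases h : β = γ
  · subst h; rw [pr_of_mem hx, pr_of_mem (W_map f hx)]
  · rw [pr_of_ne h hx, pr_of_ne h (W_map f hx), map_zero]

lemma W_of_surj (f : L →ₗ⁅F⁆ L') [Dec (f.comp i)] {β : Ch F C} {x : L}
    (hx : f x ∈ W (f.comp i) β) : ∃ y ∈ W i β, f y = f x :=
  ⟨_, pr_mem β x, by rw [← pr_map, pr_of_mem hx]⟩

lemma WS_of_map {f : L →ₗ⁅F⁆ L'} (hf : Function.Injective f) [Dec (f.comp i)] {S : Set (Ch F C)}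
    {x : L} (hx : f x ∈ WS (f.comp i) S) : x ∈ WS i S :=
  mem_WS_of_pr fun β hβ => hf (by rw [← pr_map, pr_of_WS hβ hx, map_zero])

end

end Pool.Agent.P.MP_37e2d5_al
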