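import Pool.Agent.P.MP_37e2d5_al.Case1

/-! The Weyl reflection in rank one and reduction modulo a highest weight vector. -/

namespace Pool.Agent.P.MP_37e2d5_al

open UniversalEnvelopingAlgebra Module LieAlgebra

attribute [local instance 100] LieRing.ofAssociativeRing
attribute [-simp] UniversalEnvelopingAlgebra.ι_apply

noncomputable section

variable {F : Type*} [Field F] {C L : Type*} [LieRing C] [LieAlgebra F C]
  [LieRing L] [LieAlgebra F L]

/-- polynomials of degree `< N` in `f` with right coefficients in `U(q)` -/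
def PN (f : L) (q : Submodule F L) (N : ℕ) : Submodule F (U F L) :=
  Submodule.span F {a | ∃ k < N, ∃ u ∈ Ua q, ι F f ^ k * u = a}

section

variable {f : L} {q : Submodule F L} {N : ℕ}

lemma mem_PN {k : ℕ} (hk : k < N) {u : U F L} (hu : u ∈ Ua q) : ι F f ^ k * u ∈ PN f q N :=
  Submodule.subset_span ⟨k, hk, u, hu, rfl⟩

lemma PN_map {P : Submodule F (U F L)} (g : U F L →ₗ[F] U F L)
    (h : ∀ k < N, ∀ u ∈ Ua q, g (ι F f ^ k * u) ∈ P) {a : U F L} (ha : a ∈ PN f q N) : g a ∈ P :=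
  (Submodule.span_le (p := P.comap g)).mpr (by rintro _ ⟨k, hk, u, hu, rfl⟩; exact h k hk u hu) ha

lemma PN_mono {N' : ℕ} (h : N ≤ N') {a : U F L} (ha : a ∈ PN f q N) : a ∈ PN f q N' :=
  PN_map LinearMap.id (fun _ hk _ hu => mem_PN (hk.trans_le h) hu) ha

lemma PN_mul {a u : U F L} (ha : a ∈ PN f q N) (hu : u ∈ Ua q) : a * u ∈ PN f q N :=
  PN_map (LinearMap.mulRight F u) (fun _ hk _ hv => by
    simpa [mul_assoc] using mem_PN hk (mul_mem hv hu)) ha

lemma mul_PN {a : U F L} (ha : a ∈ PN f q N) : ι F f * a ∈ PN f q (N + 1) :=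
  PN_map (LinearMap.mulLeft F (ι F f)) (fun k hk _ hv => by
    simpa [pow_succ', mul_assoc] using mem_PN (Nat.succ_lt_succ hk) hv) ha

lemma PN_comm {V : Submodule F L} (hV : V ≤ q) (hf : Nrm f V) (k : ℕ) : ∀ v ∈ V,
    ι F v * ι F f ^ k - ι F f ^ k * ι F v ∈ PN f q k ∧ ι F v * ι F f ^ (k + 1) -
      ι F f ^ (k + 1) * ι F v + ((k + 1 : ℕ) : F) • (ι F f ^ k * ι F ⁅f, v⁆) ∈ PN f q k := by
  have e : ∀ v, ι F ⁅f, v⁆ = ι F f * ι F v - ι F v * ι F f := fun v => by rw [ι_comm f v]; abel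
  induction k with
  | zero => intro v _; simp [e]
  | succ k ih =>
    intro v hv
    refine ⟨?_, ?_⟩
    · simpa using sub_mem (PN_mono k.le_succ (ih v hv).2) (Submodule.smul_mem _ ((k + 1 : ℕ) : F)
        (mem_PN k.lt_succ_self (ι_mem_Ua (hV (hf v hv)))))
    · have h1 := ih _ (hf v hv)
      convert sub_mem (mul_PN (ih v hv).2) (sub_mem (PN_mono k.le_succ h1.2) (Submodule.smul_mem _
        ((k + 1 : ℕ) : F) (mem_PN k.lt_succ_self (ι_mem_Ua (hV (hf _ (hf v hv))))))) using 1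
      rw [Nat.cast_succ (k + 1), add_smul, one_smul, add_sub_cancel_right]
      simp only [e v, pow_succ' _ (k + 1), mul_sub, sub_mul, mul_add, mul_assoc, mul_smul_comm]
      simp only [← mul_assoc (ι F f) (ι F f ^ k), ← pow_succ']
      abel

lemma PN_eq (hq : Sub q) {a : U F L} (ha : a ∈ PN f q N) : ∃ b : ℕ → U F hq.toLie,
    a = ∑ k ∈ Finset.range N, ι F f ^ k * Umap hq.toLie.incl (b k) := by
  induction ha using Submodule.span_induction with
  | mem a ha =>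
    obtain ⟨k, hk, u, hu, rfl⟩ := ha
    obtain ⟨b, rfl⟩ := mem_Ua_rg (hq.rg_incl.symm ▸ hu)
    refine ⟨Pi.single k b, ?_⟩
    rw [Finset.sum_eq_single k (fun j _ hj => by simp [hj]) (by simp [hk]), Pi.single_eq_same]
  | zero => exact ⟨0, by simp⟩
  | add a a' _ _ h1 h2 =>
    obtain ⟨b, rfl⟩ := h1
    obtain ⟨b', rfl⟩ := h2
    exact ⟨b + b', by simp [mul_add, Finset.sum_add_distrib]⟩
  | smul c a _ h1 =>
    obtain ⟨b, rfl⟩ := h1
    exact ⟨c • b, by simp [Finset.smul_sum]⟩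

end

lemma rI_of_lI' {a : Submodule F L} (h : ∀ x, Nrm x a) {u : U F L} (hu : u ∈ lI a) : u ∈ rI a :=
  lI_ind (P := fun u => u ∈ rI a) (zero_mem _) (fun _ _ => add_mem)
    (fun _ hx u => Ua_mul_rI (fun x _ => h x) (mem_Ua_top u) (mem_Y' hx)) hu

lemma lI_of_rI' {a : Submodule F L} (h : ∀ x, Nrm x a) {u : U F L} (hu : u ∈ rI a) : u ∈ lI a :=
  Y_ind (P := fun u => u ∈ lI a) (zero_mem _) (fun _ _ => add_mem)
    (fun _ hx u => lI_mul_Ua (fun x _ => h x) (mem_Ua_top u) (mem_lI' hx)) hu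

variable [CharZero F] [Module.Finite F L]

theorem red_q {q V : Submodule F L} (hq : Sub q) {f y : L} (hfq : f ∉ q) (htop : q ⊔ (F ∙ f) = ⊤)
    (hV : V ≤ q) (hf : Nrm f V) (hy : y ∈ V) (hy' : ∀ x ∈ q, Nrm x (F ∙ y))
    (hv : ⁅f, y⁆ ∉ F ∙ y) {z : U F L} (hz : Cen z) :
    ∃ b : U F hq.toLie, z - Umap hq.toLie.incl b ∈ lI (F ∙ y) := by
  obtain ⟨n, b, hb⟩ := span_right hq hfq (htop ▸ sub_top) (htop ▸ mem_Ua_top z)
  have hyy := Submodule.mem_span_singleton_self (R := F) y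
  have hb' : z - ∑ k ∈ Finset.range n, ι F f ^ k * Umap hq.toLie.incl (b k) ∈ lI (F ∙ y) := by
    simp [← hb]
  clear hb
  induction n with
  | zero => exact ⟨0, by simpa using hb'⟩
  | succ n ih =>
    rcases n with _ | n
    · exact ⟨b 0, by simpa using hb'⟩
    have hU : ∀ u, Umap hq.toLie.incl u ∈ Ua q := Umap_mem_Ua _ fun b => b.2
    have h1 : ∀ k u, ι F f ^ k * ι F y * Umap hq.toLie.incl u ∈ lI (F ∙ y) := fun k u =>
      lI_mul_Ua hy' (hU u) (mem_lI _ hyy)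
    obtain ⟨b', h2⟩ := PN_eq hq (add_mem (Submodule.sum_mem _ fun k (hk : k ∈ Finset.range (n + 1)) =>
      PN_mono (Nat.lt_succ_iff.mp (Finset.mem_range.mp hk)) (PN_mul (PN_comm hV hf k y hy).1
        (hU (b k)))) (PN_mul (PN_comm hV hf n y hy).2 (hU (b (n + 1)))))
    let a : Submodule F hq.toLie := (F ∙ y).comap (hq.toLie.incl : hq.toLie →ₗ[F] L)
    have ha : ∀ x, Nrm x a := fun x w hw => hy' x x.2 w hw
    let v : hq.toLie := ⟨⁅f, y⁆, hV (hf y hy)⟩
    have h3 := ind_right hq.incl_inj (x := f) (by rwa [hq.rg_incl]) (a := a) (a' := F ∙ y)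
      (fun x hx => ⟨⟨x, (Submodule.span_singleton_le_iff_mem _ _).mpr (hV hy) hx⟩, hx, rfl⟩)
      (Finset.range (n + 1)) (Function.update b' n (-((n + 1 : ℕ) : F) • (ι F v * b (n + 1)))) (by
        rw [Finset.sum_range_succ, Finset.sum_congr rfl fun k hk => by
          rw [Function.update_of_ne (Finset.mem_range.mp hk).ne], ← h2, Function.update_self]
        convert sub_mem (sub_mem (sub_mem (mem_lI z hyy) (lI_mul (ι F y) hb'))
          (Submodule.sum_mem _ fun k (_ : k ∈ Finset.range (n + 1)) => h1 k (b k)))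
          (h1 (n + 1) (b (n + 1))) using 1
        simp only [Finset.sum_range_succ _ (n + 1), mul_sub, sub_mul, add_mul, mul_add, hz (ι F y),
          Finset.mul_sum, Finset.sum_sub_distrib, mul_assoc, map_smul, map_mul, Umap_ι,
          smul_mul_assoc, mul_smul_comm, neg_smul, map_neg, mul_neg, v, LieSubalgebra.coe_incl]
        abel) n (by simp)
    rw [Function.update_self] at h3
    have h4 := lI_of_rI' ha (reg_U ⊤ _ a le_top (fun x _ => ha x) (Nat.lt_succ_self _) v trivial hv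
      (ha v) _ ((Submodule.smul_mem_iff _ (neg_ne_zero.mpr (Nat.cast_ne_zero.mpr
        n.succ_ne_zero))).mp (rI_of_lI' ha h3)))
    refine ih ?_
    convert add_mem hb' (lI_mul (ι F f ^ (n + 1)) (Umap_lI hq.toLie.incl (fun x hx => hx) h4))
      using 1
    rw [Finset.sum_range_succ _ (n + 1)]
    abel

variable [LieRing.IsNilpotent C] {i : C →ₗ⁅F⁆ L} [Dec i] {α : Ch F C} {l : Ch F C →ₗ[ℚ] ℚ}
  {V : Submodule F L}

omit [CharZero F] [Module.Finite F L] in
lemma mem_WS_of_pow {c : C} {t : F} {k : ℕ} {x : L} (h : ((ad F L (i c) - t • 1) ^ k) x = 0) :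
    x ∈ WS i {γ | γ.1 c = t} := mem_WS_of_pr fun γ hγ => by
  have h1 : ∀ (n : ℕ) x, pr i γ (((ad F L (i c) - t • 1) ^ n) x) =
      ((ad F L (i c) - t • 1) ^ n) (pr i γ x) := by
    intro n
    induction n with
    | zero => simp
    | succ n ih => intro x; simp [pow_succ, ih, pr_lie]
  obtain ⟨m, hm⟩ := mem_W.mp (pr_mem (i := i) γ x) c
  refine mem_of_shift_pow (T := ⊥) _ (fun v hv => by rw [hv]; simp) (sub_ne_zero.mpr hγ) m k hm ?_
  have := h1 k x
  rw [h, map_zero] at this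
  convert (Submodule.mem_bot F).mpr this.symm using 3
  simp [sub_smul]

theorem exists_weyl (h : R1 i α l) (hV : MinI i V) {p : Ch F C} {e f : L} {h' : C}
    (ht : Tri i (cz V) p e f h') : ∃ n : L →ₗ⁅F⁆ L, Inn n ∧ (∀ β, ∀ x ∈ W i β, n x ∈ W i (-β)) ∧
      n e + f ∈ cz V ∧ (∀ c, ∃ c', n (i c) = i c' ∧ α.1 c' = -α.1 c) ∧
      ∀ y ∈ V, ⁅e, y⁆ = 0 → ⁅e, ⁅f, y⁆⁆ = (2 : F) • y → ⁅f, ⁅f, ⁅f, y⁆⁆⁆ = 0 →
        ⁅e, ⁅f, ⁅f, y⁆⁆⁆ = (2 : F) • ⁅f, y⁆ → n y = (2 : F)⁻¹ • ⁅f, ⁅f, y⁆⁆ := by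
  have hN := nrm_cz hV.id
  have hp : p ≠ 0 := fun h0 => by simpa [h0] using ht.ph
  have hα : α.1 h' ≠ 0 := fun h0 => by
    simpa [h.apply (ne_bot_of_notMem ht.he ht.eK), h0] using ht.ph
  obtain ⟨E, E1, E2⟩ := exists_exp (ad_nil_of_W hp ht.he)
  obtain ⟨G, G1, G2⟩ := exists_exp (ad_nil_of_W (neg_ne_zero.mpr hp) (neg_mem ht.hf))
  obtain ⟨s1, s2⟩ := sl2_mod E1 G1 (hN e) (hN f) (y := e) (v := -i h') (w := -(2 : F) • f) (by simp)
    (by simp [← ht.ef]) (by simpa [ht.ph] using ht.ce h') (by simpa [ht.ph] using ht.cf h')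
    (by simp) (by simp [ht.ef])
  obtain ⟨a, a1, a2, a3, a4⟩ := exists_corr hN (nil_cz h hV) (h.ne hα) s2
  obtain ⟨c0, hc0⟩ := h.h0 a4
  rw [LieHom.coe_toLinearMap, add_comm, neg_add_cancel_right] at hc0
  set n := a.comp (E.comp (G.comp E)) with hn
  have n1 : Inn n := a1.comp (E2.comp (G2.comp E2))
  have n2 : n (i h') = i (-h' - c0) := by
    simp [hn, hc0]
    abel
  have n3 : α.1 c0 = 0 := ker_of_cz h hV (by
    rw [hc0]
    convert add_mem (a2 (E (G (E (-i h'))))) s2 using 1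
    abel)
  have n4 : ∀ β, ∀ x ∈ W i β, n x ∈ W i (-β) := fun β x hx => by
    by_cases h0 : W i β = ⊥
    · rw [h0] at hx; simp [show x = 0 from hx]
    obtain ⟨k, hk⟩ := mem_W.mp hx h'
    have := pow_map_comm n (i h') (β.1 h') k x
    rw [hk, map_zero, n2] at this
    refine WS_le (fun γ hγ => ?_) (mem_WS_of_pow this)
    by_cases h1 : W i γ = ⊥
    · simp [h1]
    · have : l γ = -l β := by
        rw [← Rat.cast_inj (α := F), ← mul_left_inj' hα]
        simpa [h.apply h0, h.apply h1, n3, neg_eq_iff_eq_neg] using hγ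
      rw [h.h1 γ h1, this, neg_smul, ← h.h1 β h0]
  refine ⟨n, n1, n4, ?_, fun c => ?_, fun y hy y1 y2 y3 y4 => ?_⟩
  · convert add_mem (a2 (E (G (E e)))) s1 using 1
    simp [hn, smul_smul]
    abel
  · obtain ⟨c', hc'⟩ := h.h0 (neg_zero (G := Ch F C) ▸ n4 0 _ (i_mem_W i c))
    refine ⟨c', hc'.symm, ?_⟩
    have := ker_of_cz h hV (c := c' - (α.1 c / α.1 h') • (-h' - c0)) (by
      rw [map_sub, map_smul, ← n2, show i c' = n (i c) from hc', ← map_smul, ← map_sub, ← map_smul,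
        ← map_sub]
      exact n1.2.1 _ hN _ (cz_of_ker h hV (by simp [hα])))
    simpa [n3, hα, add_eq_zero_iff_eq_neg] using this
  · have := (sl2_mod E1 G1 (nrm_bot e) (nrm_bot f) (y := y) (v := ⁅f, y⁆) (w := ⁅f, ⁅f, y⁆⁆)
      y1 (by simp) (by simp [y2]) (by simp) y3 (by simp [y4])).1
    rw [Submodule.mem_bot, sub_eq_zero] at this
    simp only [hn, LieHom.comp_apply, this]
    exact a3 _ fun k hk => hk _ (V.smul_mem _ (hV.id f _ (hV.id f _ hy)))

omit [Dec i] [LieRing.IsNilpotent C] in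
lemma weyl_fix [Module.Finite F C] {n : L →ₗ⁅F⁆ L}
    (hn : ∀ c, ∃ c', n (i c) = i c' ∧ α.1 c' = -α.1 c) (h0 : ∀ c, i c = 0 → α.1 c = 0)
    {u : U F C} {s : F} (h : Umap n (Umap i (tau (s • α) u)) = Umap i (tau (-s • α) u)) :
    n (i (lin u)) = i (lin u) := by
  let L0 := (sub_rg i).toLie
  let j : C →ₗ⁅F⁆ L0 := cod i L0 fun c => ⟨c, rfl⟩
  have hj : Function.Surjective j := fun ⟨_, c, hc⟩ => ⟨c, Subtype.ext hc⟩
  obtain ⟨g, hg⟩ := (j : C →ₗ[F] L0).exists_rightInverse_of_surjective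
    (LinearMap.range_eq_top.mpr hj)
  have hα : ∀ c, α.1 (g (j c)) = α.1 c := fun c => by
    rw [← sub_eq_zero, ← map_sub]
    refine h0 _ ?_
    rw [map_sub, sub_eq_zero]
    exact congrArg Subtype.val (LinearMap.congr_fun hg (j c))
  let χ : Ch F L0 := ⟨α.1 ∘ₗ g, fun x y => by
    obtain ⟨x, rfl⟩ := hj x
    obtain ⟨y, rfl⟩ := hj y
    rw [← LieHom.map_lie, LinearMap.comp_apply, hα, α.2]⟩
  let j' : C →ₗ⁅F⁆ L0 := cod (n.comp i) L0 fun c => (hn c).imp fun _ h => h.1.symm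
  have h1 : Umap j' (tau (s • α) u) = Umap j (tau (-s • α) u) := Umap_inj (sub_rg i).incl_inj (by
    rw [Umap_Umap] at h ⊢
    rw [Umap_Umap]
    exact h)
  have h2 := congrArg (tau (s • χ)) h1
  rw [tau_Umap, tau_Umap, tau_tau, tau_tau, show Ch.comap j (s • χ) + -s • α = 0 by
    ext c; simp [χ, hα], show Ch.comap j' (s • χ) + s • α = 0 by
      ext c
      obtain ⟨c', h1, h2⟩ := hn c
      simp [χ, show j' c = j c' from Subtype.ext h1, hα, h2], tau_zero] at h2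
  have h3 := congrArg lin h2
  rw [lin_Umap, lin_Umap] at h3
  exact congrArg Subtype.val h3

end

end Pool.Agent.P.MP_37e2d5_al
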